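import Pool.Agent.AMC.EJ

/-!
# AMC.AeJ: Borel-Cantelli

`win M m = ⌊(1 + 1/M)^m⌋`.

PROOF. Let `λ = 1 + 1/M`, `N = win M m`, `N' = win M (m+1) ≤ 2N` for large `m` (`M ≥ 1`; for `M = 1`, `λ = 2`). By
Chebyshev and `EJ_sq` with `2A + 4`: the measure of the `x` in a box with `|EJ β N N' x| > N/(log N)^A` is at most
`(log N)^(-4) ≤ C m^(-4)`, which is summable (`measure_limsup_atTop_eq_zero`). The positive orthant is a countable
union of boxes with rational vertices.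
-/

namespace AMC

open MeasureTheory Filter

/-- The windows. -/
noncomputable def win (M m : ℕ) : ℕ := ⌊(1 + 1 / (M : ℝ)) ^ m⌋₊

private theorem AeJ_lam {M : ℕ} (hM : 1 ≤ M) : 1 < 1 + 1 / (M : ℝ) := by
  have : (0 : ℝ) < M := by exact_mod_cast hM
  have : 0 < 1 / (M : ℝ) := by positivity
  linarith

private theorem AeJ_mono (M m : ℕ) : win M m ≤ win M (m + 1) := by
  unfold win
  apply Nat.floor_le_floor
  apply pow_le_pow_right₀ _ (Nat.le_succ m)
  have : 0 ≤ 1 / (M : ℝ) := by positivity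
  linarith

private theorem AeJ_tendsto {M : ℕ} (hM : 1 ≤ M) : Tendsto (fun m => win M m) atTop atTop := by
  have h1 : Tendsto (fun m : ℕ => (1 + 1 / (M : ℝ)) ^ m) atTop atTop :=
    tendsto_pow_atTop_atTop_of_one_lt (AeJ_lam hM)
  exact tendsto_nat_floor_atTop.comp h1

private theorem AeJ_double {M : ℕ} (hM : 1 ≤ M) : ∀ᶠ m : ℕ in atTop, win M (m + 1) ≤ 2 * win M m := by
  rcases Nat.lt_or_ge M 2 with h | h
  · obtain rfl : M = 1 := by omega
    refine Eventually.of_forall fun m => ?_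
    have h1 : ∀ k : ℕ, win 1 k = 2 ^ k := by
      intro k
      unfold win
      have : (1 + 1 / ((1 : ℕ) : ℝ)) ^ k = ((2 ^ k : ℕ) : ℝ) := by
        push_cast
        norm_num
      rw [this, Nat.floor_natCast]
    rw [h1, h1, pow_succ]
    omega
  · filter_upwards [(AeJ_tendsto hM).eventually_ge_atTop 3] with m hm
    have h0 : (2 : ℝ) ≤ M := by exact_mod_cast h
    have h1 : 1 + 1 / (M : ℝ) ≤ 3 / 2 := by
      have : 1 / (M : ℝ) ≤ 1 / 2 := one_div_le_one_div_of_le (by norm_num) h0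
      linarith
    have h2 : (1 + 1 / (M : ℝ)) ^ m < (win M m : ℝ) + 1 := Nat.lt_floor_add_one _
    have h3 : (3 : ℝ) ≤ (win M m : ℝ) := by exact_mod_cast hm
    have h4 : ((win M (m + 1) : ℕ) : ℝ) ≤ (1 + 1 / (M : ℝ)) ^ (m + 1) := by
      apply Nat.floor_le
      positivity
    have h5 : (0 : ℝ) < (1 + 1 / (M : ℝ)) ^ m := by positivity
    have h6 : ((win M (m + 1) : ℕ) : ℝ) ≤ ((2 * win M m : ℕ) : ℝ) := by
      push_cast
      rw [pow_succ] at h4
      nlinarith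
    exact_mod_cast h6

private theorem AeJ_log {M : ℕ} (hM : 1 ≤ M) : ∃ c : ℝ, 0 < c ∧ ∀ᶠ m : ℕ in atTop,
    c * (m : ℝ) ≤ Real.log (win M m) := by
  have hl := AeJ_lam hM
  have hlog : 0 < Real.log (1 + 1 / (M : ℝ)) := Real.log_pos hl
  refine ⟨Real.log (1 + 1 / (M : ℝ)) / 2, by positivity, ?_⟩
  have h1 : Tendsto (fun m : ℕ => (1 + 1 / (M : ℝ)) ^ m) atTop atTop :=
    tendsto_pow_atTop_atTop_of_one_lt hl
  have h2 : Tendsto (fun m : ℕ => Real.log (1 + 1 / (M : ℝ)) / 2 * (m : ℝ)) atTop atTop :=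
    Tendsto.const_mul_atTop (by positivity) tendsto_natCast_atTop_atTop
  filter_upwards [h1.eventually_ge_atTop 2, h2.eventually_ge_atTop (Real.log 2)] with m hm1 hm2
  have h3 : (1 + 1 / (M : ℝ)) ^ m < (win M m : ℝ) + 1 := Nat.lt_floor_add_one _
  have h4 : (1 + 1 / (M : ℝ)) ^ m / 2 ≤ (win M m : ℝ) := by linarith
  have h5 : Real.log ((1 + 1 / (M : ℝ)) ^ m / 2) ≤ Real.log (win M m) :=
    Real.log_le_log (by positivity) h4
  rw [Real.log_div (by positivity) (by norm_num), Real.log_pow] at h5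
  linarith

/-- boundedness of `EJ` on a box -/
private theorem AeJ_bdd {j : ℕ} (β : ℕ → ℝ) {a b : Fin (j + 1) → ℝ} (ha : ∀ i, 0 < a i)
    (hab : ∀ i, a i < b i) : ∃ N0 : ℕ, ∀ N N' : ℕ, N0 ≤ N → N' ≤ 2 * N →
      ∀ x ∈ Set.Icc a b, |EJ β N N' x| ≤ N' := by
  classical
  obtain ⟨κ1, κ2, X0, hκ1, -, hs⟩ := MCC.chain_size β ha (fun i => (hab i).le)
  have hal := ha (Fin.last j)
  refine ⟨⌈max X0 (Real.exp 1 / (a (Fin.last j) * κ1))⌉₊, fun N N' hN hN' x hx => ?_⟩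
  have hN1 : max X0 (Real.exp 1 / (a (Fin.last j) * κ1)) ≤ (N : ℝ) :=
    (Nat.le_ceil _).trans (by exact_mod_cast hN)
  have hX0 : X0 ≤ (N : ℝ) := (le_max_left _ _).trans hN1
  have hX1 : Real.exp 1 ≤ a (Fin.last j) * κ1 * N := by
    have h1 := (le_max_right X0 (Real.exp 1 / (a (Fin.last j) * κ1))).trans hN1
    rw [div_le_iff₀ (by positivity)] at h1
    linarith
  unfold EJ
  refine (Finset.abs_sum_le_sum_abs _ _).trans ?_
  have hterm : ∀ p ∈ (Finset.Ioc N N').filter (fun p => ∀ i ≤ j, (MCC.chain (MCC.ext x) β p i).Prime),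
      |(if (MCC.chain (MCC.ext x) β p (j + 1)).Prime then (1 : ℝ) else 0) -
        1 / Real.log (x (Fin.last j) * (MCC.chain (MCC.ext x) β p j : ℝ))| ≤ 1 := by
    intro p hp
    have hp1 := Finset.mem_Ioc.1 (Finset.mem_filter.1 hp).1
    have h1 : (N : ℝ) < (p : ℝ) := by exact_mod_cast hp1.1
    have h2 : (p : ℝ) ≤ 2 * (N : ℝ) := by
      have : p ≤ 2 * N := hp1.2.trans hN'
      exact_mod_cast this
    have h3 := (hs N hX0 x hx p h1 h2 j (by omega)).1
    have h4 : a (Fin.last j) ≤ x (Fin.last j) := hx.1 _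
    have h5 : Real.exp 1 ≤ x (Fin.last j) * (MCC.chain (MCC.ext x) β p j : ℝ) := by
      refine hX1.trans ?_
      rw [mul_assoc]
      exact mul_le_mul h4 h3 (by positivity) (by linarith)
    have h6 : 1 ≤ Real.log (x (Fin.last j) * (MCC.chain (MCC.ext x) β p j : ℝ)) := by
      have := Real.log_le_log (Real.exp_pos 1) h5
      rwa [Real.log_exp] at this
    have h7 : 1 / Real.log (x (Fin.last j) * (MCC.chain (MCC.ext x) β p j : ℝ)) ≤ 1 := by
      rw [div_le_one (by linarith)]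
      exact h6
    have h8 : 0 ≤ 1 / Real.log (x (Fin.last j) * (MCC.chain (MCC.ext x) β p j : ℝ)) := by
      positivity
    rw [abs_le]
    split_ifs <;> constructor <;> linarith
  refine (Finset.sum_le_sum hterm).trans ?_
  rw [Finset.sum_const, nsmul_eq_mul, mul_one]
  have h9 : ((Finset.Ioc N N').filter
      (fun p => ∀ i ≤ j, (MCC.chain (MCC.ext x) β p i).Prime)).card ≤ N' := by
    refine (Finset.card_filter_le _ _).trans ?_
    rw [Nat.card_Ioc]
    omega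
  exact_mod_cast h9

private theorem AeJ_box {j : ℕ} (β : ℕ → ℝ) (M : ℕ) (hM : 1 ≤ M) (A : ℝ) {a b : Fin (j + 1) → ℝ}
    (ha : ∀ i, 0 < a i) (hab : ∀ i, a i < b i) :
    ∀ᵐ x ∂((volume : Measure (Fin (j + 1) → ℝ)).restrict (Set.Icc a b)), ∀ᶠ m : ℕ in atTop,
      |EJ β (win M m) (win M (m + 1)) x| ≤ (win M m : ℝ) / Real.log (win M m) ^ A := by
  obtain ⟨N0, -, hN0⟩ := EJ_sq β ha hab (2 * A + 4)
  obtain ⟨N1, hN1⟩ := AeJ_bdd β ha hab
  obtain ⟨c, hc, hlog⟩ := AeJ_log hM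
  have hwin := AeJ_tendsto hM
  obtain ⟨m0, hm0⟩ := eventually_atTop.1 (((hwin.eventually_ge_atTop N0).and
    (hwin.eventually_ge_atTop N1)).and ((AeJ_double hM).and (hlog.and
    ((hwin.eventually_ge_atTop 2).and (eventually_ge_atTop 1)))))
  set μ := (volume : Measure (Fin (j + 1) → ℝ)).restrict (Set.Icc a b) with hμ
  have : IsFiniteMeasure μ := ⟨by
    rw [hμ, Measure.restrict_apply_univ]
    exact isCompact_Icc.measure_lt_top⟩
  set s : ℕ → Set (Fin (j + 1) → ℝ) := fun m =>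
    {x | (win M m : ℝ) / Real.log (win M m) ^ A < |EJ β (win M m) (win M (m + 1)) x|} with hs
  have hmeas : ∀ m, m0 ≤ m → μ (s m) ≤ ENNReal.ofReal (1 / (c * (m : ℝ)) ^ 4) := by
    intro m hm
    obtain ⟨⟨h1, h2⟩, h3, h4, h5, h6⟩ := hm0 m hm
    set N := win M m with hN
    set N' := win M (m + 1) with hN'
    set L := Real.log N with hL
    have hm1 : (1 : ℝ) ≤ (m : ℝ) := by exact_mod_cast h6
    have hcm : 0 < c * (m : ℝ) := by positivity
    have hL0 : 0 < L := lt_of_lt_of_le hcm h4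
    have hNpos : (0 : ℝ) < (N : ℝ) := by
      have : 0 < N := by omega
      exact_mod_cast this
    have hint := hN0 N N' h1 (AeJ_mono M m) h3
    have hEJm : Measurable (EJ (j := j) β N N') := EJ_meas β N N'
    have hintg : Integrable (fun x => (EJ β N N' x) ^ 2) μ := by
      refine Integrable.of_bound (hEJm.pow_const 2).aestronglyMeasurable ((N' : ℝ) ^ 2) ?_
      rw [hμ, ae_restrict_iff' measurableSet_Icc]
      refine Eventually.of_forall fun x hx => ?_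
      have h7 := hN1 N N' h2 h3 x hx
      rw [Real.norm_eq_abs, abs_pow]
      exact pow_le_pow_left₀ (abs_nonneg _) h7 2
    have hε : 0 < ((N : ℝ) / L ^ A) ^ 2 := by positivity
    have hcheb := mul_meas_ge_le_integral_of_nonneg (μ := μ)
      (Eventually.of_forall fun x => sq_nonneg (EJ β N N' x)) hintg (((N : ℝ) / L ^ A) ^ 2)
    have hsub : s m ⊆ {x | ((N : ℝ) / L ^ A) ^ 2 ≤ (EJ β N N' x) ^ 2} := by
      intro x hx
      have hx' : (N : ℝ) / L ^ A < |EJ β N N' x| := hx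
      show ((N : ℝ) / L ^ A) ^ 2 ≤ (EJ β N N' x) ^ 2
      rw [← sq_abs (EJ β N N' x)]
      exact pow_le_pow_left₀ (by positivity) hx'.le 2
    have hreal : μ.real {x | ((N : ℝ) / L ^ A) ^ 2 ≤ (EJ β N N' x) ^ 2} ≤ 1 / L ^ 4 := by
      have h8 := hcheb.trans hint
      have h9 : L ^ (2 * A + 4) = (L ^ A) ^ 2 * L ^ 4 := by
        rw [Real.rpow_add hL0, mul_comm 2 A, Real.rpow_mul hL0.le]
        norm_num
      rw [h9] at h8
      have h10 : (0 : ℝ) < L ^ A := Real.rpow_pos_of_pos hL0 A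
      have h11 : (N : ℝ) ^ 2 / ((L ^ A) ^ 2 * L ^ 4) = ((N : ℝ) / L ^ A) ^ 2 * (1 / L ^ 4) := by
        field_simp
      rw [h11] at h8
      exact le_of_mul_le_mul_left h8 hε
    have h12 : 1 / L ^ 4 ≤ 1 / (c * (m : ℝ)) ^ 4 :=
      one_div_le_one_div_of_le (by positivity) (pow_le_pow_left₀ hcm.le h4 4)
    calc μ (s m) ≤ μ {x | ((N : ℝ) / L ^ A) ^ 2 ≤ (EJ β N N' x) ^ 2} := measure_mono hsub
      _ = ENNReal.ofReal (μ.real {x | ((N : ℝ) / L ^ A) ^ 2 ≤ (EJ β N N' x) ^ 2}) := by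
          rw [Measure.real, ENNReal.ofReal_toReal (measure_ne_top _ _)]
      _ ≤ ENNReal.ofReal (1 / (c * (m : ℝ)) ^ 4) := ENNReal.ofReal_le_ofReal (hreal.trans h12)
  have hsum : ∑' m, μ (s (m + m0)) ≠ ⊤ := by
    have hsm : Summable fun m : ℕ => 1 / (c * ((m + m0 : ℕ) : ℝ)) ^ 4 := by
      have h1 : Summable fun m : ℕ => 1 / (m : ℝ) ^ 4 := Real.summable_one_div_nat_pow.2 (by norm_num)
      have h2 := ((summable_nat_add_iff m0).2 h1).mul_left (1 / c ^ 4)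
      refine h2.congr fun m => ?_
      rw [mul_pow]
      field_simp
    have h3 : ∑' m, ENNReal.ofReal (1 / (c * ((m + m0 : ℕ) : ℝ)) ^ 4) ≠ ⊤ := hsm.tsum_ofReal_ne_top
    exact ne_top_of_le_ne_top h3 (ENNReal.tsum_le_tsum fun m => hmeas (m + m0) (by omega))
  filter_upwards [ae_eventually_notMem hsum] with x hx
  obtain ⟨m1, hm1⟩ := eventually_atTop.1 hx
  refine eventually_atTop.2 ⟨m1 + m0, fun m hm => ?_⟩
  have h1 := hm1 (m - m0) (by omega)
  rw [Nat.sub_add_cancel (by omega : m0 ≤ m)] at h1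
  have h2 : ¬ ((win M m : ℝ) / Real.log (win M m) ^ A < |EJ β (win M m) (win M (m + 1)) x|) := h1
  exact not_lt.1 h2

theorem ae_EJ {j : ℕ} (β : ℕ → ℝ) (M : ℕ) (hM : 1 ≤ M) (A : ℝ) :
    ∀ᵐ x : Fin (j + 1) → ℝ, (∀ i, 0 < x i) → ∀ᶠ m : ℕ in atTop,
      |EJ β (win M m) (win M (m + 1)) x| ≤ (win M m : ℝ) / Real.log (win M m) ^ A := by
  have hbox : ∀ n : ℕ, ∀ᵐ x : Fin (j + 1) → ℝ,
      x ∈ Set.Icc (fun _ : Fin (j + 1) => 1 / ((n : ℝ) + 2)) (fun _ => (n : ℝ) + 2) →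
      ∀ᶠ m : ℕ in atTop,
        |EJ β (win M m) (win M (m + 1)) x| ≤ (win M m : ℝ) / Real.log (win M m) ^ A := by
    intro n
    rw [← ae_restrict_iff' measurableSet_Icc]
    refine AeJ_box β M hM A (fun i => by positivity) (fun i => ?_)
    have h1 : (0 : ℝ) ≤ n := Nat.cast_nonneg n
    have h2 : 1 / ((n : ℝ) + 2) ≤ 1 := by
      rw [div_le_one (by linarith)]
      linarith
    show 1 / ((n : ℝ) + 2) < (n : ℝ) + 2
    linarith
  filter_upwards [ae_all_iff.2 hbox] with x hx hpos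
  obtain ⟨n, hn⟩ : ∃ n : ℕ, ∀ i, x i ≤ (n : ℝ) + 2 ∧ 1 / x i ≤ (n : ℝ) + 2 := by
    have h1 : ∀ i, ∃ n : ℕ, x i ≤ (n : ℝ) ∧ 1 / x i ≤ (n : ℝ) := by
      intro i
      obtain ⟨n, hn⟩ := exists_nat_ge (max (x i) (1 / x i))
      exact ⟨n, (le_max_left _ _).trans hn, (le_max_right _ _).trans hn⟩
    choose f hf using h1
    refine ⟨∑ i, f i, fun i => ?_⟩
    have h2 : (f i : ℝ) ≤ ((∑ i, f i : ℕ) : ℝ) := by
      exact_mod_cast Finset.single_le_sum (fun i _ => Nat.zero_le (f i)) (Finset.mem_univ i)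
    exact ⟨by linarith [(hf i).1], by linarith [(hf i).2]⟩
  refine hx n ⟨fun i => ?_, fun i => (hn i).1⟩
  have h3 := (hn i).2
  have h4 := hpos i
  show 1 / ((n : ℝ) + 2) ≤ x i
  rw [div_le_iff₀ h4] at h3
  rw [div_le_iff₀ (by positivity)]
  linarith

end AMC
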