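import Pool.Agent.AMC.AeJ
import Pool.Agent.Lib.PNT

/-!
# AMC.Asy: from the error terms to the asymptotic formula (deterministic)

PROOF. Fix `M`, `λ = 1 + 1/M`, `N_m = win M m`, `S_j(m) = #{p ∈ (N_m, N_(m+1)] : c 0, ..., c j prime}`.
`S_0(m) ~ (λ-1) λ^m/(m log λ)` by the prime number theorem. For `p ∈ (N_m, N_(m+1)]`:
`log(α_j c_j) = m log λ + O(1)` (`chain_size` for the box `{α}`; or directly `c_j/p → α_0⋯α_(j-1)`), so
`S_(j+1)(m) = S_j(m)/(m log λ) (1 + O(1/m)) + EJ(m)`, where `EJ` is the error for the first `j + 1` multipliers. With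
`|EJ(m)| ≤ N_m/(log N_m)^(k+3)` and induction: `S_j(m) ~ (λ-1) λ^m/(m log λ)^(j+1)` for `j ≤ k`. Summation
over `m' < m` (Stolz-Cesaro or geometric weights): `R_j(N_m) := #{p ≤ N_m : c 0, ..., c (j-1) prime} ~
λ^m/(m log λ)^j`, `1 ≤ j ≤ k + 1`. For `N_m ≤ X < N_(m+1)` monotonicity gives
`λ^(-1) ≤ liminf R_j(X) (log X)^j/X ≤ limsup ≤ λ`; let `M → ∞`. So `R_j(X) ~ X/(log X)^j`. The number of exact
length `k` is `R_k - R_(k+1)` up to `O(1)` (small `p` with `c_k ≤ 1`), and `R_(k+1) = o(R_k)`.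
-/

namespace AMC

open Filter Topology

/-! ### The ratio of the members of the chain -/

private theorem Asy_lim {α β : ℕ → ℝ} (hα : ∀ i, 0 < α i) (j : ℕ) :
    ∃ A : ℝ, 0 < A ∧ Tendsto (fun p : ℕ => (MCC.chain α β p j : ℝ) / p) atTop (𝓝 A) := by
  induction j with
  | zero =>
    refine ⟨1, one_pos, ?_⟩
    refine tendsto_const_nhds.congr' ?_
    filter_upwards [eventually_gt_atTop 0] with p hp
    have hp' : (p : ℝ) ≠ 0 := by
      exact_mod_cast hp.ne'
    change (1 : ℝ) = (p : ℝ) / p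
    rw [div_self hp']
  | succ j ih =>
    obtain ⟨A, hA, h⟩ := ih
    have hc : Tendsto (fun p : ℕ => (p : ℝ)) atTop atTop := tendsto_natCast_atTop_atTop
    refine ⟨α j * A, mul_pos (hα j) hA, ?_⟩
    have h1 : Tendsto (fun p : ℕ => (α j * (MCC.chain α β p j : ℝ) + β j) / p) atTop
        (𝓝 (α j * A)) := by
      have h2 := (h.const_mul (α j)).add (hc.const_div_atTop (β j))
      rw [add_zero] at h2
      refine h2.congr fun p => ?_
      rw [add_div, mul_div_assoc]
    have h3 : Tendsto (fun p : ℕ => α j * (MCC.chain α β p j : ℝ) + β j) atTop atTop := by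
      have h4 := h1.pos_mul_atTop (mul_pos (hα j) hA) hc
      refine h4.congr' ?_
      filter_upwards [eventually_gt_atTop 0] with p hp
      have hp' : (p : ℝ) ≠ 0 := by
        exact_mod_cast hp.ne'
      exact div_mul_cancel₀ _ hp'
    have h5 : Tendsto (fun p : ℕ => ((⌊α j * (MCC.chain α β p j : ℝ) + β j⌋₊ : ℕ) : ℝ) /
        (α j * (MCC.chain α β p j : ℝ) + β j)) atTop (𝓝 1) :=
      (tendsto_nat_floor_div_atTop (R := ℝ)).comp h3
    have h6 := h5.mul h1
    rw [one_mul] at h6
    refine h6.congr' ?_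
    filter_upwards [h3.eventually_gt_atTop 0] with p hp
    change ((⌊α j * (MCC.chain α β p j : ℝ) + β j⌋₊ : ℕ) : ℝ) /
        (α j * (MCC.chain α β p j : ℝ) + β j) * ((α j * (MCC.chain α β p j : ℝ) + β j) / p) =
        ((⌊α j * (MCC.chain α β p j : ℝ) + β j⌋₊ : ℕ) : ℝ) / p
    rw [div_mul_div_cancel₀ hp.ne']

private theorem Asy_top {α β : ℕ → ℝ} (hα : ∀ i, 0 < α i) (j : ℕ) :
    Tendsto (fun p : ℕ => (MCC.chain α β p j : ℝ)) atTop atTop := by
  obtain ⟨A, hA, h⟩ := Asy_lim (β := β) hα j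
  refine (h.pos_mul_atTop hA tendsto_natCast_atTop_atTop).congr' ?_
  filter_upwards [eventually_gt_atTop 0] with p hp
  have hp' : (p : ℝ) ≠ 0 := by
    exact_mod_cast hp.ne'
  exact div_mul_cancel₀ _ hp'

private theorem Asy_logcast : Tendsto (fun p : ℕ => Real.log p) atTop atTop :=
  Real.tendsto_log_atTop.comp tendsto_natCast_atTop_atTop

private theorem Asy_log {α β : ℕ → ℝ} (hα : ∀ i, 0 < α i) (j : ℕ) :
    Tendsto (fun p : ℕ => Real.log p / Real.log (α j * (MCC.chain α β p j : ℝ))) atTop (𝓝 1) := by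
  obtain ⟨A, hA, h⟩ := Asy_lim (β := β) hα j
  have h1 : Tendsto (fun p : ℕ => Real.log (α j * ((MCC.chain α β p j : ℝ) / p))) atTop
      (𝓝 (Real.log (α j * A))) :=
    (h.const_mul (α j)).log (mul_pos (hα j) hA).ne'
  have h2 : Tendsto (fun p : ℕ => 1 + Real.log (α j * ((MCC.chain α β p j : ℝ) / p)) / Real.log p)
      atTop (𝓝 (1 + 0)) := tendsto_const_nhds.add (h1.div_atTop Asy_logcast)
  rw [add_zero] at h2
  have h3 := h2.inv₀ one_ne_zero
  rw [inv_one] at h3
  refine h3.congr' ?_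
  filter_upwards [eventually_gt_atTop 1, (Asy_top (β := β) hα j).eventually_gt_atTop 0]
    with p hp hc
  have hp1 : (1 : ℝ) < p := by exact_mod_cast hp
  have hp0 : (0 : ℝ) < p := by linarith
  have hl : 0 < Real.log p := Real.log_pos hp1
  have hy : 0 < α j * ((MCC.chain α β p j : ℝ) / p) := mul_pos (hα j) (div_pos hc hp0)
  have h4 : α j * (MCC.chain α β p j : ℝ) = p * (α j * ((MCC.chain α β p j : ℝ) / p)) := by
    field_simp
  have h5 : Real.log (α j * (MCC.chain α β p j : ℝ)) =
      Real.log p + Real.log (α j * ((MCC.chain α β p j : ℝ) / p)) := by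
    conv_lhs => rw [h4]
    exact Real.log_mul hp0.ne' hy.ne'
  rw [h5]
  have h6 : 1 + Real.log (α j * ((MCC.chain α β p j : ℝ) / p)) / Real.log p =
      (Real.log p + Real.log (α j * ((MCC.chain α β p j : ℝ) / p))) / Real.log p := by
    rw [add_div, div_self hl.ne']
  rw [h6, inv_div]

/-! ### The windows -/

private theorem Asy_one_lt {M : ℕ} (hM : 1 ≤ M) : (1 : ℝ) < 1 + 1 / (M : ℝ) := by
  have : (0 : ℝ) < M := by exact_mod_cast hM
  have h : 0 < 1 / (M : ℝ) := by positivity
  linarith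

private theorem Asy_win_top {M : ℕ} (hM : 1 ≤ M) : Tendsto (fun m => win M m) atTop atTop :=
  tendsto_nat_floor_atTop.comp (tendsto_pow_atTop_atTop_of_one_lt (Asy_one_lt hM))

private theorem Asy_win_cast {M : ℕ} (hM : 1 ≤ M) :
    Tendsto (fun m => (win M m : ℝ)) atTop atTop :=
  tendsto_natCast_atTop_atTop.comp (Asy_win_top hM)

private theorem Asy_win_logtop {M : ℕ} (hM : 1 ≤ M) :
    Tendsto (fun m => Real.log (win M m)) atTop atTop :=
  Real.tendsto_log_atTop.comp (Asy_win_cast hM)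

private theorem Asy_win_le {M : ℕ} (hM : 1 ≤ M) (m : ℕ) : win M m ≤ win M (m + 1) :=
  Nat.floor_le_floor (pow_le_pow_right₀ (Asy_one_lt hM).le (Nat.le_succ m))

private theorem Asy_win_ratio {M : ℕ} (hM : 1 ≤ M) :
    Tendsto (fun m => (win M (m + 1) : ℝ) / win M m) atTop (𝓝 (1 + 1 / (M : ℝ))) := by
  have hl := Asy_one_lt hM
  have h0 : Tendsto (fun m : ℕ => (1 + 1 / (M : ℝ)) ^ m) atTop atTop :=
    tendsto_pow_atTop_atTop_of_one_lt hl
  have h1 : Tendsto (fun m : ℕ => (win M m : ℝ) / (1 + 1 / (M : ℝ)) ^ m) atTop (𝓝 1) :=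
    (tendsto_nat_floor_div_atTop (R := ℝ)).comp h0
  have h2 : Tendsto (fun m : ℕ => (win M (m + 1) : ℝ) / (1 + 1 / (M : ℝ)) ^ (m + 1)) atTop
      (𝓝 1) := h1.comp (tendsto_add_atTop_nat 1)
  have h3 := (h2.div h1 one_ne_zero).mul_const (1 + 1 / (M : ℝ))
  rw [div_one, one_mul] at h3
  refine h3.congr' ?_
  filter_upwards [(Asy_win_cast hM).eventually_gt_atTop 0] with m hm
  have hp : (0 : ℝ) < (1 + 1 / (M : ℝ)) ^ m := by positivity
  have hq : (0 : ℝ) < 1 + 1 / (M : ℝ) := by linarith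
  simp only [Pi.div_apply]
  rw [pow_succ]
  generalize (1 + 1 / (M : ℝ)) ^ m = u at *
  generalize 1 + 1 / (M : ℝ) = v at *
  field_simp

private theorem Asy_win_log {M : ℕ} (hM : 1 ≤ M) :
    Tendsto (fun m => Real.log (win M (m + 1)) / Real.log (win M m)) atTop (𝓝 1) := by
  have hl := Asy_one_lt hM
  have h1 : Tendsto (fun m => Real.log ((win M (m + 1) : ℝ) / win M m)) atTop
      (𝓝 (Real.log (1 + 1 / (M : ℝ)))) := (Asy_win_ratio hM).log (by linarith)
  have h2 : Tendsto (fun m => 1 + Real.log ((win M (m + 1) : ℝ) / win M m) / Real.log (win M m))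
      atTop (𝓝 (1 + 0)) := tendsto_const_nhds.add (h1.div_atTop (Asy_win_logtop hM))
  rw [add_zero] at h2
  refine h2.congr' ?_
  filter_upwards [(Asy_win_cast hM).eventually_gt_atTop 1] with m hm
  have h3 : 0 < Real.log (win M m) := Real.log_pos hm
  have h4 : (win M m : ℝ) ≤ win M (m + 1) := by exact_mod_cast Asy_win_le hM m
  rw [Real.log_div (by linarith) (by linarith), sub_div, div_self h3.ne']
  ring

/-! ### A contraction lemma -/

private theorem Asy_contr {e η : ℕ → ℝ} {q : ℝ} (hq0 : 0 ≤ q) (hq1 : q < 1) (he : ∀ m, 0 ≤ e m)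
    (h : ∀ᶠ m in atTop, e (m + 1) ≤ q * e m + η m) (hη : Tendsto η atTop (𝓝 0)) :
    Tendsto e atTop (𝓝 0) := by
  rw [Metric.tendsto_atTop]
  intro ε hε
  have h1 : ∀ᶠ m in atTop, η m < (1 - q) * (ε / 2) :=
    hη.eventually_lt_const (mul_pos (by linarith) (by linarith))
  obtain ⟨m0, hm0⟩ := eventually_atTop.1 (h.and h1)
  have h2 : ∀ n, e (m0 + n) ≤ q ^ n * e m0 + ε / 2 := by
    intro n
    induction n with
    | zero =>
      rw [Nat.add_zero, pow_zero, one_mul]
      linarith
    | succ n ih =>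
      have h3 := hm0 (m0 + n) (by omega)
      have h4 : q * e (m0 + n) ≤ q * (q ^ n * e m0 + ε / 2) := mul_le_mul_of_nonneg_left ih hq0
      have h5 : q ^ (n + 1) * e m0 = q * (q ^ n * e m0) := by ring
      rw [h5]
      have h6 : m0 + (n + 1) = m0 + n + 1 := by ring
      rw [h6]
      linarith [h3.1, h3.2]
  have h3 : Tendsto (fun n : ℕ => q ^ n * e m0) atTop (𝓝 (0 * e m0)) :=
    (tendsto_pow_atTop_nhds_zero_of_lt_one hq0 hq1).mul_const _
  rw [zero_mul] at h3
  obtain ⟨n0, hn0⟩ := eventually_atTop.1 (h3.eventually_lt_const (by linarith : (0 : ℝ) < ε / 2))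
  refine ⟨m0 + n0, fun m hm => ?_⟩
  obtain ⟨n, rfl⟩ : ∃ n, m = m0 + n := ⟨m - m0, by omega⟩
  have h4 := h2 n
  have h5 := hn0 n (by omega)
  rw [Real.dist_eq, sub_zero, abs_of_nonneg (he _)]
  linarith

/-- geometric growth: from the increments to the values -/
private theorem Asy_geo {r b : ℕ → ℝ} {l : ℝ} (hl : 1 < l) (hb : ∀ᶠ m in atTop, 0 < b m)
    (h1 : Tendsto (fun m => b (m + 1) / b m) atTop (𝓝 l))
    (h2 : Tendsto (fun m => (r (m + 1) - r m) / b m) atTop (𝓝 (l - 1))) :
    Tendsto (fun m => r m / b m) atTop (𝓝 1) := by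
  have hl0 : 0 < l := by linarith
  have h3 : Tendsto (fun m => b m / b (m + 1)) atTop (𝓝 l⁻¹) := by
    refine (h1.inv₀ hl0.ne').congr fun m => ?_
    rw [inv_div]
  have h4 : Tendsto (fun m => |b m / b (m + 1) * ((r (m + 1) - r m) / b m + 1) - 1|) atTop
      (𝓝 0) := by
    have h5 := ((h3.mul (h2.add_const 1)).sub_const 1).abs
    have h6 : |l⁻¹ * (l - 1 + 1) - 1| = 0 := by
      rw [sub_add_cancel, inv_mul_cancel₀ hl0.ne', sub_self, abs_zero]
    rwa [h6] at h5
  have hq : l⁻¹ < (1 + l⁻¹) / 2 := by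
    have : l⁻¹ < 1 := inv_lt_one_of_one_lt₀ hl
    linarith
  have hq1 : (1 + l⁻¹) / 2 < 1 := by
    have : l⁻¹ < 1 := inv_lt_one_of_one_lt₀ hl
    linarith
  have hq0 : 0 ≤ (1 + l⁻¹) / 2 := by positivity
  have h5 : Tendsto (fun m => |r m / b m - 1|) atTop (𝓝 0) := by
    refine Asy_contr hq0 hq1 (fun m => abs_nonneg _) ?_ h4
    filter_upwards [hb, (tendsto_add_atTop_nat 1).eventually hb, h3.eventually_lt_const hq]
      with m hb1 hb2 hqm
    have h6 : r (m + 1) / b (m + 1) - 1 = b m / b (m + 1) * (r m / b m - 1) +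
        (b m / b (m + 1) * ((r (m + 1) - r m) / b m + 1) - 1) := by
      field_simp
      ring
    rw [h6]
    refine (abs_add_le _ _).trans (add_le_add ?_ le_rfl)
    rw [abs_mul, abs_of_pos (div_pos hb1 hb2)]
    exact mul_le_mul_of_nonneg_right hqm.le (abs_nonneg _)
  have h6 := (tendsto_zero_iff_abs_tendsto_zero _).2 h5
  have h7 := h6.add_const 1
  rw [zero_add] at h7
  refine h7.congr fun m => ?_
  simp only [sub_add_cancel]

/-- from the windows to all values -/
private theorem Asy_interp {R : ℕ → ℝ} (hR : Monotone R) (hR0 : ∀ X, 0 ≤ R X) (j : ℕ)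
    (h : ∀ M : ℕ, 1 ≤ M → Tendsto (fun m => R (win M m) * Real.log (win M m) ^ j / win M m) atTop
      (𝓝 1)) :
    Tendsto (fun X : ℕ => R X * Real.log X ^ j / X) atTop (𝓝 1) := by
  rw [Metric.tendsto_atTop]
  intro ε hε
  obtain ⟨M, hM1, hMε⟩ : ∃ M : ℕ, 1 ≤ M ∧ 1 / (M : ℝ) < ε := by
    obtain ⟨n, hn⟩ := exists_nat_one_div_lt hε
    refine ⟨n + 1, by omega, ?_⟩
    push_cast
    exact hn
  have hl := Asy_one_lt hM1
  obtain ⟨l, hll⟩ : ∃ l, l = 1 + 1 / (M : ℝ) := ⟨_, rfl⟩
  rw [← hll] at hl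
  have hl0 : 0 < l := by linarith
  have hw := h M hM1
  have hr := Asy_win_ratio hM1
  rw [← hll] at hr
  have hU : Tendsto (fun m => R (win M (m + 1)) * Real.log (win M (m + 1)) ^ j / win M (m + 1) *
      ((win M (m + 1) : ℝ) / win M m)) atTop (𝓝 (1 * l)) :=
    (hw.comp (tendsto_add_atTop_nat 1)).mul hr
  have hV : Tendsto (fun m => R (win M m) * Real.log (win M m) ^ j / win M m /
      ((win M (m + 1) : ℝ) / win M m)) atTop (𝓝 (1 / l)) := hw.div hr hl0.ne'
  rw [one_mul] at hU
  have hlε : l < 1 + ε := by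
    rw [hll]
    linarith
  have hlε2 : 1 - ε < 1 / l := by
    rw [lt_div_iff₀ hl0]
    nlinarith
  obtain ⟨m0, hm0⟩ := eventually_atTop.1 (((hU.eventually_lt_const hlε).and
    (hV.eventually_const_lt hlε2)).and ((Asy_win_cast hM1).eventually_ge_atTop 1))
  refine ⟨⌈l ^ (m0 + 1)⌉₊, fun X hX => ?_⟩
  have hX1 : l ^ (m0 + 1) ≤ X := Nat.ceil_le.1 hX
  have hX2 : (1 : ℝ) ≤ X := (one_le_pow₀ hl.le).trans hX1
  obtain ⟨m, hm1, hm2⟩ := exists_nat_pow_near hX2 hl
  have hmm : m0 ≤ m := by
    have h1 : l ^ (m0 + 1) < l ^ (m + 1) := lt_of_le_of_lt hX1 hm2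
    have h2 := (pow_lt_pow_iff_right₀ hl).1 h1
    omega
  obtain ⟨⟨hu, hv⟩, hN1⟩ := hm0 m hmm
  have hNX : win M m ≤ X := by
    unfold win
    rw [← hll]
    exact (Nat.floor_le_floor hm1).trans (by rw [Nat.floor_natCast])
  have hXN : X ≤ win M (m + 1) := by
    unfold win
    rw [← hll]
    exact Nat.le_floor hm2.le
  have hNX' : (win M m : ℝ) ≤ X := by exact_mod_cast hNX
  have hXN' : (X : ℝ) ≤ win M (m + 1) := by exact_mod_cast hXN
  have hN0 : (0 : ℝ) < win M m := by linarith
  have hX0 : (0 : ℝ) < X := by linarith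
  have hN'0 : (0 : ℝ) < win M (m + 1) := by linarith
  have hlog1 : Real.log (win M m) ≤ Real.log X := Real.log_le_log hN0 hNX'
  have hlog2 : Real.log X ≤ Real.log (win M (m + 1)) := Real.log_le_log hX0 hXN'
  have hlog0 : 0 ≤ Real.log (win M m) := Real.log_nonneg hN1
  have hp1 : Real.log (win M m) ^ j ≤ Real.log X ^ j := pow_le_pow_left₀ hlog0 hlog1 j
  have hp2 : Real.log X ^ j ≤ Real.log (win M (m + 1)) ^ j :=
    pow_le_pow_left₀ (hlog0.trans hlog1) hlog2 j
  have hp0 : 0 ≤ Real.log (win M m) ^ j := pow_nonneg hlog0 j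
  have hup : R X * Real.log X ^ j / X ≤ R (win M (m + 1)) * Real.log (win M (m + 1)) ^ j /
      win M (m + 1) * ((win M (m + 1) : ℝ) / win M m) := by
    rw [div_mul_div_cancel₀ hN'0.ne']
    refine div_le_div₀ ?_ ?_ hN0 hNX'
    · exact mul_nonneg (hR0 _) ((hp0.trans hp1).trans hp2)
    · exact mul_le_mul (hR hXN) hp2 (hp0.trans hp1) (hR0 _)
  have hlo : R (win M m) * Real.log (win M m) ^ j / win M m /
      ((win M (m + 1) : ℝ) / win M m) ≤ R X * Real.log X ^ j / X := by
    rw [div_div_div_cancel_right₀ hN0.ne']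
    refine div_le_div₀ ?_ ?_ hX0 hXN'
    · exact mul_nonneg (hR0 _) (hp0.trans hp1)
    · exact mul_le_mul (hR hNX) hp1 hp0 (hR0 _)
  rw [Real.dist_eq, abs_lt]
  constructor <;> linarith

/-! ### Counting -/

open Classical in
/-- the number of the `p ≤ X` with `c 0, ..., c (j-1)` prime -/
private noncomputable def Asy_R (α β : ℕ → ℝ) (j X : ℕ) : ℝ :=
  (((Finset.Icc 1 X).filter fun p => ∀ i < j, (MCC.chain α β p i).Prime).card : ℝ)

private theorem Asy_R_mono (α β : ℕ → ℝ) (j : ℕ) : Monotone (Asy_R α β j) := by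
  intro X Y hXY
  unfold Asy_R
  have h1 : Finset.Icc 1 X ⊆ Finset.Icc 1 Y := Finset.Icc_subset_Icc le_rfl hXY
  exact_mod_cast Finset.card_le_card (Finset.filter_subset_filter _ h1)

private theorem Asy_R_nonneg (α β : ℕ → ℝ) (j X : ℕ) : 0 ≤ Asy_R α β j X := Nat.cast_nonneg _

private theorem Asy_split (P : ℕ → Prop) [DecidablePred P] {N N' : ℕ} (h : N ≤ N') :
    (((Finset.Icc 1 N').filter P).card : ℝ) - ((Finset.Icc 1 N).filter P).card =
      ((Finset.Ioc N N').filter P).card := by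
  have h1 : (Finset.Icc 1 N').filter P = (Finset.Icc 1 N).filter P ∪ (Finset.Ioc N N').filter P := by
    ext p
    simp only [Finset.mem_union, Finset.mem_filter, Finset.mem_Icc, Finset.mem_Ioc]
    constructor
    · rintro ⟨⟨h2, h3⟩, h4⟩
      by_cases h5 : p ≤ N
      · exact Or.inl ⟨⟨h2, h5⟩, h4⟩
      · exact Or.inr ⟨⟨by omega, h3⟩, h4⟩
    · rintro (⟨⟨h2, h3⟩, h4⟩ | ⟨⟨h2, h3⟩, h4⟩)
      · exact ⟨⟨h2, by omega⟩, h4⟩
      · exact ⟨⟨by omega, h3⟩, h4⟩
  have h2 : Disjoint ((Finset.Icc 1 N).filter P) ((Finset.Ioc N N').filter P) := by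
    rw [Finset.disjoint_left]
    intro p hp hp'
    rw [Finset.mem_filter, Finset.mem_Icc] at hp
    rw [Finset.mem_filter, Finset.mem_Ioc] at hp'
    omega
  rw [h1, Finset.card_union_of_disjoint h2]
  push_cast
  ring

private theorem Asy_R_sub (α β : ℕ → ℝ) (j : ℕ) {N N' : ℕ} (h : N ≤ N') :
    Asy_R α β j N' - Asy_R α β j N = (((Finset.Ioc N N').filter
      fun p => ∀ i < j, (MCC.chain α β p i).Prime).card : ℝ) := by
  classical
  unfold Asy_R
  have h1 := Asy_split (fun p => ∀ i < j, (MCC.chain α β p i).Prime) h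
  convert h1

/-- the prime number theorem -/
private theorem Asy_base (α β : ℕ → ℝ) :
    Tendsto (fun X : ℕ => Asy_R α β 1 X * Real.log X ^ 1 / X) atTop (𝓝 1) := by
  refine Pool.Agent.Lib.PNT.pi_nat.congr fun X => ?_
  rw [pow_one]
  congr 2
  unfold Asy_R
  rw [← Nat.primesLE_card_eq_primeCounting, Nat.primesLE_eq_filter_Icc_one]
  congr 2
  ext p
  rw [Finset.mem_filter, Finset.mem_filter]
  refine and_congr_right fun _ => ?_
  constructor
  · intro h i hi
    have : i = 0 := by omega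
    rw [this]
    exact h
  · intro h
    exact h 0 one_pos

/-- the number in a window -/
private theorem Asy_window {α β : ℕ → ℝ} {j M : ℕ} (hM : 1 ≤ M)
    (h : Tendsto (fun X : ℕ => Asy_R α β j X * Real.log X ^ j / X) atTop (𝓝 1)) :
    Tendsto (fun m => (Asy_R α β j (win M (m + 1)) - Asy_R α β j (win M m)) *
      Real.log (win M m) ^ j / win M m) atTop (𝓝 (1 + 1 / (M : ℝ) - 1)) := by
  have h1 := h.comp (Asy_win_top hM)
  have h2 := h1.comp (tendsto_add_atTop_nat 1)
  have h3 : Tendsto (fun m => (Real.log (win M m) / Real.log (win M (m + 1))) ^ j) atTop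
      (𝓝 1) := by
    have h4 := ((Asy_win_log hM).inv₀ one_ne_zero).pow j
    rw [inv_one, one_pow] at h4
    refine h4.congr fun m => ?_
    rw [inv_div]
  have h5 := (h2.mul (Asy_win_ratio hM)).mul h3
  rw [one_mul, mul_one] at h5
  refine (h5.sub h1).congr' ?_
  filter_upwards [(Asy_win_cast hM).eventually_gt_atTop 1,
    (tendsto_add_atTop_nat 1).eventually ((Asy_win_cast hM).eventually_gt_atTop 1)] with m hm hm'
  have hl : 0 < Real.log (win M m) := Real.log_pos hm
  have hl' : 0 < Real.log (win M (m + 1)) := Real.log_pos hm'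
  have hN : (0 : ℝ) < win M m := by linarith
  have hN' : (0 : ℝ) < win M (m + 1) := by linarith
  simp only [Function.comp]
  have hp' : Real.log (win M (m + 1)) ^ j ≠ 0 := pow_ne_zero _ hl'.ne'
  rw [div_pow]
  field_simp

/-- the sum of the `1 / log` over a window -/
private theorem Asy_T {α β : ℕ → ℝ} (hα : ∀ i, 0 < α i) {j M : ℕ} (hM : 1 ≤ M)
    (F : ℕ → Finset ℕ) (hF : ∀ m, F m ⊆ Finset.Ioc (win M m) (win M (m + 1)))
    {b : ℕ → ℝ} {l : ℝ}
    (h : Tendsto (fun m => ((F m).card : ℝ) * b m) atTop (𝓝 l)) :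
    Tendsto (fun m => (∑ p ∈ F m, 1 / Real.log (α j * (MCC.chain α β p j : ℝ))) *
      Real.log (win M m) * b m) atTop (𝓝 l) := by
  have h1 : (fun m => (∑ p ∈ F m, 1 / Real.log (α j * (MCC.chain α β p j : ℝ))) *
      Real.log (win M m) * b m - ((F m).card : ℝ) * b m) =o[atTop]
      fun m => ((F m).card : ℝ) * b m := by
    rw [Asymptotics.isLittleO_iff]
    intro ε hε
    obtain ⟨δ, hδ0, hδ1, hδε⟩ : ∃ δ : ℝ, 0 < δ ∧ δ ≤ 1 ∧ 2 * δ ≤ ε :=
      ⟨min (ε / 2) 1, lt_min (by linarith) one_pos, min_le_right _ _, by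
        have := min_le_left (ε / 2) 1
        linarith⟩
    have h2 : ∀ᶠ p : ℕ in atTop,
        |Real.log p / Real.log (α j * (MCC.chain α β p j : ℝ)) - 1| < δ := by
      have h3 := ((Asy_log (β := β) hα j).sub_const 1).abs
      rw [sub_self, abs_zero] at h3
      exact h3.eventually_lt_const hδ0
    obtain ⟨p0, hp0⟩ := eventually_atTop.1 h2
    have h3 : ∀ᶠ m in atTop, Real.log (win M (m + 1)) / Real.log (win M m) < 1 + δ :=
      (Asy_win_log hM).eventually_lt_const (by linarith)
    filter_upwards [h3, (Asy_win_cast hM).eventually_gt_atTop 1,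
      (Asy_win_top hM).eventually_ge_atTop p0] with m hm hm1 hm2
    have hl : 0 < Real.log (win M m) := Real.log_pos hm1
    have h4 : ∀ p ∈ F m, |1 / Real.log (α j * (MCC.chain α β p j : ℝ)) * Real.log (win M m) - 1| ≤
        2 * δ := by
      intro p hp
      have hp1 := Finset.mem_Ioc.1 (hF m hp)
      have hp2 : (win M m : ℝ) < p := by exact_mod_cast hp1.1
      have hp3 : (p : ℝ) ≤ win M (m + 1) := by exact_mod_cast hp1.2
      have hlp : 0 < Real.log p := Real.log_pos (by linarith)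
      have hv := abs_lt.1 (hp0 p (by omega))
      have hw1 : Real.log (win M m) / Real.log p ≤ 1 := by
        rw [div_le_one hlp]
        exact Real.log_le_log (by linarith) hp2.le
      have hw2 : 1 - δ ≤ Real.log (win M m) / Real.log p := by
        rw [le_div_iff₀ hlp]
        have h5 : Real.log p ≤ Real.log (win M (m + 1)) := Real.log_le_log (by linarith) hp3
        rw [div_lt_iff₀ hl] at hm
        have h6 : (1 - δ) * Real.log p ≤ (1 - δ) * ((1 + δ) * Real.log (win M m)) :=
          mul_le_mul_of_nonneg_left (by linarith) (by linarith)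
        have h7 : (1 - δ) * ((1 + δ) * Real.log (win M m)) =
            Real.log (win M m) - δ ^ 2 * Real.log (win M m) := by ring
        have h8 : 0 ≤ δ ^ 2 * Real.log (win M m) := by positivity
        linarith
      have h5 : 1 / Real.log (α j * (MCC.chain α β p j : ℝ)) * Real.log (win M m) =
          (Real.log (win M m) / Real.log p) *
            (Real.log p / Real.log (α j * (MCC.chain α β p j : ℝ))) := by
        rw [div_mul_div_cancel₀ hlp.ne', one_div, mul_comm, div_eq_mul_inv]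
      rw [h5]
      generalize Real.log (win M m) / Real.log p = w at hw1 hw2 ⊢
      generalize Real.log p / Real.log (α j * (MCC.chain α β p j : ℝ)) = v at hv ⊢
      have hw0 : 0 ≤ w := by linarith
      rw [abs_le]
      constructor
      · have h6 : w * (1 - δ) ≤ w * v := mul_le_mul_of_nonneg_left (by linarith [hv.1]) hw0
        have h7 : (1 - δ) * (1 - δ) ≤ w * (1 - δ) :=
          mul_le_mul_of_nonneg_right hw2 (by linarith)
        nlinarith
      · have h6 : w * v ≤ w * (1 + δ) := mul_le_mul_of_nonneg_left (by linarith [hv.2]) hw0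
        have h7 : w * (1 + δ) ≤ 1 * (1 + δ) := mul_le_mul_of_nonneg_right hw1 (by linarith)
        linarith
    have h5 : (∑ p ∈ F m, 1 / Real.log (α j * (MCC.chain α β p j : ℝ))) *
        Real.log (win M m) * b m - ((F m).card : ℝ) * b m =
        (∑ p ∈ F m, (1 / Real.log (α j * (MCC.chain α β p j : ℝ)) * Real.log (win M m) - 1)) *
          b m := by
      rw [Finset.sum_sub_distrib, Finset.sum_const, nsmul_eq_mul, mul_one, ← Finset.sum_mul,
        sub_mul]
    rw [h5, norm_mul, norm_mul, Real.norm_eq_abs, Real.norm_eq_abs, Real.norm_eq_abs,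
      abs_of_nonneg (Nat.cast_nonneg _ : (0 : ℝ) ≤ ((F m).card : ℝ)), ← mul_assoc]
    refine mul_le_mul_of_nonneg_right ?_ (abs_nonneg _)
    refine (Finset.abs_sum_le_sum_abs _ _).trans ?_
    refine (Finset.sum_le_sum h4).trans ?_
    rw [Finset.sum_const, nsmul_eq_mul, mul_comm]
    exact mul_le_mul_of_nonneg_right hδε (Nat.cast_nonneg _)
  have h2 := h1.trans_isBigO (h.isBigO_one ℝ)
  have h3 := (Asymptotics.isLittleO_one_iff ℝ).1 h2
  have h4 := h3.add h
  rw [zero_add] at h4
  refine h4.congr fun m => ?_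
  simp only [sub_add_cancel]

private theorem Asy_ext (α β : ℕ → ℝ) (j p : ℕ) (n : ℕ) (hn : n ≤ j + 1) :
    MCC.chain (MCC.ext (fun i : Fin (j + 1) => α i)) β p n = MCC.chain α β p n := by
  induction n with
  | zero => rfl
  | succ n ih =>
    change ⌊MCC.ext (fun i : Fin (j + 1) => α i) n *
      (MCC.chain (MCC.ext (fun i : Fin (j + 1) => α i)) β p n : ℝ) + β n⌋₊ =
      ⌊α n * (MCC.chain α β p n : ℝ) + β n⌋₊
    rw [ih (by omega)]
    have h1 : MCC.ext (fun i : Fin (j + 1) => α i) n = α n := by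
      unfold MCC.ext
      rw [dif_pos (by omega)]
    rw [h1]

/-- the error term -/
private theorem Asy_EJ (α β : ℕ → ℝ) (j : ℕ) {N N' : ℕ} (hN : N ≤ N') :
    EJ (j := j) β N N' (fun i => α i) =
      (Asy_R α β (j + 2) N' - Asy_R α β (j + 2) N) -
      ∑ p ∈ (Finset.Ioc N N').filter (fun p => ∀ i < j + 1, (MCC.chain α β p i).Prime),
        1 / Real.log (α j * (MCC.chain α β p j : ℝ)) := by
  classical
  have h0 : (Finset.Ioc N N').filter (fun p => ∀ i ≤ j,
      (MCC.chain (MCC.ext (fun i : Fin (j + 1) => α i)) β p i).Prime) =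
      (Finset.Ioc N N').filter (fun p => ∀ i < j + 1, (MCC.chain α β p i).Prime) := by
    refine Finset.filter_congr fun p _ => ?_
    constructor
    · intro h i hi
      rw [← Asy_ext α β j p i (by omega)]
      exact h i (by omega)
    · intro h i hi
      rw [Asy_ext α β j p i (by omega)]
      exact h i (by omega)
  have h1 : EJ (j := j) β N N' (fun i => α i) =
      ∑ p ∈ (Finset.Ioc N N').filter (fun p => ∀ i < j + 1, (MCC.chain α β p i).Prime),
        ((if (MCC.chain α β p (j + 1)).Prime then 1 else 0) -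
          1 / Real.log (α j * (MCC.chain α β p j : ℝ))) := by
    unfold EJ
    have h2 : ∀ p, ((if (MCC.chain (MCC.ext (fun i : Fin (j + 1) => α i)) β p (j + 1)).Prime
        then (1 : ℝ) else 0) - 1 / Real.log ((fun i : Fin (j + 1) => α i) (Fin.last j) *
          (MCC.chain (MCC.ext (fun i : Fin (j + 1) => α i)) β p j : ℝ))) =
        ((if (MCC.chain α β p (j + 1)).Prime then 1 else 0) -
          1 / Real.log (α j * (MCC.chain α β p j : ℝ))) := by
      intro p
      rw [Asy_ext α β j p (j + 1) le_rfl, Asy_ext α β j p j (by omega)]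
      simp only [Fin.val_last]
    convert Finset.sum_congr h0 fun p _ => h2 p
  rw [h1, Finset.sum_sub_distrib, Asy_R_sub α β (j + 2) hN]
  congr 1
  rw [← Finset.sum_filter, Finset.sum_const, nsmul_eq_mul, mul_one, Finset.filter_filter]
  congr 2
  refine Finset.filter_congr fun p _ => ?_
  constructor
  · rintro ⟨h2, h3⟩ i hi
    by_cases h4 : i = j + 1
    · rw [h4]
      exact h3
    · exact h2 i (by omega)
  · intro h2
    exact ⟨fun i hi => h2 i (by omega), h2 (j + 1) (by omega)⟩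

/-- one step -/
private theorem Asy_step {α β : ℕ → ℝ} (hα : ∀ i, 0 < α i) {k j : ℕ} (hj : j < k)
    (h : ∀ M : ℕ, 1 ≤ M → ∀ᶠ m : ℕ in atTop,
      |EJ (j := j) β (win M m) (win M (m + 1)) (fun i => α i)| ≤
        (win M m : ℝ) / Real.log (win M m) ^ ((k : ℝ) + 3))
    (hP : Tendsto (fun X : ℕ => Asy_R α β (j + 1) X * Real.log X ^ (j + 1) / X) atTop (𝓝 1)) :
    Tendsto (fun X : ℕ => Asy_R α β (j + 2) X * Real.log X ^ (j + 2) / X) atTop (𝓝 1) := by
  refine Asy_interp (Asy_R_mono α β (j + 2)) (Asy_R_nonneg α β (j + 2)) (j + 2) fun M hM => ?_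
  have hl := Asy_one_lt hM
  have hw := Asy_window hM hP
  -- the main term
  have hT : Tendsto (fun m => (∑ p ∈ (Finset.Ioc (win M m) (win M (m + 1))).filter
      (fun p => ∀ i < j + 1, (MCC.chain α β p i).Prime),
      1 / Real.log (α j * (MCC.chain α β p j : ℝ))) * Real.log (win M m) *
      (Real.log (win M m) ^ (j + 1) / win M m)) atTop (𝓝 (1 + 1 / (M : ℝ) - 1)) := by
    refine Asy_T hα hM _ (fun m => Finset.filter_subset _ _) ?_
    refine hw.congr fun m => ?_
    rw [Asy_R_sub α β (j + 1) (Asy_win_le hM m), mul_div_assoc]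
  -- the error term
  have hE : Tendsto (fun m => EJ (j := j) β (win M m) (win M (m + 1)) (fun i => α i) *
      Real.log (win M m) ^ (j + 2) / win M m) atTop (𝓝 0) := by
    have h1 : Tendsto (fun m => (Real.log (win M m))⁻¹) atTop (𝓝 0) :=
      (Asy_win_logtop hM).inv_tendsto_atTop
    refine squeeze_zero_norm' ?_ h1
    filter_upwards [h M hM, (Asy_win_logtop hM).eventually_ge_atTop 1,
      (Asy_win_cast hM).eventually_gt_atTop 1] with m hm hl1 hN1
    have hN0 : (0 : ℝ) < win M m := by linarith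
    have hl0 : 0 < Real.log (win M m) := by linarith
    rw [Real.norm_eq_abs, abs_div, abs_mul, abs_of_pos hN0, abs_of_pos (pow_pos hl0 (j + 2)),
      div_le_iff₀ hN0]
    have h2 : Real.log (win M m) ^ (j + 2) * Real.log (win M m) ≤
        Real.log (win M m) ^ ((k : ℝ) + 3) := by
      rw [← pow_succ, ← Real.rpow_natCast]
      refine Real.rpow_le_rpow_of_exponent_le hl1 ?_
      have : (j : ℝ) < k := by exact_mod_cast hj
      push_cast
      linarith
    have h3 : 0 < Real.log (win M m) ^ ((k : ℝ) + 3) := Real.rpow_pos_of_pos hl0 _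
    calc |EJ (j := j) β (win M m) (win M (m + 1)) (fun i => α i)| * Real.log (win M m) ^ (j + 2)
        ≤ (win M m : ℝ) / Real.log (win M m) ^ ((k : ℝ) + 3) * Real.log (win M m) ^ (j + 2) :=
          mul_le_mul_of_nonneg_right hm (pow_nonneg hl0.le _)
      _ ≤ (Real.log (win M m))⁻¹ * win M m := by
          rw [div_mul_eq_mul_div, div_le_iff₀ h3, inv_mul_eq_div, div_mul_eq_mul_div,
            le_div_iff₀ hl0, mul_assoc]
          exact mul_le_mul_of_nonneg_left h2 hN0.le
  have hS : Tendsto (fun m => (Asy_R α β (j + 2) (win M (m + 1)) - Asy_R α β (j + 2) (win M m)) /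
      ((win M m : ℝ) / Real.log (win M m) ^ (j + 2))) atTop (𝓝 (1 + 1 / (M : ℝ) - 1)) := by
    have h1 := hT.add hE
    rw [add_zero] at h1
    refine h1.congr' ?_
    filter_upwards [(Asy_win_cast hM).eventually_gt_atTop 1] with m hN1
    rw [Asy_EJ α β j (Asy_win_le hM m)]
    have hN0 : (0 : ℝ) < win M m := by linarith
    have hl0 : 0 < Real.log (win M m) := Real.log_pos hN1
    generalize (∑ p ∈ (Finset.Ioc (win M m) (win M (m + 1))).filter
      (fun p => ∀ i < j + 1, (MCC.chain α β p i).Prime),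
      1 / Real.log (α j * (MCC.chain α β p j : ℝ))) = T
    have h2 : Real.log (win M m) ^ (j + 2) = Real.log (win M m) * Real.log (win M m) ^ (j + 1) := by
      rw [pow_succ' _ (j + 1)]
    rw [h2]
    field_simp
    ring
  have hb : Tendsto (fun m => ((win M (m + 1) : ℝ) / Real.log (win M (m + 1)) ^ (j + 2)) /
      ((win M m : ℝ) / Real.log (win M m) ^ (j + 2))) atTop (𝓝 (1 + 1 / (M : ℝ))) := by
    have h1 := ((Asy_win_log hM).inv₀ one_ne_zero).pow (j + 2)
    rw [inv_one, one_pow] at h1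
    have h2 := (Asy_win_ratio hM).mul h1
    rw [mul_one] at h2
    refine h2.congr' ?_
    filter_upwards [(Asy_win_cast hM).eventually_gt_atTop 1,
      (tendsto_add_atTop_nat 1).eventually ((Asy_win_cast hM).eventually_gt_atTop 1)]
      with m hm hm'
    have hl0 : 0 < Real.log (win M m) := Real.log_pos hm
    have hl0' : 0 < Real.log (win M (m + 1)) := Real.log_pos hm'
    rw [inv_div, div_pow]
    field_simp
  have hbp : ∀ᶠ m in atTop, 0 < (win M m : ℝ) / Real.log (win M m) ^ (j + 2) := by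
    filter_upwards [(Asy_win_cast hM).eventually_gt_atTop 1] with m hN1
    have hN0 : (0 : ℝ) < win M m := by linarith
    exact div_pos hN0 (pow_pos (Real.log_pos hN1) _)
  have hfin := Asy_geo (r := fun m => Asy_R α β (j + 2) (win M m))
    (b := fun m => (win M m : ℝ) / Real.log (win M m) ^ (j + 2)) hl hbp hb hS
  refine hfin.congr fun m => ?_
  rw [div_div_eq_mul_div]

open Classical in
theorem asy {α β : ℕ → ℝ} (hα : ∀ i, 0 < α i) {k : ℕ} (hk : 1 ≤ k)
    (h : ∀ j < k, ∀ M : ℕ, 1 ≤ M → ∀ᶠ m : ℕ in atTop,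
      |EJ (j := j) β (win M m) (win M (m + 1)) (fun i => α i)| ≤
        (win M m : ℝ) / Real.log (win M m) ^ ((k : ℝ) + 3)) :
    Tendsto (fun X : ℕ => (((Finset.Icc 1 X).filter fun p => MCC.StartsExact α β p k).card : ℝ) *
      Real.log X ^ k / X) atTop (𝓝 1) := by
  have hall : ∀ j ≤ k, Tendsto (fun X : ℕ => Asy_R α β (j + 1) X * Real.log X ^ (j + 1) / X) atTop
      (𝓝 1) := by
    intro j
    induction j with
    | zero => exact fun _ => Asy_base α β
    | succ j ih => exact fun hj => Asy_step hα (by omega) (h j (by omega)) (ih (by omega))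
  have hk1 := hall k le_rfl
  have hk0 : Tendsto (fun X : ℕ => Asy_R α β k X * Real.log X ^ k / X) atTop (𝓝 1) := by
    obtain ⟨j, rfl⟩ : ∃ j, k = j + 1 := ⟨k - 1, by omega⟩
    exact hall j (by omega)
  -- the exceptional chains
  obtain ⟨p1, hp1⟩ := eventually_atTop.1 ((Asy_top (β := β) hα k).eventually_gt_atTop 1)
  have hcount : ∀ X : ℕ, |(((Finset.Icc 1 X).filter fun p => MCC.StartsExact α β p k).card : ℝ) -
      (Asy_R α β k X - Asy_R α β (k + 1) X)| ≤ p1 := by
    intro X
    have h1 : (Finset.Icc 1 X).filter (fun p => ∀ i < k, (MCC.chain α β p i).Prime) =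
        (Finset.Icc 1 X).filter (fun p => MCC.StartsExact α β p k) ∪
        ((Finset.Icc 1 X).filter (fun p => ∀ i < k + 1, (MCC.chain α β p i).Prime) ∪
        (Finset.Icc 1 X).filter (fun p => (∀ i < k, (MCC.chain α β p i).Prime) ∧
          MCC.chain α β p k ≤ 1)) := by
      ext p
      simp only [Finset.mem_union, Finset.mem_filter]
      constructor
      · rintro ⟨h2, h3⟩
        by_cases h4 : (MCC.chain α β p k).Prime
        · refine Or.inr (Or.inl ⟨h2, fun i hi => ?_⟩)
          by_cases h5 : i = k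
          · rw [h5]
            exact h4
          · exact h3 i (by omega)
        · by_cases h5 : 1 < MCC.chain α β p k
          · exact Or.inl ⟨h2, h3, h5, h4⟩
          · exact Or.inr (Or.inr ⟨h2, h3, by omega⟩)
      · rintro (⟨h2, h3⟩ | ⟨h2, h3⟩ | ⟨h2, h3, _⟩)
        · exact ⟨h2, h3.1⟩
        · exact ⟨h2, fun i hi => h3 i (by omega)⟩
        · exact ⟨h2, h3⟩
    have h2 : Disjoint ((Finset.Icc 1 X).filter
        (fun p => ∀ i < k + 1, (MCC.chain α β p i).Prime))
        ((Finset.Icc 1 X).filter (fun p => (∀ i < k, (MCC.chain α β p i).Prime) ∧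
          MCC.chain α β p k ≤ 1)) := by
      rw [Finset.disjoint_left]
      intro p hp hp'
      rw [Finset.mem_filter] at hp hp'
      have h3 := (hp.2 k (by omega)).one_lt
      have h4 := hp'.2.2
      omega
    have h3 : Disjoint ((Finset.Icc 1 X).filter (fun p => MCC.StartsExact α β p k))
        ((Finset.Icc 1 X).filter (fun p => ∀ i < k + 1, (MCC.chain α β p i).Prime) ∪
        (Finset.Icc 1 X).filter (fun p => (∀ i < k, (MCC.chain α β p i).Prime) ∧
          MCC.chain α β p k ≤ 1)) := by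
      rw [Finset.disjoint_left]
      intro p hp hp'
      rw [Finset.mem_filter] at hp
      rw [Finset.mem_union, Finset.mem_filter, Finset.mem_filter] at hp'
      rcases hp' with hp' | hp'
      · exact hp.2.2.2 (hp'.2 k (by omega))
      · have h4 := hp.2.2.1
        have h5 := hp'.2.2
        omega
    have h4 : ((Finset.Icc 1 X).filter (fun p => (∀ i < k, (MCC.chain α β p i).Prime) ∧
          MCC.chain α β p k ≤ 1)).card ≤ p1 := by
      have h5 : (Finset.Icc 1 X).filter (fun p => (∀ i < k, (MCC.chain α β p i).Prime) ∧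
          MCC.chain α β p k ≤ 1) ⊆ Finset.range p1 := by
        intro p hp
        rw [Finset.mem_filter] at hp
        rw [Finset.mem_range]
        by_contra h6
        push Not at h6
        have h7 : 1 < MCC.chain α β p k := by
          have h8 : (1 : ℝ) < (MCC.chain α β p k : ℝ) := hp1 p h6
          exact_mod_cast h8
        have h8 := hp.2.2
        omega
      have h6 := Finset.card_le_card h5
      rwa [Finset.card_range] at h6
    have h5 := congrArg Finset.card h1
    rw [Finset.card_union_of_disjoint h3, Finset.card_union_of_disjoint h2] at h5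
    have h6 : Asy_R α β k X = (((Finset.Icc 1 X).filter fun p => MCC.StartsExact α β p k).card : ℝ) +
        (Asy_R α β (k + 1) X + ((Finset.Icc 1 X).filter (fun p =>
          (∀ i < k, (MCC.chain α β p i).Prime) ∧ MCC.chain α β p k ≤ 1)).card) := by
      unfold Asy_R
      exact_mod_cast h5
    rw [h6]
    have h7 : (((Finset.Icc 1 X).filter (fun p => (∀ i < k, (MCC.chain α β p i).Prime) ∧
          MCC.chain α β p k ≤ 1)).card : ℝ) ≤ p1 := by exact_mod_cast h4
    have h8 : (0 : ℝ) ≤ ((Finset.Icc 1 X).filter (fun p =>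
      (∀ i < k, (MCC.chain α β p i).Prime) ∧ MCC.chain α β p k ≤ 1)).card := Nat.cast_nonneg _
    rw [abs_le]
    constructor <;> linarith
  -- the limit
  have hz : Tendsto (fun X : ℕ => Real.log X ^ k / X) atTop (𝓝 0) := by
    have h1 := (Real.tendsto_pow_log_div_mul_add_atTop 1 0 k one_ne_zero).comp
      (tendsto_natCast_atTop_atTop (R := ℝ))
    refine h1.congr fun X => ?_
    simp only [Function.comp, one_mul, add_zero]
  have h1 : Tendsto (fun X : ℕ => Asy_R α β (k + 1) X * Real.log X ^ k / X) atTop (𝓝 0) := by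
    have h2 := hk1.div_atTop Asy_logcast
    refine h2.congr' ?_
    filter_upwards [eventually_gt_atTop 1] with X hX
    have hl : 0 < Real.log X := Real.log_pos (by exact_mod_cast hX)
    rw [pow_succ]
    field_simp
  have h2 : Tendsto (fun X : ℕ => (Asy_R α β k X - Asy_R α β (k + 1) X) * Real.log X ^ k / X) atTop
      (𝓝 1) := by
    have h3 := hk0.sub h1
    rw [sub_zero] at h3
    refine h3.congr fun X => ?_
    ring
  have h3 : Tendsto (fun X : ℕ => ((((Finset.Icc 1 X).filter
      fun p => MCC.StartsExact α β p k).card : ℝ) - (Asy_R α β k X - Asy_R α β (k + 1) X)) *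
        Real.log X ^ k / X) atTop (𝓝 0) := by
    have h4 := hz.const_mul (p1 : ℝ)
    rw [mul_zero] at h4
    refine squeeze_zero_norm' ?_ h4
    filter_upwards [eventually_gt_atTop 0] with X hX
    have hX0 : (0 : ℝ) < X := by exact_mod_cast hX
    have hl : 0 ≤ Real.log X ^ k := pow_nonneg (Real.log_natCast_nonneg X) k
    rw [mul_div_assoc, norm_mul, Real.norm_eq_abs, Real.norm_eq_abs,
      abs_of_nonneg (div_nonneg hl hX0.le)]
    exact mul_le_mul_of_nonneg_right (hcount X) (div_nonneg hl hX0.le)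
  have h4 := h3.add h2
  rw [zero_add] at h4
  refine h4.congr fun X => ?_
  ring

end AMC
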