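import Pool.Agent.VKZ.PrimeG

/-!
# AMC: the asymptotic formula for chains of primes with almost every sequence of multipliers

Chains `c 0 = p`, `c (n+1) = ⌊α n * c n + β n⌋` (`MCC.chain`). THEOREM: for almost every sequence `α` of positive
reals, all rational `β` and all `k ≥ 1` the number of primes `p ≤ X` which start a chain of exact length `k` is
asymptotic to `X/(log X)^k`. Method: the key lemma `AMC.key`: for all weights `|w(c)| ≤ 1`, `c ≍ X`,
`∫_a^b |∑ w(c) (1[⌊αc+β⌋ prime] - 1/log(αc))|² dα ≤ X²/(log X)^A`, by Plancherel in `log α` from the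
Vinogradov-Korobov bound `VKZ.prime_gauss` for the sums of `Λ(n) n^(-1-iτ)`, `|τ| ≤ X (log X)^B`.

`h β w s` is `Λ(⌊e^s + β⌋) - 1` with the Gaussian weight `exp(-(s-w)²)`, cut off for `s ≤ w/2`.
-/

namespace AMC

open MeasureTheory ArithmeticFunction

/-- `Λ(⌊e^s + β⌋) - 1`. -/
noncomputable def G (β s : ℝ) : ℝ := vonMangoldt ⌊Real.exp s + β⌋₊ - 1

/-- with the weight `exp(-(s-w)²)`, zero for `s ≤ w/2`. -/
noncomputable def h (β w s : ℝ) : ℝ := if w / 2 < s then G β s * Real.exp (-(s - w) ^ 2) else 0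

/-- Its Fourier transform. -/
noncomputable def hh (β w τ : ℝ) : ℂ := ∫ s : ℝ, (h β w s : ℂ) * Complex.exp (-(τ * s * Complex.I))

end AMC
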