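import Pool.Agent.MCC.Basic

/-!
# AMC.Mult: bounded multiplicity

PROOF. Induction on `j`. For `0 < a ≤ α` and `c ≥ 1` the `c'` with `⌊α c' + β⌋₊ = c` lie in an interval of length
`1/α ≤ 1/a`, so there are at most `1/a + 1` of them. `chain_size`: for large `X` all the members are `≥ κ1 X ≥ 1`.
The constant is the product of the `1/a_i + 1`.
-/

namespace AMC

open Filter

private theorem Mult_card (T : Finset ℕ) {A α β : ℝ} (hA : 0 < A) (hα : A ≤ α) {c : ℕ} (hc : 1 ≤ c)
    (hT : ∀ t ∈ T, ⌊α * (t : ℝ) + β⌋₊ = c) : T.card ≤ ⌊1 / A⌋₊ + 1 := by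
  classical
  rcases T.eq_empty_or_nonempty with h | h
  · rw [h]; simp
  · have hfl : ∀ t ∈ T, (c : ℝ) ≤ α * (t : ℝ) + β ∧ α * (t : ℝ) + β < c + 1 := by
      intro t ht
      have h1 := hT t ht
      rw [Nat.floor_eq_iff' (by omega)] at h1
      exact h1
    have h0 := hfl _ (T.min'_mem h)
    have hsub : T ⊆ Finset.Icc (T.min' h) (T.min' h + ⌊1 / A⌋₊) := by
      intro t ht
      rw [Finset.mem_Icc]
      refine ⟨T.min'_le t ht, ?_⟩
      have h1 := hfl t ht
      have hle : T.min' h ≤ t := T.min'_le t ht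
      have hle' : ((T.min' h : ℕ) : ℝ) ≤ (t : ℝ) := by exact_mod_cast hle
      have h2 : α * ((t : ℝ) - (T.min' h : ℝ)) < 1 := by
        have := h1.2
        have := h0.1
        nlinarith
      have h3 : A * ((t : ℝ) - (T.min' h : ℝ)) ≤ α * ((t : ℝ) - (T.min' h : ℝ)) :=
        mul_le_mul_of_nonneg_right hα (by linarith)
      have h4 : (t : ℝ) - (T.min' h : ℝ) ≤ 1 / A := by
        rw [le_div_iff₀ hA]
        linarith
      have h5 : ((t - T.min' h : ℕ) : ℝ) ≤ 1 / A := by
        rw [Nat.cast_sub hle]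
        exact h4
      have h6 : t - T.min' h ≤ ⌊1 / A⌋₊ := Nat.le_floor h5
      omega
    refine (Finset.card_le_card hsub).trans ?_
    rw [Nat.card_Icc]
    omega

open Classical in
theorem mult {k : ℕ} (β : ℕ → ℝ) {a b : Fin k → ℝ} (ha : ∀ i, 0 < a i) (hab : ∀ i, a i ≤ b i) :
    ∃ C X0 : ℝ, 1 ≤ C ∧ ∀ X : ℝ, X0 ≤ X → ∀ x ∈ Set.Icc a b, ∀ j : ℕ, j ≤ k → ∀ c : ℕ,
      (((Finset.Ioc ⌊X⌋₊ ⌊2 * X⌋₊).filter fun p => MCC.chain (MCC.ext x) β p j = c).card : ℝ) ≤ C := by
  obtain ⟨κ1, κ2, Xs, hs1, hs2, hs⟩ := MCC.chain_size β ha hab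
  set X0 : ℝ := max (max Xs 1) (1 / κ1) with hX0
  have key : ∀ m : ℕ, m ≤ k → ∃ C : ℕ, 1 ≤ C ∧ ∀ X : ℝ, X0 ≤ X → ∀ x ∈ Set.Icc a b, ∀ j : ℕ, j ≤ m →
      ∀ c : ℕ,
      ((Finset.Ioc ⌊X⌋₊ ⌊2 * X⌋₊).filter fun p => MCC.chain (MCC.ext x) β p j = c).card ≤ C := by
    intro m
    induction m with
    | zero =>
      intro _
      refine ⟨1, le_rfl, ?_⟩
      intro X _ x _ j hj c
      obtain rfl : j = 0 := by omega
      rw [Finset.card_le_one]
      intro p hp q hq
      have h1 : p = c := (Finset.mem_filter.1 hp).2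
      have h2 : q = c := (Finset.mem_filter.1 hq).2
      rw [h1, h2]
    | succ m ih =>
      intro hm
      obtain ⟨C, hC1, hC⟩ := ih (by omega)
      have hmk : m < k := by omega
      refine ⟨C * (⌊1 / a ⟨m, hmk⟩⌋₊ + 1), ?_, ?_⟩
      · exact Nat.one_le_iff_ne_zero.2 (by positivity)
      · intro X hX x hx j hj c
        rcases Nat.lt_or_ge m j with hmj | hmj
        · obtain rfl : j = m + 1 := by omega
          have hXs : Xs ≤ X := (le_max_left _ _).trans ((le_max_left _ _).trans hX)
          have hX1 : (1 : ℝ) ≤ X := (le_max_right _ _).trans ((le_max_left _ _).trans hX)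
          have hXκ : 1 / κ1 ≤ X := (le_max_right _ _).trans hX
          have hκX : 1 ≤ κ1 * X := by
            rw [div_le_iff₀ hs1] at hXκ
            linarith
          rcases Nat.eq_zero_or_pos c with hc | hc
          · have hemp : ((Finset.Ioc ⌊X⌋₊ ⌊2 * X⌋₊).filter
                fun p => MCC.chain (MCC.ext x) β p (m + 1) = c) = ∅ := by
              rw [Finset.filter_eq_empty_iff]
              intro p hp h
              rw [Finset.mem_Ioc] at hp
              have hp1 : X < (p : ℝ) := (Nat.floor_lt (by linarith)).1 hp.1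
              have hp2 : (p : ℝ) ≤ 2 * X := (Nat.le_floor_iff (by linarith)).1 hp.2
              have h2 := (hs X hXs x hx p hp1 hp2 (m + 1) hm).1
              rw [h, hc] at h2
              push_cast at h2
              linarith
            rw [hemp]
            simp
          · refine Finset.card_le_mul_card_image (f := fun p => MCC.chain (MCC.ext x) β p m) _ C ?_ |>.trans ?_
            · intro c' _
              rw [Finset.filter_filter]
              refine (Finset.card_le_card ?_).trans (hC X hX x hx m le_rfl c')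
              intro p hp
              rw [Finset.mem_filter] at hp ⊢
              exact ⟨hp.1, hp.2.2⟩
            · refine Nat.mul_le_mul_left _ ?_
              refine Mult_card _ (ha ⟨m, hmk⟩) (α := MCC.ext x m) (β := β m) ?_ hc ?_
              · unfold MCC.ext
                rw [dif_pos hmk]
                exact hx.1 _
              · intro t ht
                rw [Finset.mem_image] at ht
                obtain ⟨p, hp, rfl⟩ := ht
                exact (Finset.mem_filter.1 hp).2
        · refine (hC X hX x hx j hmj c).trans ?_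
          exact Nat.le_mul_of_pos_right _ (by omega)
  obtain ⟨C, hC1, hC⟩ := key k le_rfl
  refine ⟨C, X0, by exact_mod_cast hC1, ?_⟩
  intro X hX x hx j hj c
  exact_mod_cast hC X hX x hx j hj c

end AMC
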