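import Pool.Agent.AMC.KL
import Pool.Agent.AMC.Mult

/-!
# AMC.EJ: one step of the chain

`EJ β N N' x`, `x : Fin (j+1) → ℝ`: the sum over the `p ∈ (N, N']` with `c 0, ..., c j` prime of
`1[c (j+1) prime] - 1/log(x_j c_j)`.

PROOF. `Fin (j+1) → ℝ` is `(Fin j → ℝ) × ℝ` (last coordinate; see `MCC/VolS.lean`, `MCC/VolP.lean` for the
Fubini step). For fixed first coordinates `x'` in the box the sum is
`∑_c W(c) (1[⌊αc+β_j⌋ prime] - 1/log(αc))` with `α = x_j`, `W(c) = #{p ∈ (N, N'] : c 0, ..., c j prime, c_j(p) = c} ≤ C`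
(`mult`), and `W(c) = 0` unless `κ1 X ≤ c ≤ κ2 X`, `X = N` (`chain_size`; `N' ≤ 2N`). Apply `key` to `W/C` with
`A + 1`; the set of the `x'` has finite volume.
-/

namespace AMC

open MeasureTheory

open Classical in
/-- The error of one step. -/
noncomputable def EJ {j : ℕ} (β : ℕ → ℝ) (N N' : ℕ) (x : Fin (j + 1) → ℝ) : ℝ :=
  ∑ p ∈ (Finset.Ioc N N').filter (fun p => ∀ i ≤ j, (MCC.chain (MCC.ext x) β p i).Prime),
    ((if (MCC.chain (MCC.ext x) β p (j + 1)).Prime then 1 else 0) -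
      1 / Real.log (x (Fin.last j) * (MCC.chain (MCC.ext x) β p j : ℝ)))

theorem EJ_meas {j : ℕ} (β : ℕ → ℝ) (N N' : ℕ) : Measurable (EJ (j := j) β N N') := by
  classical
  have h : EJ (j := j) β N N' = fun x => ∑ p ∈ Finset.Ioc N N',
      if (∀ i ≤ j, (MCC.chain (MCC.ext x) β p i).Prime) then
        ((if (MCC.chain (MCC.ext x) β p (j + 1)).Prime then (1 : ℝ) else 0) -
          1 / Real.log (x (Fin.last j) * (MCC.chain (MCC.ext x) β p j : ℝ))) else 0 := by
    funext x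
    unfold EJ
    rw [Finset.sum_filter]
  rw [h]
  refine Finset.measurable_sum _ fun p _ => ?_
  have hP : ∀ i : ℕ, MeasurableSet {x : Fin (j + 1) → ℝ | (MCC.chain (MCC.ext x) β p i).Prime} :=
    fun i => MCC.chain_meas β p i (MeasurableSet.of_discrete (s := {m : ℕ | m.Prime}))
  have hA : MeasurableSet {x : Fin (j + 1) → ℝ | ∀ i ≤ j, (MCC.chain (MCC.ext x) β p i).Prime} := by
    have h1 : {x : Fin (j + 1) → ℝ | ∀ i ≤ j, (MCC.chain (MCC.ext x) β p i).Prime} =
        ⋂ i : ℕ, ⋂ (_ : i ≤ j), {x : Fin (j + 1) → ℝ | (MCC.chain (MCC.ext x) β p i).Prime} := by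
      ext x
      simp only [Set.mem_ofPred_eq, Set.mem_iInter]
    rw [h1]
    exact MeasurableSet.iInter fun i => MeasurableSet.iInter fun _ => hP i
  refine Measurable.ite hA ?_ measurable_const
  refine Measurable.sub (Measurable.ite (hP _) measurable_const measurable_const) ?_
  refine Measurable.const_div ?_ _
  refine Real.measurable_log.comp ?_
  refine (measurable_pi_apply _).mul ?_
  exact (Measurable.of_discrete (f := fun n : ℕ => (n : ℝ))).comp (MCC.chain_meas β p j)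

/-- Grouping the primes by the last member of the chain of the first coordinates. -/
private theorem EJ_group {j : ℕ} (β : ℕ → ℝ) (N N' : ℕ) (x : Fin (j + 1) → ℝ) (y : Fin j → ℝ)
    (hxy : (fun i : Fin j => x i.castSucc) = y) (T : Finset ℕ)
    (hT : ∀ p ∈ Finset.Ioc N N', MCC.chain (MCC.ext y) β p j ∈ T) :
    EJ β N N' x = ∑ c ∈ T, ((((Finset.Ioc N N').filter fun p =>
        (∀ i ≤ j, (MCC.chain (MCC.ext y) β p i).Prime) ∧ MCC.chain (MCC.ext y) β p j = c).card : ℕ) : ℝ) *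
      ((if (⌊x (Fin.last j) * (c : ℝ) + β j⌋₊).Prime then 1 else 0) -
        1 / Real.log (x (Fin.last j) * (c : ℝ))) := by
  classical
  have h1 : EJ β N N' x = ∑ p ∈ (Finset.Ioc N N').filter
      (fun p => ∀ i ≤ j, (MCC.chain (MCC.ext y) β p i).Prime),
        ((if (⌊x (Fin.last j) * (MCC.chain (MCC.ext y) β p j : ℝ) + β j⌋₊).Prime then (1 : ℝ) else 0) -
          1 / Real.log (x (Fin.last j) * (MCC.chain (MCC.ext y) β p j : ℝ))) := by
    unfold EJ
    have h2 : (Finset.Ioc N N').filter (fun p => ∀ i ≤ j, (MCC.chain (MCC.ext x) β p i).Prime) =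
        (Finset.Ioc N N').filter (fun p => ∀ i ≤ j, (MCC.chain (MCC.ext y) β p i).Prime) := by
      refine Finset.filter_congr fun p _ => ?_
      refine forall_congr' fun i => forall_congr' fun hi => ?_
      rw [MCC.chain_snoc x β p hi, hxy]
    refine Finset.sum_congr (by convert h2) fun p _ => ?_
    rw [MCC.chain_last x β p, MCC.chain_snoc x β p le_rfl, hxy]
  rw [h1, ← Finset.sum_fiberwise_of_maps_to (t := T) (g := fun p => MCC.chain (MCC.ext y) β p j)
    (fun p hp => hT p (Finset.mem_filter.1 hp).1)]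
  refine Finset.sum_congr rfl fun c _ => ?_
  rw [Finset.filter_filter]
  rw [Finset.sum_congr rfl (g := fun _ =>
    ((if (⌊x (Fin.last j) * (c : ℝ) + β j⌋₊).Prime then (1 : ℝ) else 0) -
        1 / Real.log (x (Fin.last j) * (c : ℝ))))]
  · rw [Finset.sum_const, nsmul_eq_mul]
  · intro p hp
    rw [(Finset.mem_filter.1 hp).2.2]


/-- The sum of one step as a function of the last multiplier. -/
private theorem EJ_inner_meas (u : ℕ → ℝ) (T : Finset ℕ) (β : ℝ) :
    Measurable fun t : ℝ => ∑ c ∈ T, u c * ((if (⌊t * (c : ℝ) + β⌋₊).Prime then (1 : ℝ) else 0) -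
      1 / Real.log (t * (c : ℝ))) := by
  refine Finset.measurable_sum _ fun c _ => ?_
  refine Measurable.const_mul ?_ _
  refine Measurable.sub (Measurable.ite ?_ measurable_const measurable_const) ?_
  · have h : Measurable fun t : ℝ => ⌊t * (c : ℝ) + β⌋₊ :=
      ((measurable_id.mul_const (c : ℝ)).add_const β).nat_floor
    exact h (MeasurableSet.of_discrete (s := {m : ℕ | m.Prime}))
  · refine Measurable.const_div ?_ _
    exact Real.measurable_log.comp (measurable_id.mul_const _)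

private theorem EJ_inner_bd {a : ℝ} {u : ℕ → ℝ} (hu : ∀ c, |u c| ≤ 1) (T : Finset ℕ) (β : ℝ)
    (hT : ∀ c ∈ T, Real.exp 1 ≤ a * (c : ℝ)) {t : ℝ} (ht : a ≤ t) :
    |∑ c ∈ T, u c * ((if (⌊t * (c : ℝ) + β⌋₊).Prime then (1 : ℝ) else 0) -
      1 / Real.log (t * (c : ℝ)))| ≤ T.card := by
  refine (Finset.abs_sum_le_sum_abs _ _).trans ?_
  refine (Finset.sum_le_sum (g := fun _ => (1 : ℝ)) fun c hc => ?_).trans (by simp)
  rw [abs_mul]
  have h1 : Real.exp 1 ≤ t * (c : ℝ) :=
    (hT c hc).trans (mul_le_mul_of_nonneg_right ht (Nat.cast_nonneg _))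
  have h2 : 1 ≤ Real.log (t * (c : ℝ)) := by
    rw [Real.le_log_iff_exp_le (lt_of_lt_of_le (Real.exp_pos 1) h1)]
    exact h1
  have h3 : 0 ≤ 1 / Real.log (t * (c : ℝ)) := by positivity
  have h4 : 1 / Real.log (t * (c : ℝ)) ≤ 1 := by
    rw [div_le_one (by linarith)]
    exact h2
  have h5 : |(if (⌊t * (c : ℝ) + β⌋₊).Prime then (1 : ℝ) else 0) - 1 / Real.log (t * (c : ℝ))| ≤ 1 := by
    rw [abs_le]
    split_ifs
    · constructor <;> linarith
    · constructor <;> linarith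
  calc |u c| * |(if (⌊t * (c : ℝ) + β⌋₊).Prime then (1 : ℝ) else 0) - 1 / Real.log (t * (c : ℝ))|
      ≤ 1 * 1 := mul_le_mul (hu c) h5 (abs_nonneg _) zero_le_one
    _ = 1 := one_mul 1

/-- The integral over the last multiplier. -/
private theorem EJ_inner {a b C K : ℝ} {u : ℕ → ℝ} (hu : ∀ c, |u c| ≤ 1) (T : Finset ℕ) (β : ℝ)
    (hT : ∀ c ∈ T, Real.exp 1 ≤ a * (c : ℝ))
    (hK : ∫ t in Set.Icc a b, (∑ c ∈ T, u c * ((if (⌊t * (c : ℝ) + β⌋₊).Prime then (1 : ℝ) else 0) -
      1 / Real.log (t * (c : ℝ)))) ^ 2 ≤ K) (f : ℝ → ℝ)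
    (hf : ∀ t, f t = C * ∑ c ∈ T, u c * ((if (⌊t * (c : ℝ) + β⌋₊).Prime then (1 : ℝ) else 0) -
      1 / Real.log (t * (c : ℝ)))) :
    ∫⁻ t in Set.Icc a b, ENNReal.ofReal (f t ^ 2) ≤ ENNReal.ofReal (C ^ 2 * K) := by
  have hm := EJ_inner_meas u T β
  have hi : IntegrableOn (fun t : ℝ => (∑ c ∈ T, u c * ((if (⌊t * (c : ℝ) + β⌋₊).Prime
      then (1 : ℝ) else 0) - 1 / Real.log (t * (c : ℝ)))) ^ 2) (Set.Icc a b) volume := by
    refine Measure.integrableOn_of_bounded (M := (T.card : ℝ) ^ 2) ?_ ?_ ?_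
    · rw [Real.volume_Icc]
      exact ENNReal.ofReal_ne_top
    · exact (hm.pow_const 2).aestronglyMeasurable
    · refine (ae_restrict_iff' measurableSet_Icc).2 (Filter.Eventually.of_forall fun t ht => ?_)
      rw [Real.norm_eq_abs, abs_pow]
      exact pow_le_pow_left₀ (abs_nonneg _) (EJ_inner_bd hu T β hT ht.1) 2
  have hi2 : IntegrableOn (fun t : ℝ => f t ^ 2) (Set.Icc a b) volume := by
    have h1 : (fun t : ℝ => f t ^ 2) = fun t : ℝ => C ^ 2 * (∑ c ∈ T, u c *
        ((if (⌊t * (c : ℝ) + β⌋₊).Prime then (1 : ℝ) else 0) - 1 / Real.log (t * (c : ℝ)))) ^ 2 := by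
      funext t
      rw [hf t, mul_pow]
    rw [h1]
    exact hi.const_mul _
  rw [← ofReal_integral_eq_lintegral_ofReal hi2 (Filter.Eventually.of_forall fun t => sq_nonneg _)]
  refine ENNReal.ofReal_le_ofReal ?_
  have h2 : ∫ t in Set.Icc a b, f t ^ 2 = C ^ 2 * ∫ t in Set.Icc a b, (∑ c ∈ T, u c *
        ((if (⌊t * (c : ℝ) + β⌋₊).Prime then (1 : ℝ) else 0) - 1 / Real.log (t * (c : ℝ)))) ^ 2 := by
    rw [← integral_const_mul]
    congr 1
    funext t
    rw [hf t, mul_pow]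
  rw [h2]
  exact mul_le_mul_of_nonneg_left hK (sq_nonneg C)

/-- Tonelli in the last coordinate. -/
private theorem EJ_fub {j : ℕ} {a b : Fin (j + 1) → ℝ} {f : (Fin (j + 1) → ℝ) → ℝ} (hf : Measurable f)
    {K : ENNReal} (hK : ∀ y ∈ Set.Icc (fun i : Fin j => a i.castSucc) (fun i : Fin j => b i.castSucc),
      ∀ g : ℝ → (Fin (j + 1) → ℝ), (∀ t, (fun i : Fin j => g t i.castSucc) = y) →
        (∀ t, g t (Fin.last j) = t) →
        ∫⁻ t in Set.Icc (a (Fin.last j)) (b (Fin.last j)), ENNReal.ofReal (f (g t) ^ 2) ≤ K) :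
    ∫⁻ x in Set.Icc a b, ENNReal.ofReal (f x ^ 2) ≤
      K * volume (Set.Icc (fun i : Fin j => a i.castSucc) (fun i : Fin j => b i.castSucc)) := by
  let e := MeasurableEquiv.piFinSuccAbove (fun _ : Fin (j + 1) => ℝ) (Fin.last j)
  have he : MeasurePreserving e volume volume :=
    volume_preserving_piFinSuccAbove (fun _ : Fin (j + 1) => ℝ) (Fin.last j)
  have hsym : MeasurePreserving e.symm volume volume := he.symm e
  have hcs : ∀ (t : ℝ) (y : Fin j → ℝ), (fun i : Fin j => e.symm (t, y) i.castSucc) = y := by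
    intro t y
    funext i
    have h4 : e (e.symm (t, y)) = (t, y) := e.apply_symm_apply _
    have h5 := congrFun (congrArg Prod.snd h4) i
    have h6 : (e (e.symm (t, y))).2 i = e.symm (t, y) ((Fin.last j).succAbove i) := rfl
    rw [h6, Fin.succAbove_last] at h5
    exact h5
  have hl : ∀ (t : ℝ) (y : Fin j → ℝ), e.symm (t, y) (Fin.last j) = t := by
    intro t y
    have h4 : e (e.symm (t, y)) = (t, y) := e.apply_symm_apply _
    exact congrArg Prod.fst h4
  have hg : Measurable ((Set.Icc a b).indicator fun x => ENNReal.ofReal (f x ^ 2)) :=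
    (ENNReal.measurable_ofReal.comp (hf.pow_const 2)).indicator measurableSet_Icc
  rw [← lintegral_indicator measurableSet_Icc, ← hsym.lintegral_comp hg]
  have h1 : ∫⁻ z : ℝ × (Fin j → ℝ), (Set.Icc a b).indicator (fun x => ENNReal.ofReal (f x ^ 2))
      (e.symm z) = ∫⁻ y : Fin j → ℝ, ∫⁻ t : ℝ, (Set.Icc a b).indicator
        (fun x => ENNReal.ofReal (f x ^ 2)) (e.symm (t, y)) :=
    lintegral_prod_symm _ (hg.comp e.symm.measurable).aemeasurable
  rw [h1]
  calc ∫⁻ y : Fin j → ℝ, ∫⁻ t : ℝ, (Set.Icc a b).indicator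
        (fun x => ENNReal.ofReal (f x ^ 2)) (e.symm (t, y))
      ≤ ∫⁻ y : Fin j → ℝ, (Set.Icc (fun i : Fin j => a i.castSucc)
          (fun i : Fin j => b i.castSucc)).indicator (fun _ => K) y := by
        refine lintegral_mono fun y => ?_
        by_cases hy : y ∈ Set.Icc (fun i : Fin j => a i.castSucc) (fun i : Fin j => b i.castSucc)
        · rw [Set.indicator_of_mem hy]
          refine le_trans ?_ (hK y hy (fun t => e.symm (t, y)) (fun t => hcs t y) (fun t => hl t y))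
          rw [← lintegral_indicator measurableSet_Icc]
          refine lintegral_mono fun t => ?_
          by_cases ht : e.symm (t, y) ∈ Set.Icc a b
          · have ht' : t ∈ Set.Icc (a (Fin.last j)) (b (Fin.last j)) := by
              have h5 := ht.1 (Fin.last j)
              have h6 := ht.2 (Fin.last j)
              rw [hl t y] at h5 h6
              exact ⟨h5, h6⟩
            rw [Set.indicator_of_mem ht, Set.indicator_of_mem ht']
          · rw [Set.indicator_of_notMem ht]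
            exact bot_le
        · rw [Set.indicator_of_notMem hy]
          refine le_of_eq ?_
          rw [lintegral_eq_zero_iff' ?_]
          · refine Filter.Eventually.of_forall fun t => ?_
            refine Set.indicator_of_notMem (fun ht => hy ?_) _
            have h7 := hcs t y
            refine ⟨fun i => ?_, fun i => ?_⟩
            · rw [← h7]
              exact ht.1 i.castSucc
            · rw [← h7]
              exact ht.2 i.castSucc
          · exact (hg.comp (e.symm.measurable.comp measurable_prodMk_right)).aemeasurable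
    _ ≤ K * volume (Set.Icc (fun i : Fin j => a i.castSucc) (fun i : Fin j => b i.castSucc)) :=
        lintegral_indicator_const_le _ _

theorem EJ_sq {j : ℕ} (β : ℕ → ℝ) {a b : Fin (j + 1) → ℝ} (ha : ∀ i, 0 < a i) (hab : ∀ i, a i < b i)
    (A : ℝ) : ∃ N0 : ℕ, 2 ≤ N0 ∧ ∀ N N' : ℕ, N0 ≤ N → N ≤ N' → N' ≤ 2 * N →
      ∫ x in Set.Icc a b, (EJ β N N' x) ^ 2 ≤ (N : ℝ) ^ 2 / Real.log N ^ A := by
  classical
  obtain ⟨C, X1, hC, hmult⟩ := mult β (a := fun i : Fin j => a i.castSucc)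
    (b := fun i : Fin j => b i.castSucc) (fun i => ha _) (fun i => (hab _).le)
  obtain ⟨κ1, κ2, X2, hκ1, -, hsize⟩ := MCC.chain_size β (a := fun i : Fin j => a i.castSucc)
    (b := fun i : Fin j => b i.castSucc) (fun i => ha _) (fun i => (hab _).le)
  obtain ⟨X3, -, hkey⟩ := key (a := a (Fin.last j)) (b := b (Fin.last j)) (κ1 := κ1) (κ2 := κ2)
    (β := β j) (A := A + 1) (ha _) (hab _) hκ1
  obtain ⟨V, hV⟩ : ∃ V : ℝ, V = (volume (Set.Icc (fun i : Fin j => a i.castSucc)
    (fun i : Fin j => b i.castSucc))).toReal := ⟨_, rfl⟩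
  have hVf : volume (Set.Icc (fun i : Fin j => a i.castSucc) (fun i : Fin j => b i.castSucc)) ≠ ⊤ := by
    rw [Real.volume_Icc_pi]
    exact ENNReal.prod_ne_top fun i _ => ENNReal.ofReal_ne_top
  have hV0 : 0 ≤ V := by
    rw [hV]
    exact ENNReal.toReal_nonneg
  obtain ⟨M, hM⟩ : ∃ M : ℝ, M = max (max X1 X2) (max X3 (max (Real.exp 1 / (a (Fin.last j) * κ1))
    (Real.exp (C ^ 2 * V)))) := ⟨_, rfl⟩
  refine ⟨max 2 ⌈M⌉₊, le_max_left _ _, fun N N' hN hN1 hN2 => ?_⟩
  have hN3 : 2 ≤ N := le_trans (le_max_left _ _) hN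
  have hN4 : M ≤ (N : ℝ) := le_trans (Nat.le_ceil M)
    (by exact_mod_cast le_trans (le_max_right _ _) hN)
  rw [hM] at hN4
  have hX1 : X1 ≤ (N : ℝ) := le_trans (le_trans (le_max_left _ _) (le_max_left _ _)) hN4
  have hX2 : X2 ≤ (N : ℝ) := le_trans (le_trans (le_max_right _ _) (le_max_left _ _)) hN4
  have hX3 : X3 ≤ (N : ℝ) := le_trans (le_trans (le_max_left _ _) (le_max_right _ _)) hN4
  have hX4 : Real.exp 1 / (a (Fin.last j) * κ1) ≤ (N : ℝ) :=
    le_trans (le_trans (le_trans (le_max_left _ _) (le_max_right _ _)) (le_max_right _ _)) hN4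
  have hX5 : Real.exp (C ^ 2 * V) ≤ (N : ℝ) :=
    le_trans (le_trans (le_trans (le_max_right _ _) (le_max_right _ _)) (le_max_right _ _)) hN4
  have hNr : (2 : ℝ) ≤ (N : ℝ) := by exact_mod_cast hN3
  have hNp : (0 : ℝ) < (N : ℝ) := by linarith
  have hal : 0 < a (Fin.last j) := ha _
  have hlog : 0 < Real.log N := Real.log_pos (by linarith)
  have hlog2 : C ^ 2 * V ≤ Real.log N := by
    rw [Real.le_log_iff_exp_le hNp]
    exact hX5
  obtain ⟨K, hKd⟩ : ∃ K : ℝ, K = (N : ℝ) ^ 2 / Real.log N ^ (A + 1) := ⟨_, rfl⟩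
  have hK0 : 0 ≤ K := by
    rw [hKd]
    exact div_nonneg (sq_nonneg _) (Real.rpow_nonneg hlog.le _)
  have main : ∫⁻ x in Set.Icc a b, ENNReal.ofReal (EJ β N N' x ^ 2) ≤
      ENNReal.ofReal (C ^ 2 * K) *
        volume (Set.Icc (fun i : Fin j => a i.castSucc) (fun i : Fin j => b i.castSucc)) := by
    refine EJ_fub (EJ_meas β N N') fun y hy g hg1 hg2 => ?_
    have hu : ∀ c : ℕ, |((((Finset.Ioc N N').filter fun p =>
        (∀ i ≤ j, (MCC.chain (MCC.ext y) β p i).Prime) ∧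
          MCC.chain (MCC.ext y) β p j = c).card : ℕ) : ℝ) / C| ≤ 1 := by
      intro c
      have h1 := hmult N hX1 y hy j le_rfl c
      have h2 : ⌊(N : ℝ)⌋₊ = N := Nat.floor_natCast N
      have h3 : ⌊2 * (N : ℝ)⌋₊ = 2 * N := by
        have h4 : (2 : ℝ) * (N : ℝ) = ((2 * N : ℕ) : ℝ) := by push_cast; ring
        rw [h4, Nat.floor_natCast]
      rw [h2, h3] at h1
      rw [abs_of_nonneg (by positivity), div_le_one (by linarith)]
      refine le_trans ?_ h1
      rw [Nat.cast_le]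
      refine Finset.card_le_card fun p hp => ?_
      rw [Finset.mem_filter, Finset.mem_Ioc] at hp ⊢
      exact ⟨⟨hp.1.1, le_trans hp.1.2 hN2⟩, hp.2.2⟩
    refine EJ_inner (u := fun c => ((((Finset.Ioc N N').filter fun p =>
        (∀ i ≤ j, (MCC.chain (MCC.ext y) β p i).Prime) ∧
          MCC.chain (MCC.ext y) β p j = c).card : ℕ) : ℝ) / C) hu
      (Finset.Icc ⌈κ1 * (N : ℝ)⌉₊ ⌊κ2 * (N : ℝ)⌋₊) (β j) ?_ ?_ (fun t => EJ β N N' (g t)) ?_
    · intro c hc
      have h1 : κ1 * (N : ℝ) ≤ (c : ℝ) := Nat.ceil_le.1 (Finset.mem_Icc.1 hc).1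
      rw [div_le_iff₀ (by positivity)] at hX4
      calc Real.exp 1 ≤ (N : ℝ) * (a (Fin.last j) * κ1) := hX4
        _ = a (Fin.last j) * (κ1 * (N : ℝ)) := by ring
        _ ≤ a (Fin.last j) * (c : ℝ) := mul_le_mul_of_nonneg_left h1 hal.le
    · rw [hKd]
      exact hkey N hX3 _ hu
    · intro t
      have h1 := EJ_group β N N' (g t) y (hg1 t)
        (Finset.Icc ⌈κ1 * (N : ℝ)⌉₊ ⌊κ2 * (N : ℝ)⌋₊) (by
          intro p hp
          rw [Finset.mem_Ioc] at hp
          have h2 := hsize N hX2 y hy p (by exact_mod_cast hp.1)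
            (by exact_mod_cast le_trans hp.2 hN2) j le_rfl
          rw [Finset.mem_Icc]
          exact ⟨Nat.ceil_le.2 h2.1, Nat.le_floor h2.2⟩)
      show EJ β N N' (g t) = _
      rw [h1, hg2 t, Finset.mul_sum]
      refine Finset.sum_congr rfl fun c _ => ?_
      have hCne : C ≠ 0 := by linarith
      field_simp
  have h5 : (0 : ℝ) ≤ (N : ℝ) ^ 2 / Real.log N ^ A :=
    div_nonneg (sq_nonneg _) (Real.rpow_nonneg hlog.le _)
  rw [integral_eq_lintegral_of_nonneg_ae (Filter.Eventually.of_forall fun x => sq_nonneg _)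
    ((EJ_meas β N N').pow_const 2).aestronglyMeasurable]
  refine ENNReal.toReal_le_of_le_ofReal h5 (main.trans ?_)
  have h6 : volume (Set.Icc (fun i : Fin j => a i.castSucc) (fun i : Fin j => b i.castSucc)) =
      ENNReal.ofReal V := by
    rw [hV, ENNReal.ofReal_toReal hVf]
  rw [h6, ← ENNReal.ofReal_mul (by positivity)]
  refine ENNReal.ofReal_le_ofReal ?_
  rw [hKd, Real.rpow_add_one hlog.ne']
  have h7 : C ^ 2 * ((N : ℝ) ^ 2 / (Real.log N ^ A * Real.log N)) * V =
      (C ^ 2 * V) / Real.log N * ((N : ℝ) ^ 2 / Real.log N ^ A) := by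
    have := hlog.ne'
    have := (Real.rpow_pos_of_pos hlog A).ne'
    field_simp
  rw [h7]
  have h8 : (C ^ 2 * V) / Real.log N ≤ 1 := by
    rw [div_le_one hlog]
    exact hlog2
  calc (C ^ 2 * V) / Real.log N * ((N : ℝ) ^ 2 / Real.log N ^ A)
      ≤ 1 * ((N : ℝ) ^ 2 / Real.log N ^ A) := mul_le_mul_of_nonneg_right h8 h5
    _ = _ := one_mul _

end AMC
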