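import Pool.Agent.AMC.Twist

/-!
# AMC.Hhat: the Fourier transform of `h` is small

PROOF. Substitute `e^s = q + t - β` (`q = ⌊e^s + β⌋`, `0 ≤ t < 1`, `ds = dt/(q + t - β)`):
`∫_{s>w/2} Λ(⌊e^s+β⌋) exp(-(s-w)²-iτs) ds = ∫_0^1 ∑_q Λ(q) (q+γ)^(-1-iτ) exp(-(log(q+γ)-w)²) 1[log(q+γ) > w/2] dt`,
`γ = t - β`. For fixed `t` let `χ` be a smooth cutoff (`0` for `x ≤ w/2 + 1` and for `x ≥ 4w`, `1` on `[w/2 + 2, 3w]`,
bounded derivatives) and `Ψ(x) = χ(x) exp((x-w)²/2 - (log(e^x+γ)-w)²) (1 + γ e^(-x))^(-1-iτ)`. Up to terms which are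
at most `exp(-w²/8)` the inner sum is `∑ Λ(q) q^(-1-iτ) exp(-(log q-w)²/2) Ψ(log q)`. `Ψ` is `C²`, compactly supported;
with `D = |x - w|`: `|Ψ(x)| ≤ C exp(-D²/4)` and `|Ψ'|, |Ψ''| ≤ C (1 + D + |τ| e^(-x))² exp(-D²/4)`,
`|τ| e^(-x) ≤ w^B e^D`, so `∫ |Ψ|, ∫ |Ψ''| ≤ C w^(2B)`. By `twist` (`K = 2`) the sum is
`∫ exp(-iτx) exp(-(x-w)²/2) Ψ(x) dx + O(w^(-A'))`, and with `e^x + γ = e^s` this integral is
`∫ exp(-iτs) exp(-(s-w)²) ds` up to `exp(-w²/8)`, the same as the contribution of the `-1` in `G`.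
-/

namespace AMC

open MeasureTheory

private theorem Hhat_expsub (K : ℝ → ℂ) :
    ∫ s : ℝ, (Real.exp s : ℂ) * K (Real.exp s) = ∫ y in Set.Ioi (0 : ℝ), K y := by
  have h := integral_image_eq_integral_abs_deriv_smul (s := Set.univ) (f := Real.exp) (f' := Real.exp)
    MeasurableSet.univ (fun x _ => (Real.hasDerivAt_exp x).hasDerivWithinAt)
    (Real.exp_injective.injOn) K
  rw [Set.image_univ, Real.range_exp, Measure.restrict_univ] at h
  rw [h]
  refine integral_congr_ae (Filter.Eventually.of_forall fun s => ?_)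
  simp [abs_of_pos (Real.exp_pos s)]

private theorem Hhat_cut : ∃ b b1 b2 : ℝ → ℝ, ∃ K : ℝ, 1 ≤ K ∧ ContDiff ℝ 2 b ∧
    (∀ z, 0 ≤ b z) ∧ (∀ z, b z ≤ 1) ∧ (∀ z, |z| ≤ 1 / 4 → b z = 1) ∧
    (∀ z, 1 / 3 ≤ |z| → b z = 0) ∧ (∀ z, HasDerivAt b (b1 z) z) ∧ (∀ z, HasDerivAt b1 (b2 z) z) ∧
    (∀ z, |b1 z| ≤ K) ∧ (∀ z, |b2 z| ≤ K) := by
  let f : ContDiffBump (0 : ℝ) := ⟨1 / 4, 1 / 3, by norm_num, by norm_num⟩
  have hf : ContDiff ℝ 3 f := f.contDiff
  have hc : HasCompactSupport f := f.hasCompactSupport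
  have h1 : ContDiff ℝ 2 (deriv f) := by
    have := (contDiff_succ_iff_deriv (n := 2) (f := (f : ℝ → ℝ)) (𝕜 := ℝ)).1 (by exact_mod_cast hf)
    exact this.2.2
  have h2 : ContDiff ℝ 1 (deriv (deriv f)) := by
    have := (contDiff_succ_iff_deriv (n := 1) (f := deriv (f : ℝ → ℝ)) (𝕜 := ℝ)).1 (by exact_mod_cast h1)
    exact this.2.2
  obtain ⟨K1, hK1⟩ := h1.continuous.bounded_above_of_compact_support hc.deriv
  obtain ⟨K2, hK2⟩ := h2.continuous.bounded_above_of_compact_support hc.deriv.deriv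
  refine ⟨f, deriv f, deriv (deriv f), max 1 (max K1 K2), le_max_left _ _, f.contDiff, fun z => f.nonneg,
    fun z => f.le_one, ?_, ?_, ?_, ?_, ?_, ?_⟩
  · intro z hz
    refine f.one_of_mem_closedBall ?_
    rw [Metric.mem_closedBall, Real.dist_eq, sub_zero]
    exact hz
  · intro z hz
    refine f.zero_of_le_dist ?_
    rw [Real.dist_eq, sub_zero]
    exact hz
  · intro z
    exact (hf.differentiable (by norm_num) z).hasDerivAt
  · intro z
    exact (h1.differentiable (by norm_num) z).hasDerivAt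
  · intro z
    exact (hK1 z).trans ((le_max_left _ _).trans (le_max_right _ _))
  · intro z
    exact (hK2 z).trans ((le_max_right _ _).trans (le_max_right _ _))

/-- Weight as a function of `y = e^s`. -/
private noncomputable def Hhat_hhk (b : ℝ → ℝ) (w τ y : ℝ) : ℂ :=
  if 0 < y then (b (Real.log y / w - 1) : ℂ) * (Real.exp (-(Real.log y - w) ^ 2) : ℝ) *
    Complex.exp (-((1 + τ * Complex.I) * Real.log y)) else 0

private theorem Hhat_hhk_low {b : ℝ → ℝ} (hb : ∀ z, 1 / 3 ≤ |z| → b z = 0) {w τ y : ℝ} (hw : 0 < w)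
    (hy : y ≤ Real.exp (2 * w / 3)) : Hhat_hhk b w τ y = 0 := by
  unfold Hhat_hhk
  split_ifs with h
  · have h1 : Real.log y ≤ 2 * w / 3 := by
      have := Real.log_le_log h hy
      rwa [Real.log_exp] at this
    have h2 : Real.log y / w - 1 ≤ -(1 / 3) := by
      have : Real.log y / w ≤ 2 / 3 := by
        rw [div_le_iff₀ hw]; linarith
      linarith
    rw [hb _ (by rw [abs_of_neg (by linarith)]; linarith)]
    simp
  · rfl

private theorem Hhat_hhk_high {b : ℝ → ℝ} (hb : ∀ z, 1 / 3 ≤ |z| → b z = 0) {w τ y : ℝ} (hw : 0 < w)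
    (hy : Real.exp (4 * w / 3) ≤ y) : Hhat_hhk b w τ y = 0 := by
  unfold Hhat_hhk
  split_ifs with h
  · have h1 : 4 * w / 3 ≤ Real.log y := by
      have := Real.log_le_log (Real.exp_pos _) hy
      rwa [Real.log_exp] at this
    have h2 : 1 / 3 ≤ Real.log y / w - 1 := by
      have : 4 / 3 ≤ Real.log y / w := by
        rw [le_div_iff₀ hw]; linarith
      linarith
    rw [hb _ (by rw [abs_of_pos (by linarith)]; linarith)]
    simp
  · rfl

private theorem Hhat_hhk_cont {b : ℝ → ℝ} (hbc : Continuous b) (hb : ∀ z, 1 / 3 ≤ |z| → b z = 0) {w τ : ℝ}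
    (hw : 0 < w) : Continuous (Hhat_hhk b w τ) := by
  rw [continuous_iff_continuousAt]
  intro y
  by_cases hy : y < Real.exp (2 * w / 3)
  · have : Hhat_hhk b w τ =ᶠ[nhds y] fun _ => 0 := by
      filter_upwards [Iio_mem_nhds hy] with z hz
      exact Hhat_hhk_low hb hw hz.le
    exact (continuousAt_const.congr this.symm)
  · have hy0 : 0 < y := lt_of_lt_of_le (Real.exp_pos _) (not_lt.1 hy)
    have : Hhat_hhk b w τ =ᶠ[nhds y] fun y => (b (Real.log y / w - 1) : ℂ) *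
        (Real.exp (-(Real.log y - w) ^ 2) : ℝ) *
        Complex.exp (-((1 + τ * Complex.I) * Real.log y)) := by
      filter_upwards [Ioi_mem_nhds hy0] with z hz
      unfold Hhat_hhk
      rw [if_pos (show 0 < z from hz)]
    refine ContinuousAt.congr ?_ this.symm
    have h1 : ContinuousAt Real.log y := Real.continuousAt_log hy0.ne'
    have h2 : ContinuousAt (fun y => b (Real.log y / w - 1)) y := by
      have h3 : ContinuousAt (fun y => Real.log y / w - 1) y := by fun_prop (disch := assumption)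
      exact ContinuousAt.comp (g := b) hbc.continuousAt h3
    have h4 : ContinuousAt (fun y => ((b (Real.log y / w - 1) : ℝ) : ℂ)) y :=
      Complex.continuous_ofReal.continuousAt.comp h2
    have h5 : ContinuousAt (fun y => ((Real.log y : ℝ) : ℂ)) y :=
      Complex.continuous_ofReal.continuousAt.comp h1
    have h6 : ContinuousAt (fun y => ((Real.exp (-(Real.log y - w) ^ 2) : ℝ) : ℂ)) y := by
      refine Complex.continuous_ofReal.continuousAt.comp ?_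
      exact Real.continuous_exp.continuousAt.comp ((h1.sub continuousAt_const).pow 2).neg
    have h7 : ContinuousAt (fun y => Complex.exp (-((1 + τ * Complex.I) * Real.log y))) y := by
      exact Complex.continuous_exp.continuousAt.comp (continuousAt_const.mul h5).neg
    exact (h4.mul h6).mul h7

/-- sum of integrals over unit intervals -/
private theorem Hhat_unit {k : ℝ → ℂ} (hk : Continuous k) {β R1 R2 : ℝ} (h1 : ∀ y ≤ R1, k y = 0)
    (h2 : ∀ y, R2 ≤ y → k y = 0) (hR : -β ≤ R1) (hR0 : 0 ≤ R1) (c : ℕ → ℝ) {N : ℕ} (hN : R2 + β ≤ N) :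
    ∫ t in (0 : ℝ)..1, ∑ q ∈ Finset.range N, (c q : ℂ) * k (q + (t - β)) =
      ∫ y in Set.Ioi (0 : ℝ), (c ⌊y + β⌋₊ : ℂ) * k y := by
  have hfl : ∀ q : ℕ, Set.EqOn (fun y => (c q : ℂ) * k y) (fun y => (c ⌊y + β⌋₊ : ℂ) * k y)
      (Set.Ioo ((q : ℝ) - β) (((q + 1 : ℕ) : ℝ) - β)) := by
    intro q y hy
    have : ⌊y + β⌋₊ = q := by
      rw [Nat.floor_eq_iff (by linarith [hy.1, (Nat.cast_nonneg q : (0:ℝ) ≤ q)])]
      push_cast at hy
      exact ⟨by linarith [hy.1], by linarith [hy.2]⟩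
    simp only [this]
  have hle : ∀ q : ℕ, (q : ℝ) - β ≤ ((q + 1 : ℕ) : ℝ) - β := fun q => by push_cast; linarith
  have hint : ∀ q < N, IntervalIntegrable (fun y => (c ⌊y + β⌋₊ : ℂ) * k y) volume
      ((fun q : ℕ => (q : ℝ) - β) q) ((fun q : ℕ => (q : ℝ) - β) (q + 1)) := by
    intro q _
    refine IntervalIntegrable.congr_uIoo (f := fun y => (c q : ℂ) * k y) ?_ ?_
    · exact (continuous_const.mul hk).intervalIntegrable _ _
    · rw [Set.uIoo_of_le (hle q)]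
      exact hfl q
  calc ∫ t in (0 : ℝ)..1, ∑ q ∈ Finset.range N, (c q : ℂ) * k (q + (t - β))
      = ∑ q ∈ Finset.range N, ∫ t in (0 : ℝ)..1, (c q : ℂ) * k (q + (t - β)) := by
        refine intervalIntegral.integral_finsetSum fun q _ => ?_
        exact (continuous_const.mul (hk.comp (by fun_prop))).intervalIntegrable _ _
    _ = ∑ q ∈ Finset.range N, ∫ y in ((fun q : ℕ => (q : ℝ) - β) q)..((fun q : ℕ => (q : ℝ) - β) (q + 1)),
          (c ⌊y + β⌋₊ : ℂ) * k y := by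
        refine Finset.sum_congr rfl fun q _ => ?_
        have e1 : ∫ t in (0 : ℝ)..1, (c q : ℂ) * k (q + (t - β)) =
            ∫ t in (0 : ℝ)..1, (fun y => (c q : ℂ) * k y) (t + (q - β)) := by
          congr 1
          funext t
          show (c q : ℂ) * k (q + (t - β)) = (c q : ℂ) * k (t + (q - β))
          congr 2
          ring
        have e4 := intervalIntegral.integral_comp_add_right (a := (0 : ℝ)) (b := 1)
          (fun y => (c q : ℂ) * k y) ((q : ℝ) - β)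
        rw [e1, e4]
        have e2 : (0 : ℝ) + (q - β) = q - β := by ring
        have e3 : (1 : ℝ) + (q - β) = ((q + 1 : ℕ) : ℝ) - β := by push_cast; ring
        rw [e2, e3]
        exact intervalIntegral.integral_congr_Ioo_of_le (hle q) (hfl q)
    _ = ∫ y in (((0 : ℕ) : ℝ) - β)..((N : ℝ) - β), (c ⌊y + β⌋₊ : ℂ) * k y :=
        intervalIntegral.sum_integral_adjacent_intervals hint
    _ = ∫ y : ℝ, (c ⌊y + β⌋₊ : ℂ) * k y := by
        rw [intervalIntegral.integral_of_le (by push_cast; linarith [(Nat.cast_nonneg N : (0:ℝ) ≤ N)])]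
        refine setIntegral_eq_integral_of_forall_compl_eq_zero fun y hy => ?_
        rw [Set.mem_Ioc, not_and_or] at hy
        rcases hy with hy | hy
        · rw [h1 y (by push_cast at hy; linarith), mul_zero]
        · rw [h2 y (by push_cast at hy; linarith), mul_zero]
    _ = ∫ y in Set.Ioi (0 : ℝ), (c ⌊y + β⌋₊ : ℂ) * k y := by
        refine (setIntegral_eq_integral_of_forall_compl_eq_zero fun y hy => ?_).symm
        rw [h1 y (by simp only [Set.mem_Ioi, not_lt] at hy; linarith), mul_zero]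

/-- translation of the main term -/
private theorem Hhat_trans {k : ℝ → ℂ} {R1 γ : ℝ} (h1 : ∀ y ≤ R1, k y = 0) (hR0 : 0 ≤ R1) (hR : γ ≤ R1) :
    ∫ y in Set.Ioi (0 : ℝ), k (y + γ) = ∫ y in Set.Ioi (0 : ℝ), k y := by
  rw [setIntegral_eq_integral_of_forall_compl_eq_zero (fun y hy => h1 _ (by
      simp only [Set.mem_Ioi, not_lt] at hy; linarith)),
    setIntegral_eq_integral_of_forall_compl_eq_zero (fun y hy => h1 _ (by
      simp only [Set.mem_Ioi, not_lt] at hy; linarith))]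
  exact integral_add_right_eq_self k γ

private noncomputable def Hhat_hL (γ x : ℝ) : ℝ := Real.log (Real.exp x + γ)
private noncomputable def Hhat_hL1 (γ x : ℝ) : ℝ := Real.exp x / (Real.exp x + γ)
private noncomputable def Hhat_hL2 (γ x : ℝ) : ℝ := γ * Real.exp x / (Real.exp x + γ) ^ 2

private theorem Hhat_hL_der {γ x : ℝ} (hx : 0 < Real.exp x + γ) : HasDerivAt (Hhat_hL γ) (Hhat_hL1 γ x) x := by
  have h := ((Real.hasDerivAt_exp x).add_const γ).log hx.ne'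
  exact h

private theorem Hhat_hL1_der {γ x : ℝ} (hx : 0 < Real.exp x + γ) : HasDerivAt (Hhat_hL1 γ) (Hhat_hL2 γ x) x := by
  have h := (Real.hasDerivAt_exp x).div ((Real.hasDerivAt_exp x).add_const γ) hx.ne'
  refine h.congr_deriv ?_
  unfold Hhat_hL2
  congr 1
  ring

private noncomputable def Hhat_hP (w τ γ x : ℝ) : ℂ :=
  (((x - w) ^ 2 / 2 - (Hhat_hL γ x - w) ^ 2 : ℝ) : ℂ) - (1 + τ * Complex.I) * ((Hhat_hL γ x - x : ℝ) : ℂ)
private noncomputable def Hhat_hP1 (w τ γ x : ℝ) : ℂ :=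
  (((x - w) - 2 * (Hhat_hL γ x - w) * Hhat_hL1 γ x : ℝ) : ℂ) - (1 + τ * Complex.I) * ((Hhat_hL1 γ x - 1 : ℝ) : ℂ)
private noncomputable def Hhat_hP2 (w τ γ x : ℝ) : ℂ :=
  ((1 - 2 * (Hhat_hL1 γ x * Hhat_hL1 γ x + (Hhat_hL γ x - w) * Hhat_hL2 γ x) : ℝ) : ℂ) -
    (1 + τ * Complex.I) * ((Hhat_hL2 γ x : ℝ) : ℂ)

private theorem Hhat_hP_der {w τ γ x : ℝ} (hx : 0 < Real.exp x + γ) :
    HasDerivAt (Hhat_hP w τ γ) (Hhat_hP1 w τ γ x) x := by
  have h1 := Hhat_hL_der hx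
  have h2 : HasDerivAt (fun x => (x - w) ^ 2 / 2 - (Hhat_hL γ x - w) ^ 2)
      ((x - w) - 2 * (Hhat_hL γ x - w) * Hhat_hL1 γ x) x := by
    have h3 := ((((hasDerivAt_id x).sub_const w).pow 2).div_const 2).sub ((h1.sub_const w).pow 2)
    refine h3.congr_deriv ?_
    simp
  have h4 : HasDerivAt (fun x => Hhat_hL γ x - x) (Hhat_hL1 γ x - 1) x := h1.sub (hasDerivAt_id x)
  exact h2.ofReal_comp.sub (h4.ofReal_comp.const_mul _)

private theorem Hhat_hP1_der {w τ γ x : ℝ} (hx : 0 < Real.exp x + γ) :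
    HasDerivAt (Hhat_hP1 w τ γ) (Hhat_hP2 w τ γ x) x := by
  have h1 := Hhat_hL_der hx
  have h1' := Hhat_hL1_der hx
  have h2 : HasDerivAt (fun x => (x - w) - 2 * (Hhat_hL γ x - w) * Hhat_hL1 γ x)
      (1 - 2 * (Hhat_hL1 γ x * Hhat_hL1 γ x + (Hhat_hL γ x - w) * Hhat_hL2 γ x)) x := by
    have h3 := ((hasDerivAt_id x).sub_const w).sub (((h1.sub_const w).const_mul 2).mul h1')
    refine h3.congr_deriv ?_
    ring
  have h4 : HasDerivAt (fun x => Hhat_hL1 γ x - 1) (Hhat_hL2 γ x) x := h1'.sub_const 1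
  exact h2.ofReal_comp.sub (h4.ofReal_comp.const_mul _)

private noncomputable def Hhat_hX (b : ℝ → ℝ) (w γ x : ℝ) : ℝ := b (Hhat_hL γ x / w - 1)
private noncomputable def Hhat_hX2 (b1 b2 : ℝ → ℝ) (w γ x : ℝ) : ℝ :=
  b2 (Hhat_hL γ x / w - 1) * (Hhat_hL1 γ x / w) * (Hhat_hL1 γ x / w) + b1 (Hhat_hL γ x / w - 1) * (Hhat_hL2 γ x / w)

private theorem Hhat_hX_der {b b1 : ℝ → ℝ} (hb : ∀ z, HasDerivAt b (b1 z) z) {w γ x : ℝ}
    (hx : 0 < Real.exp x + γ) :
    HasDerivAt (Hhat_hX b w γ) (Hhat_hX b1 w γ x * (Hhat_hL1 γ x / w)) x := by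
  have h1 := Hhat_hL_der hx
  exact (hb (Hhat_hL γ x / w - 1)).comp x ((h1.div_const w).sub_const 1)

private theorem Hhat_hX1_der {b1 b2 : ℝ → ℝ} (hb : ∀ z, HasDerivAt b1 (b2 z) z) {w γ x : ℝ}
    (hx : 0 < Real.exp x + γ) :
    HasDerivAt (fun x => Hhat_hX b1 w γ x * (Hhat_hL1 γ x / w)) (Hhat_hX2 b1 b2 w γ x) x := by
  have h1 := Hhat_hX_der hb (w := w) hx
  exact h1.mul ((Hhat_hL1_der hx).div_const w)

private noncomputable def Hhat_hF (b : ℝ → ℝ) (w τ γ x : ℝ) : ℂ := (Hhat_hX b w γ x : ℂ) * Complex.exp (Hhat_hP w τ γ x)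

private noncomputable def Hhat_hF1 (b b1 : ℝ → ℝ) (w τ γ x : ℝ) : ℂ :=
  (((Hhat_hX b1 w γ x * (Hhat_hL1 γ x / w) : ℝ) : ℂ) + (Hhat_hX b w γ x : ℂ) * Hhat_hP1 w τ γ x) * Complex.exp (Hhat_hP w τ γ x)

private noncomputable def Hhat_hF2 (b b1 b2 : ℝ → ℝ) (w τ γ x : ℝ) : ℂ :=
  (((Hhat_hX2 b1 b2 w γ x : ℝ) : ℂ) + (((Hhat_hX b1 w γ x * (Hhat_hL1 γ x / w) : ℝ) : ℂ) * Hhat_hP1 w τ γ x +
      (Hhat_hX b w γ x : ℂ) * Hhat_hP2 w τ γ x)) * Complex.exp (Hhat_hP w τ γ x) +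
    (((Hhat_hX b1 w γ x * (Hhat_hL1 γ x / w) : ℝ) : ℂ) + (Hhat_hX b w γ x : ℂ) * Hhat_hP1 w τ γ x) *
      (Complex.exp (Hhat_hP w τ γ x) * Hhat_hP1 w τ γ x)

private theorem Hhat_hF_der {b b1 : ℝ → ℝ} (hb : ∀ z, HasDerivAt b (b1 z) z) {w τ γ x : ℝ}
    (hx : 0 < Real.exp x + γ) : HasDerivAt (Hhat_hF b w τ γ) (Hhat_hF1 b b1 w τ γ x) x := by
  have h := (Hhat_hX_der hb (w := w) hx).ofReal_comp.mul (Hhat_hP_der (w := w) (τ := τ) hx).cexp
  refine h.congr_deriv ?_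
  unfold Hhat_hF1
  ring

private theorem Hhat_hF1_der {b b1 b2 : ℝ → ℝ} (hb : ∀ z, HasDerivAt b (b1 z) z)
    (hb1 : ∀ z, HasDerivAt b1 (b2 z) z) {w τ γ x : ℝ}
    (hx : 0 < Real.exp x + γ) : HasDerivAt (Hhat_hF1 b b1 w τ γ) (Hhat_hF2 b b1 b2 w τ γ x) x := by
  exact ((Hhat_hX1_der hb1 (w := w) hx).ofReal_comp.add ((Hhat_hX_der hb (w := w) hx).ofReal_comp.mul
    (Hhat_hP1_der (w := w) (τ := τ) hx))).mul (Hhat_hP_der (w := w) (τ := τ) hx).cexp

private theorem Hhat_hL_bound {γ Γ x : ℝ} (hγ : |γ| ≤ Γ) (hx : Γ * Real.exp (-x) ≤ 1 / 4) :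
    0 < Real.exp x + γ ∧ |Hhat_hL γ x - x| ≤ 2 * (Γ * Real.exp (-x)) ∧ |Hhat_hL1 γ x| ≤ 2 ∧
      |Hhat_hL1 γ x - 1| ≤ 2 * (Γ * Real.exp (-x)) ∧ |Hhat_hL2 γ x| ≤ 2 * (Γ * Real.exp (-x)) := by
  set u := γ * Real.exp (-x) with hu
  have he : 0 < Real.exp (-x) := Real.exp_pos _
  have hex : Real.exp x * Real.exp (-x) = 1 := by rw [← Real.exp_add]; simp
  have hu1 : |u| ≤ Γ * Real.exp (-x) := by
    rw [hu, abs_mul, abs_of_pos he]
    exact mul_le_mul_of_nonneg_right hγ he.le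
  have hu2 : |u| ≤ 1 / 4 := hu1.trans hx
  have hu3 := abs_le.1 hu2
  have h1u : 0 < 1 + u := by linarith
  have hfac : Real.exp x + γ = Real.exp x * (1 + u) := by
    rw [hu, mul_add, mul_one, mul_left_comm, hex, mul_one]
  have hpos : 0 < Real.exp x + γ := by rw [hfac]; exact mul_pos (Real.exp_pos x) h1u
  have hLe : Hhat_hL γ x - x = Real.log (1 + u) := by
    unfold Hhat_hL
    rw [hfac, Real.log_mul (Real.exp_pos x).ne' h1u.ne', Real.log_exp]
    ring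
  have hL1e : Hhat_hL1 γ x = 1 / (1 + u) := by
    unfold Hhat_hL1
    rw [hfac]
    field_simp
  have hL2e : Hhat_hL2 γ x = u / (1 + u) ^ 2 := by
    unfold Hhat_hL2
    rw [hfac]
    have : γ = u * Real.exp x := by rw [hu, mul_assoc, mul_comm (Real.exp (-x)), hex, mul_one]
    rw [this]
    field_simp
  refine ⟨hpos, ?_, ?_, ?_, ?_⟩
  · refine le_trans ?_ (mul_le_mul_of_nonneg_left hu1 (by norm_num))
    rw [hLe, abs_le]
    constructor
    · have h2 := Real.one_sub_inv_le_log_of_pos h1u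
      have h3 : 1 - (1 + u)⁻¹ = u / (1 + u) := by field_simp; ring
      rw [h3] at h2
      refine le_trans ?_ h2
      rw [le_div_iff₀ h1u]
      nlinarith [neg_abs_le u, abs_nonneg u]
    · have h2 := Real.log_le_sub_one_of_pos h1u
      linarith [le_abs_self u, abs_nonneg u]
  · rw [hL1e, abs_of_pos (by positivity), div_le_iff₀ h1u]
    linarith
  · refine le_trans ?_ (mul_le_mul_of_nonneg_left hu1 (by norm_num))
    have h3 : Hhat_hL1 γ x - 1 = -u / (1 + u) := by rw [hL1e]; field_simp; ring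
    rw [h3, abs_div, abs_neg, abs_of_pos h1u, div_le_iff₀ h1u]
    nlinarith [abs_nonneg u]
  · refine le_trans ?_ (mul_le_mul_of_nonneg_left hu1 (by norm_num))
    rw [hL2e, abs_div, abs_of_pos (by positivity : 0 < (1 + u) ^ 2), div_le_iff₀ (by positivity)]
    nlinarith [abs_nonneg u, mul_nonneg (abs_nonneg u) h1u.le, mul_nonneg (abs_nonneg u) (sq_nonneg (1 + u))]


private theorem Hhat_hre_add (a : ℝ) (τ c : ℝ) :
    (((a : ℝ) : ℂ) - (1 + τ * Complex.I) * ((c : ℝ) : ℂ)).re = a - c := by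
  simp

private theorem Hhat_hnorm_P (a τ c : ℝ) :
    ‖((a : ℝ) : ℂ) - (1 + τ * Complex.I) * ((c : ℝ) : ℂ)‖ ≤ |a| + (1 + |τ|) * |c| := by
  refine (norm_sub_le _ _).trans ?_
  rw [norm_mul, Complex.norm_real, Complex.norm_real, Real.norm_eq_abs, Real.norm_eq_abs]
  refine add_le_add le_rfl (mul_le_mul_of_nonneg_right ?_ (abs_nonneg c))
  refine (norm_add_le _ _).trans ?_
  rw [norm_mul, Complex.norm_real, Complex.norm_I, norm_one, mul_one, Real.norm_eq_abs]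

private theorem Hhat_hF_bounds {b b1 b2 : ℝ → ℝ} {K : ℝ} (hK : 1 ≤ K) (hb0 : ∀ z, 0 ≤ b z) (hb1' : ∀ z, b z ≤ 1)
    (hb1 : ∀ z, |b1 z| ≤ K) (hb2 : ∀ z, |b2 z| ≤ K) {w τ γ Γ W x : ℝ} (hw : 1 ≤ w) (hW : 1 ≤ W)
    (hγ : |γ| ≤ Γ) (hx : Γ * Real.exp (-x) ≤ 1 / 4) (hτ : |τ| ≤ Real.exp w * W) :
    ‖Hhat_hF b w τ γ x‖ ≤ 11 * K * (10 + 2 * Γ) ^ 2 * Real.exp 10 * W ^ 2 * Real.exp (-(1 / 8) * (x - w) ^ 2) ∧
    ‖Hhat_hF2 b b1 b2 w τ γ x‖ ≤
      11 * K * (10 + 2 * Γ) ^ 2 * Real.exp 10 * W ^ 2 * Real.exp (-(1 / 8) * (x - w) ^ 2) := by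
  obtain ⟨hpos, hv, hL1b, hL11, hL2b⟩ := Hhat_hL_bound hγ hx
  have hΓ : 0 ≤ Γ := (abs_nonneg γ).trans hγ
  set U := Γ * Real.exp (-x) with hU
  have hU0 : 0 ≤ U := mul_nonneg hΓ (Real.exp_pos _).le
  set D := |x - w| with hD
  have hD0 : 0 ≤ D := abs_nonneg _
  have heD : D + 1 ≤ Real.exp D := Real.add_one_le_exp D
  -- `|τ| U ≤ Γ W exp D`
  have hτU : |τ| * U ≤ Γ * W * Real.exp D := by
    have h1 : Real.exp w * Real.exp (-x) ≤ Real.exp D := by
      rw [← Real.exp_add]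
      refine Real.exp_le_exp.2 ?_
      have := neg_abs_le (x - w)
      linarith
    calc |τ| * U = (|τ| * Real.exp (-x)) * Γ := by rw [hU]; ring
      _ ≤ (Real.exp w * W * Real.exp (-x)) * Γ := by
          gcongr
      _ = (Real.exp w * Real.exp (-x)) * (W * Γ) := by ring
      _ ≤ Real.exp D * (W * Γ) := by gcongr
      _ = Γ * W * Real.exp D := by ring
  set M := (10 + 2 * Γ) * W * Real.exp D with hM
  have hWe : 1 ≤ Real.exp D := by linarith
  have hM1 : 10 * (D + 1) + 2 * (|τ| * U) ≤ M := by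
    have h1 : D + 1 ≤ W * Real.exp D := by
      calc D + 1 ≤ 1 * Real.exp D := by linarith
        _ ≤ W * Real.exp D := by gcongr
    rw [hM]
    nlinarith
  have hM0 : 1 ≤ M := by
    have : 0 ≤ |τ| * U := mul_nonneg (abs_nonneg _) hU0
    linarith
  have hLw : |Hhat_hL γ x - w| ≤ D + 1 / 2 := by
    have h1 : Hhat_hL γ x - w = (Hhat_hL γ x - x) + (x - w) := by ring
    rw [h1]
    refine (abs_add_le _ _).trans ?_
    linarith
  have hP1b : ‖Hhat_hP1 w τ γ x‖ ≤ M := by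
    refine (Hhat_hnorm_P _ _ _).trans (le_trans ?_ hM1)
    have h1 : |(x - w) - 2 * (Hhat_hL γ x - w) * Hhat_hL1 γ x| ≤ D + 2 * (D + 1 / 2) * 2 := by
      refine (abs_sub _ _).trans ?_
      rw [abs_mul, abs_mul]
      have h2 : |(2 : ℝ)| = 2 := abs_of_pos two_pos
      rw [h2]
      refine add_le_add le_rfl ?_
      refine mul_le_mul ?_ hL1b (abs_nonneg _) (by positivity)
      linarith
    have h3 : (1 + |τ|) * |Hhat_hL1 γ x - 1| ≤ 1 / 2 + 2 * (|τ| * U) := by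
      calc (1 + |τ|) * |Hhat_hL1 γ x - 1| ≤ (1 + |τ|) * (2 * U) := by gcongr
        _ = 2 * U + 2 * (|τ| * U) := by ring
        _ ≤ _ := by linarith
    linarith
  have hP2b : ‖Hhat_hP2 w τ γ x‖ ≤ M := by
    refine (Hhat_hnorm_P _ _ _).trans (le_trans ?_ hM1)
    have h1 : |1 - 2 * (Hhat_hL1 γ x * Hhat_hL1 γ x + (Hhat_hL γ x - w) * Hhat_hL2 γ x)| ≤
        1 + 2 * (2 * 2 + (D + 1 / 2) * (1 / 2)) := by
      refine (abs_sub _ _).trans ?_
      rw [abs_mul]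
      have h2 : |(2 : ℝ)| = 2 := abs_of_pos two_pos
      rw [h2, abs_one]
      refine add_le_add le_rfl (mul_le_mul_of_nonneg_left ?_ (by norm_num))
      refine (abs_add_le _ _).trans ?_
      rw [abs_mul, abs_mul]
      refine add_le_add ?_ ?_
      · exact mul_le_mul hL1b hL1b (abs_nonneg _) (by norm_num)
      · exact mul_le_mul hLw (hL2b.trans (by linarith)) (abs_nonneg _) (by positivity)
    have h3 : (1 + |τ|) * |Hhat_hL2 γ x| ≤ 1 / 2 + 2 * (|τ| * U) := by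
      calc (1 + |τ|) * |Hhat_hL2 γ x| ≤ (1 + |τ|) * (2 * U) := by gcongr
        _ = 2 * U + 2 * (|τ| * U) := by ring
        _ ≤ _ := by linarith
    linarith
  have hE : ‖Complex.exp (Hhat_hP w τ γ x)‖ ≤ Real.exp (2 - D ^ 2 / 4) := by
    rw [Complex.norm_exp]
    refine Real.exp_le_exp.2 ?_
    unfold Hhat_hP
    rw [Hhat_hre_add]
    have hv2 := abs_le.1 hv
    have hD2 : (x - w) ^ 2 = D ^ 2 := by rw [hD, sq_abs]
    have h1 : (x - w) ^ 2 / 2 - (Hhat_hL γ x - w) ^ 2 - (Hhat_hL γ x - x) =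
        -(D ^ 2 / 2) - 2 * ((x - w) * (Hhat_hL γ x - x)) - (Hhat_hL γ x - x) ^ 2 - (Hhat_hL γ x - x) := by
      rw [← hD2]; ring
    rw [h1]
    have h2 : -((x - w) * (Hhat_hL γ x - x)) ≤ D * (1 / 2) := by
      have h3 : |(x - w) * (Hhat_hL γ x - x)| ≤ D * (1 / 2) := by
        rw [abs_mul]
        exact mul_le_mul_of_nonneg_left (hv.trans (by linarith)) hD0
      exact (neg_le_abs _).trans h3
    nlinarith [sq_nonneg (Hhat_hL γ x - x), sq_nonneg (D - 2)]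
  have hXb : |Hhat_hX b w γ x| ≤ 1 := by
    unfold Hhat_hX
    rw [abs_of_nonneg (hb0 _)]
    exact hb1' _
  have hL1w : |Hhat_hL1 γ x / w| ≤ 2 := by
    rw [abs_div, abs_of_pos (by linarith : 0 < w), div_le_iff₀ (by linarith)]
    nlinarith
  have hL2w : |Hhat_hL2 γ x / w| ≤ 1 := by
    rw [abs_div, abs_of_pos (by linarith : 0 < w), div_le_iff₀ (by linarith)]
    have := hL2b
    nlinarith
  have hX1b : |Hhat_hX b1 w γ x * (Hhat_hL1 γ x / w)| ≤ 2 * K := by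
    rw [abs_mul]
    unfold Hhat_hX
    calc |b1 (Hhat_hL γ x / w - 1)| * |Hhat_hL1 γ x / w| ≤ K * 2 := by
          gcongr
          exact hb1 _
      _ = 2 * K := by ring
  have hX2b : |Hhat_hX2 b1 b2 w γ x| ≤ 5 * K := by
    unfold Hhat_hX2
    refine (abs_add_le _ _).trans ?_
    rw [abs_mul, abs_mul, abs_mul]
    have h1 : |b2 (Hhat_hL γ x / w - 1)| * |Hhat_hL1 γ x / w| * |Hhat_hL1 γ x / w| ≤ K * 2 * 2 := by
      gcongr
      exact hb2 _
    have h2 : |b1 (Hhat_hL γ x / w - 1)| * |Hhat_hL2 γ x / w| ≤ K * 1 := by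
      gcongr
      exact hb1 _
    linarith
  have hK0 : 0 < K := by linarith
  have hC : Real.exp (2 - D ^ 2 / 4) * M ^ 2 ≤
      (10 + 2 * Γ) ^ 2 * Real.exp 10 * W ^ 2 * Real.exp (-(1 / 8) * (x - w) ^ 2) := by
    have hD2 : (x - w) ^ 2 = D ^ 2 := by rw [hD, sq_abs]
    have h1 : M ^ 2 = (10 + 2 * Γ) ^ 2 * W ^ 2 * Real.exp (2 * D) := by
      rw [hM, mul_pow, mul_pow, ← Real.exp_nat_mul]
      norm_num
    have h2 : Real.exp (2 - D ^ 2 / 4) * Real.exp (2 * D) ≤ Real.exp 10 * Real.exp (-(1 / 8) * (x - w) ^ 2) := by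
      rw [← Real.exp_add, ← Real.exp_add]
      refine Real.exp_le_exp.2 ?_
      rw [hD2]
      nlinarith [sq_nonneg (D - 8)]
    calc Real.exp (2 - D ^ 2 / 4) * M ^ 2
        = (10 + 2 * Γ) ^ 2 * W ^ 2 * (Real.exp (2 - D ^ 2 / 4) * Real.exp (2 * D)) := by rw [h1]; ring
      _ ≤ (10 + 2 * Γ) ^ 2 * W ^ 2 * (Real.exp 10 * Real.exp (-(1 / 8) * (x - w) ^ 2)) := by gcongr
      _ = _ := by ring
  have hn : ∀ r : ℝ, ‖(r : ℂ)‖ = |r| := fun r => by rw [Complex.norm_real, Real.norm_eq_abs]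
  have hE0 : 0 ≤ ‖Complex.exp (Hhat_hP w τ γ x)‖ := norm_nonneg _
  have hMM : M ≤ M ^ 2 := by nlinarith
  have hfin : ∀ z : ℝ, 0 ≤ z → z ≤ 11 * K * M ^ 2 → z * ‖Complex.exp (Hhat_hP w τ γ x)‖ ≤
      11 * K * (10 + 2 * Γ) ^ 2 * Real.exp 10 * W ^ 2 * Real.exp (-(1 / 8) * (x - w) ^ 2) := by
    intro z hz0 hz
    calc z * ‖Complex.exp (Hhat_hP w τ γ x)‖ ≤ (11 * K * M ^ 2) * Real.exp (2 - D ^ 2 / 4) := by
          gcongr
      _ = 11 * K * (Real.exp (2 - D ^ 2 / 4) * M ^ 2) := by ring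
      _ ≤ 11 * K * ((10 + 2 * Γ) ^ 2 * Real.exp 10 * W ^ 2 * Real.exp (-(1 / 8) * (x - w) ^ 2)) := by gcongr
      _ = _ := by ring
  constructor
  · unfold Hhat_hF
    rw [norm_mul, hn]
    refine hfin _ (abs_nonneg _) (hXb.trans ?_)
    nlinarith
  · unfold Hhat_hF2
    refine (norm_add_le _ _).trans ?_
    rw [norm_mul, norm_mul, norm_mul]
    have h1 : ‖(((Hhat_hX2 b1 b2 w γ x : ℝ) : ℂ) + (((Hhat_hX b1 w γ x * (Hhat_hL1 γ x / w) : ℝ) : ℂ) * Hhat_hP1 w τ γ x +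
      (Hhat_hX b w γ x : ℂ) * Hhat_hP2 w τ γ x))‖ ≤ 5 * K + (2 * K * M + 1 * M) := by
      refine (norm_add_le _ _).trans (add_le_add (by rw [hn]; exact hX2b) ?_)
      refine (norm_add_le _ _).trans ?_
      rw [norm_mul, norm_mul, hn, hn]
      exact add_le_add (mul_le_mul hX1b hP1b (norm_nonneg _) (by positivity))
        (mul_le_mul hXb hP2b (norm_nonneg _) (by norm_num))
    have h2 : ‖(((Hhat_hX b1 w γ x * (Hhat_hL1 γ x / w) : ℝ) : ℂ) + (Hhat_hX b w γ x : ℂ) * Hhat_hP1 w τ γ x)‖ ≤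
        2 * K + 1 * M := by
      refine (norm_add_le _ _).trans (add_le_add (by rw [hn]; exact hX1b) ?_)
      rw [norm_mul, hn]
      exact mul_le_mul hXb hP1b (norm_nonneg _) (by norm_num)
    have h3 : (5 * K + (2 * K * M + 1 * M)) + (2 * K + 1 * M) * M ≤ 11 * K * M ^ 2 := by
      have hKM : 1 ≤ K * M := by nlinarith
      have hKM2 : K * M ≤ K * M ^ 2 := by nlinarith
      have hK2 : K ≤ K * M ^ 2 := by nlinarith
      have hM2 : M ^ 2 ≤ K * M ^ 2 := by nlinarith [sq_nonneg M]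
      nlinarith
    calc ‖(((Hhat_hX2 b1 b2 w γ x : ℝ) : ℂ) + (((Hhat_hX b1 w γ x * (Hhat_hL1 γ x / w) : ℝ) : ℂ) * Hhat_hP1 w τ γ x +
            (Hhat_hX b w γ x : ℂ) * Hhat_hP2 w τ γ x))‖ * ‖Complex.exp (Hhat_hP w τ γ x)‖ +
          ‖(((Hhat_hX b1 w γ x * (Hhat_hL1 γ x / w) : ℝ) : ℂ) + (Hhat_hX b w γ x : ℂ) * Hhat_hP1 w τ γ x)‖ *
            (‖Complex.exp (Hhat_hP w τ γ x)‖ * ‖Hhat_hP1 w τ γ x‖)
        ≤ (5 * K + (2 * K * M + 1 * M)) * ‖Complex.exp (Hhat_hP w τ γ x)‖ +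
          (2 * K + 1 * M) * (‖Complex.exp (Hhat_hP w τ γ x)‖ * M) := by
          gcongr
      _ = ((5 * K + (2 * K * M + 1 * M)) + (2 * K + 1 * M) * M) * ‖Complex.exp (Hhat_hP w τ γ x)‖ := by ring
      _ ≤ _ := hfin _ (by positivity) h3

private noncomputable def Hhat_hPsi (b : ℝ → ℝ) (w τ γ x : ℝ) : ℂ :=
  Complex.exp ((((x - w) ^ 2 / 2 : ℝ) : ℂ) + (1 + τ * Complex.I) * x) * Hhat_hhk b w τ (Real.exp x + γ)

private theorem Hhat_hPsi_eq {b : ℝ → ℝ} {w τ γ x : ℝ} (hx : 0 < Real.exp x + γ) :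
    Hhat_hPsi b w τ γ x = Hhat_hF b w τ γ x := by
  unfold Hhat_hPsi Hhat_hhk Hhat_hF Hhat_hX Hhat_hP
  rw [if_pos hx]
  have h1 : ((Real.exp (-(Real.log (Real.exp x + γ) - w) ^ 2) : ℝ) : ℂ) =
      Complex.exp (-(((Hhat_hL γ x - w) ^ 2 : ℝ) : ℂ)) := by
    unfold Hhat_hL
    push_cast
    rfl
  rw [h1]
  have h2 : Real.log (Real.exp x + γ) = Hhat_hL γ x := rfl
  rw [h2]
  have h3 : ∀ a c d e : ℂ, Complex.exp a * (c * Complex.exp d * Complex.exp e) =
      c * Complex.exp (a + d + e) := by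
    intro a c d e
    rw [Complex.exp_add, Complex.exp_add]
    ring
  rw [h3]
  congr 2
  push_cast
  ring

private theorem Hhat_hPsi_smooth {b b1 b2 : ℝ → ℝ} (hbc : ContDiff ℝ 2 b) {K : ℝ} (hK : 1 ≤ K)
    (hb0 : ∀ z, 0 ≤ b z) (hb1' : ∀ z, b z ≤ 1) (hbz : ∀ z, 1 / 3 ≤ |z| → b z = 0)
    (hd1 : ∀ z, HasDerivAt b (b1 z) z) (hd2 : ∀ z, HasDerivAt b1 (b2 z) z)
    (hb1 : ∀ z, |b1 z| ≤ K) (hb2 : ∀ z, |b2 z| ≤ K) {w τ γ Γ W : ℝ} (hw : 1 ≤ w) (hW : 1 ≤ W)
    (hγ : |γ| ≤ Γ) (hw1 : Γ * Real.exp (-(w / 2)) ≤ 1 / 4)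
    (hw2 : Real.exp (w / 2) + Γ < Real.exp (2 * w / 3)) (hτ : |τ| ≤ Real.exp w * W) :
    ContDiff ℝ 2 (Hhat_hPsi b w τ γ) ∧ HasCompactSupport (Hhat_hPsi b w τ γ) ∧
    (∀ x, ‖Hhat_hPsi b w τ γ x‖ ≤
      11 * K * (10 + 2 * Γ) ^ 2 * Real.exp 10 * W ^ 2 * Real.exp (-(1 / 8) * (x - w) ^ 2)) ∧
    (∀ x, ‖iteratedDeriv 2 (Hhat_hPsi b w τ γ) x‖ ≤
      11 * K * (10 + 2 * Γ) ^ 2 * Real.exp 10 * W ^ 2 * Real.exp (-(1 / 8) * (x - w) ^ 2)) := by
  have hΓ : 0 ≤ Γ := (abs_nonneg γ).trans hγ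
  have hγ' := abs_le.1 hγ
  have hw0 : 0 < w := by linarith
  have hbig : ∀ x, w / 2 < x → Γ * Real.exp (-x) ≤ 1 / 4 := by
    intro x hx
    refine le_trans (mul_le_mul_of_nonneg_left (Real.exp_le_exp.2 ?_) hΓ) hw1
    linarith
  have hpos : ∀ x, w / 2 < x → 0 < Real.exp x + γ := fun x hx => (Hhat_hL_bound hγ (hbig x hx)).1
  have hzero : ∀ x, Real.exp x + γ < Real.exp (2 * w / 3) → Hhat_hPsi b w τ γ x = 0 := by
    intro x hx
    unfold Hhat_hPsi
    rw [Hhat_hhk_low hbz hw0 hx.le, mul_zero]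
  have hlow : ∀ x, x ≤ w / 2 → Real.exp x + γ < Real.exp (2 * w / 3) := by
    intro x hx
    have := Real.exp_le_exp.2 hx
    linarith
  have hcont : Continuous fun x => Real.exp x + γ := by fun_prop
  have hev0 : ∀ x, x ≤ w / 2 → Hhat_hPsi b w τ γ =ᶠ[nhds x] fun _ => 0 := by
    intro x hx
    filter_upwards [hcont.continuousAt.eventually_lt continuousAt_const (hlow x hx)] with z hz
    exact hzero z hz
  have hev1 : ∀ x, w / 2 < x → Hhat_hPsi b w τ γ =ᶠ[nhds x] Hhat_hF b w τ γ := by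
    intro x hx
    filter_upwards [Ioi_mem_nhds hx] with z hz
    exact Hhat_hPsi_eq (hpos z hz)
  have hb : 0 ≤ 11 * K * (10 + 2 * Γ) ^ 2 * Real.exp 10 * W ^ 2 := by positivity
  refine ⟨?_, ?_, ?_, ?_⟩
  · rw [contDiff_iff_contDiffAt]
    intro x
    by_cases hx : w / 2 < x
    · refine ContDiffAt.congr_of_eventuallyEq ?_ (hev1 x hx)
      have hLc : ContDiffAt ℝ 2 (Hhat_hL γ) x := by
        unfold Hhat_hL
        exact (Real.contDiff_exp.contDiffAt.add contDiffAt_const).log (hpos x hx).ne'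
      have hXc : ContDiffAt ℝ 2 (fun x => (Hhat_hX b w γ x : ℂ)) x := by
        unfold Hhat_hX
        refine Complex.ofRealCLM.contDiff.contDiffAt.comp x ?_
        exact hbc.contDiffAt.comp x ((hLc.div_const w).sub contDiffAt_const)
      have hPc : ContDiffAt ℝ 2 (Hhat_hP w τ γ) x := by
        unfold Hhat_hP
        refine ContDiffAt.sub ?_ ?_
        · refine Complex.ofRealCLM.contDiff.contDiffAt.comp x ?_
          exact (((contDiffAt_id.sub contDiffAt_const).pow 2).div_const 2).sub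
            ((hLc.sub contDiffAt_const).pow 2)
        · refine contDiffAt_const.mul ?_
          refine Complex.ofRealCLM.contDiff.contDiffAt.comp x ?_
          exact hLc.sub contDiffAt_id
      exact hXc.mul hPc.cexp
    · exact contDiffAt_const.congr_of_eventuallyEq (hev0 x (not_lt.1 hx))
  · refine HasCompactSupport.intro (isCompact_Icc (a := w / 2)
      (b := Real.log (Real.exp (4 * w / 3) + Γ))) ?_
    intro x hx
    rw [Set.mem_Icc, not_and_or, not_le, not_le] at hx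
    rcases hx with hx | hx
    · exact hzero x (hlow x hx.le)
    · unfold Hhat_hPsi
      rw [Hhat_hhk_high hbz hw0, mul_zero]
      rw [Real.log_lt_iff_lt_exp (by positivity)] at hx
      linarith
  · intro x
    by_cases hx : w / 2 < x
    · rw [Hhat_hPsi_eq (hpos x hx)]
      exact (Hhat_hF_bounds (b1 := b1) (b2 := b2) hK hb0 hb1' hb1 hb2 hw hW hγ (hbig x hx) hτ).1
    · rw [hzero x (hlow x (not_lt.1 hx)), norm_zero]
      exact mul_nonneg hb (Real.exp_pos _).le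
  · intro x
    have hit : iteratedDeriv 2 (Hhat_hPsi b w τ γ) = deriv (deriv (Hhat_hPsi b w τ γ)) := by
      rw [iteratedDeriv_succ, iteratedDeriv_one]
    rw [hit]
    by_cases hx : w / 2 < x
    · have h1 : deriv (Hhat_hPsi b w τ γ) =ᶠ[nhds x] Hhat_hF1 b b1 w τ γ := by
        filter_upwards [Ioi_mem_nhds hx] with z hz
        rw [(hev1 z hz).deriv_eq]
        exact (Hhat_hF_der hd1 (hpos z hz)).deriv
      rw [h1.deriv_eq, (Hhat_hF1_der hd1 hd2 (hpos x hx)).deriv]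
      exact (Hhat_hF_bounds (b1 := b1) (b2 := b2) hK hb0 hb1' hb1 hb2 hw hW hγ (hbig x hx) hτ).2
    · have h0 := (hev0 x (not_lt.1 hx)).deriv
      have h1 : deriv (fun _ : ℝ => (0 : ℂ)) = fun _ => 0 := by
        funext z
        exact deriv_const z 0
      rw [h1] at h0
      rw [h0.deriv_eq, deriv_const, norm_zero]
      exact mul_nonneg hb (Real.exp_pos _).le

private theorem Hhat_gauss {f : ℝ → ℂ} {C c w : ℝ} (hc : 0 < c)
    (hf : ∀ x, ‖f x‖ ≤ C * Real.exp (-c * (x - w) ^ 2)) :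
    ∫ x, ‖f x‖ ≤ C * Real.sqrt (Real.pi / c) := by
  have h1 : Integrable (fun x : ℝ => Real.exp (-c * (x - w) ^ 2)) :=
    (integrable_exp_neg_mul_sq hc).comp_sub_right w
  calc ∫ x, ‖f x‖ ≤ ∫ x, C * Real.exp (-c * (x - w) ^ 2) :=
        integral_mono_of_nonneg (Filter.Eventually.of_forall fun x => norm_nonneg _) (h1.const_mul C)
          (Filter.Eventually.of_forall hf)
    _ = C * ∫ x, Real.exp (-c * (x - w) ^ 2) := integral_const_mul _ _
    _ = C * Real.sqrt (Real.pi / c) := by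
        have h2 := integral_sub_right_eq_self (fun x : ℝ => Real.exp (-c * x ^ 2)) w (μ := volume)
        rw [h2, integral_gaussian]

private noncomputable def Hhat_hkk (b : ℝ → ℝ) (w τ s : ℝ) : ℂ :=
  (b (s / w - 1) : ℂ) * (Real.exp (-(s - w) ^ 2) : ℝ) * Complex.exp (-(τ * s * Complex.I))

private theorem Hhat_hhk_exp (b : ℝ → ℝ) (w τ s : ℝ) :
    (Real.exp s : ℂ) * Hhat_hhk b w τ (Real.exp s) = Hhat_hkk b w τ s := by
  unfold Hhat_hhk Hhat_hkk
  rw [if_pos (Real.exp_pos s), Real.log_exp]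
  have h : ((Real.exp s : ℝ) : ℂ) * Complex.exp (-((1 + τ * Complex.I) * s)) =
      Complex.exp (-(τ * s * Complex.I)) := by
    rw [Complex.ofReal_exp, ← Complex.exp_add]
    congr 1
    ring
  rw [← h]
  ring

private theorem Hhat_hPsi_main (b : ℝ → ℝ) (w τ γ x : ℝ) :
    Complex.exp (-(τ * x * Complex.I)) * (Real.exp (-(x - w) ^ 2 / 2) : ℝ) * Hhat_hPsi b w τ γ x =
      (Real.exp x : ℂ) * Hhat_hhk b w τ (Real.exp x + γ) := by
  unfold Hhat_hPsi
  rw [← mul_assoc]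
  congr 1
  rw [Complex.ofReal_exp, Complex.ofReal_exp, ← Complex.exp_add, ← Complex.exp_add]
  congr 1
  push_cast
  ring

private theorem Hhat_hPsi_sum (b : ℝ → ℝ) (w τ γ : ℝ) {n : ℕ} (hn : n ≠ 0) :
    (n : ℂ) ^ (-(1 + τ * Complex.I)) * (Real.exp (-(Real.log n - w) ^ 2 / 2) : ℝ) *
      Hhat_hPsi b w τ γ (Real.log n) = Hhat_hhk b w τ (n + γ) := by
  have hn0 : (0 : ℝ) < n := by exact_mod_cast Nat.pos_of_ne_zero hn
  unfold Hhat_hPsi
  rw [Real.exp_log hn0, ← mul_assoc]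
  have h : (n : ℂ) ^ (-(1 + τ * Complex.I)) * (Real.exp (-(Real.log n - w) ^ 2 / 2) : ℝ) *
      Complex.exp ((((Real.log n - w) ^ 2 / 2 : ℝ) : ℂ) + (1 + τ * Complex.I) * (Real.log n : ℝ)) = 1 := by
    rw [Complex.cpow_def_of_ne_zero (by exact_mod_cast hn), Complex.ofReal_exp, ← Complex.exp_add,
      ← Complex.exp_add, ← Complex.exp_zero, Complex.natCast_log]
    congr 1
    push_cast
    ring
  rw [h, one_mul]

private theorem Hhat_step {b b1 b2 : ℝ → ℝ} (hbc : ContDiff ℝ 2 b) {K : ℝ} (hK : 1 ≤ K)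
    (hb0 : ∀ z, 0 ≤ b z) (hb1' : ∀ z, b z ≤ 1) (hbz : ∀ z, 1 / 3 ≤ |z| → b z = 0)
    (hd1 : ∀ z, HasDerivAt b (b1 z) z) (hd2 : ∀ z, HasDerivAt b1 (b2 z) z)
    (hb1 : ∀ z, |b1 z| ≤ K) (hb2 : ∀ z, |b2 z| ≤ K) (β A B : ℝ) :
    ∃ w0 : ℝ, 1 ≤ w0 ∧ ∀ w τ : ℝ, w0 ≤ w → |τ| ≤ Real.exp w * w ^ B →
      ‖(∫ s : ℝ, ((ArithmeticFunction.vonMangoldt ⌊Real.exp s + β⌋₊ : ℝ) : ℂ) * Hhat_hkk b w τ s) -
        ∫ s : ℝ, Hhat_hkk b w τ s‖ ≤ w ^ (-A) := by
  obtain ⟨w1, hw1, htw⟩ := twist 2 A (2 * |B| + 1)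
  obtain ⟨w2, hw2⟩ := Filter.eventually_atTop.1 ((isLittleO_rpow_exp_atTop B).bound one_pos)
  set Γ := 1 + |β| with hΓ
  set C1 := 11 * K * (10 + 2 * Γ) ^ 2 * Real.exp 10 * Real.sqrt (Real.pi / (1 / 8)) with hC1
  have hΓ1 : 1 ≤ Γ := by rw [hΓ]; linarith [abs_nonneg β]
  have hC10 : 0 ≤ C1 := by positivity
  refine ⟨max w1 (max w2 (max (8 * Γ) C1)), le_max_of_le_left hw1, ?_⟩
  intro w τ hw hτ
  have hww1 : w1 ≤ w := (le_max_left _ _).trans hw
  have hww2 : w2 ≤ w := ((le_max_left _ _).trans (le_max_right _ _)).trans hw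
  have hwΓ : 8 * Γ ≤ w :=
    (((le_max_left _ _).trans (le_max_right _ _)).trans (le_max_right _ _)).trans hw
  have hwC : C1 ≤ w := (((le_max_right _ _).trans (le_max_right _ _)).trans (le_max_right _ _)).trans hw
  have hw1' : 1 ≤ w := by linarith
  have hw0 : 0 < w := by linarith
  set W := w ^ |B| with hW
  have hW1 : 1 ≤ W := Real.one_le_rpow hw1' (abs_nonneg B)
  have hτW : |τ| ≤ Real.exp w * W := by
    refine hτ.trans (mul_le_mul_of_nonneg_left ?_ (Real.exp_pos _).le)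
    exact Real.rpow_le_rpow_of_exponent_le hw1' (le_abs_self B)
  have hc1 : Γ * Real.exp (-(w / 2)) ≤ 1 / 4 := by
    have h1 := Real.add_one_le_exp (w / 2)
    rw [Real.exp_neg, ← div_eq_mul_inv, div_le_iff₀ (Real.exp_pos _)]
    linarith
  have hc2 : Real.exp (w / 2) + Γ < Real.exp (2 * w / 3) := by
    have h1 := Real.add_one_le_exp (w / 6)
    have h2 : Real.exp (2 * w / 3) = Real.exp (w / 2) * Real.exp (w / 6) := by
      rw [← Real.exp_add]; congr 1; ring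
    have h3 : 1 ≤ Real.exp (w / 2) := Real.one_le_exp (by positivity)
    rw [h2]
    nlinarith
  have hτ2 : |τ| ≤ Real.exp (2 * w) := by
    refine hτ.trans ?_
    have h1 := hw2 w hww2
    rw [one_mul, Real.norm_eq_abs, Real.norm_eq_abs, abs_of_pos (Real.exp_pos _),
      abs_of_nonneg (Real.rpow_nonneg hw0.le B)] at h1
    calc Real.exp w * w ^ B ≤ Real.exp w * Real.exp w := by gcongr
      _ = Real.exp (2 * w) := by rw [← Real.exp_add]; congr 1; ring
  have hC1w : 11 * K * (10 + 2 * Γ) ^ 2 * Real.exp 10 * W ^ 2 * Real.sqrt (Real.pi / (1 / 8)) ≤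
      w ^ (2 * |B| + 1) := by
    have h1 : w ^ (2 * |B| + 1) = W ^ 2 * w := by
      rw [Real.rpow_add hw0, Real.rpow_one, hW, ← Real.rpow_natCast, ← Real.rpow_mul hw0.le]
      congr 2
      push_cast
      ring
    rw [h1]
    calc 11 * K * (10 + 2 * Γ) ^ 2 * Real.exp 10 * W ^ 2 * Real.sqrt (Real.pi / (1 / 8))
        = W ^ 2 * C1 := by rw [hC1]; ring
      _ ≤ W ^ 2 * w := by gcongr
  obtain ⟨N, hN⟩ := exists_nat_ge (Real.exp (4 * w / 3) + Γ)
  have hlo : ∀ y ≤ Real.exp (2 * w / 3), Hhat_hhk b w τ y = 0 := fun y hy => Hhat_hhk_low hbz hw0 hy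
  have hhi : ∀ y, Real.exp (4 * w / 3) ≤ y → Hhat_hhk b w τ y = 0 := fun y hy => Hhat_hhk_high hbz hw0 hy
  have hkc : Continuous (Hhat_hhk b w τ) := Hhat_hhk_cont hbc.continuous hbz hw0
  have hΓe : Γ ≤ Real.exp (2 * w / 3) := by linarith [Real.exp_pos (w / 2)]
  have hpt : ∀ t ∈ Set.Icc (0 : ℝ) 1,
      ‖∑ q ∈ Finset.range N, ((ArithmeticFunction.vonMangoldt q : ℝ) : ℂ) * Hhat_hhk b w τ (q + (t - β)) -
        ∫ y in Set.Ioi (0 : ℝ), Hhat_hhk b w τ y‖ ≤ w ^ (-A) := by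
    intro t ht
    set γ := t - β with hγd
    have hγ : |γ| ≤ Γ := by
      rw [hγd, hΓ]
      refine (abs_sub _ _).trans ?_
      have : |t| ≤ 1 := abs_le.2 ⟨by linarith [ht.1], ht.2⟩
      linarith
    have hγ' := abs_le.1 hγ
    obtain ⟨hs1, hs2, hs3, hs4⟩ := Hhat_hPsi_smooth hbc hK hb0 hb1' hbz hd1 hd2 hb1 hb2 (τ := τ) hw1' hW1 hγ
      hc1 hc2 hτW
    have hm := htw w τ hww1 hτ2 (Hhat_hPsi b w τ γ) hs1 hs2
      ((Hhat_gauss (by norm_num) hs3).trans hC1w) ((Hhat_gauss (by norm_num) hs4).trans hC1w)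
    have e1 : ∑' n : ℕ, (ArithmeticFunction.vonMangoldt n : ℂ) * (n : ℂ) ^ (-(1 + τ * Complex.I)) *
        (Real.exp (-(Real.log n - w) ^ 2 / 2) : ℝ) * Hhat_hPsi b w τ γ (Real.log n) =
        ∑ q ∈ Finset.range N, ((ArithmeticFunction.vonMangoldt q : ℝ) : ℂ) * Hhat_hhk b w τ (q + γ) := by
      have e2 : ∀ n : ℕ, (ArithmeticFunction.vonMangoldt n : ℂ) * (n : ℂ) ^ (-(1 + τ * Complex.I)) *
          (Real.exp (-(Real.log n - w) ^ 2 / 2) : ℝ) * Hhat_hPsi b w τ γ (Real.log n) =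
          ((ArithmeticFunction.vonMangoldt n : ℝ) : ℂ) * Hhat_hhk b w τ (n + γ) := by
        intro n
        rcases eq_or_ne n 0 with rfl | hn
        · simp
        · rw [← Hhat_hPsi_sum b w τ γ hn]
          ring
      rw [tsum_congr e2]
      refine tsum_eq_sum fun n hn => ?_
      rw [Finset.mem_range, not_lt] at hn
      have : (N : ℝ) ≤ n := by exact_mod_cast hn
      rw [hhi _ (by linarith), mul_zero]
    have e3 : ∫ x : ℝ, Complex.exp (-(τ * x * Complex.I)) * (Real.exp (-(x - w) ^ 2 / 2) : ℝ) *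
        Hhat_hPsi b w τ γ x = ∫ y in Set.Ioi (0 : ℝ), Hhat_hhk b w τ y := by
      calc ∫ x : ℝ, Complex.exp (-(τ * x * Complex.I)) * (Real.exp (-(x - w) ^ 2 / 2) : ℝ) *
            Hhat_hPsi b w τ γ x = ∫ x : ℝ, (Real.exp x : ℂ) * (fun y => Hhat_hhk b w τ (y + γ)) (Real.exp x) :=
            integral_congr_ae (Filter.Eventually.of_forall fun x => Hhat_hPsi_main b w τ γ x)
        _ = ∫ y in Set.Ioi (0 : ℝ), Hhat_hhk b w τ (y + γ) := Hhat_expsub (fun y => Hhat_hhk b w τ (y + γ))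
        _ = _ := Hhat_trans hlo (Real.exp_pos _).le (by linarith)
    rw [e1, e3] at hm
    exact hm
  have hI1 : ∫ s : ℝ, ((ArithmeticFunction.vonMangoldt ⌊Real.exp s + β⌋₊ : ℝ) : ℂ) * Hhat_hkk b w τ s =
      ∫ t in (0 : ℝ)..1, ∑ q ∈ Finset.range N,
        ((ArithmeticFunction.vonMangoldt q : ℝ) : ℂ) * Hhat_hhk b w τ (q + (t - β)) := by
    rw [Hhat_unit hkc hlo hhi (by linarith [neg_abs_le β, neg_le_abs β]) (Real.exp_pos _).le
      (fun q => ArithmeticFunction.vonMangoldt q) (by linarith [le_abs_self β]), ← Hhat_expsub]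
    refine integral_congr_ae (Filter.Eventually.of_forall fun s => ?_)
    have h5 := Hhat_hhk_exp b w τ s
    show ((ArithmeticFunction.vonMangoldt ⌊Real.exp s + β⌋₊ : ℝ) : ℂ) * Hhat_hkk b w τ s =
      (Real.exp s : ℂ) * (((ArithmeticFunction.vonMangoldt ⌊Real.exp s + β⌋₊ : ℝ) : ℂ) *
      Hhat_hhk b w τ (Real.exp s))
    rw [← h5]
    ring
  have hI2 : ∫ s : ℝ, Hhat_hkk b w τ s = ∫ t in (0 : ℝ)..1, ∫ y in Set.Ioi (0 : ℝ), Hhat_hhk b w τ y := by
    rw [intervalIntegral.integral_const, sub_zero, one_smul, ← Hhat_expsub]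
    refine integral_congr_ae (Filter.Eventually.of_forall fun s => ?_)
    exact (Hhat_hhk_exp b w τ s).symm
  rw [hI1, hI2, ← intervalIntegral.integral_sub]
  · have h := intervalIntegral.norm_integral_le_of_norm_le_const (a := (0 : ℝ)) (b := 1)
      (C := w ^ (-A)) (f := fun t => (∑ q ∈ Finset.range N,
        ((ArithmeticFunction.vonMangoldt q : ℝ) : ℂ) * Hhat_hhk b w τ (q + (t - β))) -
        ∫ y in Set.Ioi (0 : ℝ), Hhat_hhk b w τ y) (fun t ht => hpt t (by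
          rw [Set.uIoc_of_le zero_le_one] at ht
          exact ⟨ht.1.le, ht.2⟩))
    simpa using h
  · refine Continuous.intervalIntegrable ?_ _ _
    exact continuous_finsetSum _ fun q _ => continuous_const.mul (hkc.comp (by fun_prop))
  · exact continuous_const.intervalIntegrable _ _

private theorem Hhat_hkk_norm {b : ℝ → ℝ} (hb0 : ∀ z, 0 ≤ b z) (hb1' : ∀ z, b z ≤ 1) (w τ s : ℝ) :
    ‖Hhat_hkk b w τ s‖ ≤ 1 * Real.exp (-1 * (s - w) ^ 2) := by
  unfold Hhat_hkk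
  have h1 : ‖Complex.exp (-(τ * s * Complex.I))‖ = 1 := by
    rw [Complex.norm_exp]; simp
  rw [norm_mul, norm_mul, h1, mul_one, Complex.norm_real, Complex.norm_real, Real.norm_eq_abs,
    Real.norm_eq_abs, abs_of_nonneg (hb0 _), abs_of_pos (Real.exp_pos _)]
  have h2 : -(s - w) ^ 2 = -1 * (s - w) ^ 2 := by ring
  rw [h2]
  exact mul_le_mul_of_nonneg_right (hb1' _) (Real.exp_pos _).le

private theorem Hhat_int {f : ℝ → ℂ} {C c w : ℝ} (hc : 0 < c) (hm : Measurable f)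
    (hf : ∀ x, ‖f x‖ ≤ C * Real.exp (-c * (x - w) ^ 2)) : Integrable f := by
  have h1 : Integrable (fun x : ℝ => Real.exp (-c * (x - w) ^ 2)) :=
    (integrable_exp_neg_mul_sq hc).comp_sub_right w
  exact (h1.const_mul C).mono' hm.aestronglyMeasurable (Filter.Eventually.of_forall hf)

private theorem Hhat_meas (β : ℝ) :
    Measurable fun s : ℝ => (ArithmeticFunction.vonMangoldt ⌊Real.exp s + β⌋₊ : ℝ) := by
  have h1 : Measurable fun s : ℝ => ⌊Real.exp s + β⌋₊ :=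
    Nat.measurable_floor.comp (Real.measurable_exp.add_const β)
  exact (measurable_from_nat (f := fun n : ℕ => (ArithmeticFunction.vonMangoldt n : ℝ))).comp h1

private theorem Hhat_G {β s : ℝ} (hs : 0 ≤ s) :
    (ArithmeticFunction.vonMangoldt ⌊Real.exp s + β⌋₊ : ℝ) ≤ s + |β| := by
  rcases Nat.eq_zero_or_pos ⌊Real.exp s + β⌋₊ with h | h
  · rw [h]
    simp only [ArithmeticFunction.map_zero]
    positivity
  · refine ArithmeticFunction.vonMangoldt_le_log.trans ?_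
    have h0 : 0 < Real.exp s + β := by
      by_contra hc
      rw [not_lt] at hc
      rw [Nat.floor_of_nonpos hc] at h
      exact lt_irrefl 0 h
    have h1 : (⌊Real.exp s + β⌋₊ : ℝ) ≤ Real.exp s + β := Nat.floor_le h0.le
    have h2 : Real.exp s + β ≤ Real.exp s * (1 + |β|) := by
      have := Real.one_le_exp hs
      nlinarith [le_abs_self β, abs_nonneg β]
    have h3 : (0 : ℝ) < ⌊Real.exp s + β⌋₊ := by exact_mod_cast h
    refine (Real.log_le_log h3 (h1.trans h2)).trans ?_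
    rw [Real.log_mul (Real.exp_pos s).ne' (by positivity), Real.log_exp]
    have := Real.log_le_sub_one_of_pos (show 0 < 1 + |β| by positivity)
    linarith

private theorem Hhat_tailbd {β w s : ℝ} (hw : 1 ≤ w) (hs : w / 2 < s) (hf : w / 4 < |s - w|) :
    |G β s| * Real.exp (-(s - w) ^ 2) ≤
      ((w + |β| + 1) * Real.exp 1 * Real.exp (-(w ^ 2 / 32))) * Real.exp (-(1 / 4) * (s - w) ^ 2) := by
  set D := |s - w| with hD
  have hD0 : 0 ≤ D := abs_nonneg _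
  have hD2 : (s - w) ^ 2 = D ^ 2 := by rw [hD, sq_abs]
  have hG : |G β s| ≤ (w + |β| + 1) * Real.exp D := by
    unfold G
    have h1 := Hhat_G (β := β) (show 0 ≤ s by linarith)
    have h2 : 0 ≤ (ArithmeticFunction.vonMangoldt ⌊Real.exp s + β⌋₊ : ℝ) :=
      ArithmeticFunction.vonMangoldt_nonneg
    have h3 : |(ArithmeticFunction.vonMangoldt ⌊Real.exp s + β⌋₊ : ℝ) - 1| ≤ s + |β| + 1 := by
      rw [abs_le]
      constructor <;> linarith [abs_nonneg β]
    have h4 : s ≤ w + D := by linarith [le_abs_self (s - w)]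
    have h5 := Real.add_one_le_exp D
    have h6 : 0 ≤ |β| := abs_nonneg β
    calc |(ArithmeticFunction.vonMangoldt ⌊Real.exp s + β⌋₊ : ℝ) - 1| ≤ s + |β| + 1 := h3
      _ ≤ (w + |β| + 1) * (D + 1) := by nlinarith
      _ ≤ (w + |β| + 1) * Real.exp D := by gcongr
  have h7 : Real.exp D * Real.exp (-(s - w) ^ 2) ≤
      Real.exp 1 * Real.exp (-(w ^ 2 / 32)) * Real.exp (-(1 / 4) * (s - w) ^ 2) := by
    rw [← Real.exp_add, ← Real.exp_add, ← Real.exp_add]
    refine Real.exp_le_exp.2 ?_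
    rw [hD2]
    nlinarith [sq_nonneg (D - 2)]
  calc |G β s| * Real.exp (-(s - w) ^ 2) ≤ ((w + |β| + 1) * Real.exp D) * Real.exp (-(s - w) ^ 2) := by
        gcongr
    _ = (w + |β| + 1) * (Real.exp D * Real.exp (-(s - w) ^ 2)) := by ring
    _ ≤ (w + |β| + 1) * (Real.exp 1 * Real.exp (-(w ^ 2 / 32)) * Real.exp (-(1 / 4) * (s - w) ^ 2)) := by
        have : 0 ≤ w + |β| + 1 := by positivity
        gcongr
    _ = _ := by ring

theorem hh_small (β A B : ℝ) : ∃ w0 : ℝ, 1 ≤ w0 ∧ ∀ w τ : ℝ, w0 ≤ w → |τ| ≤ Real.exp w * w ^ B →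
    ‖hh β w τ‖ ≤ w ^ (-A) := by
  obtain ⟨b, b1, b2, K, hK, hbc, hb0, hb1', hbo, hbz, hd1, hd2, hb1, hb2⟩ := Hhat_cut
  obtain ⟨w1, hw1, hst⟩ := Hhat_step hbc hK hb0 hb1' hbz hd1 hd2 hb1 hb2 β (A + 1) B
  -- the tail is small
  have htail : ∀ᶠ w : ℝ in Filter.atTop, ((w + |β| + 1) * Real.exp 1 * Real.exp (-(w ^ 2 / 32))) *
      Real.sqrt (Real.pi / (1 / 4)) ≤ w ^ (-A) / 2 := by
    have h1 : ∀ᶠ w : ℝ in Filter.atTop, ‖w ^ (A + 1)‖ ≤
        (1 / (2 * (2 * (Real.exp 1 * Real.sqrt (Real.pi / (1 / 4)))))) * ‖Real.exp w‖ :=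
      (isLittleO_rpow_exp_atTop (A + 1)).bound (by positivity)
    filter_upwards [h1, Filter.eventually_ge_atTop (|β| + 1), Filter.eventually_ge_atTop 32] with w h2 h3 h4
    have hw0 : 0 < w := by linarith
    rw [Real.norm_eq_abs, Real.norm_eq_abs, abs_of_pos (Real.exp_pos _),
      abs_of_pos (Real.rpow_pos_of_pos hw0 _)] at h2
    set S := Real.exp 1 * Real.sqrt (Real.pi / (1 / 4)) with hS
    have hS0 : 0 < S := by positivity
    have h5 : Real.exp (-(w ^ 2 / 32)) ≤ Real.exp (-w) := Real.exp_le_exp.2 (by nlinarith)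
    have h6 : w + |β| + 1 ≤ 2 * w := by linarith
    have h7 : w ^ (A + 1) * (2 * (2 * S)) ≤ Real.exp w := by
      calc w ^ (A + 1) * (2 * (2 * S)) ≤ (1 / (2 * (2 * S)) * Real.exp w) * (2 * (2 * S)) := by gcongr
        _ = Real.exp w := by field_simp
    have h8 : w ^ (A + 1) = w ^ A * w := by rw [Real.rpow_add hw0, Real.rpow_one]
    have h9 : w ^ (-A) = 1 / w ^ A := by rw [Real.rpow_neg hw0.le, one_div]
    have h10 : 0 < w ^ A := Real.rpow_pos_of_pos hw0 _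
    rw [h9]
    calc ((w + |β| + 1) * Real.exp 1 * Real.exp (-(w ^ 2 / 32))) * Real.sqrt (Real.pi / (1 / 4))
        = (w + |β| + 1) * Real.exp (-(w ^ 2 / 32)) * S := by rw [hS]; ring
      _ ≤ (2 * w) * Real.exp (-w) * S := by gcongr
      _ ≤ 1 / w ^ A / 2 := by
          rw [Real.exp_neg, ← div_eq_mul_inv, div_mul_eq_mul_div, div_le_iff₀ (Real.exp_pos _),
            div_div, one_div, inv_mul_eq_div, le_div_iff₀ (by positivity)]
          calc 2 * w * S * (w ^ A * 2) = (w ^ A * w) * (2 * (2 * S)) := by ring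
            _ ≤ Real.exp w := by rw [← h8]; exact h7
  obtain ⟨w2, hw2⟩ := Filter.eventually_atTop.1 htail
  refine ⟨max w1 (max w2 2), le_max_of_le_left hw1, ?_⟩
  intro w τ hw hτ
  have hww1 : w1 ≤ w := (le_max_left _ _).trans hw
  have hww2 : w2 ≤ w := ((le_max_left _ _).trans (le_max_right _ _)).trans hw
  have hw2' : 2 ≤ w := ((le_max_right _ _).trans (le_max_right _ _)).trans hw
  have hw0 : 0 < w := by linarith
  have hmain := hst w τ hww1 hτ
  have htl := hw2 w hww2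
  set rest : ℝ → ℂ := fun s => if w / 2 < s then
    ((G β s * Real.exp (-(s - w) ^ 2) * (1 - b (s / w - 1)) : ℝ) : ℂ) *
      Complex.exp (-(τ * s * Complex.I)) else 0 with hrest
  have hne : ∀ s : ℝ, ‖Complex.exp (-(τ * s * Complex.I))‖ = 1 := by
    intro s
    rw [Complex.norm_exp]; simp
  have hexpm : Measurable fun s : ℝ => Complex.exp (-(τ * s * Complex.I)) := by fun_prop
  have hbm : Measurable fun s : ℝ => b (s / w - 1) :=
    hbc.continuous.measurable.comp ((measurable_id.div_const w).sub_const 1)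
  have hgm : Measurable fun s : ℝ => Real.exp (-(s - w) ^ 2) := by fun_prop
  have hkkm : Measurable (Hhat_hkk b w τ) := by
    unfold Hhat_hkk
    exact ((Complex.measurable_ofReal.comp hbm).mul (Complex.measurable_ofReal.comp hgm)).mul hexpm
  have hrm : Measurable rest := by
    rw [hrest]
    refine Measurable.ite measurableSet_Ioi ?_ measurable_const
    refine (Complex.measurable_ofReal.comp ?_).mul hexpm
    refine Measurable.mul (Measurable.mul ?_ hgm) (measurable_const.sub hbm)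
    exact (Hhat_meas β).sub_const 1
  have hrb : ∀ s, ‖rest s‖ ≤ ((w + |β| + 1) * Real.exp 1 * Real.exp (-(w ^ 2 / 32))) *
      Real.exp (-(1 / 4) * (s - w) ^ 2) := by
    intro s
    simp only [hrest]
    split_ifs with hs
    · rw [norm_mul, hne, mul_one, Complex.norm_real, Real.norm_eq_abs, abs_mul, abs_mul,
        abs_of_pos (Real.exp_pos (-(s - w) ^ 2))]
      by_cases hf : w / 4 < |s - w|
      · have h1 : |1 - b (s / w - 1)| ≤ 1 := by
          rw [abs_le]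
          constructor <;> linarith [hb0 (s / w - 1), hb1' (s / w - 1)]
        calc |G β s| * Real.exp (-(s - w) ^ 2) * |1 - b (s / w - 1)|
            ≤ |G β s| * Real.exp (-(s - w) ^ 2) * 1 := by gcongr
          _ = |G β s| * Real.exp (-(s - w) ^ 2) := mul_one _
          _ ≤ _ := Hhat_tailbd (by linarith) hs hf
      · have h1 : |s / w - 1| ≤ 1 / 4 := by
          have h2 : s / w - 1 = (s - w) / w := by field_simp
          rw [h2, abs_div, abs_of_pos hw0, div_le_iff₀ hw0]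
          linarith [not_lt.1 hf]
        rw [hbo _ h1, sub_self, abs_zero, mul_zero]
        positivity
    · rw [norm_zero]
      positivity
  have hri : Integrable rest := Hhat_int (by norm_num) hrm hrb
  have hki : Integrable (Hhat_hkk b w τ) := Hhat_int one_pos hkkm (Hhat_hkk_norm hb0 hb1' w τ)
  have hli : Integrable (fun s : ℝ =>
      ((ArithmeticFunction.vonMangoldt ⌊Real.exp s + β⌋₊ : ℝ) : ℂ) * Hhat_hkk b w τ s) := by
    refine Hhat_int (C := (4 * w / 3 + |β|) * 1) (c := 1) (w := w) one_pos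
      ((Complex.measurable_ofReal.comp (Hhat_meas β)).mul hkkm) fun s => ?_
    rw [norm_mul, Complex.norm_real, Real.norm_eq_abs,
      abs_of_nonneg ArithmeticFunction.vonMangoldt_nonneg, mul_assoc]
    by_cases hs : |s / w - 1| < 1 / 3
    · have h2 : s / w - 1 = (s - w) / w := by field_simp
      rw [h2, abs_div, abs_of_pos hw0, div_lt_iff₀ hw0, abs_lt] at hs
      refine mul_le_mul ((Hhat_G (by linarith)).trans (by linarith)) (Hhat_hkk_norm hb0 hb1' w τ s)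
        (norm_nonneg _) (by positivity)
    · have h2 : Hhat_hkk b w τ s = 0 := by
        unfold Hhat_hkk
        rw [hbz _ (not_lt.1 hs)]
        simp
      rw [h2, norm_zero, mul_zero]
      positivity
  have hdec : hh β w τ = ((∫ s : ℝ, ((ArithmeticFunction.vonMangoldt ⌊Real.exp s + β⌋₊ : ℝ) : ℂ) *
      Hhat_hkk b w τ s) - ∫ s : ℝ, Hhat_hkk b w τ s) + ∫ s, rest s := by
    have hd1 := integral_sub hli hki
    have hd2 := integral_add (hli.sub hki) hri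
    refine Eq.trans ?_ (hd2.trans (congrArg (fun z => z + ∫ s, rest s) hd1))
    unfold hh
    refine integral_congr_ae (Filter.Eventually.of_forall fun s => ?_)
    simp only [hrest, h, Hhat_hkk, G, Pi.sub_apply]
    split_ifs with hs
    · push_cast
      ring
    · have h1 : 1 / 3 ≤ |s / w - 1| := by
        have h2 : s / w ≤ 1 / 2 := by
          rw [div_le_iff₀ hw0]; linarith [not_lt.1 hs]
        rw [abs_of_neg (by linarith)]
        linarith
      rw [hbz _ h1]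
      simp
  rw [hdec]
  have h1 : ‖∫ s, rest s‖ ≤ w ^ (-A) / 2 :=
    (norm_integral_le_integral_norm _).trans ((Hhat_gauss (by norm_num) hrb).trans htl)
  have h2 : w ^ (-(A + 1)) ≤ w ^ (-A) / 2 := by
    have h3 : w ^ (-(A + 1)) = w ^ (-A) * w⁻¹ := by
      rw [neg_add, Real.rpow_add hw0, Real.rpow_neg_one]
    rw [h3, div_eq_mul_inv]
    gcongr
  calc _ ≤ _ := norm_add_le _ _
    _ ≤ w ^ (-(A + 1)) + w ^ (-A) / 2 := add_le_add hmain h1
    _ ≤ w ^ (-A) := by linarith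

end AMC
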