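import Pool.Agent.AMC.Asy

/-!
# AMC.InfA: almost every sequence of multipliers

PROOF. As in the landed `Pool/Agent/MCC/InfP.lean`: there are countably many tuples `(k, b, j, M)` with `b : Fin k → ℚ`.
For fixed `k` and `b` (`β n = b n` for `n < k`, else `0`; `MCC.starts_congr`) apply `ae_EJ` for every `j < k`, `M ≥ 1`,
`A = k + 3`, transported by the map `α ↦ (α i)_(i ≤ j)` from `infinitePi μ` to a product measure which is
absolutely continuous with respect to `volume`; almost every `α` has positive coordinates. `asy`.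
(`EJ` uses `MCC.ext` of the first `j + 1` multipliers, which is what `ae_EJ` and the hypothesis of `asy` speak
about: `fun i : Fin (j+1) => α i`.)
-/

namespace AMC

open MeasureTheory Filter Topology

private theorem InfA_pi_ac : ∀ {k : ℕ} (μ ν : Fin k → Measure ℝ) [∀ i, SigmaFinite (μ i)]
    [∀ i, SigmaFinite (ν i)], (∀ i, μ i ≪ ν i) → Measure.pi μ ≪ Measure.pi ν
  | 0, μ, ν, _, _, _ => by
    rw [Measure.pi_of_empty, Measure.pi_of_empty]
  | k + 1, μ, ν, _, _, h => by
    have h1 := (measurePreserving_piFinSuccAbove μ 0).symm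
    have h2 := (measurePreserving_piFinSuccAbove ν 0).symm
    rw [← h1.map_eq, ← h2.map_eq]
    refine Measure.AbsolutelyContinuous.map ?_ (MeasurableEquiv.measurable _)
    refine Measure.AbsolutelyContinuous.prod (h 0) ?_
    exact InfA_pi_ac (fun j => μ (Fin.succAbove 0 j)) (fun j => ν (Fin.succAbove 0 j))
      (fun j => h _)

private theorem InfA_map (μ : ℕ → Measure ℝ) [∀ n, IsProbabilityMeasure (μ n)] (k : ℕ) :
    (Measure.infinitePi μ).map (fun (α : ℕ → ℝ) (i : Fin k) => α i) =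
      Measure.pi (fun i : Fin k => μ i) := by
  have hf : Measurable (fun (α : ℕ → ℝ) (i : Fin k) => α i) :=
    measurable_pi_lambda _ fun i => measurable_pi_apply _
  symm
  refine Measure.pi_eq fun s hs => ?_
  rw [Measure.map_apply hf (MeasurableSet.univ_pi hs)]
  have h1 : (fun (α : ℕ → ℝ) (i : Fin k) => α i) ⁻¹' (Set.univ.pi s) =
      Set.pi (Finset.range k) (fun n => if h : n < k then s ⟨n, h⟩ else Set.univ) := by
    ext α
    simp only [Set.mem_preimage, Set.mem_pi, Set.mem_univ, true_implies, Finset.coe_range,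
      Set.mem_Iio]
    constructor
    · intro h n hn
      rw [dif_pos hn]
      exact h ⟨n, hn⟩
    · intro h i
      have := h i i.2
      rwa [dif_pos i.2] at this
  rw [h1, Measure.infinitePi_pi]
  · rw [Finset.prod_range]
    refine Finset.prod_congr rfl fun i _ => ?_
    rw [dif_pos i.2]
  · intro n hn
    rw [dif_pos (Finset.mem_range.1 hn)]
    exact hs _

private theorem InfA_pull (μ : ℕ → Measure ℝ) [∀ n, IsProbabilityMeasure (μ n)]
    (hac : ∀ n, μ n ≪ volume) (k : ℕ) {P : (Fin k → ℝ) → Prop} (hP : ∀ᵐ x : Fin k → ℝ, P x) :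
    ∀ᵐ α ∂(Measure.infinitePi μ), P (fun i : Fin k => α i) := by
  have hf : Measurable (fun (α : ℕ → ℝ) (i : Fin k) => α i) :=
    measurable_pi_lambda _ fun i => measurable_pi_apply _
  have hac' : Measure.pi (fun i : Fin k => μ i) ≪ (volume : Measure (Fin k → ℝ)) := by
    rw [volume_pi]
    exact InfA_pi_ac _ _ fun i => hac i
  have h2 := hac'.ae_le hP
  rw [← InfA_map μ k] at h2
  exact ae_of_ae_map hf.aemeasurable h2

open Classical in
private theorem InfA_one (μ : ℕ → Measure ℝ) [∀ n, IsProbabilityMeasure (μ n)]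
    (hac : ∀ n, μ n ≪ volume) (hpos : ∀ n, μ n (Set.Iic 0) = 0) (k : ℕ) (hk : 1 ≤ k)
    (β : ℕ → ℝ) :
    ∀ᵐ α ∂(Measure.infinitePi μ), Tendsto (fun X : ℕ =>
        (((Finset.Icc 1 X).filter fun p => MCC.StartsExact α β p k).card : ℝ) *
          Real.log X ^ k / X) atTop (𝓝 1) := by
  have h3 : ∀ᵐ α ∂(Measure.infinitePi μ), ∀ j : ℕ, ∀ M : ℕ, 1 ≤ M →
      (∀ i : Fin (j + 1), 0 < α i) → ∀ᶠ m : ℕ in atTop,
        |EJ β (win M m) (win M (m + 1)) (fun i : Fin (j + 1) => α i)| ≤
          (win M m : ℝ) / Real.log (win M m) ^ ((k : ℝ) + 3) := by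
    rw [ae_all_iff]
    intro j
    rw [ae_all_iff]
    intro M
    by_cases hM : 1 ≤ M
    · filter_upwards [InfA_pull μ hac (j + 1) (ae_EJ (j := j) β M hM ((k : ℝ) + 3))] with α hα _
      exact hα
    · filter_upwards with α h
      exact absurd h hM
  have h4 : ∀ᵐ α ∂(Measure.infinitePi μ), ∀ n : ℕ, 0 < α n := by
    rw [ae_all_iff]
    intro n
    have h5 : ∀ᵐ x ∂(μ n), 0 < x := by
      rw [ae_iff]
      have h6 : {a : ℝ | ¬ 0 < a} = Set.Iic 0 := by
        ext a
        simp
      rw [h6]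
      exact hpos n
    have h6 := (measurePreserving_eval_infinitePi μ n).map_eq
    rw [← h6] at h5
    exact ae_of_ae_map (measurable_pi_apply n).aemeasurable h5
  filter_upwards [h3, h4] with α hα hα0
  exact asy hα0 hk fun j _ M hM => hα j M hM fun i => hα0 i

open Classical in
theorem inf_asy (μ : ℕ → Measure ℝ) [∀ n, IsProbabilityMeasure (μ n)]
    (hac : ∀ n, μ n ≪ volume) (hpos : ∀ n, μ n (Set.Iic 0) = 0) :
    ∀ᵐ α ∂(Measure.infinitePi μ), ∀ β : ℕ → ℚ, ∀ k : ℕ, 1 ≤ k →
      Tendsto (fun X : ℕ =>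
        (((Finset.Icc 1 X).filter fun p => MCC.StartsExact α (fun n => (β n : ℝ)) p k).card : ℝ) *
          Real.log X ^ k / X) atTop (𝓝 1) := by
  have h1 : ∀ᵐ α ∂(Measure.infinitePi μ), ∀ q : (k : ℕ) × (Fin k → ℚ), 1 ≤ q.1 →
      Tendsto (fun X : ℕ =>
        (((Finset.Icc 1 X).filter fun p => MCC.StartsExact α
          (fun n => if h : n < q.1 then ((q.2 ⟨n, h⟩ : ℚ) : ℝ) else 0) p q.1).card : ℝ) *
          Real.log X ^ q.1 / X) atTop (𝓝 1) := by
    rw [ae_all_iff]
    rintro ⟨k, b⟩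
    by_cases hk : 1 ≤ k
    · have h2 := InfA_one μ hac hpos k hk
        (fun n => if h : n < k then ((b ⟨n, h⟩ : ℚ) : ℝ) else 0)
      filter_upwards [h2] with α hα _
      exact hα
    · filter_upwards with α h
      exact absurd h hk
  filter_upwards [h1] with α hα β k hk
  refine (hα ⟨k, fun i => β i⟩ hk).congr fun X => ?_
  congr 3
  refine congrArg _ (Finset.filter_congr fun p _ => ?_)
  refine MCC.starts_congr (fun i _ => rfl) (fun i hi => ?_)
  show (if h : i < k then _ else _) = _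
  rw [dif_pos hi]

end AMC
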