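import Pool.Agent.AMC.KL0

/-!
# AMC.KL: the key lemma

PROOF. `M = log(a κ1 X) > 1` for large `X`. `1/log y = ∫_0^∞ y^(-t) dt`, so
`∑ u(c) (Λ(⌊αc+β⌋) - 1)/log(αc) = ∫_0^∞ (α/a)^(-t) exp(-M t) H_t(α) dt`, `H_t(α) = ∑ u(c) (c/(κ1 X))^(-t) (Λ(⌊αc+β⌋) - 1)`,
whose weights are at most `1` in absolute value (`c ≥ κ1 X`). Cauchy-Schwarz: the square is at most
`(1/M) ∫ exp(-Mt) H_t(α)² dt`; integrate over `α` with `key0` (`X0` does not depend on `t`): at most
`X²/(M² (log X)^A)`. Next `|Λ(q)/log q - Λ(q)/log(αc)| ≤ C/X` for `q = ⌊αc+β⌋` (`|q - αc| ≤ |β| + 1`), and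
`Λ(q)/log q = 1[q prime]` unless `q` is a proper prime power; there are at most `C √X log X` proper prime
powers below `C X` and each is `⌊αc+β⌋` for at most `1/a + 2` values of `c`. So
`∑ u(c) (1[⌊αc+β⌋ prime] - 1/log(αc))` differs from the sum above by at most `C √X log X`. (Use `key0` with `A + 1`.)

REMARK. Instead of the integral over `t` the proof below uses a grid: `1/log(αc)` is replaced by `1/log(α_i c)`
for the nearest of `N + 1` equidistant points `α_i` of `[a, b]`, `N` about `(log X)^(A+2)`, and `key0` is applied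
to every weight `u(c)/log(α_i c)` with a larger `A`. The proper prime powers are estimated by `ψ - θ`.
-/

namespace AMC

open MeasureTheory ArithmeticFunction

private theorem KL_log {m x y : ℝ} (hm : 0 < m) (hx : m ≤ x) (hy : m ≤ y) :
    |Real.log x - Real.log y| ≤ |x - y| / m := by
  have h : ∀ x y : ℝ, m ≤ x → m ≤ y → Real.log x - Real.log y ≤ |x - y| / m := by
    intro x y hx hy
    have hx0 : 0 < x := by linarith
    have hy0 : 0 < y := by linarith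
    rw [← Real.log_div hx0.ne' hy0.ne']
    have h1 := Real.log_le_sub_one_of_pos (div_pos hx0 hy0)
    have h2 : x / y - 1 = (x - y) / y := by field_simp
    rw [h2] at h1
    refine h1.trans ?_
    calc (x - y) / y ≤ |x - y| / y := div_le_div_of_nonneg_right (le_abs_self _) hy0.le
      _ ≤ |x - y| / m := div_le_div_of_nonneg_left (abs_nonneg _) hm hy
  rw [abs_le]
  constructor
  · have h1 := h y x hy hx
    rw [abs_sub_comm] at h1
    linarith
  · exact h x y hx hy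

/-- basic facts about an argument -/
private theorem KL_arg {a b β κ1 κ2 X α : ℝ} {c : ℕ} (ha : 0 < a) (hκ : 0 < κ1) (hX : 0 < X)
    (hα : α ∈ Set.Icc a b) (hY : 2 * (|β| + 1) ≤ a * κ1 * X)
    (hc : c ∈ Finset.Icc ⌈κ1 * X⌉₊ ⌊κ2 * X⌋₊) :
    a * κ1 * X ≤ α * c ∧ α * c ≤ b * |κ2| * X ∧ (⌊α * c + β⌋₊ : ℝ) ≤ α * c + β ∧
      |α * c - ⌊α * c + β⌋₊| ≤ |β| + 1 := by
  rw [Finset.mem_Icc] at hc
  have hκX : 0 < κ1 * X := mul_pos hκ hX
  have h1 : κ1 * X ≤ c := Nat.ceil_le.mp hc.1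
  have hc0 : c ≠ 0 := by
    intro h
    rw [h] at h1
    simp only [Nat.cast_zero] at h1
    linarith
  have h2 : (c : ℝ) ≤ κ2 * X := (Nat.le_floor_iff' hc0).1 hc.2
  have h3 : κ2 * X ≤ |κ2| * X := mul_le_mul_of_nonneg_right (le_abs_self _) hX.le
  have hcp : (0 : ℝ) ≤ c := Nat.cast_nonneg c
  have e1 : a * κ1 * X ≤ α * c := by
    calc a * κ1 * X = a * (κ1 * X) := by ring
      _ ≤ α * c := mul_le_mul hα.1 h1 hκX.le (by linarith [hα.1])
  have e2 : α * c ≤ b * |κ2| * X := by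
    calc α * c ≤ b * (|κ2| * X) :=
          mul_le_mul hα.2 (h2.trans h3) hcp (by linarith [hα.1, hα.2])
      _ = b * |κ2| * X := by ring
  have hβ1 := neg_abs_le β
  have hβ2 := le_abs_self β
  have hβ0 := abs_nonneg β
  have e3 : 0 ≤ α * c + β := by linarith
  have e4 := Nat.floor_le e3
  have e5 := Nat.lt_floor_add_one (α * c + β)
  refine ⟨e1, e2, e4, ?_⟩
  rw [abs_le]
  constructor <;> linarith

private theorem KL_card {κ1 κ2 X : ℝ} (hκ : 0 < κ1) (hX : 0 < X) :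
    ((Finset.Icc ⌈κ1 * X⌉₊ ⌊κ2 * X⌋₊).card : ℝ) ≤ |κ2| * X := by
  have h1 : 1 ≤ ⌈κ1 * X⌉₊ := Nat.one_le_ceil_iff.mpr (mul_pos hκ hX)
  have h2 : (Finset.Icc ⌈κ1 * X⌉₊ ⌊κ2 * X⌋₊).card ≤ ⌊κ2 * X⌋₊ := by
    rw [Nat.card_Icc]
    omega
  have h3 : (⌊κ2 * X⌋₊ : ℝ) ≤ |κ2| * X := by
    calc (⌊κ2 * X⌋₊ : ℝ) ≤ (⌊|κ2| * X⌋₊ : ℝ) := by
          exact_mod_cast Nat.floor_le_floor (mul_le_mul_of_nonneg_right (le_abs_self _) hX.le)
      _ ≤ |κ2| * X := Nat.floor_le (by positivity)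
  have h4 : ((Finset.Icc ⌈κ1 * X⌉₊ ⌊κ2 * X⌋₊).card : ℝ) ≤ (⌊κ2 * X⌋₊ : ℝ) := by
    exact_mod_cast h2
  exact h4.trans h3

/-- every value is attained a bounded number of times -/
private theorem KL_fiber {a β α : ℝ} (ha : 0 < a) (hα : a ≤ α) (I : Finset ℕ) {n : ℕ} (hn : 1 ≤ n) :
    (I.filter (fun c : ℕ => ⌊α * c + β⌋₊ = n)).card ≤ ⌊1 / a⌋₊ + 1 := by
  classical
  rcases (I.filter (fun c : ℕ => ⌊α * c + β⌋₊ = n)).eq_empty_or_nonempty with h | h
  · rw [h, Finset.card_empty]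
    omega
  · set F := I.filter (fun c : ℕ => ⌊α * c + β⌋₊ = n) with hF
    obtain ⟨c0, hc0, hmin⟩ : ∃ c0 ∈ F, ∀ c ∈ F, c0 ≤ c :=
      ⟨F.min' h, F.min'_mem h, fun c hc => F.min'_le c hc⟩
    have hsub : F ⊆ Finset.Icc c0 (c0 + ⌊1 / a⌋₊) := by
      intro c hc
      rw [Finset.mem_Icc]
      refine ⟨hmin c hc, ?_⟩
      have h1 : ⌊α * c + β⌋₊ = n := (Finset.mem_filter.mp hc).2
      have h2 : ⌊α * c0 + β⌋₊ = n := (Finset.mem_filter.mp hc0).2
      have h3 : α * c + β < n + 1 := by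
        rw [← h1]
        exact Nat.lt_floor_add_one _
      have h4 : (n : ℝ) ≤ α * c0 + β := (Nat.le_floor_iff' (by omega)).1 h2.ge
      have h5 : c0 ≤ c := hmin c hc
      have h6 : α * ((c : ℝ) - c0) < 1 := by linarith
      have h7 : (0 : ℝ) ≤ (c : ℝ) - c0 := by
        rw [sub_nonneg]
        exact_mod_cast h5
      have h8 : (c : ℝ) - c0 ≤ 1 / a := by
        rw [le_div_iff₀ ha]
        nlinarith
      have h9 : c - c0 ≤ ⌊1 / a⌋₊ := by
        refine Nat.le_floor ?_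
        rw [Nat.cast_sub h5]
        exact h8
      omega
    have h10 := Finset.card_le_card hsub
    rw [Nat.card_Icc] at h10
    omega

/-- the weights at non-primes -/
private noncomputable def KL_g (n : ℕ) : ℝ := if n.Prime then 0 else vonMangoldt n

private theorem KL_g_nonneg (n : ℕ) : 0 ≤ KL_g n := by
  unfold KL_g
  split_ifs
  · exact le_rfl
  · exact vonMangoldt_nonneg

private theorem KL_g_zero : KL_g 0 = 0 := by
  unfold KL_g
  simp

private theorem KL_sum_g {a β α Q : ℝ} (ha : 0 < a) (hα : a ≤ α) (hQ : 1 ≤ Q) (I : Finset ℕ)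
    (hI : ∀ c ∈ I, (⌊α * c + β⌋₊ : ℝ) ≤ Q) :
    ∑ c ∈ I, KL_g ⌊α * c + β⌋₊ ≤ ((⌊1 / a⌋₊ : ℝ) + 1) * (2 * √Q * Real.log Q) := by
  classical
  have h1 : ∑ c ∈ I, KL_g ⌊α * c + β⌋₊ =
      ∑ n ∈ I.image (fun c : ℕ => ⌊α * c + β⌋₊),
        (I.filter (fun c : ℕ => ⌊α * c + β⌋₊ = n)).card • KL_g n :=
    Finset.sum_comp (fun n => KL_g n) (fun c : ℕ => ⌊α * c + β⌋₊)
  rw [h1]
  have h2 : ∑ n ∈ I.image (fun c : ℕ => ⌊α * c + β⌋₊),
        (I.filter (fun c : ℕ => ⌊α * c + β⌋₊ = n)).card • KL_g n ≤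
      ∑ n ∈ I.image (fun c : ℕ => ⌊α * c + β⌋₊), ((⌊1 / a⌋₊ : ℝ) + 1) * KL_g n := by
    refine Finset.sum_le_sum fun n _ => ?_
    rw [nsmul_eq_mul]
    rcases Nat.eq_zero_or_pos n with h | h
    · rw [h, KL_g_zero, mul_zero, mul_zero]
    · refine mul_le_mul_of_nonneg_right ?_ (KL_g_nonneg n)
      exact_mod_cast KL_fiber ha hα I h
  refine h2.trans ?_
  rw [← Finset.mul_sum]
  refine mul_le_mul_of_nonneg_left ?_ (by positivity)
  have h3 : ∑ n ∈ I.image (fun c : ℕ => ⌊α * c + β⌋₊), KL_g n ≤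
      ∑ n ∈ insert 0 (Finset.Ioc 0 ⌊Q⌋₊), KL_g n := by
    refine Finset.sum_le_sum_of_subset_of_nonneg ?_ fun n _ _ => KL_g_nonneg n
    intro n hn
    obtain ⟨c, hc, rfl⟩ := Finset.mem_image.mp hn
    rw [Finset.mem_insert, Finset.mem_Ioc]
    rcases Nat.eq_zero_or_pos ⌊α * c + β⌋₊ with h | h
    · exact Or.inl h
    · exact Or.inr ⟨h, Nat.le_floor (hI c hc)⟩
  refine h3.trans ?_
  rw [Finset.sum_insert (by simp), KL_g_zero, zero_add]
  have h4 := Chebyshev.psi_sub_theta_le hQ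
  rw [Chebyshev.psi_sub_theta_eq_sum_not_prime, Finset.sum_filter] at h4
  refine le_trans (le_of_eq ?_) h4
  refine Finset.sum_congr rfl fun n _ => ?_
  unfold KL_g
  by_cases hn : n.Prime
  · rw [if_pos hn, if_neg (not_not.mpr hn)]
  · rw [if_neg hn, if_pos hn]

open Classical in
/-- from `Λ(q)/log(αc)` to the indicator of the primes -/
private theorem KL_prime {a b β κ1 κ2 X α Q : ℝ} (ha : 0 < a) (hκ : 0 < κ1) (hX : 0 < X)
    (hα : α ∈ Set.Icc a b) (hY : 2 * (|β| + 1) ≤ a * κ1 * X) (hY3 : 3 ≤ a * κ1 * X)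
    (hQ : 1 ≤ Q) (hQ2 : b * |κ2| * X + |β| ≤ Q) (u : ℕ → ℝ) (hu : ∀ c, |u c| ≤ 1) :
    |∑ c ∈ Finset.Icc ⌈κ1 * X⌉₊ ⌊κ2 * X⌋₊,
        u c * ((if (⌊α * c + β⌋₊).Prime then 1 else 0) -
          vonMangoldt ⌊α * c + β⌋₊ / Real.log (α * c))| ≤
      2 * (|β| + 1) / (a * κ1) * |κ2| + ((⌊1 / a⌋₊ : ℝ) + 1) * (2 * √Q * Real.log Q) := by
  have hY0 : 0 < a * κ1 * X := by linarith
  have hterm : ∀ c ∈ Finset.Icc ⌈κ1 * X⌉₊ ⌊κ2 * X⌋₊,
      |u c * ((if (⌊α * c + β⌋₊).Prime then 1 else 0) -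
          vonMangoldt ⌊α * c + β⌋₊ / Real.log (α * c))| ≤
        2 * (|β| + 1) / (a * κ1 * X) + KL_g ⌊α * c + β⌋₊ := by
    intro c hc
    obtain ⟨h1, h2, h3, h4⟩ := KL_arg ha hκ hX hα hY hc
    have hy0 : 0 < α * c := by linarith
    have hlog : 1 ≤ Real.log (α * c) := by
      rw [Real.le_log_iff_exp_le hy0]
      have := Real.exp_one_lt_d9
      linarith
    have hl0 : 0 < Real.log (α * c) := by linarith
    rw [abs_mul]
    refine (mul_le_of_le_one_left (abs_nonneg _) (hu c)).trans ?_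
    by_cases hp : (⌊α * c + β⌋₊).Prime
    · rw [if_pos hp]
      unfold KL_g
      rw [if_pos hp, add_zero, vonMangoldt_apply_prime hp]
      have e1 : 1 - Real.log (⌊α * c + β⌋₊ : ℝ) / Real.log (α * c) =
          (Real.log (α * c) - Real.log (⌊α * c + β⌋₊ : ℝ)) / Real.log (α * c) := by
        field_simp
      rw [e1, abs_div, abs_of_pos hl0, div_le_iff₀ hl0]
      have hq : a * κ1 * X / 2 ≤ (⌊α * c + β⌋₊ : ℝ) := by
        have := (abs_le.mp h4).2
        linarith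
      have e2 := KL_log (m := a * κ1 * X / 2) (by linarith) (x := α * c)
        (y := (⌊α * c + β⌋₊ : ℝ)) (by linarith) hq
      refine e2.trans ?_
      have e3 : |α * c - (⌊α * c + β⌋₊ : ℝ)| / (a * κ1 * X / 2) ≤
          (|β| + 1) / (a * κ1 * X / 2) := div_le_div_of_nonneg_right h4 (by linarith)
      refine e3.trans ?_
      have e4 : (|β| + 1) / (a * κ1 * X / 2) = 2 * (|β| + 1) / (a * κ1 * X) := by
        field_simp
      rw [e4]
      exact le_mul_of_one_le_right (by positivity) hlog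
    · rw [if_neg hp]
      unfold KL_g
      rw [if_neg hp, zero_sub, abs_neg, abs_div, abs_of_pos hl0, abs_of_nonneg vonMangoldt_nonneg]
      have e5 : (vonMangoldt ⌊α * c + β⌋₊ : ℝ) / Real.log (α * c) ≤ vonMangoldt ⌊α * c + β⌋₊ :=
        div_le_self vonMangoldt_nonneg hlog
      have e6 : 0 ≤ 2 * (|β| + 1) / (a * κ1 * X) := by positivity
      linarith
  refine (Finset.abs_sum_le_sum_abs _ _).trans ((Finset.sum_le_sum hterm).trans ?_)
  rw [Finset.sum_add_distrib, Finset.sum_const, nsmul_eq_mul]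
  refine add_le_add ?_ ?_
  · calc ((Finset.Icc ⌈κ1 * X⌉₊ ⌊κ2 * X⌋₊).card : ℝ) * (2 * (|β| + 1) / (a * κ1 * X)) ≤
          (|κ2| * X) * (2 * (|β| + 1) / (a * κ1 * X)) :=
          mul_le_mul_of_nonneg_right (KL_card hκ hX) (by positivity)
      _ = 2 * (|β| + 1) / (a * κ1) * |κ2| := by
          field_simp
  · refine KL_sum_g ha hα.1 hQ _ fun c hc => ?_
    obtain ⟨h1, h2, h3, h4⟩ := KL_arg ha hκ hX hα hY hc
    have := le_abs_self β
    linarith

/-- change of the grid point -/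
private theorem KL_grid {a b β κ1 κ2 X α α' Q η : ℝ} (ha : 0 < a) (hκ : 0 < κ1) (hX : 0 < X)
    (hα : α ∈ Set.Icc a b) (hα' : α' ∈ Set.Icc a b) (hη : |α - α'| ≤ η)
    (hY : 2 * (|β| + 1) ≤ a * κ1 * X) (hY3 : 3 ≤ a * κ1 * X)
    (hQ : 1 ≤ Q) (hQ2 : b * |κ2| * X + |β| ≤ Q) (u : ℕ → ℝ) (hu : ∀ c, |u c| ≤ 1) :
    |∑ c ∈ Finset.Icc ⌈κ1 * X⌉₊ ⌊κ2 * X⌋₊,
        u c * ((vonMangoldt ⌊α * c + β⌋₊ - 1) / Real.log (α * c)) -
      ∑ c ∈ Finset.Icc ⌈κ1 * X⌉₊ ⌊κ2 * X⌋₊,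
        (u c / Real.log (α' * c)) * (vonMangoldt ⌊α * c + β⌋₊ - 1)| ≤
      |κ2| * X * ((Real.log Q + 1) * (η / a)) := by
  have hη0 : 0 ≤ η := (abs_nonneg _).trans hη
  rw [← Finset.sum_sub_distrib]
  have hterm : ∀ c ∈ Finset.Icc ⌈κ1 * X⌉₊ ⌊κ2 * X⌋₊,
      |u c * ((vonMangoldt ⌊α * c + β⌋₊ - 1) / Real.log (α * c)) -
        (u c / Real.log (α' * c)) * (vonMangoldt ⌊α * c + β⌋₊ - 1)| ≤
      (Real.log Q + 1) * (η / a) := by
    intro c hc
    obtain ⟨h1, h2, h3, h4⟩ := KL_arg ha hκ hX hα hY hc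
    obtain ⟨k1, k2, k3, k4⟩ := KL_arg ha hκ hX hα' hY hc
    have hlog : ∀ y : ℝ, a * κ1 * X ≤ y → 1 ≤ Real.log y := by
      intro y hy
      rw [Real.le_log_iff_exp_le (by linarith)]
      have := Real.exp_one_lt_d9
      linarith
    have hl1 := hlog _ h1
    have hl2 := hlog _ k1
    have hl10 : 0 < Real.log (α * c) := by linarith
    have hl20 : 0 < Real.log (α' * c) := by linarith
    have hc0 : (0 : ℝ) < c := by
      have hp : 0 < α * (c : ℝ) := by linarith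
      exact (pos_iff_pos_of_mul_pos hp).1 (by linarith [hα.1])
    have e1 : u c * ((vonMangoldt ⌊α * c + β⌋₊ - 1) / Real.log (α * c)) -
        (u c / Real.log (α' * c)) * (vonMangoldt ⌊α * c + β⌋₊ - 1) =
        u c * (vonMangoldt ⌊α * c + β⌋₊ - 1) *
          ((Real.log (α' * c) - Real.log (α * c)) / (Real.log (α * c) * Real.log (α' * c))) := by
      have gen : ∀ (p r v U : ℝ), 0 < p → 0 < r →
          U * ((v - 1) / p) - U / r * (v - 1) = U * (v - 1) * ((r - p) / (p * r)) := by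
        intro p r v U hp hr
        have hp' : p ≠ 0 := hp.ne'
        have hr' : r ≠ 0 := hr.ne'
        rw [← sub_eq_zero]
        have : U * ((v - 1) / p) - U / r * (v - 1) - U * (v - 1) * ((r - p) / (p * r)) =
            U * (v - 1) * (1 / p - 1 / r - (r - p) / (p * r)) := by ring
        rw [this]
        have h0 : 1 / p - 1 / r - (r - p) / (p * r) = 0 := by
          rw [div_sub_div _ _ hp' hr']
          ring
        rw [h0, mul_zero]
      exact gen _ _ _ _ hl10 hl20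
    rw [e1, abs_mul, abs_mul]
    have e2 : |(vonMangoldt ⌊α * c + β⌋₊ : ℝ) - 1| ≤ Real.log Q + 1 := by
      have f1 : (0 : ℝ) ≤ vonMangoldt ⌊α * c + β⌋₊ := vonMangoldt_nonneg
      have f2 : (vonMangoldt ⌊α * c + β⌋₊ : ℝ) ≤ Real.log Q := by
        rcases Nat.eq_zero_or_pos ⌊α * c + β⌋₊ with h | h
        · rw [h]
          simp only [ArithmeticFunction.map_zero]
          exact Real.log_nonneg hQ
        · refine vonMangoldt_le_log.trans (Real.log_le_log (by exact_mod_cast h) ?_)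
          have := le_abs_self β
          linarith
      have f3 : 0 ≤ Real.log Q := Real.log_nonneg hQ
      rw [abs_le]
      constructor <;> linarith
    have e3 : |(Real.log (α' * c) - Real.log (α * c)) /
        (Real.log (α * c) * Real.log (α' * c))| ≤ η / a := by
      rw [abs_div, abs_of_pos (mul_pos hl10 hl20)]
      have f1 : Real.log (α' * c) - Real.log (α * c) = Real.log α' - Real.log α := by
        rw [Real.log_mul (by linarith [hα'.1]) hc0.ne', Real.log_mul (by linarith [hα.1]) hc0.ne']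
        ring
      have f2 : |Real.log (α' * c) - Real.log (α * c)| ≤ η / a := by
        rw [f1]
        refine (KL_log ha hα'.1 hα.1).trans ?_
        rw [abs_sub_comm]
        exact div_le_div_of_nonneg_right hη ha.le
      refine (div_le_self (abs_nonneg _) ?_).trans f2
      nlinarith
    have hLQ : 0 ≤ Real.log Q + 1 := by
      have := Real.log_nonneg hQ
      linarith
    calc |u c| * |(vonMangoldt ⌊α * c + β⌋₊ : ℝ) - 1| *
          |(Real.log (α' * c) - Real.log (α * c)) / (Real.log (α * c) * Real.log (α' * c))| ≤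
          1 * (Real.log Q + 1) * (η / a) :=
          mul_le_mul (mul_le_mul (hu c) e2 (abs_nonneg _) zero_le_one) e3 (abs_nonneg _)
            (by linarith)
      _ = (Real.log Q + 1) * (η / a) := by ring
  refine (Finset.abs_sum_le_sum_abs _ _).trans ((Finset.sum_le_sum hterm).trans ?_)
  rw [Finset.sum_const, nsmul_eq_mul]
  refine mul_le_mul_of_nonneg_right (KL_card hκ hX) ?_
  have := Real.log_nonneg hQ
  positivity

private theorem KL_int {a b β : ℝ} (I : Finset ℕ) (w : ℕ → ℝ) :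
    IntegrableOn (fun α : ℝ => (∑ c ∈ I, w c * (vonMangoldt ⌊α * c + β⌋₊ - 1)) ^ 2)
      (Set.Icc a b) := by
  have hmeas : Measurable (fun α : ℝ => (∑ c ∈ I, w c * (vonMangoldt ⌊α * c + β⌋₊ - 1)) ^ 2) := by
    refine Measurable.pow_const ?_ 2
    refine Finset.measurable_fun_sum I fun c _ => ?_
    refine Measurable.const_mul ?_ _
    refine Measurable.sub_const ?_ _
    exact (measurable_from_top (f := fun n : ℕ => (vonMangoldt n : ℝ))).comp
      (Nat.measurable_floor.comp ((measurable_id.mul_const _).add_const _))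
  refine Measure.integrableOn_of_bounded
    (M := (∑ c ∈ I, |w c| * ((|a| + |b|) * c + |β| + 1)) ^ 2) ?_
    hmeas.aestronglyMeasurable ?_
  · rw [Real.volume_Icc]
    exact ENNReal.ofReal_ne_top
  · refine (ae_restrict_iff' measurableSet_Icc).mpr (Filter.Eventually.of_forall fun α hα => ?_)
    rw [Real.norm_eq_abs, abs_pow]
    refine pow_le_pow_left₀ (abs_nonneg _) ?_ 2
    refine (Finset.abs_sum_le_sum_abs _ _).trans (Finset.sum_le_sum fun c _ => ?_)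
    rw [abs_mul]
    refine mul_le_mul_of_nonneg_left ?_ (abs_nonneg _)
    have h1 : (0 : ℝ) ≤ vonMangoldt ⌊α * c + β⌋₊ := vonMangoldt_nonneg
    have h2 : (vonMangoldt ⌊α * c + β⌋₊ : ℝ) ≤ (⌊α * c + β⌋₊ : ℝ) :=
      vonMangoldt_le_log.trans (Real.log_le_self (Nat.cast_nonneg _))
    have h3 : (⌊α * c + β⌋₊ : ℝ) ≤ |α * c + β| :=
      (Nat.cast_le.mpr (Nat.floor_le_floor (le_abs_self _))).trans (Nat.floor_le (abs_nonneg _))
    have h4 : |α * c + β| ≤ |α| * c + |β| := by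
      refine (abs_add_le _ _).trans ?_
      rw [abs_mul, Nat.abs_cast]
    have h5 : |α| ≤ |a| + |b| := by
      rw [abs_le]
      constructor
      · linarith [hα.1, neg_abs_le a, abs_nonneg b]
      · linarith [hα.2, le_abs_self b, abs_nonneg a]
    have h6 : |α| * c ≤ (|a| + |b|) * c := mul_le_mul_of_nonneg_right h5 (Nat.cast_nonneg c)
    rw [abs_le]
    constructor <;> linarith [abs_nonneg β, mul_nonneg (add_nonneg (abs_nonneg a) (abs_nonneg b))
      (Nat.cast_nonneg (α := ℝ) c)]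

/-- a nearby grid point -/
private theorem KL_near {a b α : ℝ} {N : ℕ} (hab : a < b) (hN : 1 ≤ N) (hα : α ∈ Set.Icc a b) :
    ∃ i ∈ Finset.range (N + 1), a + i * ((b - a) / N) ∈ Set.Icc a b ∧
      |α - (a + i * ((b - a) / N))| ≤ (b - a) / N := by
  have hN0 : (0 : ℝ) < N := by exact_mod_cast hN
  have hs : 0 < (b - a) / N := div_pos (by linarith) hN0
  set s := (b - a) / N with hsdef
  have hsN : s * N = b - a := by
    rw [hsdef]
    field_simp
  have h0 : 0 ≤ (α - a) / s := div_nonneg (by linarith [hα.1]) hs.le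
  have h1 := Nat.floor_le h0
  have h2 := Nat.lt_floor_add_one ((α - a) / s)
  set i := ⌊(α - a) / s⌋₊ with hi
  have h3 : (i : ℝ) * s ≤ α - a := by rwa [le_div_iff₀ hs] at h1
  have h4 : α - a < ((i : ℝ) + 1) * s := by rwa [div_lt_iff₀ hs] at h2
  have hiN : i ≤ N := by
    have : (i : ℝ) * s ≤ N * s := by linarith [hα.2]
    exact_mod_cast le_of_mul_le_mul_right this hs
  refine ⟨i, Finset.mem_range.mpr (by omega), ⟨?_, ?_⟩, ?_⟩
  · have : 0 ≤ (i : ℝ) * s := by positivity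
    linarith
  · linarith [hα.2]
  · rw [abs_le]
    constructor <;> linarith

open Classical in
/-- the inequality for fixed `X` and `N` -/
private theorem KL_main {a b β κ1 κ2 X Q E : ℝ} {N : ℕ} (ha : 0 < a) (hab : a < b) (hκ : 0 < κ1)
    (hX : 0 < X) (hN : 1 ≤ N) (hY : 2 * (|β| + 1) ≤ a * κ1 * X) (hY3 : 3 ≤ a * κ1 * X)
    (hQ : 1 ≤ Q) (hQ2 : b * |κ2| * X + |β| ≤ Q) (u : ℕ → ℝ) (hu : ∀ c, |u c| ≤ 1)
    (hE : ∀ w : ℕ → ℝ, (∀ c, |w c| ≤ 1) →
      ∫ α in Set.Icc a b, (∑ c ∈ Finset.Icc ⌈κ1 * X⌉₊ ⌊κ2 * X⌋₊,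
        w c * (vonMangoldt ⌊α * c + β⌋₊ - 1)) ^ 2 ≤ E) :
    ∫ α in Set.Icc a b, (∑ c ∈ Finset.Icc ⌈κ1 * X⌉₊ ⌊κ2 * X⌋₊,
        u c * ((if (⌊α * c + β⌋₊).Prime then 1 else 0) - 1 / Real.log (α * c))) ^ 2 ≤
      (b - a) * (2 * (2 * (|β| + 1) / (a * κ1) * |κ2| +
        ((⌊1 / a⌋₊ : ℝ) + 1) * (2 * √Q * Real.log Q)) ^ 2 +
        4 * (|κ2| * X * ((Real.log Q + 1) * ((b - a) / N / a))) ^ 2) + 4 * ((N : ℝ) + 1) * E := by
  set I := Finset.Icc ⌈κ1 * X⌉₊ ⌊κ2 * X⌋₊ with hI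
  set E1 := 2 * (|β| + 1) / (a * κ1) * |κ2| + ((⌊1 / a⌋₊ : ℝ) + 1) * (2 * √Q * Real.log Q) with hE1
  set E2 := |κ2| * X * ((Real.log Q + 1) * ((b - a) / N / a)) with hE2
  -- the weights at the grid points
  let w : ℕ → ℕ → ℝ := fun i c => if c ∈ I ∧ a + i * ((b - a) / N) ∈ Set.Icc a b then
    u c / Real.log ((a + i * ((b - a) / N)) * c) else 0
  have hw : ∀ i c, |w i c| ≤ 1 := by
    intro i c
    show |if c ∈ I ∧ a + i * ((b - a) / N) ∈ Set.Icc a b then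
      u c / Real.log ((a + i * ((b - a) / N)) * c) else 0| ≤ 1
    split_ifs with h
    · obtain ⟨h1, -⟩ := KL_arg ha hκ hX h.2 hY h.1
      have hl : 1 ≤ Real.log ((a + i * ((b - a) / N)) * c) := by
        rw [Real.le_log_iff_exp_le (by linarith)]
        have := Real.exp_one_lt_d9
        linarith
      rw [abs_div, abs_of_pos (by linarith : 0 < Real.log ((a + i * ((b - a) / N)) * c))]
      exact (div_le_self (abs_nonneg _) hl).trans (hu c)
    · rw [abs_zero]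
      exact zero_le_one
  have hpt : ∀ α ∈ Set.Icc a b,
      (∑ c ∈ I, u c * ((if (⌊α * c + β⌋₊).Prime then 1 else 0) - 1 / Real.log (α * c))) ^ 2 ≤
      (2 * E1 ^ 2 + 4 * E2 ^ 2) + ∑ i ∈ Finset.range (N + 1),
        4 * (∑ c ∈ I, w i c * (vonMangoldt ⌊α * c + β⌋₊ - 1)) ^ 2 := by
    intro α hα
    obtain ⟨i, hi, hi1, hi2⟩ := KL_near hab hN hα
    have h1 := KL_prime ha hκ hX hα hY hY3 hQ hQ2 u hu
    have h2 := KL_grid ha hκ hX hα hi1 hi2 hY hY3 hQ hQ2 u hu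
    rw [← hI, ← hE1] at h1
    rw [← hI, ← hE2] at h2
    have h3 : ∑ c ∈ I, (u c / Real.log ((a + i * ((b - a) / N)) * c)) *
        (vonMangoldt ⌊α * c + β⌋₊ - 1) =
        ∑ c ∈ I, w i c * (vonMangoldt ⌊α * c + β⌋₊ - 1) := by
      refine Finset.sum_congr rfl fun c hc => ?_
      show _ = (if c ∈ I ∧ a + i * ((b - a) / N) ∈ Set.Icc a b then
        u c / Real.log ((a + i * ((b - a) / N)) * c) else 0) * _
      rw [if_pos ⟨hc, hi1⟩]
    rw [h3] at h2
    have h4 : ∑ c ∈ I, u c * ((if (⌊α * c + β⌋₊).Prime then 1 else 0) - 1 / Real.log (α * c)) =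
        ∑ c ∈ I, u c * ((if (⌊α * c + β⌋₊).Prime then 1 else 0) -
          vonMangoldt ⌊α * c + β⌋₊ / Real.log (α * c)) +
        ∑ c ∈ I, u c * ((vonMangoldt ⌊α * c + β⌋₊ - 1) / Real.log (α * c)) := by
      rw [← Finset.sum_add_distrib]
      refine Finset.sum_congr rfl fun c _ => ?_
      ring
    rw [h4]
    set S1 := ∑ c ∈ I, u c * ((if (⌊α * c + β⌋₊).Prime then (1 : ℝ) else 0) -
          vonMangoldt ⌊α * c + β⌋₊ / Real.log (α * c))
    set S2 := ∑ c ∈ I, u c * ((vonMangoldt ⌊α * c + β⌋₊ - 1) / Real.log (α * c))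
    have h5 : (∑ c ∈ I, w i c * (vonMangoldt ⌊α * c + β⌋₊ - 1)) ^ 2 * 4 ≤
        ∑ j ∈ Finset.range (N + 1),
          4 * (∑ c ∈ I, w j c * (vonMangoldt ⌊α * c + β⌋₊ - 1)) ^ 2 := by
      rw [mul_comm]
      exact Finset.single_le_sum (f := fun j => 4 * (∑ c ∈ I, w j c *
        (vonMangoldt ⌊α * c + β⌋₊ - 1)) ^ 2) (fun j _ => by positivity) hi
    refine le_trans ?_ (add_le_add le_rfl h5)
    set S3 := ∑ c ∈ I, w i c * (vonMangoldt ⌊α * c + β⌋₊ - 1)
    have h6 : S1 ^ 2 ≤ E1 ^ 2 := sq_le_sq' (by linarith [(abs_le.mp h1).1]) (abs_le.mp h1).2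
    have h7 : (S2 - S3) ^ 2 ≤ E2 ^ 2 := sq_le_sq' (by linarith [(abs_le.mp h2).1]) (abs_le.mp h2).2
    nlinarith [sq_nonneg (S1 - S2), sq_nonneg (S2 - 2 * S3), sq_nonneg (S1 + S2)]
  have hint : IntegrableOn (fun α : ℝ => (2 * E1 ^ 2 + 4 * E2 ^ 2) + ∑ i ∈ Finset.range (N + 1),
        4 * (∑ c ∈ I, w i c * (vonMangoldt ⌊α * c + β⌋₊ - 1)) ^ 2) (Set.Icc a b) := by
    refine Integrable.add ?_ ?_
    · refine integrableOn_const ?_
      rw [Real.volume_Icc]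
      exact ENNReal.ofReal_ne_top
    · exact integrable_finsetSum _ fun i _ => (KL_int I (w i)).const_mul 4
  have hle : ∫ α in Set.Icc a b, (∑ c ∈ I, u c *
        ((if (⌊α * c + β⌋₊).Prime then 1 else 0) - 1 / Real.log (α * c))) ^ 2 ≤
      ∫ α in Set.Icc a b, ((2 * E1 ^ 2 + 4 * E2 ^ 2) + ∑ i ∈ Finset.range (N + 1),
        4 * (∑ c ∈ I, w i c * (vonMangoldt ⌊α * c + β⌋₊ - 1)) ^ 2) := by
    refine integral_mono_of_nonneg (Filter.Eventually.of_forall fun α => sq_nonneg _) hint ?_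
    exact (ae_restrict_iff' measurableSet_Icc).mpr (Filter.Eventually.of_forall hpt)
  refine hle.trans ?_
  rw [integral_add]
  · rw [setIntegral_const, smul_eq_mul, integral_finsetSum _ fun i _ =>
      (KL_int I (w i)).const_mul 4]
    have hvol : volume.real (Set.Icc a b) = b - a := by
      rw [Measure.real, Real.volume_Icc, ENNReal.toReal_ofReal (by linarith)]
    rw [hvol]
    refine add_le_add le_rfl ?_
    calc ∑ i ∈ Finset.range (N + 1), ∫ α in Set.Icc a b,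
          4 * (∑ c ∈ I, w i c * (vonMangoldt ⌊α * c + β⌋₊ - 1)) ^ 2 ≤
          ∑ i ∈ Finset.range (N + 1), 4 * E := by
          refine Finset.sum_le_sum fun i _ => ?_
          rw [integral_const_mul]
          exact mul_le_mul_of_nonneg_left (hE (w i) (hw i)) (by norm_num)
      _ = 4 * ((N : ℝ) + 1) * E := by
          rw [Finset.sum_const, Finset.card_range, nsmul_eq_mul]
          push_cast
          ring
  · refine integrableOn_const ?_
    rw [Real.volume_Icc]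
    exact ENNReal.ofReal_ne_top
  · exact integrable_finsetSum _ fun i _ => (KL_int I (w i)).const_mul 4

open Classical in
theorem key {a b κ1 κ2 β A : ℝ} (ha : 0 < a) (hab : a < b) (hκ : 0 < κ1) :
    ∃ X0 : ℝ, 2 ≤ X0 ∧ ∀ X : ℝ, X0 ≤ X → ∀ u : ℕ → ℝ, (∀ c, |u c| ≤ 1) →
      ∫ α in Set.Icc a b, (∑ c ∈ Finset.Icc ⌈κ1 * X⌉₊ ⌊κ2 * X⌋₊,
        u c * ((if (⌊α * c + β⌋₊).Prime then 1 else 0) - 1 / Real.log (α * c))) ^ 2 ≤
          X ^ 2 / Real.log X ^ A := by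
  obtain ⟨B, hB⟩ : ∃ B, B = max A 0 := ⟨_, rfl⟩
  have hB0 : 0 ≤ B := hB ▸ le_max_right _ _
  have hBA : A ≤ B := hB ▸ le_max_left _ _
  obtain ⟨X1, hX1, hkey⟩ := key0 (κ2 := κ2) (β := β) (A := 2 * B + 3) ha hab hκ
  -- constants
  obtain ⟨C1, hC1⟩ : ∃ C1, C1 = b * |κ2| + |β| + 1 := ⟨_, rfl⟩
  have hb0 : 0 < b := by linarith
  have hC11 : 1 ≤ C1 := by
    have : 0 ≤ b * |κ2| + |β| := by positivity
    linarith
  obtain ⟨m, hm⟩ : ∃ m : ℝ, m = (⌊1 / a⌋₊ : ℝ) + 1 := ⟨_, rfl⟩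
  have hm0 : 0 < m := by rw [hm]; positivity
  obtain ⟨c0, hc0⟩ : ∃ c0 : ℝ, c0 = 2 * (|β| + 1) / (a * κ1) * |κ2| := ⟨_, rfl⟩
  have hc00 : 0 ≤ c0 := by rw [hc0]; positivity
  obtain ⟨C4, hC4⟩ : ∃ C4 : ℝ, C4 = c0 + m * (8 * C1) := ⟨_, rfl⟩
  have hC40 : 0 ≤ C4 := by rw [hC4]; positivity
  obtain ⟨C6, hC6⟩ : ∃ C6 : ℝ, C6 = |κ2| * ((Real.log C1 + 2) * ((b - a) / a)) := ⟨_, rfl⟩
  have hlC1 : 0 ≤ Real.log C1 := Real.log_nonneg hC11
  have hC60 : 0 ≤ C6 := by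
    rw [hC6]
    have : 0 ≤ (b - a) / a := div_nonneg (by linarith) ha.le
    positivity
  obtain ⟨ε, hε⟩ : ∃ ε : ℝ, ε = 1 / (6 * (b - a) * (C4 ^ 2 + 1)) := ⟨_, rfl⟩
  have hba : 0 < b - a := by linarith
  have hε0 : 0 < ε := by rw [hε]; positivity
  -- the logarithms
  have hlit : ∀ᶠ X : ℝ in Filter.atTop, Real.log X ^ B ≤ ε * X ^ (1 / 2 : ℝ) := by
    have h := (isLittleO_log_rpow_rpow_atTop B (by norm_num : (0 : ℝ) < 1 / 2)).bound hε0
    filter_upwards [h, Filter.eventually_ge_atTop (1 : ℝ)] with X hX hX1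
    rw [Real.norm_eq_abs, Real.norm_eq_abs, abs_of_nonneg (Real.rpow_nonneg (Real.log_nonneg hX1) _),
      abs_of_nonneg (Real.rpow_nonneg (by linarith) _)] at hX
    exact hX
  have hlog : ∀ᶠ X : ℝ in Filter.atTop, 36 + 12 * (b - a) * C6 ^ 2 ≤ Real.log X :=
    Real.tendsto_log_atTop.eventually_ge_atTop _
  have hlin : ∀ᶠ X : ℝ in Filter.atTop, 2 * (|β| + 1) + 3 ≤ a * κ1 * X :=
    (Filter.tendsto_id.const_mul_atTop (mul_pos ha hκ)).eventually_ge_atTop _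
  obtain ⟨X2, hX2⟩ := Filter.eventually_atTop.mp (hlit.and (hlog.and hlin))
  refine ⟨max 2 (max X1 X2), le_max_left _ _, ?_⟩
  intro X hX u hu
  have hXX1 : X1 ≤ X := (le_max_left _ _).trans ((le_max_right _ _).trans hX)
  have hXX2 : X2 ≤ X := (le_max_right _ _).trans ((le_max_right _ _).trans hX)
  have hX2' : 2 ≤ X := (le_max_left _ _).trans hX
  obtain ⟨g1, g2, g3⟩ := hX2 X hXX2
  have hX0 : 0 < X := by linarith
  obtain ⟨l, hl⟩ : ∃ l, l = Real.log X := ⟨_, rfl⟩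
  rw [← hl] at g1 g2 ⊢
  have hC6sq : 0 ≤ 12 * (b - a) * C6 ^ 2 := by positivity
  have hl36 : 36 ≤ l := by linarith
  have hl0 : 0 < l := by linarith
  have hl1 : 1 ≤ l := by linarith
  obtain ⟨P, hP⟩ : ∃ P, P = l ^ B := ⟨_, rfl⟩
  have hP1 : 1 ≤ P := by
    rw [hP]
    exact Real.one_le_rpow hl1 hB0
  have hP0 : 0 < P := by linarith
  have e2 : l ^ (B + 2) = P * l ^ 2 := by
    rw [hP, Real.rpow_add hl0]
    norm_num
  have e3 : l ^ (2 * B + 3) = P ^ 2 * l ^ 3 := by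
    rw [hP, Real.rpow_add hl0, two_mul, Real.rpow_add hl0, pow_two]
    norm_num
  obtain ⟨N, hNdef⟩ : ∃ N, N = ⌈P * l ^ 2⌉₊ := ⟨_, rfl⟩
  have hPl : 0 < P * l ^ 2 := by positivity
  have hN1 : 1 ≤ N := by
    rw [hNdef]
    exact Nat.one_le_ceil_iff.mpr hPl
  have hNl : P * l ^ 2 ≤ N := by
    rw [hNdef]
    exact Nat.le_ceil _
  have hNu : (N : ℝ) ≤ P * l ^ 2 + 1 := by
    rw [hNdef]
    exact (Nat.ceil_lt_add_one hPl.le).le
  have hQ1 : 1 ≤ C1 * X := by nlinarith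
  have hQ2 : b * |κ2| * X + |β| ≤ C1 * X := by
    rw [hC1]
    have : 0 ≤ |β| := abs_nonneg _
    nlinarith
  have hmain := KL_main (κ2 := κ2) (E := X ^ 2 / l ^ (2 * B + 3)) ha hab hκ hX0 hN1 (by linarith)
    (by linarith [abs_nonneg β]) hQ1 hQ2 u hu (by
      intro w hw
      have := hkey X hXX1 w hw
      rwa [← hl] at this)
  refine hmain.trans ?_
  rw [← hc0, ← hm]
  -- first error term
  have hs : √(C1 * X) * Real.log (C1 * X) ≤ 4 * (C1 * X ^ (3 / 4 : ℝ)) := by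
    have hQ0 : 0 < C1 * X := by linarith
    have f1 : Real.log (C1 * X) ≤ (C1 * X) ^ (1 / 4 : ℝ) / (1 / 4) :=
      Real.log_le_rpow_div hQ0.le (by norm_num)
    have f2 : √(C1 * X) = (C1 * X) ^ (1 / 2 : ℝ) := Real.sqrt_eq_rpow _
    have f3 : (C1 * X) ^ (1 / 2 : ℝ) * (C1 * X) ^ (1 / 4 : ℝ) = (C1 * X) ^ (3 / 4 : ℝ) := by
      rw [← Real.rpow_add hQ0]
      norm_num
    have f4 : (C1 * X) ^ (3 / 4 : ℝ) = C1 ^ (3 / 4 : ℝ) * X ^ (3 / 4 : ℝ) :=
      Real.mul_rpow (by linarith) hX0.le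
    have f5 : C1 ^ (3 / 4 : ℝ) ≤ C1 := by
      calc C1 ^ (3 / 4 : ℝ) ≤ C1 ^ (1 : ℝ) :=
            Real.rpow_le_rpow_of_exponent_le hC11 (by norm_num)
        _ = C1 := Real.rpow_one _
    have f6 : 0 ≤ X ^ (3 / 4 : ℝ) := Real.rpow_nonneg hX0.le _
    rw [f2]
    calc (C1 * X) ^ (1 / 2 : ℝ) * Real.log (C1 * X) ≤
          (C1 * X) ^ (1 / 2 : ℝ) * ((C1 * X) ^ (1 / 4 : ℝ) / (1 / 4)) :=
          mul_le_mul_of_nonneg_left f1 (Real.rpow_nonneg hQ0.le _)
      _ = 4 * ((C1 * X) ^ (1 / 2 : ℝ) * (C1 * X) ^ (1 / 4 : ℝ)) := by ring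
      _ = 4 * (C1 ^ (3 / 4 : ℝ) * X ^ (3 / 4 : ℝ)) := by rw [f3, f4]
      _ ≤ 4 * (C1 * X ^ (3 / 4 : ℝ)) := by
          have := mul_le_mul_of_nonneg_right f5 f6
          linarith
  have hX34 : 1 ≤ X ^ (3 / 4 : ℝ) := Real.one_le_rpow (by linarith) (by norm_num)
  have hE1 : c0 + m * (2 * √(C1 * X) * Real.log (C1 * X)) ≤ C4 * X ^ (3 / 4 : ℝ) := by
    have f1 : m * (2 * √(C1 * X) * Real.log (C1 * X)) ≤ m * (8 * (C1 * X ^ (3 / 4 : ℝ))) := by
      refine mul_le_mul_of_nonneg_left ?_ hm0.le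
      calc 2 * √(C1 * X) * Real.log (C1 * X) = 2 * (√(C1 * X) * Real.log (C1 * X)) := by ring
        _ ≤ 2 * (4 * (C1 * X ^ (3 / 4 : ℝ))) := by linarith
        _ = 8 * (C1 * X ^ (3 / 4 : ℝ)) := by ring
    have f2 : c0 ≤ c0 * X ^ (3 / 4 : ℝ) := le_mul_of_one_le_right hc00 hX34
    rw [hC4]
    calc c0 + m * (2 * √(C1 * X) * Real.log (C1 * X)) ≤
          c0 * X ^ (3 / 4 : ℝ) + m * (8 * (C1 * X ^ (3 / 4 : ℝ))) := add_le_add f2 f1
      _ = (c0 + m * (8 * C1)) * X ^ (3 / 4 : ℝ) := by ring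
  have hE10 : 0 ≤ c0 + m * (2 * √(C1 * X) * Real.log (C1 * X)) := by
    have := Real.log_nonneg hQ1
    positivity
  have hX32 : (X ^ (3 / 4 : ℝ)) ^ 2 = X ^ 2 / X ^ (1 / 2 : ℝ) := by
    rw [← Real.rpow_natCast (X ^ (3 / 4 : ℝ)) 2, ← Real.rpow_mul hX0.le, ← Real.rpow_natCast X 2,
      ← Real.rpow_sub hX0]
    norm_num
  have hXh : 0 < X ^ (1 / 2 : ℝ) := Real.rpow_pos_of_pos hX0 _
  have hT1 : (b - a) * (2 * (c0 + m * (2 * √(C1 * X) * Real.log (C1 * X))) ^ 2) ≤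
      X ^ 2 / (3 * P) := by
    have f1 : (c0 + m * (2 * √(C1 * X) * Real.log (C1 * X))) ^ 2 ≤
        C4 ^ 2 * (X ^ 2 / X ^ (1 / 2 : ℝ)) := by
      rw [← hX32, ← mul_pow]
      exact pow_le_pow_left₀ hE10 hE1 2
    have f2 : P ≤ ε * X ^ (1 / 2 : ℝ) := by rw [hP]; exact g1
    have f3 : C4 ^ 2 * (X ^ 2 / X ^ (1 / 2 : ℝ)) ≤ (C4 ^ 2 + 1) * ε * (X ^ 2 / P) := by
      have h3 : X ^ 2 / X ^ (1 / 2 : ℝ) ≤ ε * (X ^ 2 / P) := by
        rw [← mul_div_assoc, div_le_div_iff₀ hXh hP0]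
        have : X ^ 2 * P ≤ X ^ 2 * (ε * X ^ (1 / 2 : ℝ)) :=
          mul_le_mul_of_nonneg_left f2 (by positivity)
        linarith
      have h4 : 0 ≤ ε * (X ^ 2 / P) := by positivity
      calc C4 ^ 2 * (X ^ 2 / X ^ (1 / 2 : ℝ)) ≤ C4 ^ 2 * (ε * (X ^ 2 / P)) :=
            mul_le_mul_of_nonneg_left h3 (by positivity)
        _ ≤ (C4 ^ 2 + 1) * (ε * (X ^ 2 / P)) := by nlinarith
        _ = (C4 ^ 2 + 1) * ε * (X ^ 2 / P) := by ring
    have f4 : (C4 ^ 2 + 1) * ε = 1 / (6 * (b - a)) := by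
      rw [hε]
      field_simp
    rw [f4] at f3
    calc (b - a) * (2 * (c0 + m * (2 * √(C1 * X) * Real.log (C1 * X))) ^ 2) ≤
          (b - a) * (2 * (1 / (6 * (b - a)) * (X ^ 2 / P))) := by
          refine mul_le_mul_of_nonneg_left ?_ hba.le
          linarith
      _ = X ^ 2 / (3 * P) := by
          field_simp
          norm_num
  -- second error term
  have hlQ : Real.log (C1 * X) = Real.log C1 + l := by
    rw [Real.log_mul (by linarith) hX0.ne', hl]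
  have hE2 : |κ2| * X * ((Real.log (C1 * X) + 1) * ((b - a) / N / a)) ≤ C6 * X / (P * l) := by
    have f1 : Real.log (C1 * X) + 1 ≤ (Real.log C1 + 2) * l := by
      rw [hlQ]
      nlinarith
    have hN0 : (0 : ℝ) < N := by exact_mod_cast hN1
    have f2 : (b - a) / N / a ≤ (b - a) / a * (1 / (P * l ^ 2)) := by
      have : (b - a) / N / a = (b - a) / a * (1 / N) := by field_simp
      rw [this]
      refine mul_le_mul_of_nonneg_left ?_ (div_nonneg hba.le ha.le)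
      exact one_div_le_one_div_of_le hPl hNl
    have f3 : 0 ≤ (b - a) / N / a := by positivity
    calc |κ2| * X * ((Real.log (C1 * X) + 1) * ((b - a) / N / a)) ≤
          |κ2| * X * (((Real.log C1 + 2) * l) * ((b - a) / a * (1 / (P * l ^ 2)))) := by
          refine mul_le_mul_of_nonneg_left ?_ (by positivity)
          exact mul_le_mul f1 f2 f3 (by positivity)
      _ = C6 * X / (P * l) := by
          rw [hC6]
          field_simp
  have hE20 : 0 ≤ |κ2| * X * ((Real.log (C1 * X) + 1) * ((b - a) / N / a)) := by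
    have := Real.log_nonneg hQ1
    positivity
  have hT2 : (b - a) * (4 * (|κ2| * X * ((Real.log (C1 * X) + 1) * ((b - a) / N / a))) ^ 2) ≤
      X ^ 2 / (3 * P) := by
    have f1 : (|κ2| * X * ((Real.log (C1 * X) + 1) * ((b - a) / N / a))) ^ 2 ≤
        (C6 * X / (P * l)) ^ 2 := pow_le_pow_left₀ hE20 hE2 2
    have f2 : (C6 * X / (P * l)) ^ 2 = C6 ^ 2 / (P * l ^ 2) * (X ^ 2 / P) := by
      field_simp
    have f3 : C6 ^ 2 / (P * l ^ 2) ≤ 1 / (12 * (b - a)) := by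
      rw [div_le_div_iff₀ hPl (by positivity)]
      have h3 : 12 * (b - a) * C6 ^ 2 ≤ l := by linarith
      have h4 : l ≤ P * l ^ 2 := by
        have : l * 1 ≤ l * (P * l) := by
          refine mul_le_mul_of_nonneg_left ?_ hl0.le
          nlinarith
        nlinarith
      nlinarith
    have f4 : (C6 * X / (P * l)) ^ 2 ≤ 1 / (12 * (b - a)) * (X ^ 2 / P) := by
      rw [f2]
      exact mul_le_mul_of_nonneg_right f3 (by positivity)
    calc (b - a) * (4 * (|κ2| * X * ((Real.log (C1 * X) + 1) * ((b - a) / N / a))) ^ 2) ≤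
          (b - a) * (4 * (1 / (12 * (b - a)) * (X ^ 2 / P))) := by
          refine mul_le_mul_of_nonneg_left ?_ hba.le
          linarith
      _ = X ^ 2 / (3 * P) := by
          field_simp
          norm_num
  -- third term
  have hT3 : 4 * ((N : ℝ) + 1) * (X ^ 2 / l ^ (2 * B + 3)) ≤ X ^ 2 / (3 * P) := by
    rw [e3]
    have f1 : (N : ℝ) + 1 ≤ 3 * (P * l ^ 2) := by
      have : 1 ≤ P * l ^ 2 := by nlinarith
      linarith
    calc 4 * ((N : ℝ) + 1) * (X ^ 2 / (P ^ 2 * l ^ 3)) ≤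
          4 * (3 * (P * l ^ 2)) * (X ^ 2 / (P ^ 2 * l ^ 3)) := by
          refine mul_le_mul_of_nonneg_right ?_ (by positivity)
          linarith
      _ = 12 / l * (X ^ 2 / P) := by
          field_simp
          norm_num
      _ ≤ 1 / 3 * (X ^ 2 / P) := by
          refine mul_le_mul_of_nonneg_right ?_ (by positivity)
          rw [div_le_div_iff₀ hl0 (by norm_num)]
          linarith
      _ = X ^ 2 / (3 * P) := by
          field_simp
  have hfin : X ^ 2 / P ≤ X ^ 2 / l ^ A := by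
    refine div_le_div_of_nonneg_left (by positivity) (Real.rpow_pos_of_pos hl0 _) ?_
    rw [hP]
    exact Real.rpow_le_rpow_of_exponent_le hl1 hBA
  refine le_trans ?_ hfin
  have hthird : X ^ 2 / P = X ^ 2 / (3 * P) + X ^ 2 / (3 * P) + X ^ 2 / (3 * P) := by
    field_simp
    norm_num
  rw [hthird, mul_add]
  linarith

end AMC
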