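import Pool.Agent.AMC.Defs

/-!
# AMC.TailH: high frequencies of `h`; Plancherel

PROOF. `h β w` is bounded by `C (1+|s|) exp(-(s-w)²)`, measurable, so in `L¹ ∩ L²`. `plancherel`: the Fourier
transform of `v ↦ ∑ w(c) h(v + log c)` is `hh(τ) ∑ w(c) c^(iτ)`; Plancherel's theorem (Mathlib:
`Mathlib/Analysis/Fourier/LpSpace.lean` or similar; note the normalisation `2π`).
`hh_tail`: for `Δ = 2/T`: `(1/Δ) ∫_0^Δ |e^(iτδ) - 1|² dδ = 2 - 2 sin(τΔ)/(τΔ) ≥ 1` for `|τ| ≥ 2/Δ`, so by Plancherel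
`∫_{|τ|≥T} |hh|² dτ ≤ 2π sup_{0≤δ≤Δ} ∫ |h(s+δ) - h(s)|² ds`. With `E(s) = exp(-(s-w)²)` (cut off at `w/2`):
`h(s+δ) - h(s) = (G(s+δ) - G(s)) E(s+δ) + G(s) (E(s+δ) - E(s))`. The first part is nonzero only if there is an
integer `q` between `e^s + β` and `e^(s+δ) + β`; for given `q` this is a set of `s` of length `≤ δ` (for large `q`),
and `|G| ≤ |s| + |β| + 2`; as `∑_q (log q + C)² exp(-(log q - w)²) ≤ C' w² e^w`, it contributes at most
`C w² e^w δ`. The second one contributes at most `C w² (δ² + exp(-w²/4))`, `exp(-w²/4) ≤ C e^(-w)`; but the jump of the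
cutoff at `w/2` only matters on an interval of length `δ`: `C w² exp(-w²/2) δ`.
-/

namespace AMC

open MeasureTheory

open scoped ContDiff RealInnerProductSpace FourierTransform SchwartzMap in
private theorem th_norm_sq (f : ℝ → ℂ) (hf : MemLp f 2 volume) :
    ‖hf.toLp f‖ ^ 2 = ∫ x, ‖f x‖ ^ 2 := by
  have h1 : ‖hf.toLp f‖ ^ 2 = RCLike.re (inner ℂ (hf.toLp f) (hf.toLp f)) :=
    norm_sq_eq_re_inner (𝕜 := ℂ) (hf.toLp f)
  rw [h1, MeasureTheory.L2.inner_def]
  have h2 : ∫ a, inner ℂ ((hf.toLp f) a) ((hf.toLp f) a) = ∫ a, ((‖f a‖ ^ 2 : ℝ) : ℂ) := by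
    apply integral_congr_ae
    filter_upwards [hf.coeFn_toLp] with a ha
    rw [ha, inner_self_eq_norm_sq_to_K]
    push_cast
    rfl
  rw [h2, integral_complex_ofReal]
  exact Complex.ofReal_re _

open scoped ContDiff RealInnerProductSpace FourierTransform SchwartzMap in
private theorem th_ae (b : ℝ → ℂ) (hb : Integrable b) (hb2 : MemLp b 2) :
    ∀ᵐ x, ((𝓕 (hb2.toLp b) : Lp ℂ 2 (volume : Measure ℝ)) : ℝ → ℂ) x = 𝓕 b x := by
  have hcont : Continuous (𝓕 b) := by
    have : Continuous fun p : ℝ × ℝ => (innerₗ ℝ) p.1 p.2 := continuous_inner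
    exact VectorFourier.fourierIntegral_continuous Real.continuous_fourierChar this hb
  apply ae_eq_of_integral_contDiff_smul_eq
  · exact (Lp.memLp _).locallyIntegrable (by norm_num)
  · exact hcont.locallyIntegrable
  · intro g hg1 hg2
    have hg₁ : HasCompactSupport (Complex.ofRealCLM ∘ g) := hg2.comp_left rfl
    have hg₂ : ContDiff ℝ ∞ (Complex.ofRealCLM ∘ g) := by fun_prop
    set φ : 𝓢(ℝ, ℂ) := hg₁.toSchwartzMap hg₂ with hφ
    have e1 : ∫ x, g x • ((𝓕 (hb2.toLp b) : Lp ℂ 2 (volume : Measure ℝ)) : ℝ → ℂ) x =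
        Lp.toTemperedDistribution (𝓕 (hb2.toLp b) : Lp ℂ 2 (volume : Measure ℝ)) φ := by
      simp [hφ]
    rw [e1, ← Lp.fourier_toTemperedDistribution_eq, TemperedDistribution.fourier_apply,
      Lp.toTemperedDistribution_apply]
    have e2 : ∫ x, (𝓕 φ) x • (hb2.toLp b) x = ∫ x, (𝓕 φ) x • b x := by
      apply integral_congr_ae
      filter_upwards [hb2.coeFn_toLp] with a ha
      rw [ha]
    rw [e2]
    have e3 := VectorFourier.integral_fourierIntegral_smul_eq_flip (μ := (volume : Measure ℝ))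
      (ν := (volume : Measure ℝ)) (L := innerₗ ℝ) (e := Real.fourierChar) (f := (φ : ℝ → ℂ)) (g := b)
      Real.continuous_fourierChar (continuous_inner) φ.integrable hb
    have e4 : VectorFourier.fourierIntegral Real.fourierChar volume (innerₗ ℝ) (φ : ℝ → ℂ) =
        ((𝓕 φ : 𝓢(ℝ, ℂ)) : ℝ → ℂ) := by
      rw [SchwartzMap.fourier_coe]
      rfl
    have e5 : VectorFourier.fourierIntegral Real.fourierChar volume (innerₗ ℝ).flip b = 𝓕 b := by
      have : (innerₗ ℝ).flip = (innerₗ ℝ : ℝ →ₗ[ℝ] ℝ →ₗ[ℝ] ℝ) := by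
        ext
        simp
      rw [this]
      rfl
    rw [e4, e5] at e3
    rw [e3]
    simp [hφ]

open scoped ContDiff RealInnerProductSpace FourierTransform SchwartzMap in
private theorem th_planch (b : ℝ → ℂ) (hb : Integrable b) (hb2 : MemLp b 2) :
    MemLp (𝓕 b) 2 ∧ ∫ x, ‖𝓕 b x‖ ^ 2 = ∫ x, ‖b x‖ ^ 2 := by
  have h1 : MemLp (𝓕 b) 2 := (memLp_congr_ae (th_ae b hb hb2)).1 (Lp.memLp _)
  refine ⟨h1, ?_⟩
  rw [← th_norm_sq _ h1, ← th_norm_sq _ hb2, ← Lp.norm_fourier_eq (hb2.toLp b)]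
  congr 2
  apply Lp.ext
  filter_upwards [h1.coeFn_toLp, th_ae b hb hb2] with x hx hy
  rw [hx, hy]


open scoped FourierTransform in
private theorem th_P (b : ℝ → ℂ) (hb : Integrable b) (hb2 : Integrable (fun s => ‖b s‖ ^ 2)) :
    Integrable (fun τ : ℝ => ‖∫ s : ℝ, b s * Complex.exp (-(τ * s * Complex.I))‖ ^ 2) ∧
    ∫ τ : ℝ, ‖∫ s : ℝ, b s * Complex.exp (-(τ * s * Complex.I))‖ ^ 2 =
      2 * Real.pi * ∫ s, ‖b s‖ ^ 2 := by
  have hm : MemLp b 2 := (memLp_two_iff_integrable_sq_norm hb.1).2 hb2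
  obtain ⟨h1, h2⟩ := th_planch b hb hm
  have hpi := Real.pi_pos
  have key : ∀ τ : ℝ, ∫ s : ℝ, b s * Complex.exp (-(τ * s * Complex.I)) =
      𝓕 b (τ / (2 * Real.pi)) := by
    intro τ
    rw [Real.fourier_real_eq_integral_exp_smul]
    apply integral_congr_ae
    filter_upwards with s
    rw [smul_eq_mul, mul_comm]
    congr 2
    push_cast
    have : (Real.pi : ℂ) ≠ 0 := by exact_mod_cast hpi.ne'
    field_simp
  simp_rw [key]
  have h3 : Integrable (fun ξ => ‖𝓕 b ξ‖ ^ 2) := (memLp_two_iff_integrable_sq_norm h1.1).1 h1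
  constructor
  · exact (integrable_comp_div_iff (fun ξ => ‖𝓕 b ξ‖ ^ 2) (by positivity)).2 h3
  · rw [Measure.integral_comp_div (fun ξ => ‖𝓕 b ξ‖ ^ 2) (2 * Real.pi), h2, smul_eq_mul,
      abs_of_pos (by positivity)]

private theorem th_poly (β w s : ℝ) (hw : 1 ≤ w) :
    1 + |s| + |β| ≤ (4 + 2 * |β|) * w * Real.exp ((s - w) ^ 2 / 8) := by
  have h1 : (s - w) ^ 2 / 8 + 1 ≤ Real.exp ((s - w) ^ 2 / 8) := Real.add_one_le_exp _
  have h2 : |s| ≤ |s - w| + w := by
    have := abs_add_le (s - w) w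
    rw [sub_add_cancel, abs_of_pos (show 0 < w by linarith)] at this
    exact this
  have h3 : (s - w) ^ 2 = |s - w| ^ 2 := (sq_abs _).symm
  set x := |s - w|
  have hx : 0 ≤ x := abs_nonneg _
  have hβ : 0 ≤ |β| := abs_nonneg _
  set b := |β|
  have h4 : (1 + x) ≤ 2 * Real.exp ((s - w) ^ 2 / 8) := by
    rw [h3] at h1 ⊢
    nlinarith [sq_nonneg (x / 2 - 1)]
  have h5 : 1 + |s| + b ≤ (2 + b) * w * (1 + x) := by
    have : 0 ≤ b * (w - 1) := mul_nonneg hβ (by linarith)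
    have : 0 ≤ x * (w - 1) := mul_nonneg hx (by linarith)
    have : 0 ≤ b * w * x := by positivity
    nlinarith
  calc 1 + |s| + b ≤ (2 + b) * w * (1 + x) := h5
    _ ≤ (2 + b) * w * (2 * Real.exp ((s - w) ^ 2 / 8)) := by gcongr
    _ = _ := by ring

private theorem th_N_le (β s : ℝ) : (⌊Real.exp s + β⌋₊ : ℝ) ≤ Real.exp s + |β| := by
  rcases le_or_gt 0 (Real.exp s + β) with h | h
  · exact (Nat.floor_le h).trans (by linarith [le_abs_self β])
  · rw [Nat.floor_of_nonpos h.le]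
    have := Real.exp_pos s
    have := abs_nonneg β
    push_cast
    linarith

private theorem th_L_le (β s : ℝ) (hs : 0 ≤ s) :
    ArithmeticFunction.vonMangoldt ⌊Real.exp s + β⌋₊ ≤ s + |β| := by
  have hβ := abs_nonneg β
  rcases Nat.eq_zero_or_pos ⌊Real.exp s + β⌋₊ with h | h
  · rw [h]
    simp
    linarith
  · have h1 : (0 : ℝ) < (⌊Real.exp s + β⌋₊ : ℝ) := by exact_mod_cast h
    calc ArithmeticFunction.vonMangoldt ⌊Real.exp s + β⌋₊ ≤ Real.log (⌊Real.exp s + β⌋₊ : ℝ) :=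
          ArithmeticFunction.vonMangoldt_le_log
      _ ≤ Real.log (Real.exp s * Real.exp |β|) := by
          apply Real.log_le_log h1
          have h2 := th_N_le β s
          have h3 := Real.add_one_le_exp |β|
          have h4 : 1 ≤ Real.exp s := Real.one_le_exp hs
          nlinarith
      _ = s + |β| := by rw [← Real.exp_add, Real.log_exp]

private theorem th_G_meas (β : ℝ) : Measurable (G β) := by
  have h1 : Measurable (fun s : ℝ => ⌊Real.exp s + β⌋₊) :=
    Nat.measurable_floor.comp (Real.measurable_exp.add_const β)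
  have h2 : Measurable (fun n : ℕ => ArithmeticFunction.vonMangoldt n) := measurable_from_top
  exact (h2.comp h1).sub_const 1

private theorem th_h_meas (β w : ℝ) : Measurable (h β w) := by
  unfold h
  refine Measurable.ite (measurableSet_lt measurable_const measurable_id) ?_ measurable_const
  exact (th_G_meas β).mul (by fun_prop)

private theorem th_G_abs (β s : ℝ) (hs : 0 ≤ s) : |G β s| ≤ 1 + |s| + |β| := by
  have h1 := th_L_le β s hs
  have h2 : 0 ≤ ArithmeticFunction.vonMangoldt ⌊Real.exp s + β⌋₊ :=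
    ArithmeticFunction.vonMangoldt_nonneg
  have h3 := abs_nonneg β
  rw [abs_of_nonneg hs]
  unfold G
  rw [abs_le]
  constructor <;> linarith

private theorem th_h_abs (β w s : ℝ) (hw : 1 ≤ w) :
    |h β w s| ≤ (4 + 2 * |β|) * w * Real.exp (-(s - w) ^ 2 / 2) := by
  have hβ := abs_nonneg β
  unfold h
  split_ifs with hs
  · rw [abs_mul, abs_of_pos (Real.exp_pos _)]
    have h1 := th_G_abs β s (by linarith)
    have h2 := th_poly β w s hw
    calc |G β s| * Real.exp (-(s - w) ^ 2)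
        ≤ ((4 + 2 * |β|) * w * Real.exp ((s - w) ^ 2 / 8)) * Real.exp (-(s - w) ^ 2) := by
          gcongr
          exact h1.trans h2
      _ = (4 + 2 * |β|) * w * Real.exp ((s - w) ^ 2 / 8 + -(s - w) ^ 2) := by
          rw [Real.exp_add]; ring
      _ ≤ _ := by
          gcongr
          nlinarith [sq_nonneg (s - w)]
  · rw [abs_zero]
    positivity

private theorem th_gauss (w c : ℝ) (hc : 0 < c) : Integrable (fun s : ℝ => Real.exp (-c * (s - w) ^ 2)) :=
  (integrable_exp_neg_mul_sq hc).comp_sub_right w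

theorem h_int (β w : ℝ) (hw : 1 ≤ w) : Integrable (h β w) ∧ Integrable (fun s => h β w s ^ 2) := by
  constructor
  · refine Integrable.mono' ((th_gauss w (1 / 2) (by norm_num)).const_mul ((4 + 2 * |β|) * w))
      (th_h_meas β w).aestronglyMeasurable ?_
    filter_upwards with s
    rw [Real.norm_eq_abs]
    refine (th_h_abs β w s hw).trans (le_of_eq ?_)
    congr 2
    ring
  · refine Integrable.mono' ((th_gauss w 1 (by norm_num)).const_mul (((4 + 2 * |β|) * w) ^ 2))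
      ((th_h_meas β w).pow_const 2).aestronglyMeasurable ?_
    filter_upwards with s
    rw [Real.norm_eq_abs, abs_pow]
    calc |h β w s| ^ 2 ≤ ((4 + 2 * |β|) * w * Real.exp (-(s - w) ^ 2 / 2)) ^ 2 := by
          gcongr
          exact th_h_abs β w s hw
      _ = ((4 + 2 * |β|) * w) ^ 2 * (Real.exp (-(s - w) ^ 2 / 2)) ^ 2 := by ring
      _ = _ := by
          rw [← Real.exp_nat_mul]
          congr 2
          push_cast
          ring

theorem plancherel (β w : ℝ) (hw : 1 ≤ w) (S : Finset ℕ) (hS : 0 ∉ S) (u : ℕ → ℝ) :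
    ∫ v : ℝ, (∑ c ∈ S, u c * h β w (v + Real.log c)) ^ 2 =
      (1 / (2 * Real.pi)) * ∫ τ : ℝ, ‖hh β w τ‖ ^ 2 * ‖∑ c ∈ S, (u c : ℂ) * (c : ℂ) ^ (τ * Complex.I)‖ ^ 2 := by
  obtain ⟨h1, h2⟩ := h_int β w hw
  have hpi := Real.pi_pos
  set b : ℝ → ℂ := fun v => ((∑ c ∈ S, u c * h β w (v + Real.log c) : ℝ) : ℂ) with hb
  have hbr : Integrable (fun v => ∑ c ∈ S, u c * h β w (v + Real.log c)) := by
    apply integrable_finsetSum
    intro c _
    exact (h1.comp_add_right (Real.log c)).const_mul _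
  have hbi : Integrable b := hbr.ofReal
  have hh1 : ∀ c : ℕ, MemLp (fun v => u c * h β w (v + Real.log c)) 2 := by
    intro c
    apply MemLp.const_mul
    rw [memLp_two_iff_integrable_sq (h1.comp_add_right (Real.log c)).1]
    exact h2.comp_add_right (Real.log c)
  have hbm : MemLp (fun v => ∑ c ∈ S, u c * h β w (v + Real.log c)) 2 :=
    memLp_finsetSum S (fun c _ => hh1 c)
  have hb2 : Integrable (fun s => ‖b s‖ ^ 2) := by
    have := (memLp_two_iff_integrable_sq hbr.1).1 hbm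
    refine this.congr ?_
    filter_upwards with s
    simp only [hb, Complex.norm_real, Real.norm_eq_abs, sq_abs]
  obtain ⟨_, h3⟩ := th_P b hbi hb2
  have h4 : ∫ s, ‖b s‖ ^ 2 = ∫ v : ℝ, (∑ c ∈ S, u c * h β w (v + Real.log c)) ^ 2 := by
    apply integral_congr_ae
    filter_upwards with s
    simp only [hb, Complex.norm_real, Real.norm_eq_abs, sq_abs]
  have h5 : ∀ τ : ℝ, ∫ s : ℝ, b s * Complex.exp (-(τ * s * Complex.I)) =
      hh β w τ * ∑ c ∈ S, (u c : ℂ) * (c : ℂ) ^ (τ * Complex.I) := by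
    intro τ
    have e1 : ∀ s : ℝ, b s * Complex.exp (-(τ * s * Complex.I)) =
        ∑ c ∈ S, ((u c : ℂ) * Complex.exp (τ * Real.log c * Complex.I)) *
          ((h β w (s + Real.log c) : ℂ) *
            Complex.exp (-(τ * (s + Real.log c : ℝ) * Complex.I))) := by
      intro s
      simp only [hb, Complex.ofReal_sum, Complex.ofReal_mul, Complex.ofReal_add]
      rw [Finset.sum_mul]
      apply Finset.sum_congr rfl
      intro c _
      have : Complex.exp (-(τ * s * Complex.I)) = Complex.exp (τ * Real.log c * Complex.I) *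
          Complex.exp (-(τ * (s + Real.log c) * Complex.I)) := by
        rw [← Complex.exp_add]
        congr 1
        ring
      rw [this]
      ring
    have e2 : Integrable (fun s : ℝ => (h β w s : ℂ) * Complex.exp (-(τ * s * Complex.I))) := by
      refine h1.ofReal.mul_bdd (c := 1) (by fun_prop) ?_
      filter_upwards with s
      rw [Complex.norm_exp]
      simp
    simp_rw [e1]
    rw [integral_finsetSum]
    · rw [Finset.mul_sum]
      apply Finset.sum_congr rfl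
      intro c hc
      have hc0 : (c : ℂ) ≠ 0 := by
        have : c ≠ 0 := fun h => hS (h ▸ hc)
        exact_mod_cast this
      rw [integral_const_mul]
      have e3 := integral_add_right_eq_self (μ := (volume : Measure ℝ))
        (fun s : ℝ => (h β w s : ℂ) * Complex.exp (-(τ * s * Complex.I))) (Real.log c)
      rw [e3, Complex.cpow_def_of_ne_zero hc0, ← Complex.natCast_log]
      unfold hh
      have : (τ : ℂ) * (Real.log c : ℂ) * Complex.I = (Real.log c : ℂ) * (τ * Complex.I) := by ring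
      rw [this]
      ring
    · intro c _
      exact (e2.comp_add_right (Real.log c)).const_mul _
  simp_rw [h5, norm_mul, mul_pow] at h3
  rw [h3, h4]
  field_simp


private noncomputable def th_E (w s : ℝ) : ℝ := Real.exp (-(s - w) ^ 2)

private theorem th_E_diff (w s δ : ℝ) (h0 : 0 ≤ δ) (h1 : δ ≤ 1) :
    |th_E w (s + δ) - th_E w s| ≤ 16 * δ * Real.exp (-(3 / 8) * (s - w) ^ 2) := by
  unfold th_E
  have key : ∀ a b : ℝ, |Real.exp (-a) - Real.exp (-b)| ≤ |a - b| * (Real.exp (-a) + Real.exp (-b)) := by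
    intro a b
    have h1 : ∀ a b : ℝ, a ≤ b → |Real.exp (-a) - Real.exp (-b)| ≤ |a - b| * (Real.exp (-a) + Real.exp (-b)) := by
      intro a b hab
      have e1 : Real.exp (-b) ≤ Real.exp (-a) := Real.exp_le_exp.2 (by linarith)
      have e2 : (a - b) + 1 ≤ Real.exp (a - b) := Real.add_one_le_exp _
      have e3 : Real.exp (-b) = Real.exp (-a) * Real.exp (a - b) := by
        rw [← Real.exp_add]; congr 1; ring
      rw [abs_of_nonneg (by linarith), abs_of_nonpos (by linarith)]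
      have e4 := Real.exp_pos (-a)
      have e5 := Real.exp_pos (-b)
      have e6 : Real.exp (-a) - Real.exp (-b) ≤ (b - a) * Real.exp (-a) := by
        rw [e3]
        nlinarith
      nlinarith [mul_nonneg (show 0 ≤ b - a by linarith) e5.le]
    rcases le_total a b with h | h
    · exact h1 a b h
    · have := h1 b a h
      rw [abs_sub_comm, abs_sub_comm a b, add_comm (Real.exp (-a))]
      exact this
  refine (key _ _).trans ?_
  set x := s - w with hx
  have e0 : s + δ - w = x + δ := by rw [hx]; ring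
  rw [e0]
  have e1 : |(x + δ) ^ 2 - x ^ 2| ≤ δ * (4 * Real.exp (x ^ 2 / 8)) := by
    have : (x + δ) ^ 2 - x ^ 2 = δ * (2 * x + δ) := by ring
    rw [this, abs_mul, abs_of_nonneg h0]
    apply mul_le_mul_of_nonneg_left _ h0
    have h2 : x ^ 2 / 8 + 1 ≤ Real.exp (x ^ 2 / 8) := Real.add_one_le_exp _
    have h3 : |2 * x + δ| ≤ 2 * |x| + 1 := by
      refine (abs_add_le _ _).trans ?_
      rw [abs_mul, abs_of_pos (by norm_num : (0 : ℝ) < 2), abs_of_nonneg h0]
      linarith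
    have h4 : x ^ 2 = |x| ^ 2 := (sq_abs _).symm
    rw [h4] at h2 ⊢
    nlinarith [sq_nonneg (|x| - 2), abs_nonneg x]
  have e2 : Real.exp (-(x + δ) ^ 2) ≤ 3 * Real.exp (-(1 / 2) * x ^ 2) := by
    have h2 : Real.exp (-(x + δ) ^ 2) ≤ Real.exp (1 + -(1 / 2) * x ^ 2) := by
      apply Real.exp_le_exp.2
      nlinarith [sq_nonneg (x + 2 * δ)]
    rw [Real.exp_add] at h2
    have h3 : Real.exp 1 ≤ 3 := by linarith [Real.exp_one_lt_d9]
    have h4 := Real.exp_pos (-(1 / 2) * x ^ 2)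
    nlinarith
  have e3 : Real.exp (-x ^ 2) ≤ Real.exp (-(1 / 2) * x ^ 2) := by
    apply Real.exp_le_exp.2
    nlinarith [sq_nonneg x]
  calc |(x + δ) ^ 2 - x ^ 2| * (Real.exp (-(x + δ) ^ 2) + Real.exp (-x ^ 2))
      ≤ (δ * (4 * Real.exp (x ^ 2 / 8))) * (4 * Real.exp (-(1 / 2) * x ^ 2)) := by
        gcongr
        linarith
    _ = 16 * δ * (Real.exp (x ^ 2 / 8) * Real.exp (-(1 / 2) * x ^ 2)) := by ring
    _ = _ := by
        rw [← Real.exp_add]
        congr 2
        ring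

private theorem th_pt1 (β w s δ : ℝ) (hw : 1 ≤ w) (h0 : 0 ≤ δ) (hs : 0 ≤ s) :
    (G β (s + δ) - G β s) ^ 2 * th_E w (s + δ) ^ 2 ≤
      (4 + 2 * |β|) ^ 2 * w ^ 2 *
        (((⌊Real.exp (s + δ) + β⌋₊ : ℝ) - (⌊Real.exp s + β⌋₊ : ℝ)) * th_E w (s + δ)) := by
  have hmono : ⌊Real.exp s + β⌋₊ ≤ ⌊Real.exp (s + δ) + β⌋₊ := by
    apply Nat.floor_mono
    have := Real.exp_le_exp.2 (show s ≤ s + δ by linarith)
    linarith
  have hE : 0 < th_E w (s + δ) := Real.exp_pos _
  have hβ := abs_nonneg β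
  rcases hmono.eq_or_lt with h | h
  · have : G β (s + δ) = G β s := by
      unfold G
      rw [h]
    rw [this, h]
    simp
  · have h1 : (1 : ℝ) ≤ (⌊Real.exp (s + δ) + β⌋₊ : ℝ) - (⌊Real.exp s + β⌋₊ : ℝ) := by
      have : ⌊Real.exp s + β⌋₊ + 1 ≤ ⌊Real.exp (s + δ) + β⌋₊ := h
      have h' : ((⌊Real.exp s + β⌋₊ : ℝ) + 1) ≤ (⌊Real.exp (s + δ) + β⌋₊ : ℝ) := by exact_mod_cast this
      linarith
    have h2 : (G β (s + δ) - G β s) ^ 2 ≤ (1 + |s + δ| + |β|) ^ 2 := by
      apply sq_le_sq'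
      · have e1 := th_L_le β s hs
        have e2 : 0 ≤ ArithmeticFunction.vonMangoldt ⌊Real.exp (s + δ) + β⌋₊ :=
          ArithmeticFunction.vonMangoldt_nonneg
        unfold G
        rw [abs_of_nonneg (by linarith)]
        linarith
      · have e1 := th_L_le β (s + δ) (by linarith)
        have e2 : 0 ≤ ArithmeticFunction.vonMangoldt ⌊Real.exp s + β⌋₊ :=
          ArithmeticFunction.vonMangoldt_nonneg
        unfold G
        rw [abs_of_nonneg (by linarith)]
        linarith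
    have h3 := th_poly β w (s + δ) hw
    have h4 : (1 + |s + δ| + |β|) ^ 2 ≤ ((4 + 2 * |β|) * w * Real.exp ((s + δ - w) ^ 2 / 8)) ^ 2 := by
      gcongr
    have h5 : (Real.exp ((s + δ - w) ^ 2 / 8)) ^ 2 * th_E w (s + δ) ^ 2 ≤ th_E w (s + δ) := by
      unfold th_E
      rw [← Real.exp_nat_mul, ← Real.exp_nat_mul, ← Real.exp_add]
      apply Real.exp_le_exp.2
      push_cast
      nlinarith [sq_nonneg (s + δ - w)]
    calc (G β (s + δ) - G β s) ^ 2 * th_E w (s + δ) ^ 2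
        ≤ ((4 + 2 * |β|) * w * Real.exp ((s + δ - w) ^ 2 / 8)) ^ 2 * th_E w (s + δ) ^ 2 :=
          mul_le_mul_of_nonneg_right (h2.trans h4) (sq_nonneg _)
      _ = (4 + 2 * |β|) ^ 2 * w ^ 2 * ((Real.exp ((s + δ - w) ^ 2 / 8)) ^ 2 * th_E w (s + δ) ^ 2) := by ring
      _ ≤ (4 + 2 * |β|) ^ 2 * w ^ 2 * (1 * th_E w (s + δ)) := by
          rw [one_mul]
          exact mul_le_mul_of_nonneg_left h5 (by positivity)
      _ ≤ _ := by gcongr

private theorem th_pt2 (β w s δ : ℝ) (hw : 1 ≤ w) (h0 : 0 ≤ δ) (h1 : δ ≤ 1) (hs : 0 ≤ s) :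
    G β s ^ 2 * (th_E w (s + δ) - th_E w s) ^ 2 ≤
      (4 + 2 * |β|) ^ 2 * w ^ 2 * (256 * δ * Real.exp (-(1 / 2) * (s - w) ^ 2)) := by
  have hβ := abs_nonneg β
  have e1 : G β s ^ 2 ≤ ((4 + 2 * |β|) * w * Real.exp ((s - w) ^ 2 / 8)) ^ 2 := by
    rw [← sq_abs (G β s)]
    gcongr
    exact (th_G_abs β s hs).trans (th_poly β w s hw)
  have e2 : (th_E w (s + δ) - th_E w s) ^ 2 ≤ (16 * δ * Real.exp (-(3 / 8) * (s - w) ^ 2)) ^ 2 := by
    rw [← sq_abs (th_E w (s + δ) - th_E w s)]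
    gcongr
    exact th_E_diff w s δ h0 h1
  calc G β s ^ 2 * (th_E w (s + δ) - th_E w s) ^ 2
      ≤ ((4 + 2 * |β|) * w * Real.exp ((s - w) ^ 2 / 8)) ^ 2 *
          (16 * δ * Real.exp (-(3 / 8) * (s - w) ^ 2)) ^ 2 := by gcongr
    _ = (4 + 2 * |β|) ^ 2 * w ^ 2 * (256 * (δ * δ) * ((Real.exp ((s - w) ^ 2 / 8)) ^ 2 *
          (Real.exp (-(3 / 8) * (s - w) ^ 2)) ^ 2)) := by ring
    _ ≤ (4 + 2 * |β|) ^ 2 * w ^ 2 * (256 * (δ * 1) * ((Real.exp ((s - w) ^ 2 / 8)) ^ 2 *
          (Real.exp (-(3 / 8) * (s - w) ^ 2)) ^ 2)) := by gcongr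
    _ = _ := by
        rw [← Real.exp_nat_mul, ← Real.exp_nat_mul, ← Real.exp_add]
        congr 2
        rw [mul_one]
        congr 2
        push_cast
        ring

/-- pointwise bound of `(h(s+δ) - h(s))²`. -/
private theorem th_pt (β w s δ : ℝ) (hw : 1 ≤ w) (h0 : 0 ≤ δ) (h1 : δ ≤ 1) :
    (h β w (s + δ) - h β w s) ^ 2 ≤ (4 + 2 * |β|) ^ 2 * w ^ 2 *
      (2 * (((⌊Real.exp (s + δ) + β⌋₊ : ℝ) - (⌊Real.exp s + β⌋₊ : ℝ)) * th_E w (s + δ)) +
        512 * δ * Real.exp (-(1 / 2) * (s - w) ^ 2) +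
        (Set.Ioc (w / 2 - δ) (w / 2)).indicator (fun _ => (1 : ℝ)) s) := by
  have hβ := abs_nonneg β
  have hM : 0 ≤ (4 + 2 * |β|) ^ 2 * w ^ 2 := by positivity
  have hmono : (⌊Real.exp s + β⌋₊ : ℝ) ≤ (⌊Real.exp (s + δ) + β⌋₊ : ℝ) := by
    have : ⌊Real.exp s + β⌋₊ ≤ ⌊Real.exp (s + δ) + β⌋₊ := by
      apply Nat.floor_mono
      have := Real.exp_le_exp.2 (show s ≤ s + δ by linarith)
      linarith
    exact_mod_cast this
  have hE : 0 < th_E w (s + δ) := Real.exp_pos _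
  have hX : 0 ≤ 2 * (((⌊Real.exp (s + δ) + β⌋₊ : ℝ) - (⌊Real.exp s + β⌋₊ : ℝ)) * th_E w (s + δ)) := by
    have : 0 ≤ (⌊Real.exp (s + δ) + β⌋₊ : ℝ) - (⌊Real.exp s + β⌋₊ : ℝ) := by linarith
    positivity
  have hY : 0 ≤ 512 * δ * Real.exp (-(1 / 2) * (s - w) ^ 2) := by positivity
  have hZ : 0 ≤ (Set.Ioc (w / 2 - δ) (w / 2)).indicator (fun _ => (1 : ℝ)) s :=
    Set.indicator_nonneg (fun _ _ => zero_le_one) s
  rcases lt_or_ge (w / 2) s with hs | hs
  · have a1 : h β w (s + δ) = G β (s + δ) * th_E w (s + δ) := by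
      unfold h th_E
      rw [if_pos (by linarith)]
    have a2 : h β w s = G β s * th_E w s := by
      unfold h th_E
      rw [if_pos hs]
    have a3 : h β w (s + δ) - h β w s =
        (G β (s + δ) - G β s) * th_E w (s + δ) + G β s * (th_E w (s + δ) - th_E w s) := by
      rw [a1, a2]; ring
    have b1 := th_pt1 β w s δ hw h0 (by linarith)
    have b2 := th_pt2 β w s δ hw h0 h1 (by linarith)
    rw [a3]
    calc ((G β (s + δ) - G β s) * th_E w (s + δ) + G β s * (th_E w (s + δ) - th_E w s)) ^ 2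
        ≤ 2 * ((G β (s + δ) - G β s) ^ 2 * th_E w (s + δ) ^ 2) +
          2 * (G β s ^ 2 * (th_E w (s + δ) - th_E w s) ^ 2) := by
          nlinarith [sq_nonneg ((G β (s + δ) - G β s) * th_E w (s + δ) -
            G β s * (th_E w (s + δ) - th_E w s))]
      _ ≤ 2 * ((4 + 2 * |β|) ^ 2 * w ^ 2 *
        (((⌊Real.exp (s + δ) + β⌋₊ : ℝ) - (⌊Real.exp s + β⌋₊ : ℝ)) * th_E w (s + δ))) +
          2 * ((4 + 2 * |β|) ^ 2 * w ^ 2 * (256 * δ * Real.exp (-(1 / 2) * (s - w) ^ 2))) := by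
          linarith
      _ ≤ _ := by
          nlinarith [mul_nonneg hM hZ]
  · rcases lt_or_ge (w / 2 - δ) s with hs2 | hs2
    · have a2 : h β w s = 0 := by
        unfold h
        rw [if_neg (by linarith)]
      have a4 : (Set.Ioc (w / 2 - δ) (w / 2)).indicator (fun _ => (1 : ℝ)) s = 1 := by
        rw [Set.indicator_of_mem]
        exact ⟨hs2, hs⟩
      rw [a2, sub_zero, a4, ← sq_abs]
      have a5 := th_h_abs β w (s + δ) hw
      have a6 : |h β w (s + δ)| ^ 2 ≤ ((4 + 2 * |β|) * w * 1) ^ 2 := by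
        gcongr
        refine a5.trans ?_
        gcongr
        rw [Real.exp_le_one_iff]
        nlinarith [sq_nonneg (s + δ - w)]
      refine a6.trans ?_
      nlinarith [mul_nonneg hM (add_nonneg hX hY)]
    · have a2 : h β w s = 0 := by
        unfold h
        rw [if_neg (by linarith)]
      have a1 : h β w (s + δ) = 0 := by
        unfold h
        rw [if_neg (by linarith)]
      rw [a1, a2]
      simp only [sub_zero, ne_eq, OfNat.ofNat_ne_zero, not_false_eq_true, zero_pow]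
      positivity


private theorem th_Eint (w : ℝ) : Integrable (th_E w) := by
  have := th_gauss w 1 one_pos
  refine this.congr ?_
  filter_upwards with s
  unfold th_E
  congr 1
  ring

private theorem th_NE (β w s c : ℝ) (hw : 1 ≤ w) (hc : 3 / 8 ≤ c) :
    (⌊Real.exp s + β⌋₊ : ℝ) * Real.exp (-c * (s - w) ^ 2) ≤
      (9 + |β|) * Real.exp w * Real.exp (-(1 / 4) * (s - w) ^ 2) := by
  have hβ := abs_nonneg β
  set x := s - w with hx
  have e1 : Real.exp s * Real.exp (-c * x ^ 2) ≤ 9 * (Real.exp w * Real.exp (-(1 / 4) * x ^ 2)) := by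
    have h9 : Real.exp 2 ≤ 9 := by
      have h1 : Real.exp 2 = Real.exp 1 * Real.exp 1 := by
        rw [← Real.exp_add]; norm_num
      have h2 : Real.exp 1 ≤ 3 := by linarith [Real.exp_one_lt_d9]
      have h3 := Real.exp_pos 1
      rw [h1]
      nlinarith
    have h2 : Real.exp s * Real.exp (-c * x ^ 2) ≤ Real.exp 2 * (Real.exp w * Real.exp (-(1 / 4) * x ^ 2)) := by
      rw [← Real.exp_add, ← Real.exp_add, ← Real.exp_add]
      apply Real.exp_le_exp.2
      have : s = w + x := by rw [hx]; ring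
      rw [this]
      nlinarith [sq_nonneg (x - 4), mul_nonneg (sub_nonneg.2 hc) (sq_nonneg x)]
    have h3 : 0 ≤ Real.exp w * Real.exp (-(1 / 4) * x ^ 2) := by positivity
    nlinarith
  have e2 : |β| * Real.exp (-c * x ^ 2) ≤ |β| * (Real.exp w * Real.exp (-(1 / 4) * x ^ 2)) := by
    apply mul_le_mul_of_nonneg_left _ hβ
    rw [← Real.exp_add]
    apply Real.exp_le_exp.2
    nlinarith [mul_nonneg (sub_nonneg.2 hc) (sq_nonneg x), sq_nonneg x]
  calc (⌊Real.exp s + β⌋₊ : ℝ) * Real.exp (-c * x ^ 2)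
      ≤ (Real.exp s + |β|) * Real.exp (-c * x ^ 2) := by
        gcongr
        exact th_N_le β s
    _ = Real.exp s * Real.exp (-c * x ^ 2) + |β| * Real.exp (-c * x ^ 2) := by ring
    _ ≤ _ := by linarith

private theorem th_N_meas (β : ℝ) : Measurable (fun s : ℝ => (⌊Real.exp s + β⌋₊ : ℝ)) := by
  have h1 : Measurable (fun s : ℝ => ⌊Real.exp s + β⌋₊) :=
    Nat.measurable_floor.comp (Real.measurable_exp.add_const β)
  exact (measurable_from_top (f := fun n : ℕ => (n : ℝ))).comp h1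

private theorem th_E_meas (w : ℝ) : Measurable (th_E w) := by
  unfold th_E
  fun_prop

/-- `∫ (N(s+δ) - N(s)) E(s+δ) ds ≤ C e^w δ`. -/
private theorem th_I1 (β w δ : ℝ) (hw : 1 ≤ w) (h0 : 0 ≤ δ) (h1 : δ ≤ 1) :
    Integrable (fun s : ℝ => ((⌊Real.exp (s + δ) + β⌋₊ : ℝ) - (⌊Real.exp s + β⌋₊ : ℝ)) * th_E w (s + δ)) ∧
    ∫ s : ℝ, ((⌊Real.exp (s + δ) + β⌋₊ : ℝ) - (⌊Real.exp s + β⌋₊ : ℝ)) * th_E w (s + δ) ≤
      64 * (9 + |β|) * Real.exp w * δ := by
  have hβ := abs_nonneg β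
  have hg := th_gauss w (1 / 4) (by norm_num)
  have a1 : Integrable (fun s : ℝ => (⌊Real.exp s + β⌋₊ : ℝ) * th_E w s) := by
    refine Integrable.mono' (hg.const_mul ((9 + |β|) * Real.exp w))
      ((th_N_meas β).mul (th_E_meas w)).aestronglyMeasurable ?_
    filter_upwards with s
    have hEp : 0 ≤ th_E w s := (Real.exp_pos _).le
    rw [Real.norm_eq_abs, abs_of_nonneg (mul_nonneg (Nat.cast_nonneg _) hEp)]
    refine le_trans (le_of_eq ?_) (th_NE β w s 1 hw (by norm_num))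
    unfold th_E
    congr 2
    ring
  have b0 : ∀ s, |(⌊Real.exp s + β⌋₊ : ℝ) * (th_E w (s + δ) - th_E w s)| ≤
      16 * δ * ((9 + |β|) * Real.exp w * Real.exp (-(1 / 4) * (s - w) ^ 2)) := by
    intro s
    rw [abs_mul, abs_of_nonneg (Nat.cast_nonneg _)]
    calc (⌊Real.exp s + β⌋₊ : ℝ) * |th_E w (s + δ) - th_E w s|
        ≤ (⌊Real.exp s + β⌋₊ : ℝ) * (16 * δ * Real.exp (-(3 / 8) * (s - w) ^ 2)) := by
          gcongr
          exact th_E_diff w s δ h0 h1
      _ = 16 * δ * ((⌊Real.exp s + β⌋₊ : ℝ) * Real.exp (-(3 / 8) * (s - w) ^ 2)) := by ring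
      _ ≤ _ := by
          gcongr 16 * δ * ?_
          exact th_NE β w s (3 / 8) hw le_rfl
  have a2 : Integrable (fun s : ℝ => (⌊Real.exp s + β⌋₊ : ℝ) * (th_E w (s + δ) - th_E w s)) := by
    refine Integrable.mono' ((hg.const_mul ((9 + |β|) * Real.exp w)).const_mul (16 * δ))
      ((th_N_meas β).mul (((th_E_meas w).comp (measurable_add_const δ)).sub
        (th_E_meas w))).aestronglyMeasurable ?_
    filter_upwards with s
    rw [Real.norm_eq_abs]
    exact b0 s
  have a3 : Integrable (fun s : ℝ => (⌊Real.exp (s + δ) + β⌋₊ : ℝ) * th_E w (s + δ)) :=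
    a1.comp_add_right δ
  have a4 : ∀ s : ℝ, ((⌊Real.exp (s + δ) + β⌋₊ : ℝ) - (⌊Real.exp s + β⌋₊ : ℝ)) * th_E w (s + δ) =
      (⌊Real.exp (s + δ) + β⌋₊ : ℝ) * th_E w (s + δ) - (⌊Real.exp s + β⌋₊ : ℝ) * th_E w s -
        (⌊Real.exp s + β⌋₊ : ℝ) * (th_E w (s + δ) - th_E w s) := by
    intro s
    ring
  simp_rw [a4]
  have a5 : Integrable (fun s : ℝ => (⌊Real.exp (s + δ) + β⌋₊ : ℝ) * th_E w (s + δ) -
      (⌊Real.exp s + β⌋₊ : ℝ) * th_E w s) := a3.sub a1
  refine ⟨a5.sub a2, ?_⟩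
  rw [integral_sub a5 a2, integral_sub a3 a1,
    integral_add_right_eq_self (μ := (volume : Measure ℝ))
      (fun s : ℝ => (⌊Real.exp s + β⌋₊ : ℝ) * th_E w s) δ, sub_self, zero_sub]
  refine (le_abs_self _).trans ?_
  rw [abs_neg, ← Real.norm_eq_abs]
  refine (norm_integral_le_integral_norm _).trans ?_
  calc ∫ s : ℝ, ‖(⌊Real.exp s + β⌋₊ : ℝ) * (th_E w (s + δ) - th_E w s)‖
      ≤ ∫ s : ℝ, 16 * δ * ((9 + |β|) * Real.exp w * Real.exp (-(1 / 4) * (s - w) ^ 2)) := by
        apply integral_mono a2.norm ((hg.const_mul ((9 + |β|) * Real.exp w)).const_mul (16 * δ))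
        intro s
        exact b0 s
    _ = 16 * δ * ((9 + |β|) * Real.exp w * √(Real.pi / (1 / 4))) := by
        rw [integral_const_mul, integral_const_mul,
          integral_sub_right_eq_self (μ := (volume : Measure ℝ))
            (fun s : ℝ => Real.exp (-(1 / 4) * s ^ 2)) w, integral_gaussian]
    _ ≤ 16 * δ * ((9 + |β|) * Real.exp w * 4) := by
        gcongr
        rw [Real.sqrt_le_left (by norm_num)]
        have := Real.pi_lt_four
        linarith
    _ = _ := by ring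

/-- `∫ (h(s+δ) - h(s))² ds ≤ C w² e^w δ`. -/
private theorem th_D (β w δ : ℝ) (hw : 1 ≤ w) (h0 : 0 ≤ δ) (h1 : δ ≤ 1) :
    ∫ s : ℝ, (h β w (s + δ) - h β w s) ^ 2 ≤
      (4 + 2 * |β|) ^ 2 * w ^ 2 * ((4000 + 128 * |β|) * Real.exp w * δ) := by
  have hβ := abs_nonneg β
  have hM : 0 ≤ (4 + 2 * |β|) ^ 2 * w ^ 2 := by positivity
  obtain ⟨i1, i2⟩ := th_I1 β w δ hw h0 h1
  have hg := th_gauss w (1 / 2) (by norm_num)
  have c3 : Integrable ((Set.Ioc (w / 2 - δ) (w / 2)).indicator (fun _ => (1 : ℝ))) := by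
    rw [integrable_indicator_iff measurableSet_Ioc]
    exact integrableOn_const (by simp)
  have d3 : ∫ s, (Set.Ioc (w / 2 - δ) (w / 2)).indicator (fun _ => (1 : ℝ)) s = δ := by
    rw [integral_indicator measurableSet_Ioc]
    simp [h0]
  obtain ⟨k1, k2⟩ := h_int β w hw
  have hL : Integrable (fun s => (h β w (s + δ) - h β w s) ^ 2) := by
    have m1 : MemLp (h β w) 2 := (memLp_two_iff_integrable_sq k1.1).2 k2
    have m2 : MemLp (fun s => h β w (s + δ)) 2 :=
      (memLp_two_iff_integrable_sq (k1.comp_add_right δ).1).2 (k2.comp_add_right δ)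
    have m3 := m2.sub m1
    exact (memLp_two_iff_integrable_sq m3.1).1 m3
  calc ∫ s : ℝ, (h β w (s + δ) - h β w s) ^ 2
      ≤ ∫ s : ℝ, (4 + 2 * |β|) ^ 2 * w ^ 2 *
      (2 * (((⌊Real.exp (s + δ) + β⌋₊ : ℝ) - (⌊Real.exp s + β⌋₊ : ℝ)) * th_E w (s + δ)) +
        512 * δ * Real.exp (-(1 / 2) * (s - w) ^ 2) +
        (Set.Ioc (w / 2 - δ) (w / 2)).indicator (fun _ => (1 : ℝ)) s) := by
        apply integral_mono hL
        · exact (((i1.const_mul 2).add (hg.const_mul (512 * δ))).add c3).const_mul _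
        · intro s
          exact th_pt β w s δ hw h0 h1
    _ = (4 + 2 * |β|) ^ 2 * w ^ 2 *
      (2 * (∫ s : ℝ, ((⌊Real.exp (s + δ) + β⌋₊ : ℝ) - (⌊Real.exp s + β⌋₊ : ℝ)) * th_E w (s + δ)) +
        512 * δ * √(Real.pi / (1 / 2)) + δ) := by
        have i3 : Integrable (fun s : ℝ => 2 * (((⌊Real.exp (s + δ) + β⌋₊ : ℝ) -
            (⌊Real.exp s + β⌋₊ : ℝ)) * th_E w (s + δ)) +
            512 * δ * Real.exp (-(1 / 2) * (s - w) ^ 2)) :=
          (i1.const_mul 2).add (hg.const_mul (512 * δ))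
        rw [integral_const_mul, integral_add i3 c3,
          integral_add (i1.const_mul 2) (hg.const_mul (512 * δ)), integral_const_mul,
          integral_const_mul, d3, integral_sub_right_eq_self (μ := (volume : Measure ℝ))
            (fun s : ℝ => Real.exp (-(1 / 2) * s ^ 2)) w, integral_gaussian]
    _ ≤ (4 + 2 * |β|) ^ 2 * w ^ 2 *
      (2 * (64 * (9 + |β|) * Real.exp w * δ) + 512 * δ * 3 * Real.exp w + δ * Real.exp w) := by
        have hs : √(Real.pi / (1 / 2)) ≤ 3 := by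
          rw [Real.sqrt_le_left (by norm_num)]
          have := Real.pi_lt_four
          linarith
        have he : 1 ≤ Real.exp w := Real.one_le_exp (by linarith)
        have hh1 : 512 * δ * √(Real.pi / (1 / 2)) ≤ 512 * δ * 3 * Real.exp w := by
          calc 512 * δ * √(Real.pi / (1 / 2)) ≤ 512 * δ * 3 * 1 := by
                rw [mul_one]
                gcongr
            _ ≤ _ := by gcongr
        have hh2 : δ ≤ δ * Real.exp w := by nlinarith
        gcongr
    _ ≤ _ := by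
        gcongr
        nlinarith [mul_nonneg h0 (Real.exp_pos w).le]

theorem hh_tail_exp (β w T : ℝ) (hw : 1 ≤ w) (hT : 2 ≤ T) :
    Integrable (fun τ => ‖hh β w τ‖ ^ 2) ∧
    ∫ τ in {τ : ℝ | T ≤ |τ|}, ‖hh β w τ‖ ^ 2 ≤
      (1 + 4 * Real.pi * (4 + 2 * |β|) ^ 2 * (4000 + 128 * |β|)) * w ^ 2 * (Real.exp w / T + 1 / T) := by
  have hβ := abs_nonneg β
  have hpi := Real.pi_pos
  obtain ⟨k1, k2⟩ := h_int β w hw
  have hT0 : 0 < T := by linarith
  -- integrability
  have hi : Integrable (fun τ => ‖hh β w τ‖ ^ 2) := by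
    have q1 : Integrable (fun s => (h β w s : ℂ)) := k1.ofReal
    have q2 : Integrable (fun s => ‖(h β w s : ℂ)‖ ^ 2) := by
      refine k2.congr ?_
      filter_upwards with s
      simp only [Complex.norm_real, Real.norm_eq_abs, sq_abs]
    exact (th_P _ q1 q2).1
  refine ⟨hi, ?_⟩
  -- Plancherel for the differences
  have hD : ∀ δ : ℝ, 0 ≤ δ → δ ≤ 1 →
      ∫ τ : ℝ, (2 - 2 * Real.cos (τ * δ)) * ‖hh β w τ‖ ^ 2 ≤
        2 * Real.pi * ((4 + 2 * |β|) ^ 2 * w ^ 2 * ((4000 + 128 * |β|) * Real.exp w * δ)) := by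
    intro δ h0 h1
    have m1 : MemLp (h β w) 2 := (memLp_two_iff_integrable_sq k1.1).2 k2
    have m2 : MemLp (fun s => h β w (s + δ)) 2 :=
      (memLp_two_iff_integrable_sq (k1.comp_add_right δ).1).2 (k2.comp_add_right δ)
    have m3 := m2.sub m1
    have q0 : Integrable (fun s => h β w (s + δ) - h β w s) := (k1.comp_add_right δ).sub k1
    have q1 : Integrable (fun s => ((h β w (s + δ) - h β w s : ℝ) : ℂ)) := q0.ofReal
    have q2 : Integrable (fun s => ‖((h β w (s + δ) - h β w s : ℝ) : ℂ)‖ ^ 2) := by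
      refine ((memLp_two_iff_integrable_sq m3.1).1 m3).congr ?_
      filter_upwards with s
      simp only [Complex.norm_real, Real.norm_eq_abs, sq_abs]
      rfl
    have q3 := (th_P _ q1 q2).2
    have q4 : ∀ τ : ℝ, ∫ s : ℝ, ((h β w (s + δ) - h β w s : ℝ) : ℂ) *
        Complex.exp (-(τ * s * Complex.I)) = (Complex.exp (τ * δ * Complex.I) - 1) * hh β w τ := by
      intro τ
      have e2 : Integrable (fun s : ℝ => (h β w s : ℂ) * Complex.exp (-(τ * s * Complex.I))) := by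
        refine k1.ofReal.mul_bdd (c := 1) (by fun_prop) ?_
        filter_upwards with s
        rw [Complex.norm_exp]
        simp
      have e1 : ∀ s : ℝ, ((h β w (s + δ) - h β w s : ℝ) : ℂ) * Complex.exp (-(τ * s * Complex.I)) =
          Complex.exp (τ * δ * Complex.I) * ((h β w (s + δ) : ℂ) *
            Complex.exp (-(τ * (s + δ : ℝ) * Complex.I))) -
          (h β w s : ℂ) * Complex.exp (-(τ * s * Complex.I)) := by
        intro s
        have : Complex.exp (-(τ * s * Complex.I)) = Complex.exp (τ * δ * Complex.I) *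
            Complex.exp (-(τ * (s + δ : ℝ) * Complex.I)) := by
          rw [← Complex.exp_add]
          congr 1
          push_cast
          ring
        have h2 : ((h β w (s + δ) - h β w s : ℝ) : ℂ) * Complex.exp (-(τ * s * Complex.I)) =
          (h β w (s + δ) : ℂ) * Complex.exp (-(τ * s * Complex.I)) -
          (h β w s : ℂ) * Complex.exp (-(τ * s * Complex.I)) := by
          push_cast
          ring
        rw [h2]
        congr 1
        rw [this]
        ring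
      simp_rw [e1]
      rw [integral_sub ((e2.comp_add_right δ).const_mul _) e2, integral_const_mul,
        integral_add_right_eq_self (μ := (volume : Measure ℝ))
          (fun s : ℝ => (h β w s : ℂ) * Complex.exp (-(τ * s * Complex.I))) δ]
      unfold hh
      ring
    have q5 : ∀ τ : ℝ, ‖Complex.exp (τ * δ * Complex.I) - 1‖ ^ 2 = 2 - 2 * Real.cos (τ * δ) := by
      intro τ
      have : (τ : ℂ) * δ = ((τ * δ : ℝ) : ℂ) := by push_cast; ring
      rw [this, Complex.sq_norm, Complex.normSq_apply]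
      simp only [Complex.sub_re, Complex.one_re, Complex.sub_im, Complex.one_im, sub_zero,
        Complex.exp_ofReal_mul_I_re, Complex.exp_ofReal_mul_I_im]
      nlinarith [Real.sin_sq_add_cos_sq (τ * δ)]
    simp_rw [q4, norm_mul, mul_pow, q5] at q3
    rw [q3]
    gcongr
    refine le_trans (le_of_eq ?_) (th_D β w δ hw h0 h1)
    apply integral_congr_ae
    filter_upwards with s
    simp only [Complex.norm_real, Real.norm_eq_abs, sq_abs]
  -- averaging
  set Δ := 2 / T with hΔ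
  have hΔ0 : 0 < Δ := by positivity
  have hΔ1 : Δ ≤ 1 := by
    rw [hΔ, div_le_one hT0]
    exact hT
  set K := 2 * Real.pi * ((4 + 2 * |β|) ^ 2 * w ^ 2 * ((4000 + 128 * |β|) * Real.exp w)) with hK
  have hK0 : 0 ≤ K := by positivity
  have hF : Integrable (fun p : ℝ × ℝ => (2 - 2 * Real.cos (p.1 * p.2)) * ‖hh β w p.1‖ ^ 2)
      (volume.prod (volume.restrict (Set.Ioc 0 Δ))) := by
    have f1 : Integrable (fun p : ℝ × ℝ => ‖hh β w p.1‖ ^ 2 * (1 : ℝ))
        (volume.prod (volume.restrict (Set.Ioc 0 Δ))) := by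
      apply Integrable.mul_prod (f := fun τ => ‖hh β w τ‖ ^ 2) (g := fun _ : ℝ => (1 : ℝ)) hi
      exact integrable_const _
    simp only [mul_one] at f1
    refine f1.bdd_mul (c := 4) (by fun_prop) ?_
    filter_upwards with p
    rw [Real.norm_eq_abs, abs_le]
    constructor <;> linarith [Real.neg_one_le_cos (p.1 * p.2), Real.cos_le_one (p.1 * p.2)]
  have hswap := integral_integral_swap
    (f := fun τ δ : ℝ => (2 - 2 * Real.cos (τ * δ)) * ‖hh β w τ‖ ^ 2) hF
  have hR : ∫ δ in Set.Ioc 0 Δ, ∫ τ : ℝ, (2 - 2 * Real.cos (τ * δ)) * ‖hh β w τ‖ ^ 2 ≤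
      Δ * (K * Δ) := by
    calc ∫ δ in Set.Ioc 0 Δ, ∫ τ : ℝ, (2 - 2 * Real.cos (τ * δ)) * ‖hh β w τ‖ ^ 2
        ≤ ∫ δ in Set.Ioc 0 Δ, K * Δ := by
          apply setIntegral_mono_on hF.integral_prod_right (integrable_const _) measurableSet_Ioc
          intro δ hδ
          refine (hD δ hδ.1.le (hδ.2.trans hΔ1)).trans ?_
          calc _ = K * δ := by rw [hK]; ring
            _ ≤ K * Δ := by gcongr; exact hδ.2
      _ = Δ * (K * Δ) := by
          simp [hΔ0.le]
  have hin : ∀ τ : ℝ, ∫ δ in Set.Ioc 0 Δ, (2 - 2 * Real.cos (τ * δ)) * ‖hh β w τ‖ ^ 2 =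
      (∫ δ in Set.Ioc 0 Δ, (2 - 2 * Real.cos (τ * δ))) * ‖hh β w τ‖ ^ 2 := by
    intro τ
    rw [integral_mul_const]
  have hcos0 : ∀ τ : ℝ, 0 ≤ ∫ δ in Set.Ioc 0 Δ, (2 - 2 * Real.cos (τ * δ)) := by
    intro τ
    apply integral_nonneg
    intro δ
    have := Real.cos_le_one (τ * δ)
    simp only [Pi.zero_apply]
    linarith
  have hcos : ∀ τ : ℝ, T ≤ |τ| → Δ ≤ ∫ δ in Set.Ioc 0 Δ, (2 - 2 * Real.cos (τ * δ)) := by
    intro τ hτ
    have hτ0 : τ ≠ 0 := by
      rintro rfl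
      simp at hτ
      linarith
    rw [← intervalIntegral.integral_of_le hΔ0.le, intervalIntegral.integral_sub
      (by simp) (by apply Continuous.intervalIntegrable; fun_prop),
      intervalIntegral.integral_const, intervalIntegral.integral_const_mul,
      intervalIntegral.integral_comp_mul_left _ hτ0, integral_cos]
    simp only [sub_zero, smul_eq_mul, mul_zero, Real.sin_zero]
    have s1 : |τ⁻¹ * Real.sin (τ * Δ)| ≤ Δ / 2 := by
      rw [abs_mul, abs_inv]
      calc |τ|⁻¹ * |Real.sin (τ * Δ)| ≤ T⁻¹ * 1 := by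
            gcongr
            exact Real.abs_sin_le_one _
        _ = Δ / 2 := by rw [hΔ]; field_simp
    have s2 := le_abs_self (τ⁻¹ * Real.sin (τ * Δ))
    linarith
  have hLs : Δ * ∫ τ in {τ : ℝ | T ≤ |τ|}, ‖hh β w τ‖ ^ 2 ≤
      ∫ τ : ℝ, ∫ δ in Set.Ioc 0 Δ, (2 - 2 * Real.cos (τ * δ)) * ‖hh β w τ‖ ^ 2 := by
    have hms : MeasurableSet {τ : ℝ | T ≤ |τ|} := measurableSet_le measurable_const (by fun_prop)
    have hI := hF.integral_prod_left
    rw [← integral_const_mul]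
    calc ∫ τ in {τ : ℝ | T ≤ |τ|}, Δ * ‖hh β w τ‖ ^ 2
        ≤ ∫ τ in {τ : ℝ | T ≤ |τ|}, ∫ δ in Set.Ioc 0 Δ, (2 - 2 * Real.cos (τ * δ)) * ‖hh β w τ‖ ^ 2 := by
          apply setIntegral_mono_on (hi.const_mul Δ).integrableOn hI.integrableOn hms
          intro τ hτ
          rw [hin]
          gcongr
          exact hcos τ hτ
      _ ≤ _ := by
          apply setIntegral_le_integral hI
          filter_upwards with τ
          simp only [Pi.zero_apply]
          rw [hin]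
          exact mul_nonneg (hcos0 τ) (by positivity)
  rw [hswap] at hLs
  have hfin : ∫ τ in {τ : ℝ | T ≤ |τ|}, ‖hh β w τ‖ ^ 2 ≤ K * Δ := by
    have := hLs.trans hR
    exact le_of_mul_le_mul_left this hΔ0
  refine hfin.trans ?_
  rw [hK, hΔ]
  have z1 : 0 ≤ Real.exp w / T := by positivity
  have z2 : 0 ≤ 1 / T := by positivity
  have z3 : 0 ≤ 4 * Real.pi * (4 + 2 * |β|) ^ 2 * (4000 + 128 * |β|) * w ^ 2 := by positivity
  have z4 : 0 ≤ w ^ 2 * (Real.exp w / T + 1 / T) := by positivity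
  calc 2 * Real.pi * ((4 + 2 * |β|) ^ 2 * w ^ 2 * ((4000 + 128 * |β|) * Real.exp w)) * (2 / T)
      = (4 * Real.pi * (4 + 2 * |β|) ^ 2 * (4000 + 128 * |β|) * w ^ 2) * (Real.exp w / T) := by ring
    _ ≤ _ := by
      nlinarith [mul_nonneg z3 z2]

theorem hh_tail (β : ℝ) : ∃ C : ℝ, 1 ≤ C ∧ ∀ w T : ℝ, 1 ≤ w → 2 ≤ T →
    Integrable (fun τ => ‖hh β w τ‖ ^ 2) ∧
    ∫ τ in {τ : ℝ | T ≤ |τ|}, ‖hh β w τ‖ ^ 2 ≤ C * w ^ 2 * (Real.exp w / T + 1 / T) := by
  refine ⟨1 + 4 * Real.pi * (4 + 2 * |β|) ^ 2 * (4000 + 128 * |β|), ?_, ?_⟩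
  · have hβ := abs_nonneg β
    have hpi := Real.pi_pos
    have : 0 ≤ 4 * Real.pi * (4 + 2 * |β|) ^ 2 * (4000 + 128 * |β|) := by positivity
    linarith
  · intro w T hw hT
    exact hh_tail_exp β w T hw hT

/-- `h` is measurable -/
theorem h_meas (β w : ℝ) : Measurable (h β w) := th_h_meas β w

theorem h_abs (β w s : ℝ) (hw : 1 ≤ w) :
    |h β w s| ≤ (4 + 2 * |β|) * w * Real.exp (-(s - w) ^ 2 / 2) := th_h_abs β w s hw

/-- Plancherel's theorem for a function in `L¹ ∩ L²` -/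
theorem four_sq (b : ℝ → ℂ) (hb : Integrable b) (hb2 : Integrable (fun s => ‖b s‖ ^ 2)) :
    Integrable (fun τ : ℝ => ‖∫ s : ℝ, b s * Complex.exp (-(τ * s * Complex.I))‖ ^ 2) ∧
    ∫ τ : ℝ, ‖∫ s : ℝ, b s * Complex.exp (-(τ * s * Complex.I))‖ ^ 2 =
      2 * Real.pi * ∫ s, ‖b s‖ ^ 2 := th_P b hb hb2

end AMC
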