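import Pool.Agent.AMC.Hhat
import Pool.Agent.AMC.TailH
import Pool.Agent.ASI.MeanV

/-!
# AMC.KL0: the key lemma for `Λ`

PROOF. `ℓ = log X`. For `α ∈ [a,b]`, `κ1 X ≤ c ≤ κ2 X`: `s = log(αc) ∈ [ℓ - C0, ℓ + C0]`, and
`1 = (1/√π) ∫ exp(-(s-w)²) dw = (1/√π) ∫_{|w-ℓ| ≤ log ℓ} exp(-(s-w)²) dw + O(exp(-(log ℓ)²/4))`. As
`|G| ≤ ℓ + C`, the sum over `c` is `(1/√π) ∫_{|w-ℓ| ≤ log ℓ} ∑_c u(c) h β w (log α + log c) dw + O(X ℓ exp(-(log ℓ)²/4))`.
Square, Cauchy-Schwarz in `w`, integrate over `α` (`dα ≤ b dv`, `v = log α`):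
`≤ C log ℓ ∫_{|w-ℓ| ≤ log ℓ} ∫_v |∑_c u(c) h β w (v + log c)|² dv dw + tiny`. `plancherel`: with `T1 = e^w w^B` the
part `|τ| ≤ T1` is at most `w^(-2A') C (T1 + X) X` (`hh_small`, `ASI.mean_value` with `b_c = u(c)`,
`∑ (T+c)|u(c)|² ≤ C (T1 + X) X`), `T1 ≤ X ℓ · (2ℓ)^B`; the part `|τ| > T1` is at most
`(C X)² C w² (e^w/T1 + 1/T1) ≤ C' X² ℓ^(2-B)` (`hh_tail`). Take `B = A + 6`, then `A'` large.
-/

namespace AMC

open MeasureTheory ArithmeticFunction

private theorem KL0_Gb (β s : ℝ) (hs : 0 ≤ s) : |G β s| ≤ s + |β| + 1 := by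
  unfold G
  have h0 : (0 : ℝ) ≤ vonMangoldt ⌊Real.exp s + β⌋₊ := vonMangoldt_nonneg
  have h1 : vonMangoldt ⌊Real.exp s + β⌋₊ ≤ s + |β| := by
    refine vonMangoldt_le_log.trans ?_
    rcases Nat.eq_zero_or_pos ⌊Real.exp s + β⌋₊ with h | h
    · rw [h]
      simp only [Nat.cast_zero, Real.log_zero]
      positivity
    · have h2 : (⌊Real.exp s + β⌋₊ : ℝ) ≤ Real.exp s * Real.exp |β| := by
        have h3 : (⌊Real.exp s + β⌋₊ : ℝ) ≤ Real.exp s + β := Nat.floor_le (by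
          by_contra hc
          push Not at hc
          rw [Nat.floor_of_nonpos hc.le] at h
          exact lt_irrefl _ h)
        have h4 := Real.add_one_le_exp |β|
        have h5 : 1 ≤ Real.exp s := Real.one_le_exp hs
        have h6 := le_abs_self β
        nlinarith [abs_nonneg β]
      calc Real.log _ ≤ Real.log (Real.exp s * Real.exp |β|) :=
            Real.log_le_log (by exact_mod_cast h) h2
        _ = s + |β| := by rw [← Real.exp_add, Real.log_exp]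
  rw [abs_le]
  have := abs_nonneg β
  constructor <;> linarith

private theorem KL0_Gm (β : ℝ) : Measurable (G β) := by
  unfold G
  have h1 : Measurable fun n : ℕ => (vonMangoldt n : ℝ) := measurable_from_nat
  have h2 : Measurable fun s : ℝ => ⌊Real.exp s + β⌋₊ := Nat.measurable_floor.comp (by fun_prop)
  exact (h1.comp h2).sub_const 1

private theorem KL0_gauss {s ℓ L C0 : ℝ} (hs : |s - ℓ| ≤ C0) (hL : 2 * C0 ≤ L) :
    |√Real.pi - ∫ w in Set.Icc (ℓ - L) (ℓ + L), Real.exp (-(s - w) ^ 2)| ≤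
      3 * Real.exp (-L ^ 2 / 8) := by
  have hC0 : 0 ≤ C0 := (abs_nonneg _).trans hs
  have i0 : Integrable (fun x : ℝ => Real.exp (-1 * x ^ 2)) := integrable_exp_neg_mul_sq one_pos
  have i1 : Integrable (fun w : ℝ => Real.exp (-(s - w) ^ 2)) := by
    have := i0.comp_sub_left s
    refine this.congr (Filter.Eventually.of_forall fun w => ?_)
    simp
  have e1 : ∫ w : ℝ, Real.exp (-(s - w) ^ 2) = √Real.pi := by
    have h1 := integral_gaussian 1
    have h2 := integral_sub_left_eq_self (fun x : ℝ => Real.exp (-1 * x ^ 2)) volume s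
    rw [h1] at h2
    simpa using h2
  have i2 : Integrable (fun w : ℝ => Real.exp (-(1 / 2) * (s - w) ^ 2)) :=
    (integrable_exp_neg_mul_sq (by norm_num : (0 : ℝ) < 1 / 2)).comp_sub_left s
  have e2 : ∫ w : ℝ, Real.exp (-(1 / 2) * (s - w) ^ 2) = √(Real.pi / (1 / 2)) := by
    have h1 := integral_gaussian (1 / 2)
    have h2 := integral_sub_left_eq_self (fun x : ℝ => Real.exp (-(1 / 2) * x ^ 2)) volume s
    rw [h1] at h2
    simpa using h2
  have e3 := integral_add_compl (measurableSet_Icc : MeasurableSet (Set.Icc (ℓ - L) (ℓ + L))) i1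
  have e4 : √Real.pi - ∫ w in Set.Icc (ℓ - L) (ℓ + L), Real.exp (-(s - w) ^ 2) =
      ∫ w in (Set.Icc (ℓ - L) (ℓ + L))ᶜ, Real.exp (-(s - w) ^ 2) := by
    rw [← e1, ← e3]
    ring
  rw [e4, abs_of_nonneg (integral_nonneg fun w => (Real.exp_pos _).le)]
  calc ∫ w in (Set.Icc (ℓ - L) (ℓ + L))ᶜ, Real.exp (-(s - w) ^ 2)
      ≤ ∫ w in (Set.Icc (ℓ - L) (ℓ + L))ᶜ,
          Real.exp (-L ^ 2 / 8) * Real.exp (-(1 / 2) * (s - w) ^ 2) := by
        refine setIntegral_mono_on i1.integrableOn (i2.const_mul _).integrableOn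
          measurableSet_Icc.compl fun w hw => ?_
        rw [← Real.exp_add]
        refine Real.exp_le_exp.2 ?_
        have h1 : L < |w - ℓ| := by
          rw [Set.mem_compl_iff, Set.mem_Icc, not_and_or, not_le, not_le] at hw
          rcases hw with h | h
          · rw [lt_abs]; right; linarith
          · rw [lt_abs]; left; linarith
        have h2 : L / 2 ≤ |s - w| := by
          have : |w - ℓ| ≤ |s - w| + |s - ℓ| := by
            have := abs_sub_abs_le_abs_sub (w - ℓ) (s - ℓ)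
            have e : w - ℓ - (s - ℓ) = -(s - w) := by ring
            rw [e, abs_neg] at this
            linarith
          linarith
        have h3 : (L / 2) ^ 2 ≤ (s - w) ^ 2 := by
          rw [← sq_abs (s - w)]
          exact pow_le_pow_left₀ (by linarith) h2 2
        nlinarith
    _ ≤ ∫ w : ℝ, Real.exp (-L ^ 2 / 8) * Real.exp (-(1 / 2) * (s - w) ^ 2) := by
        refine setIntegral_le_integral (i2.const_mul _) (Filter.Eventually.of_forall fun w => ?_)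
        positivity
    _ = Real.exp (-L ^ 2 / 8) * √(Real.pi / (1 / 2)) := by rw [integral_const_mul, e2]
    _ ≤ 3 * Real.exp (-L ^ 2 / 8) := by
        have h1 : √(Real.pi / (1 / 2)) ≤ 3 := by
          rw [Real.sqrt_le_left (by norm_num)]
          have := Real.pi_lt_four
          linarith
        rw [mul_comm]
        exact mul_le_mul_of_nonneg_right h1 (Real.exp_pos _).le

private theorem KL0_mem {κ1 κ2 X : ℝ} (hκ : 0 < κ1) (hX : 0 < X) {c : ℕ}
    (hc : c ∈ Finset.Icc ⌈κ1 * X⌉₊ ⌊κ2 * X⌋₊) :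
    1 ≤ c ∧ κ1 * X ≤ c ∧ (c : ℝ) ≤ κ2 * X := by
  rw [Finset.mem_Icc] at hc
  have h1 : κ1 * X ≤ c := Nat.ceil_le.1 hc.1
  have h2 : 1 ≤ c := by
    have : (0 : ℝ) < c := lt_of_lt_of_le (by positivity) h1
    exact_mod_cast this
  exact ⟨h2, h1, (Nat.le_floor_iff' (by omega)).1 hc.2⟩

private theorem KL0_card {κ1 κ2 X : ℝ} (hκ : 0 < κ1) (hX : 0 < X) :
    ((Finset.Icc ⌈κ1 * X⌉₊ ⌊κ2 * X⌋₊).card : ℝ) ≤ |κ2| * X := by
  rw [Nat.card_Icc]
  have h1 : 1 ≤ ⌈κ1 * X⌉₊ := Nat.one_le_ceil_iff.2 (by positivity)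
  have h2 : ((⌊κ2 * X⌋₊ + 1 - ⌈κ1 * X⌉₊ : ℕ) : ℝ) ≤ (⌊κ2 * X⌋₊ : ℝ) := by
    exact_mod_cast (by omega : ⌊κ2 * X⌋₊ + 1 - ⌈κ1 * X⌉₊ ≤ ⌊κ2 * X⌋₊)
  refine h2.trans ?_
  have h3 : κ2 * X ≤ |κ2| * X := mul_le_mul_of_nonneg_right (le_abs_self _) hX.le
  have h4 : (⌊κ2 * X⌋₊ : ℝ) ≤ (⌊|κ2| * X⌋₊ : ℝ) := by exact_mod_cast Nat.floor_mono h3
  exact h4.trans (Nat.floor_le (by positivity))

private theorem KL0_log_half {y : ℝ} (hy : 0 < y) : Real.log y ≤ y / 2 := by
  have h1 : Real.log y = Real.log (y / 2) + Real.log 2 := by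
    rw [← Real.log_mul (by positivity) (by norm_num)]
    congr 1
    ring
  have h2 : Real.log (y / 2) ≤ y / 2 - 1 := Real.log_le_sub_one_of_pos (by positivity)
  have h3 : Real.log 2 ≤ 2 - 1 := Real.log_le_sub_one_of_pos (by norm_num)
  linarith

private theorem KL0_conj {c : ℕ} (hc : 1 ≤ c) (τ : ℝ) :
    (starRingEnd ℂ) ((c : ℂ) ^ (-(τ * Complex.I))) = (c : ℂ) ^ (τ * Complex.I) := by
  have h0 : (c : ℂ) ≠ 0 := by exact_mod_cast (by omega : c ≠ 0)
  rw [Complex.cpow_def_of_ne_zero h0, Complex.cpow_def_of_ne_zero h0, ← Complex.exp_conj,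
    ← Complex.natCast_log]
  congr 1
  simp only [map_mul, map_neg, Complex.conj_ofReal, Complex.conj_I]
  ring

private theorem KL0_pw {κ1 κ2 β A : ℝ} (hκ : 0 < κ1) (hA : 0 ≤ A) :
    ∃ C X0 : ℝ, 0 ≤ C ∧ ∀ X : ℝ, X0 ≤ X → ∀ u : ℕ → ℝ, (∀ c, |u c| ≤ 1) →
      ∀ w : ℝ, |w - Real.log X| ≤ Real.log (Real.log X) →
      ∫ v : ℝ, (∑ c ∈ Finset.Icc ⌈κ1 * X⌉₊ ⌊κ2 * X⌋₊, u c * h β w (v + Real.log c)) ^ 2 ≤
        C * X ^ 2 * Real.log X ^ (-(A + 4)) := by
  set B : ℝ := A + 6 with hB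
  set A' : ℝ := A + 11 / 2 with hA'
  obtain ⟨w0, hw01, hw0⟩ := hh_small β A' B
  obtain ⟨C2, hC21, hC2⟩ := hh_tail β
  obtain ⟨C1, hC11, hC1⟩ := ASI.mean_value
  set κ : ℝ := |κ2| with hκd
  have hκ0 : 0 ≤ κ := abs_nonneg _
  set D1 : ℝ := C1 * κ * (1 + κ) * 2 ^ (2 * A' + B) with hD1
  set D2 : ℝ := 8 * 2 ^ B * κ ^ 2 * C2 with hD2
  have hD10 : 0 ≤ D1 := by positivity
  have hD20 : 0 ≤ D2 := by positivity
  refine ⟨D1 + D2, Real.exp (2 * (w0 + 6)), by positivity, fun X hX u hu w hw => ?_⟩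
  have hX0 : 0 < X := lt_of_lt_of_le (Real.exp_pos _) hX
  set ℓ := Real.log X with hℓ
  have hℓ1 : 2 * (w0 + 6) ≤ ℓ := by
    rw [hℓ]
    exact (Real.le_log_iff_exp_le hX0).2 hX
  have hℓ0 : 0 < ℓ := by linarith
  have hℓ14 : 14 ≤ ℓ := by linarith
  have hL : Real.log ℓ ≤ ℓ / 2 := KL0_log_half hℓ0
  have hwl : ℓ / 2 ≤ w := by
    have := neg_le_of_abs_le hw
    linarith
  have hwu' : w ≤ ℓ + Real.log ℓ := by
    have := le_of_abs_le hw
    linarith
  have hwu : w ≤ 2 * ℓ := by linarith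
  have hww : w0 + 6 ≤ w := by linarith
  have hw7 : 7 ≤ w := by linarith
  have hwp : 0 < w := by linarith
  set S := Finset.Icc ⌈κ1 * X⌉₊ ⌊κ2 * X⌋₊ with hS
  have hS0 : 0 ∉ S := fun h0 => by
    have := (KL0_mem hκ hX0 h0).1
    omega
  rw [plancherel β w (by linarith) S hS0 u]
  set D : ℝ → ℂ := fun τ => ∑ c ∈ S, (u c : ℂ) * (c : ℂ) ^ (τ * Complex.I) with hD
  set T : ℝ := Real.exp w * w ^ B with hT
  have hwB : 1 ≤ w ^ B := Real.one_le_rpow (by linarith) (by linarith)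
  have hT8 : 8 ≤ T := by
    have h1 := Real.add_one_le_exp w
    nlinarith
  have hcard : (S.card : ℝ) ≤ κ * X := KL0_card hκ hX0
  have hDb : ∀ τ, ‖D τ‖ ≤ κ * X := by
    intro τ
    refine (norm_sum_le _ _).trans ?_
    refine (Finset.sum_le_card_nsmul _ _ 1 fun c hc => ?_).trans ?_
    · have h1 := (KL0_mem hκ hX0 hc).1
      rw [norm_mul, Complex.norm_real, Real.norm_eq_abs,
        Complex.norm_natCast_cpow_of_pos (by omega)]
      simpa using hu c
    · simpa using hcard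
  have hDc : Continuous D := by
    rw [hD]
    refine continuous_finsetSum _ fun c hc => ?_
    have h1 := (KL0_mem hκ hX0 hc).1
    refine continuous_const.mul ?_
    refine Continuous.const_cpow (by fun_prop) (Or.inl ?_)
    exact_mod_cast (by omega : c ≠ 0)
  obtain ⟨ihh, htail⟩ := hC2 w T (by linarith) (by linarith)
  have iprod : Integrable (fun τ => ‖hh β w τ‖ ^ 2 * ‖D τ‖ ^ 2) := by
    refine ihh.mul_bdd (c := (κ * X) ^ 2) (hDc.norm.pow 2).aestronglyMeasurable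
      (Filter.Eventually.of_forall fun τ => ?_)
    rw [Real.norm_eq_abs, abs_of_nonneg (by positivity)]
    exact pow_le_pow_left₀ (norm_nonneg _) (hDb τ) 2
  have hpart1 : ∫ τ in Set.Icc (-T) T, ‖hh β w τ‖ ^ 2 * ‖D τ‖ ^ 2 ≤
      D1 * X ^ 2 * ℓ ^ (-(A + 4)) := by
    have h1 : ∫ τ in Set.Icc (-T) T, ‖hh β w τ‖ ^ 2 * ‖D τ‖ ^ 2 ≤
        ∫ τ in Set.Icc (-T) T, (w ^ (-A')) ^ 2 * ‖D τ‖ ^ 2 := by
      refine setIntegral_mono_on iprod.integrableOn ?_ measurableSet_Icc fun τ hτ => ?_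
      · exact (continuous_const.mul (hDc.norm.pow 2)).continuousOn.integrableOn_Icc
      · refine mul_le_mul_of_nonneg_right ?_ (by positivity)
        exact pow_le_pow_left₀ (norm_nonneg _)
          (hw0 w τ (by linarith) (abs_le.2 ⟨hτ.1, hτ.2⟩)) 2
    set b : ℕ → ℂ := fun n => if n ∈ S then (u n : ℂ) else 0 with hb
    have hbS : ∀ n, n ∉ S → b n = 0 := fun n hn => by simp [hb, hn]
    have h2 : ∫ τ in Set.Icc (-T) T, ‖D τ‖ ^ 2 ≤ C1 * (κ * X * (T + κ * X)) := by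
      have h3 := hC1 b T (by linarith) (hbS 0 hS0)
        (summable_of_ne_finset_zero (s := S) fun n hn => by simp [hbS n hn])
        (summable_of_ne_finset_zero (s := S) fun n hn => by simp [hbS n hn])
      have e1 : ∀ τ : ℝ, ‖∑' n : ℕ, b n * (n : ℂ) ^ (-(τ * Complex.I))‖ = ‖D τ‖ := by
        intro τ
        rw [tsum_eq_sum (s := S) fun n hn => by simp [hbS n hn], hD, ← Complex.norm_conj]
        congr 1
        simp only [map_sum, map_mul]
        refine Finset.sum_congr rfl fun c hc => ?_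
        have h1 := (KL0_mem hκ hX0 hc).1
        simp only [hb, if_pos hc, Complex.conj_ofReal]
        rw [KL0_conj h1]
      simp only [e1] at h3
      refine h3.trans (mul_le_mul_of_nonneg_left ?_ (by linarith))
      rw [tsum_eq_sum (s := S) fun n hn => by simp [hbS n hn]]
      calc ∑ n ∈ S, (T + (n : ℝ)) * ‖b n‖ ^ 2 ≤ ∑ n ∈ S, (T + κ * X) := by
            refine Finset.sum_le_sum fun c hc => ?_
            have h4 := (KL0_mem hκ hX0 hc).2.2
            have h5 : (c : ℝ) ≤ κ * X :=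
              h4.trans (mul_le_mul_of_nonneg_right (le_abs_self _) hX0.le)
            have h6 : ‖b c‖ ^ 2 ≤ 1 := by
              simp only [hb, if_pos hc, Complex.norm_real, Real.norm_eq_abs]
              exact pow_le_one₀ (abs_nonneg _) (hu c)
            have h7 : 0 ≤ T + (c : ℝ) := by positivity
            calc (T + (c : ℝ)) * ‖b c‖ ^ 2 ≤ (T + (c : ℝ)) * 1 := mul_le_mul_of_nonneg_left h6 h7
              _ ≤ T + κ * X := by linarith
        _ = S.card * (T + κ * X) := by rw [Finset.sum_const, nsmul_eq_mul]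
        _ ≤ κ * X * (T + κ * X) := mul_le_mul_of_nonneg_right hcard (by positivity)
    have hTX : T + κ * X ≤ (1 + κ) * 2 ^ B * X * ℓ ^ (B + 1) := by
      have h4 : Real.exp w ≤ X * ℓ := by
        calc Real.exp w ≤ Real.exp (ℓ + Real.log ℓ) := Real.exp_le_exp.2 hwu'
          _ = X * ℓ := by rw [Real.exp_add, Real.exp_log hℓ0, hℓ, Real.exp_log hX0]
      have h5 : w ^ B ≤ 2 ^ B * ℓ ^ B := by
        rw [← Real.mul_rpow (by norm_num) hℓ0.le]
        exact Real.rpow_le_rpow hwp.le hwu (by linarith)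
      have h6 : T ≤ X * ℓ * (2 ^ B * ℓ ^ B) := mul_le_mul h4 h5 (by positivity) (by positivity)
      have h7 : ℓ ^ (B + 1) = ℓ ^ B * ℓ := by
        rw [Real.rpow_add hℓ0, Real.rpow_one]
      have h8 : 1 ≤ 2 ^ B * ℓ ^ (B + 1) := by
        have a1 : (1 : ℝ) ≤ 2 ^ B := Real.one_le_rpow (by norm_num) (by linarith)
        have a2 : (1 : ℝ) ≤ ℓ ^ (B + 1) := Real.one_le_rpow (by linarith) (by linarith)
        nlinarith
      have h9 : κ * X ≤ κ * X * (2 ^ B * ℓ ^ (B + 1)) := le_mul_of_one_le_right (by positivity) h8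
      calc T + κ * X ≤ X * ℓ * (2 ^ B * ℓ ^ B) + κ * X * (2 ^ B * ℓ ^ (B + 1)) := add_le_add h6 h9
        _ = (1 + κ) * 2 ^ B * X * ℓ ^ (B + 1) := by rw [h7]; ring
    have hwA : (w ^ (-A')) ^ 2 ≤ 2 ^ (2 * A') * ℓ ^ (-(2 * A')) := by
      have h4 : (w ^ (-A')) ^ 2 = w ^ (-(2 * A')) := by
        rw [← Real.rpow_natCast, ← Real.rpow_mul hwp.le]
        congr 1
        push_cast
        ring
      rw [h4]
      calc w ^ (-(2 * A')) ≤ (ℓ / 2) ^ (-(2 * A')) :=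
            Real.rpow_le_rpow_of_nonpos (by positivity) hwl (by linarith)
        _ = 2 ^ (2 * A') * ℓ ^ (-(2 * A')) := by
            rw [Real.div_rpow hℓ0.le (by norm_num), Real.rpow_neg (by norm_num : (0 : ℝ) ≤ 2)]
            field_simp
    calc ∫ τ in Set.Icc (-T) T, ‖hh β w τ‖ ^ 2 * ‖D τ‖ ^ 2
        ≤ ∫ τ in Set.Icc (-T) T, (w ^ (-A')) ^ 2 * ‖D τ‖ ^ 2 := h1
      _ = (w ^ (-A')) ^ 2 * ∫ τ in Set.Icc (-T) T, ‖D τ‖ ^ 2 := integral_const_mul _ _
      _ ≤ (2 ^ (2 * A') * ℓ ^ (-(2 * A'))) * (C1 * (κ * X * (T + κ * X))) :=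
          mul_le_mul hwA h2 (integral_nonneg fun τ => by positivity) (by positivity)
      _ ≤ (2 ^ (2 * A') * ℓ ^ (-(2 * A'))) *
            (C1 * (κ * X * ((1 + κ) * 2 ^ B * X * ℓ ^ (B + 1)))) := by gcongr
      _ = D1 * X ^ 2 * (ℓ ^ (-(2 * A')) * ℓ ^ (B + 1)) := by
          have e : (2 : ℝ) ^ (2 * A' + B) = 2 ^ (2 * A') * 2 ^ B := Real.rpow_add (by norm_num) _ _
          rw [hD1, e]
          ring
      _ = D1 * X ^ 2 * ℓ ^ (-(A + 4)) := by
          rw [← Real.rpow_add hℓ0]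
          congr 2
          rw [hA', hB]
          ring
  have hpart2 : ∫ τ in (Set.Icc (-T) T)ᶜ, ‖hh β w τ‖ ^ 2 * ‖D τ‖ ^ 2 ≤
      D2 * X ^ 2 * ℓ ^ (-(A + 4)) := by
    have hsub : (Set.Icc (-T) T)ᶜ ⊆ {τ : ℝ | T ≤ |τ|} := by
      intro τ hτ
      rw [Set.mem_compl_iff, Set.mem_Icc, not_and_or, not_le, not_le] at hτ
      rw [Set.mem_ofPred_eq, le_abs]
      rcases hτ with h | h
      · right; linarith
      · left; linarith
    have hms : MeasurableSet {τ : ℝ | T ≤ |τ|} := measurableSet_le measurable_const measurable_norm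
    have h1 : Real.exp w / T + 1 / T ≤ 2 * (2 ^ B * ℓ ^ (-B)) := by
      have h2 : Real.exp w / T = w ^ (-B) := by
        rw [hT, Real.rpow_neg hwp.le]
        have : Real.exp w ≠ 0 := (Real.exp_pos _).ne'
        field_simp
      have h3 : 1 / T ≤ Real.exp w / T := by
        gcongr
        exact Real.one_le_exp hwp.le
      have h4 : w ^ (-B) ≤ 2 ^ B * ℓ ^ (-B) := by
        calc w ^ (-B) ≤ (ℓ / 2) ^ (-B) :=
              Real.rpow_le_rpow_of_nonpos (by positivity) hwl (by linarith)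
          _ = 2 ^ B * ℓ ^ (-B) := by
              rw [Real.div_rpow hℓ0.le (by norm_num), Real.rpow_neg (by norm_num : (0 : ℝ) ≤ 2)]
              field_simp
      linarith
    calc ∫ τ in (Set.Icc (-T) T)ᶜ, ‖hh β w τ‖ ^ 2 * ‖D τ‖ ^ 2
        ≤ ∫ τ in (Set.Icc (-T) T)ᶜ, ‖hh β w τ‖ ^ 2 * (κ * X) ^ 2 := by
          refine setIntegral_mono_on iprod.integrableOn (ihh.mul_const _).integrableOn
            measurableSet_Icc.compl fun τ hτ => ?_
          exact mul_le_mul_of_nonneg_left (pow_le_pow_left₀ (norm_nonneg _) (hDb τ) 2)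
            (by positivity)
      _ = (∫ τ in (Set.Icc (-T) T)ᶜ, ‖hh β w τ‖ ^ 2) * (κ * X) ^ 2 := integral_mul_const _ _
      _ ≤ (∫ τ in {τ : ℝ | T ≤ |τ|}, ‖hh β w τ‖ ^ 2) * (κ * X) ^ 2 := by
          refine mul_le_mul_of_nonneg_right ?_ (by positivity)
          refine setIntegral_mono_set ihh.integrableOn
            (Filter.Eventually.of_forall fun τ => by positivity) hsub.eventuallyLE
      _ ≤ (C2 * w ^ 2 * (Real.exp w / T + 1 / T)) * (κ * X) ^ 2 :=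
          mul_le_mul_of_nonneg_right htail (by positivity)
      _ ≤ (C2 * (2 * ℓ) ^ 2 * (2 * (2 ^ B * ℓ ^ (-B)))) * (κ * X) ^ 2 := by gcongr
      _ = D2 * X ^ 2 * (ℓ ^ (2 : ℝ) * ℓ ^ (-B)) := by
          rw [hD2, Real.rpow_two]
          ring
      _ = D2 * X ^ 2 * ℓ ^ (-(A + 4)) := by
          rw [← Real.rpow_add hℓ0]
          congr 2
          rw [hB]
          ring
  have hsplit := integral_add_compl (measurableSet_Icc : MeasurableSet (Set.Icc (-T) T)) iprod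
  have htot : ∫ τ : ℝ, ‖hh β w τ‖ ^ 2 * ‖D τ‖ ^ 2 ≤ (D1 + D2) * X ^ 2 * ℓ ^ (-(A + 4)) := by
    rw [← hsplit]
    calc _ ≤ D1 * X ^ 2 * ℓ ^ (-(A + 4)) + D2 * X ^ 2 * ℓ ^ (-(A + 4)) :=
          add_le_add hpart1 hpart2
      _ = _ := by ring
  have hpi : 1 / (2 * Real.pi) ≤ 1 := by
    rw [div_le_one (by positivity)]
    have := Real.pi_gt_three
    linarith
  have hnn : 0 ≤ ∫ τ : ℝ, ‖hh β w τ‖ ^ 2 * ‖D τ‖ ^ 2 := integral_nonneg fun τ => by positivity
  calc (1 / (2 * Real.pi)) * ∫ τ : ℝ, ‖hh β w τ‖ ^ 2 * ‖D τ‖ ^ 2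
      ≤ 1 * ∫ τ : ℝ, ‖hh β w τ‖ ^ 2 * ‖D τ‖ ^ 2 := mul_le_mul_of_nonneg_right hpi hnn
    _ ≤ _ := by rw [one_mul]; exact htot

private theorem KL0_P2 (β w : ℝ) (hw : 1 ≤ w) (S : Finset ℕ) (u : ℕ → ℝ) :
    Integrable (fun v => (∑ c ∈ S, u c * h β w (v + Real.log c)) ^ 2) := by
  obtain ⟨i1, i2⟩ := h_int β w hw
  have m : MemLp (h β w) 2 := (memLp_two_iff_integrable_sq i1.aestronglyMeasurable).2 i2
  have m2 : MemLp (fun v => ∑ c ∈ S, u c * h β w (v + Real.log c)) 2 := by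
    refine memLp_finsetSum _ fun c _ => ?_
    refine MemLp.const_mul ?_ _
    exact m.comp_measurePreserving (measurePreserving_add_right volume (Real.log c))
  exact (memLp_two_iff_integrable_sq m2.1).1 m2

private theorem KL0_hm (β : ℝ) (S : Finset ℕ) (u : ℕ → ℝ) :
    Measurable (fun p : ℝ × ℝ => ∑ c ∈ S, u c * h β p.2 (p.1 + Real.log c)) := by
  refine Finset.measurable_sum _ fun c _ => ?_
  refine Measurable.const_mul ?_ _
  unfold h
  refine Measurable.ite (measurableSet_lt (by fun_prop) (by fun_prop)) ?_ measurable_const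
  refine ((KL0_Gm β).comp (by fun_prop)).mul (by fun_prop)

private theorem KL0_pt {κ1 κ2 : ℝ} (a b β : ℝ) (hκ : 0 < κ1) :
    ∃ C0 X0 : ℝ, 0 ≤ C0 ∧ ∀ X : ℝ, X0 ≤ X → ∀ u : ℕ → ℝ, (∀ c, |u c| ≤ 1) →
      ∀ v ∈ Set.Icc (Real.log a) (Real.log b),
      (∀ w ∈ Set.Icc (Real.log X - Real.log (Real.log X)) (Real.log X + Real.log (Real.log X)),
        |∑ c ∈ Finset.Icc ⌈κ1 * X⌉₊ ⌊κ2 * X⌋₊, u c * h β w (v + Real.log c)| ≤
          |κ2| * X * (Real.log X + C0)) ∧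
      |√Real.pi * (∑ c ∈ Finset.Icc ⌈κ1 * X⌉₊ ⌊κ2 * X⌋₊, u c * G β (v + Real.log c)) -
        ∫ w in Set.Icc (Real.log X - Real.log (Real.log X)) (Real.log X + Real.log (Real.log X)),
          ∑ c ∈ Finset.Icc ⌈κ1 * X⌉₊ ⌊κ2 * X⌋₊, u c * h β w (v + Real.log c)| ≤
        |κ2| * X * (Real.log X + C0) * (3 * Real.exp (-Real.log (Real.log X) ^ 2 / 8)) := by
  set K : ℝ := |Real.log a| + |Real.log b| + |Real.log κ1| + |Real.log κ2| with hK
  have hK0 : 0 ≤ K := by positivity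
  refine ⟨K + |β| + 1, Real.exp (Real.exp (2 * K) + 4 * K + 4), by positivity,
    fun X hX u hu v hv => ?_⟩
  have hX0 : 0 < X := lt_of_lt_of_le (Real.exp_pos _) hX
  set ℓ := Real.log X with hℓ
  have hℓ1 : Real.exp (2 * K) + 4 * K + 4 ≤ ℓ := by
    rw [hℓ]
    exact (Real.le_log_iff_exp_le hX0).2 hX
  have hep := Real.exp_pos (2 * K)
  have hℓ0 : 0 < ℓ := by linarith
  have hL : Real.log ℓ ≤ ℓ / 2 := KL0_log_half hℓ0
  have hL2 : 2 * K ≤ Real.log ℓ := (Real.le_log_iff_exp_le hℓ0).2 (by linarith)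
  set L := Real.log ℓ with hLd
  set S := Finset.Icc ⌈κ1 * X⌉₊ ⌊κ2 * X⌋₊ with hS
  have hcard : (S.card : ℝ) ≤ |κ2| * X := KL0_card hκ hX0
  have hs : ∀ c ∈ S, |v + Real.log c - ℓ| ≤ K := by
    intro c hc
    obtain ⟨h1, h2, h3⟩ := KL0_mem hκ hX0 hc
    have hc0 : (0 : ℝ) < c := by exact_mod_cast (by omega : 0 < c)
    have hk2 : 0 < κ2 := by
      by_contra hn
      push Not at hn
      nlinarith
    have h4 : Real.log κ1 + ℓ ≤ Real.log c := by
      rw [hℓ, ← Real.log_mul hκ.ne' hX0.ne']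
      exact Real.log_le_log (by positivity) h2
    have h5 : Real.log c ≤ Real.log κ2 + ℓ := by
      rw [hℓ, ← Real.log_mul hk2.ne' hX0.ne']
      exact Real.log_le_log hc0 h3
    have a1 := neg_abs_le (Real.log a)
    have a2 := le_abs_self (Real.log b)
    have a3 := neg_abs_le (Real.log κ1)
    have a4 := le_abs_self (Real.log κ2)
    have b1 := abs_nonneg (Real.log a)
    have b2 := abs_nonneg (Real.log b)
    have b3 := abs_nonneg (Real.log κ1)
    have b4 := abs_nonneg (Real.log κ2)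
    rw [abs_le]
    constructor
    · linarith [hv.1]
    · linarith [hv.2]
  have hG : ∀ c ∈ S, |G β (v + Real.log c)| ≤ ℓ + (K + |β| + 1) := by
    intro c hc
    have h1 := hs c hc
    have h2 := (abs_le.1 h1)
    refine (KL0_Gb β _ (by linarith)).trans ?_
    linarith
  have hheq : ∀ w ∈ Set.Icc (ℓ - L) (ℓ + L), ∀ c ∈ S,
      h β w (v + Real.log c) = G β (v + Real.log c) * Real.exp (-(v + Real.log c - w) ^ 2) := by
    intro w hw c hc
    unfold h
    rw [if_pos]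
    have h2 := (abs_le.1 (hs c hc))
    have h3 := hw.2
    linarith
  constructor
  · intro w hw
    refine (Finset.abs_sum_le_sum_abs _ _).trans ?_
    refine (Finset.sum_le_card_nsmul _ _ (ℓ + (K + |β| + 1)) fun c hc => ?_).trans ?_
    · rw [hheq w hw c hc, abs_mul, abs_mul, Real.abs_exp]
      have h1 : Real.exp (-(v + Real.log c - w) ^ 2) ≤ 1 := Real.exp_le_one_iff.2 (by
        have := sq_nonneg (v + Real.log c - w)
        linarith)
      have h2 := hG c hc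
      have h3 := hu c
      calc |u c| * (|G β (v + Real.log c)| * Real.exp (-(v + Real.log c - w) ^ 2))
          ≤ 1 * ((ℓ + (K + |β| + 1)) * 1) := by gcongr
        _ = _ := by ring
    · rw [nsmul_eq_mul]
      exact mul_le_mul_of_nonneg_right hcard (by positivity)
  · have ig : ∀ c : ℕ, IntegrableOn (fun w : ℝ => Real.exp (-(v + Real.log c - w) ^ 2))
        (Set.Icc (ℓ - L) (ℓ + L)) := fun c =>
      Continuous.integrableOn_Icc (by fun_prop)
    have e1 : ∫ w in Set.Icc (ℓ - L) (ℓ + L), ∑ c ∈ S, u c * h β w (v + Real.log c) =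
        ∑ c ∈ S, u c * G β (v + Real.log c) *
          ∫ w in Set.Icc (ℓ - L) (ℓ + L), Real.exp (-(v + Real.log c - w) ^ 2) := by
      rw [setIntegral_congr_fun (g := fun w => ∑ c ∈ S, u c * G β (v + Real.log c) *
        Real.exp (-(v + Real.log c - w) ^ 2)) measurableSet_Icc fun w hw => ?_]
      · rw [integral_finsetSum _ fun c _ => (ig c).const_mul _]
        exact Finset.sum_congr rfl fun c _ => integral_const_mul _ _
      · refine Finset.sum_congr rfl fun c hc => ?_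
        rw [hheq w hw c hc]
        ring
    rw [e1, Finset.mul_sum, ← Finset.sum_sub_distrib]
    refine (Finset.abs_sum_le_sum_abs _ _).trans ?_
    refine (Finset.sum_le_card_nsmul _ _ ((ℓ + (K + |β| + 1)) * (3 * Real.exp (-L ^ 2 / 8)))
      fun c hc => ?_).trans ?_
    · have h1 := KL0_gauss (hs c hc) hL2
      have e2 : √Real.pi * (u c * G β (v + Real.log c)) - u c * G β (v + Real.log c) *
          ∫ w in Set.Icc (ℓ - L) (ℓ + L), Real.exp (-(v + Real.log c - w) ^ 2) =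
          u c * (G β (v + Real.log c) * (√Real.pi -
            ∫ w in Set.Icc (ℓ - L) (ℓ + L), Real.exp (-(v + Real.log c - w) ^ 2))) := by ring
      rw [e2, abs_mul, abs_mul]
      have h2 := hG c hc
      have h3 := hu c
      calc |u c| * (|G β (v + Real.log c)| * |√Real.pi -
            ∫ w in Set.Icc (ℓ - L) (ℓ + L), Real.exp (-(v + Real.log c - w) ^ 2)|)
          ≤ 1 * ((ℓ + (K + |β| + 1)) * (3 * Real.exp (-L ^ 2 / 8))) := by gcongr
        _ = _ := by ring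
    · rw [nsmul_eq_mul, mul_assoc]
      exact mul_le_mul_of_nonneg_right hcard (by positivity)

private theorem KL0_cs {f : ℝ → ℝ} {p q : ℝ} (hpq : p < q)
    (hf : IntegrableOn f (Set.Icc p q)) (hf2 : IntegrableOn (fun x => f x ^ 2) (Set.Icc p q)) :
    (∫ x in Set.Icc p q, f x) ^ 2 ≤ (q - p) * ∫ x in Set.Icc p q, f x ^ 2 := by
  set m : ℝ := (∫ x in Set.Icc p q, f x) / (q - p) with hm
  have hqp : 0 < q - p := by linarith
  have hvol : (volume.restrict (Set.Icc p q)).real Set.univ = q - p := by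
    simp [Measure.real, Real.volume_Icc, ENNReal.toReal_ofReal hqp.le]
  have h0 : 0 ≤ ∫ x in Set.Icc p q, (f x - m) ^ 2 := integral_nonneg fun x => sq_nonneg _
  have e : ∫ x in Set.Icc p q, (f x - m) ^ 2 =
      (∫ x in Set.Icc p q, f x ^ 2) - 2 * m * (∫ x in Set.Icc p q, f x) + m ^ 2 * (q - p) := by
    have e1 : (fun x => (f x - m) ^ 2) = fun x => (f x ^ 2 - 2 * m * f x) + m ^ 2 := by
      funext x; ring
    have i1 : IntegrableOn (fun x => 2 * m * f x) (Set.Icc p q) := hf.const_mul _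
    have i2 : IntegrableOn (fun x => f x ^ 2 - 2 * m * f x) (Set.Icc p q) := hf2.sub i1
    have e2 : ∫ x in Set.Icc p q, ((f x ^ 2 - 2 * m * f x) + m ^ 2) =
        (∫ x in Set.Icc p q, (f x ^ 2 - 2 * m * f x)) + ∫ x in Set.Icc p q, m ^ 2 :=
      integral_add i2 (integrable_const _)
    have e3 : ∫ x in Set.Icc p q, (f x ^ 2 - 2 * m * f x) =
        (∫ x in Set.Icc p q, f x ^ 2) - ∫ x in Set.Icc p q, 2 * m * f x := integral_sub hf2 i1
    rw [e1, e2, e3, integral_const_mul, integral_const, hvol, smul_eq_mul]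
    ring
  rw [e] at h0
  have h1 : (∫ x in Set.Icc p q, f x) = m * (q - p) := by rw [hm]; field_simp
  rw [h1] at h0 ⊢
  nlinarith

private theorem KL0_main {a b κ1 κ2 β A : ℝ} (ha : 0 < a) (hab : a < b) (hκ : 0 < κ1)
    (hA : 0 ≤ A) :
    ∃ X0 : ℝ, 3 ≤ X0 ∧ ∀ X : ℝ, X0 ≤ X → ∀ u : ℕ → ℝ, (∀ c, |u c| ≤ 1) →
      ∫ α in Set.Icc a b, (∑ c ∈ Finset.Icc ⌈κ1 * X⌉₊ ⌊κ2 * X⌋₊,
        u c * (vonMangoldt ⌊α * c + β⌋₊ - 1)) ^ 2 ≤ X ^ 2 / Real.log X ^ A := by
  obtain ⟨C, X1, hC, h1⟩ := KL0_pw (κ1 := κ1) (κ2 := κ2) (β := β) (A := A) hκ hA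
  obtain ⟨C0, X2, hC0, h2⟩ := KL0_pt (κ1 := κ1) (κ2 := κ2) a b β hκ
  have hb : 0 < b := ha.trans hab
  have hlog : Real.log a < Real.log b := Real.log_lt_log ha hab
  set J0 : ℝ := Real.log b - Real.log a with hJ0
  have hJ00 : 0 < J0 := by linarith
  set κ : ℝ := |κ2| with hκd
  have hκ0 : 0 ≤ κ := abs_nonneg _
  set D : ℝ := b * C + 36 * b * J0 * κ ^ 2 with hD
  have hD0 : 0 ≤ D := by positivity
  refine ⟨max (max X1 X2) (Real.exp (D + C0 + Real.exp (4 * (A + 3)) + 4)), ?_,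
    fun X hX u hu => ?_⟩
  · refine le_max_of_le_right ?_
    have := Real.add_one_le_exp (D + C0 + Real.exp (4 * (A + 3)) + 4)
    have h3 := Real.exp_pos (4 * (A + 3))
    linarith
  have hX1 : X1 ≤ X := ((le_max_left _ _).trans (le_max_left _ _)).trans hX
  have hX2 : X2 ≤ X := ((le_max_right _ _).trans (le_max_left _ _)).trans hX
  have hX3 := (le_max_right _ _).trans hX
  have hX0 : 0 < X := lt_of_lt_of_le (Real.exp_pos _) hX3
  have k1 := h1 X hX1 u hu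
  have k2 := h2 X hX2 u hu
  clear h1 h2
  set ℓ := Real.log X with hℓ
  have hℓ1 : D + C0 + Real.exp (4 * (A + 3)) + 4 ≤ ℓ := by
    rw [hℓ]
    exact (Real.le_log_iff_exp_le hX0).2 hX3
  have hep := Real.exp_pos (4 * (A + 3))
  have hℓ0 : 0 < ℓ := by linarith
  have hL2 : 4 * (A + 3) ≤ Real.log ℓ := (Real.le_log_iff_exp_le hℓ0).2 (by linarith)
  have hLh : Real.log ℓ ≤ ℓ / 2 := KL0_log_half hℓ0
  set L := Real.log ℓ with hLd
  have hL0 : 0 < L := by linarith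
  set S := Finset.Icc ⌈κ1 * X⌉₊ ⌊κ2 * X⌋₊ with hS
  set J : Set ℝ := Set.Icc (Real.log a) (Real.log b) with hJ
  set I : Set ℝ := Set.Icc (ℓ - L) (ℓ + L) with hI
  set M : ℝ := κ * X * (ℓ + C0) with hM
  have hM0 : 0 ≤ M := by positivity
  set E0 : ℝ := M * (3 * Real.exp (-L ^ 2 / 8)) with hE0
  have hE00 : 0 ≤ E0 := by positivity
  set Q : ℝ := C * X ^ 2 * ℓ ^ (-(A + 4)) with hQ
  have hQ0 : 0 ≤ Q := by positivity
  set P : ℝ → ℝ → ℝ := fun v w => ∑ c ∈ S, u c * h β w (v + Real.log c) with hP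
  set F : ℝ → ℝ := fun v => ∑ c ∈ S, u c * G β (v + Real.log c) with hF
  have hPm : Measurable (fun p : ℝ × ℝ => P p.1 p.2) := KL0_hm β S u
  have hFm : Measurable F := by
    rw [hF]
    refine Finset.measurable_sum _ fun c _ => ?_
    exact ((KL0_Gm β).comp (by fun_prop)).const_mul _
  have hPb : ∀ v ∈ J, ∀ w ∈ I, |P v w| ≤ M := fun v hv w hw => (k2 v hv).1 w hw
  have hfinI : IsFiniteMeasure (volume.restrict I) := ⟨by
    rw [Measure.restrict_apply_univ, hI, Real.volume_Icc]; exact ENNReal.ofReal_lt_top⟩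
  have hfinJ : IsFiniteMeasure (volume.restrict J) := ⟨by
    rw [Measure.restrict_apply_univ, hJ, Real.volume_Icc]; exact ENNReal.ofReal_lt_top⟩
  have hvolI : (volume.restrict I).real Set.univ = 2 * L := by
    have : ℓ + L - (ℓ - L) = 2 * L := by ring
    simp [Measure.real, hI, Real.volume_Icc, this, hL0.le]
  have hvolJ : (volume.restrict J).real Set.univ = J0 := by
    simp [Measure.real, hJ, Real.volume_Icc, ← hJ0, hJ00.le]
  have iP : ∀ v ∈ J, IntegrableOn (fun w => P v w) I := fun v hv => by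
    refine Integrable.of_bound (C := M)
      (hPm.comp (measurable_prodMk_left (x := v))).aestronglyMeasurable ?_
    exact (ae_restrict_mem measurableSet_Icc).mono fun w hw => hPb v hv w hw
  have iP2 : ∀ v ∈ J, IntegrableOn (fun w => P v w ^ 2) I := fun v hv => by
    refine Integrable.of_bound (C := M ^ 2)
      ((hPm.comp (measurable_prodMk_left (x := v))).pow_const 2).aestronglyMeasurable ?_
    refine (ae_restrict_mem measurableSet_Icc).mono fun w hw => ?_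
    rw [Real.norm_eq_abs, abs_pow]
    exact pow_le_pow_left₀ (abs_nonneg _) (hPb v hv w hw) 2
  have iPP : Integrable (Function.uncurry fun v w => P v w ^ 2)
      ((volume.restrict J).prod (volume.restrict I)) := by
    refine Integrable.of_bound (C := M ^ 2) (hPm.pow_const 2).aestronglyMeasurable ?_
    rw [Measure.prod_restrict]
    refine (ae_restrict_mem (measurableSet_Icc.prod measurableSet_Icc)).mono fun p hp => ?_
    rw [Real.norm_eq_abs, Function.uncurry, abs_pow]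
    exact pow_le_pow_left₀ (abs_nonneg _) (hPb p.1 hp.1 p.2 hp.2) 2
  -- pointwise
  have hpt : ∀ v ∈ J, F v ^ 2 ≤ 2 * L * (∫ w in I, P v w ^ 2) + E0 ^ 2 := by
    intro v hv
    have a1 : |√Real.pi * F v - ∫ w in I, P v w| ≤ E0 := (k2 v hv).2
    have a2 : (∫ w in I, P v w) ^ 2 ≤ 2 * L * ∫ w in I, P v w ^ 2 := by
      have := KL0_cs (by linarith : ℓ - L < ℓ + L) (iP v hv) (iP2 v hv)
      have e : ℓ + L - (ℓ - L) = 2 * L := by ring
      rwa [e] at this
    have a3 : (√Real.pi * F v) ^ 2 ≤ 2 * (∫ w in I, P v w) ^ 2 + 2 * E0 ^ 2 := by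
      have a4 : (√Real.pi * F v - ∫ w in I, P v w) ^ 2 ≤ E0 ^ 2 := by
        rw [← sq_abs]
        exact pow_le_pow_left₀ (abs_nonneg _) a1 2
      nlinarith [sq_nonneg (√Real.pi * F v - 2 * ∫ w in I, P v w)]
    rw [mul_pow, Real.sq_sqrt Real.pi_pos.le] at a3
    have a5 := Real.pi_gt_three
    nlinarith [sq_nonneg (F v)]
  have hJI : 0 ≤ ∫ v in J, ∫ w in I, P v w ^ 2 :=
    integral_nonneg fun v => integral_nonneg fun w => sq_nonneg _
  have hswap : ∫ v in J, ∫ w in I, P v w ^ 2 ≤ 2 * L * Q := by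
    rw [integral_integral_swap iPP]
    have a1 : ∀ w ∈ I, ∫ v in J, P v w ^ 2 ≤ Q := by
      intro w hw
      refine (setIntegral_le_integral ?_ (Filter.Eventually.of_forall fun v => sq_nonneg _)).trans
        (k1 w ?_)
      · refine KL0_P2 β w ?_ S u
        have := hw.1
        linarith
      · rw [abs_le]
        exact ⟨by linarith [hw.1], by linarith [hw.2]⟩
    calc ∫ w in I, ∫ v in J, P v w ^ 2 ≤ ∫ w in I, Q :=
          setIntegral_mono_on iPP.integral_prod_right (integrable_const _) measurableSet_Icc a1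
      _ = 2 * L * Q := by rw [integral_const, hvolI, smul_eq_mul]
  have hFb : ∀ v ∈ J, F v ^ 2 ≤ 2 * L * (M ^ 2 * (2 * L)) + E0 ^ 2 := by
    intro v hv
    refine (hpt v hv).trans ?_
    have a1 : ∫ w in I, P v w ^ 2 ≤ ∫ w in I, M ^ 2 := by
      refine setIntegral_mono_on (iP2 v hv) (integrable_const _) measurableSet_Icc fun w hw => ?_
      rw [← sq_abs]
      exact pow_le_pow_left₀ (abs_nonneg _) (hPb v hv w hw) 2
    rw [integral_const, hvolI, smul_eq_mul] at a1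
    nlinarith
  have iF : IntegrableOn (fun v => F v ^ 2) J := by
    refine Integrable.of_bound (C := 2 * L * (M ^ 2 * (2 * L)) + E0 ^ 2)
      (hFm.pow_const 2).aestronglyMeasurable ?_
    refine (ae_restrict_mem measurableSet_Icc).mono fun v hv => ?_
    rw [Real.norm_eq_abs, abs_of_nonneg (sq_nonneg _)]
    exact hFb v hv
  have iPl : Integrable (fun v => ∫ w in I, P v w ^ 2) (volume.restrict J) :=
    iPP.integral_prod_left
  have iPl2 : Integrable (fun v => 2 * L * ∫ w in I, P v w ^ 2) (volume.restrict J) :=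
    iPl.const_mul _
  have iPl3 : Integrable (fun v => (2 * L * ∫ w in I, P v w ^ 2) + E0 ^ 2)
      (volume.restrict J) := iPl2.add (integrable_const _)
  have hFJ : ∫ v in J, F v ^ 2 ≤ 4 * L ^ 2 * Q + J0 * E0 ^ 2 := by
    calc ∫ v in J, F v ^ 2 ≤ ∫ v in J, (2 * L * (∫ w in I, P v w ^ 2) + E0 ^ 2) :=
          setIntegral_mono_on iF iPl3 measurableSet_Icc hpt
      _ = 2 * L * (∫ v in J, ∫ w in I, P v w ^ 2) + J0 * E0 ^ 2 := by
          have e1 : ∫ v in J, ((2 * L * ∫ w in I, P v w ^ 2) + E0 ^ 2) =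
              (∫ v in J, 2 * L * ∫ w in I, P v w ^ 2) + ∫ v in J, E0 ^ 2 :=
            integral_add iPl2 (integrable_const _)
          rw [e1, integral_const_mul, integral_const, hvolJ, smul_eq_mul]
      _ ≤ 2 * L * (2 * L * Q) + J0 * E0 ^ 2 := by gcongr
      _ = _ := by ring
  -- change of variables
  have hcv : ∫ α in Set.Icc a b, (∑ c ∈ S, u c * (vonMangoldt ⌊α * c + β⌋₊ - 1)) ^ 2 ≤
      b * ∫ v in J, F v ^ 2 := by
    have him : Real.exp '' J = Set.Icc a b := by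
      ext x
      constructor
      · rintro ⟨v, hv, rfl⟩
        exact ⟨(Real.log_le_iff_le_exp ha).1 hv.1, (Real.le_log_iff_exp_le hb).1 hv.2⟩
      · intro hx
        have hx0 : 0 < x := ha.trans_le hx.1
        exact ⟨Real.log x, ⟨Real.log_le_log ha hx.1, Real.log_le_log hx0 hx.2⟩, Real.exp_log hx0⟩
    rw [← him, integral_image_eq_integral_abs_deriv_smul (f' := Real.exp) measurableSet_Icc
      (fun x _ => (Real.hasDerivAt_exp x).hasDerivWithinAt) Real.exp_injective.injOn]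
    have e1 : ∀ v ∈ J, |Real.exp v| • (∑ c ∈ S, u c *
        (vonMangoldt ⌊Real.exp v * c + β⌋₊ - 1)) ^ 2 = Real.exp v * F v ^ 2 := by
      intro v _
      rw [Real.abs_exp, smul_eq_mul]
      congr 2
      refine Finset.sum_congr rfl fun c hc => ?_
      have hc1 := (KL0_mem hκ hX0 hc).1
      have hc0 : (0 : ℝ) < c := by exact_mod_cast (by omega : 0 < c)
      unfold G
      rw [Real.exp_add, Real.exp_log hc0]
    rw [setIntegral_congr_fun measurableSet_Icc e1, ← integral_const_mul]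
    refine setIntegral_mono_on ?_ (iF.const_mul _) measurableSet_Icc fun v hv => ?_
    · refine Integrable.mono' (iF.const_mul b)
        ((Real.measurable_exp).mul (hFm.pow_const 2)).aestronglyMeasurable ?_
      refine (ae_restrict_mem measurableSet_Icc).mono fun v hv => ?_
      rw [Real.norm_eq_abs, abs_of_nonneg (by positivity)]
      exact mul_le_mul_of_nonneg_right ((Real.le_log_iff_exp_le hb).1 hv.2) (sq_nonneg _)
    · exact mul_le_mul_of_nonneg_right ((Real.le_log_iff_exp_le hb).1 hv.2) (sq_nonneg _)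
  -- numerics
  have n1 : 4 * L ^ 2 ≤ ℓ ^ 2 := by nlinarith
  have n2 : Real.exp (-L ^ 2 / 8) ^ 2 ≤ ℓ ^ (-(A + 3)) := by
    rw [← Real.exp_nat_mul, Real.rpow_def_of_pos hℓ0]
    refine Real.exp_le_exp.2 ?_
    push_cast
    rw [← hLd]
    nlinarith
  have n3 : (ℓ + C0) ^ 2 ≤ 4 * ℓ ^ 2 := by nlinarith
  have p1 : ℓ ^ 2 * ℓ ^ (-(A + 4)) ≤ ℓ ^ (-A) * ℓ⁻¹ := by
    have e1 : ℓ ^ 2 = ℓ ^ (2 : ℝ) := (Real.rpow_two ℓ).symm
    have e2 : ℓ⁻¹ = ℓ ^ (-1 : ℝ) := (Real.rpow_neg_one ℓ).symm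
    rw [e1, e2, ← Real.rpow_add hℓ0, ← Real.rpow_add hℓ0]
    exact Real.rpow_le_rpow_of_exponent_le (by linarith) (by linarith)
  have p2 : ℓ ^ 2 * ℓ ^ (-(A + 3)) = ℓ ^ (-A) * ℓ⁻¹ := by
    have e1 : ℓ ^ 2 = ℓ ^ (2 : ℝ) := (Real.rpow_two ℓ).symm
    have e2 : ℓ⁻¹ = ℓ ^ (-1 : ℝ) := (Real.rpow_neg_one ℓ).symm
    rw [e1, e2, ← Real.rpow_add hℓ0, ← Real.rpow_add hℓ0]
    congr 1
    ring
  have q1 : 4 * L ^ 2 * Q ≤ C * X ^ 2 * (ℓ ^ (-A) * ℓ⁻¹) := by
    calc 4 * L ^ 2 * Q ≤ ℓ ^ 2 * Q := mul_le_mul_of_nonneg_right n1 hQ0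
      _ = C * X ^ 2 * (ℓ ^ 2 * ℓ ^ (-(A + 4))) := by rw [hQ]; ring
      _ ≤ _ := by gcongr
  have q2 : E0 ^ 2 ≤ 36 * κ ^ 2 * X ^ 2 * (ℓ ^ (-A) * ℓ⁻¹) := by
    calc E0 ^ 2 = 9 * κ ^ 2 * X ^ 2 * ((ℓ + C0) ^ 2 * Real.exp (-L ^ 2 / 8) ^ 2) := by
          rw [hE0, hM]; ring
      _ ≤ 9 * κ ^ 2 * X ^ 2 * (4 * ℓ ^ 2 * ℓ ^ (-(A + 3))) := by gcongr
      _ = 36 * κ ^ 2 * X ^ 2 * (ℓ ^ 2 * ℓ ^ (-(A + 3))) := by ring
      _ = _ := by rw [p2]
  have hDl : D * ℓ⁻¹ ≤ 1 := by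
    rw [← div_eq_mul_inv, div_le_one hℓ0]
    linarith
  calc ∫ α in Set.Icc a b, (∑ c ∈ S, u c * (vonMangoldt ⌊α * c + β⌋₊ - 1)) ^ 2
      ≤ b * ∫ v in J, F v ^ 2 := hcv
    _ ≤ b * (4 * L ^ 2 * Q + J0 * E0 ^ 2) := mul_le_mul_of_nonneg_left hFJ hb.le
    _ ≤ b * (C * X ^ 2 * (ℓ ^ (-A) * ℓ⁻¹) +
          J0 * (36 * κ ^ 2 * X ^ 2 * (ℓ ^ (-A) * ℓ⁻¹))) := by gcongr
    _ = X ^ 2 * ℓ ^ (-A) * (D * ℓ⁻¹) := by rw [hD]; ring
    _ ≤ X ^ 2 * ℓ ^ (-A) * 1 := by gcongr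
    _ = X ^ 2 / ℓ ^ A := by rw [Real.rpow_neg hℓ0.le]; field_simp

theorem key0 {a b κ1 κ2 β A : ℝ} (ha : 0 < a) (hab : a < b) (hκ : 0 < κ1) :
    ∃ X0 : ℝ, 2 ≤ X0 ∧ ∀ X : ℝ, X0 ≤ X → ∀ u : ℕ → ℝ, (∀ c, |u c| ≤ 1) →
      ∫ α in Set.Icc a b, (∑ c ∈ Finset.Icc ⌈κ1 * X⌉₊ ⌊κ2 * X⌋₊,
        u c * (vonMangoldt ⌊α * c + β⌋₊ - 1)) ^ 2 ≤ X ^ 2 / Real.log X ^ A := by
  obtain ⟨X0, h3, h⟩ := KL0_main (κ2 := κ2) (β := β) ha hab hκ (le_max_right A 0)
  refine ⟨X0, by linarith, fun X hX u hu => (h X hX u hu).trans ?_⟩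
  have hl : 1 ≤ Real.log X := by
    rw [Real.le_log_iff_exp_le (by linarith)]
    have := Real.exp_one_lt_d9
    linarith
  exact div_le_div_of_nonneg_left (sq_nonneg _) (by positivity)
    (Real.rpow_le_rpow_of_exponent_le hl (le_max_left _ _))

end AMC
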