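import Pool.Agent.AMC.Defs

/-!
# AMC.Twist: Gaussian sums with a smooth factor

PROOF. Fourier inversion: `Ψ(x) = (1/2π) ∫ Ψ^(ω) exp(iωx) dω`, `Ψ^(ω) = ∫ Ψ(x) exp(-iωx) dx`,
`|Ψ^(ω)| ≤ 2 w^B/(1 + ω²)` (two integrations by parts). So the sum is `(1/2π) ∫ Ψ^(ω) gs Λ w (τ - ω) dω`
(Fubini), and for `|ω| ≤ exp w` we may use `VKZ.prime_gauss` with `K + 1` (or `|K| + 2`) and exponent `A + B + 1`; for
`|ω| > exp w` use `|gs Λ w τ'| ≤ gs Λ w 0 ≤ C` (`prime_gauss` at `0`) and `∫_{|ω|>exp w} |Ψ^| ≤ 4 w^B exp(-w)`. The main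
term of `prime_gauss` is `∫ exp(-i(τ-ω)x) exp(-(x-w)²/2) dx`; Fubini again gives the integral in the statement.
-/

namespace AMC

open MeasureTheory ArithmeticFunction
open scoped FourierTransform

private theorem Twist_cs {Ψ : ℝ → ℂ} (h : HasCompactSupport Ψ) (n : ℕ) :
    HasCompactSupport (iteratedDeriv n Ψ) := by
  induction n with
  | zero => rwa [iteratedDeriv_zero]
  | succ n ih =>
    rw [iteratedDeriv_succ]
    exact ih.deriv

private theorem Twist_int {Ψ : ℝ → ℂ} (h2 : ContDiff ℝ 2 Ψ) (hc : HasCompactSupport Ψ) (n : ℕ)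
    (hn : n ≤ 2) : Integrable (iteratedDeriv n Ψ) := by
  refine Continuous.integrable_of_hasCompactSupport ?_ (Twist_cs hc n)
  exact h2.continuous_iteratedDeriv n (by exact_mod_cast hn)

private theorem Twist_norm (f : ℝ → ℂ) (ξ : ℝ) : ‖𝓕 f ξ‖ ≤ ∫ x : ℝ, ‖f x‖ := by
  rw [Real.fourier_real_eq_integral_exp_smul]
  refine (norm_integral_le_integral_norm _).trans (le_of_eq ?_)
  refine integral_congr_ae (Filter.Eventually.of_forall fun x => ?_)
  simp only
  rw [norm_smul, Complex.norm_exp_ofReal_mul_I, one_mul]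

private theorem Twist_decay {Ψ : ℝ → ℂ} {N : ℝ} (h2 : ContDiff ℝ 2 Ψ) (hc : HasCompactSupport Ψ)
    (h1 : ∫ x : ℝ, ‖Ψ x‖ ≤ N) (h3 : ∫ x : ℝ, ‖iteratedDeriv 2 Ψ x‖ ≤ N) (ξ : ℝ) :
    ‖𝓕 Ψ ξ‖ * (1 + (2 * Real.pi * ξ) ^ 2) ≤ 2 * N := by
  have h4 := (Twist_norm Ψ ξ).trans h1
  have h5 := (Twist_norm (iteratedDeriv 2 Ψ) ξ).trans h3
  have h6 := congrFun (Real.fourier_iteratedDeriv (N := 2) (n := 2) h2
    (fun n hn => Twist_int h2 hc n (by exact_mod_cast hn)) le_rfl) ξ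
  rw [h6, norm_smul] at h5
  have h7 : ‖(2 * (Real.pi : ℂ) * Complex.I * ξ) ^ 2‖ = (2 * Real.pi * ξ) ^ 2 := by
    have h8 : (2 * (Real.pi : ℂ) * Complex.I * ξ) ^ 2 = ((-((2 * Real.pi * ξ) ^ 2) : ℝ) : ℂ) := by
      push_cast
      have hI : Complex.I ^ 2 = -1 := Complex.I_sq
      ring_nf
      rw [hI]
      ring
    rw [h8, Complex.norm_real, norm_neg, Real.norm_of_nonneg (sq_nonneg _)]
  rw [h7] at h5
  linarith

/-- the weight -/
private noncomputable def Twist_W (ξ : ℝ) : ℝ := (1 + (2 * Real.pi * ξ) ^ 2) ^ (-(3 / 4) : ℝ)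

private theorem Twist_W_int : Integrable Twist_W := by
  have h1 : Integrable (fun x : ℝ => ((1 : ℝ) + ‖x‖ ^ 2) ^ (-(3 / 2) / 2 : ℝ)) := by
    refine integrable_rpow_neg_one_add_norm_sq (r := 3 / 2) ?_
    rw [Module.finrank_self]
    norm_num
  have h2 := h1.comp_mul_left' (R := 2 * Real.pi) (by positivity)
  refine h2.congr (Filter.Eventually.of_forall fun x => ?_)
  simp only [Twist_W]
  rw [Real.norm_eq_abs, sq_abs]
  norm_num

private theorem Twist_bound {Ψ : ℝ → ℂ} {N : ℝ} (hN : 0 ≤ N) (h2 : ContDiff ℝ 2 Ψ)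
    (hc : HasCompactSupport Ψ)
    (h1 : ∫ x : ℝ, ‖Ψ x‖ ≤ N) (h3 : ∫ x : ℝ, ‖iteratedDeriv 2 Ψ x‖ ≤ N) (ξ : ℝ) :
    ‖𝓕 Ψ ξ‖ ≤ 2 * N * Twist_W ξ := by
  have h4 := Twist_decay h2 hc h1 h3 ξ
  have h5 : 0 < 1 + (2 * Real.pi * ξ) ^ 2 := by positivity
  have h6 : ‖𝓕 Ψ ξ‖ ≤ 2 * N * (1 + (2 * Real.pi * ξ) ^ 2) ^ (-1 : ℝ) := by
    rw [Real.rpow_neg_one, ← div_eq_mul_inv, le_div_iff₀ h5]
    exact h4
  refine h6.trans ?_
  refine mul_le_mul_of_nonneg_left ?_ (by linarith)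
  unfold Twist_W
  refine Real.rpow_le_rpow_of_exponent_le ?_ (by norm_num)
  nlinarith [sq_nonneg (2 * Real.pi * ξ)]

private theorem Twist_far {Ψ : ℝ → ℂ} {N T : ℝ} (hN : 0 ≤ N) (hT : 0 < T) (h2 : ContDiff ℝ 2 Ψ)
    (hc : HasCompactSupport Ψ)
    (h1 : ∫ x : ℝ, ‖Ψ x‖ ≤ N) (h3 : ∫ x : ℝ, ‖iteratedDeriv 2 Ψ x‖ ≤ N) (ξ : ℝ)
    (hξ : T < |2 * Real.pi * ξ|) :
    ‖𝓕 Ψ ξ‖ ≤ 2 * N * (T ^ (-(1 / 2) : ℝ) * Twist_W ξ) := by
  have h4 := Twist_decay h2 hc h1 h3 ξ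
  have h5 : 0 < 1 + (2 * Real.pi * ξ) ^ 2 := by positivity
  have h6 : ‖𝓕 Ψ ξ‖ ≤ 2 * N * (1 + (2 * Real.pi * ξ) ^ 2) ^ (-1 : ℝ) := by
    rw [Real.rpow_neg_one, ← div_eq_mul_inv, le_div_iff₀ h5]
    exact h4
  refine h6.trans ?_
  refine mul_le_mul_of_nonneg_left ?_ (by linarith)
  unfold Twist_W
  have h7 : (-1 : ℝ) = -(1 / 4) + -(3 / 4) := by norm_num
  rw [h7, Real.rpow_add h5]
  refine mul_le_mul_of_nonneg_right ?_ (Real.rpow_nonneg h5.le _)
  have h8 : T ^ 2 ≤ 1 + (2 * Real.pi * ξ) ^ 2 := by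
    rw [← sq_abs (2 * Real.pi * ξ)]
    nlinarith [abs_nonneg (2 * Real.pi * ξ)]
  have h9 : (1 + (2 * Real.pi * ξ) ^ 2) ^ (-(1 / 4) : ℝ) ≤ (T ^ 2) ^ (-(1 / 4) : ℝ) :=
    Real.rpow_le_rpow_of_nonpos (by positivity) h8 (by norm_num)
  refine h9.trans (le_of_eq ?_)
  rw [← Real.rpow_natCast, ← Real.rpow_mul hT.le]
  norm_num

private theorem Twist_F_int {Ψ : ℝ → ℂ} (h2 : ContDiff ℝ 2 Ψ) (hc : HasCompactSupport Ψ) :
    Integrable (𝓕 Ψ) := by
  have hi : Integrable Ψ := h2.continuous.integrable_of_hasCompactSupport hc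
  have hcont : Continuous (𝓕 Ψ) :=
    VectorFourier.fourierIntegral_continuous Real.continuous_fourierChar
      (by exact continuous_inner) hi
  have h3 := fun ξ => Twist_bound (N := max (∫ x : ℝ, ‖Ψ x‖) (∫ x : ℝ, ‖iteratedDeriv 2 Ψ x‖))
    (le_max_of_le_left (integral_nonneg fun x => norm_nonneg _)) h2 hc (le_max_left _ _)
    (le_max_right _ _) ξ
  exact (Twist_W_int.const_mul _).mono' hcont.aestronglyMeasurable (Filter.Eventually.of_forall h3)

private theorem Twist_inv {Ψ : ℝ → ℂ} (h2 : ContDiff ℝ 2 Ψ) (hc : HasCompactSupport Ψ) (x : ℝ) :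
    ∫ ξ : ℝ, 𝓕 Ψ ξ * Complex.exp ((2 * Real.pi * ξ * x : ℝ) * Complex.I) = Ψ x := by
  have hi : Integrable Ψ := h2.continuous.integrable_of_hasCompactSupport hc
  have h3 := congrFun (h2.continuous.fourierInv_fourier_eq hi (Twist_F_int h2 hc)) x
  rw [Real.fourierInv_eq'] at h3
  rw [← h3]
  refine integral_congr_ae (Filter.Eventually.of_forall fun ξ => ?_)
  simp only
  rw [smul_eq_mul, mul_comm]
  congr 3
  simp only [RCLike.inner_apply, conj_trivial]
  push_cast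
  ring

/-- the Gauss function -/
private noncomputable def Twist_g (w x : ℝ) : ℝ := Real.exp (-(x - w) ^ 2 / 2)

/-- the main term -/
private noncomputable def Twist_E (w τ : ℝ) : ℂ :=
  Real.sqrt (2 * Real.pi) * Real.exp (-τ ^ 2 / 2) * Complex.exp (-(τ * w * Complex.I))

private theorem Twist_quad (w τ x : ℝ) :
    Complex.exp (-(τ * x * Complex.I)) * (Twist_g w x : ℂ) =
      Complex.exp ((-1 / 2 : ℂ) * (x : ℂ) ^ 2 + ((w : ℂ) - τ * Complex.I) * x + (-(w : ℂ) ^ 2 / 2)) := by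
  unfold Twist_g
  rw [Complex.ofReal_exp, ← Complex.exp_add]
  congr 1
  push_cast
  ring

private theorem Twist_full (w τ : ℝ) :
    ∫ x : ℝ, Complex.exp (-(τ * x * Complex.I)) * (Twist_g w x : ℂ) = Twist_E w τ := by
  have hb : ((-1 / 2 : ℂ)).re < 0 := by norm_num
  simp_rw [Twist_quad]
  rw [integral_cexp_quadratic hb]
  have h1 : ((Real.pi : ℂ) / -(-1 / 2 : ℂ)) ^ (1 / 2 : ℂ) = ((Real.sqrt (2 * Real.pi) : ℝ) : ℂ) := by
    rw [Real.sqrt_eq_rpow, Complex.ofReal_cpow (by positivity)]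
    congr 1
    · push_cast
      ring
    · push_cast
      ring
  unfold Twist_E
  rw [h1, Complex.ofReal_exp, mul_assoc, ← Complex.exp_add]
  congr 2
  push_cast
  have hI : Complex.I ^ 2 = -1 := Complex.I_sq
  ring_nf
  rw [hI]
  ring

private theorem Twist_g_int (w : ℝ) : Integrable (fun x : ℝ => (Twist_g w x : ℂ)) := by
  have hb : ((-1 / 2 : ℂ)).re < 0 := by norm_num
  have h1 : ∀ x : ℝ, (Twist_g w x : ℂ) =
      Complex.exp ((-1 / 2 : ℂ) * (x : ℂ) ^ 2 + (w : ℂ) * x + (-(w : ℂ) ^ 2 / 2)) := by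
    intro x
    unfold Twist_g
    rw [Complex.ofReal_exp]
    congr 1
    push_cast
    ring
  simp_rw [h1]
  exact integrable_cexp_quadratic' hb _ _

private theorem Twist_phase_norm (x : ℝ) : ‖Complex.exp (x * Complex.I)‖ = 1 :=
  Complex.norm_exp_ofReal_mul_I x

private theorem Twist_swap {Ψ : ℝ → ℂ} (h2 : ContDiff ℝ 2 Ψ) (hc : HasCompactSupport Ψ)
    (w τ : ℝ) :
    ∫ ξ : ℝ, 𝓕 Ψ ξ * Twist_E w (τ - 2 * Real.pi * ξ) =
      ∫ x : ℝ, Complex.exp (-(τ * x * Complex.I)) * (Twist_g w x : ℂ) * Ψ x := by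
  have h3 : ∀ ξ : ℝ, 𝓕 Ψ ξ * Twist_E w (τ - 2 * Real.pi * ξ) =
      ∫ x : ℝ, (𝓕 Ψ ξ * (Twist_g w x : ℂ)) *
        Complex.exp (((2 * Real.pi * ξ - τ) * x : ℝ) * Complex.I) := by
    intro ξ
    rw [← Twist_full, ← integral_const_mul]
    refine integral_congr_ae (Filter.Eventually.of_forall fun x => ?_)
    simp only
    rw [mul_comm (Complex.exp _), ← mul_assoc]
    congr 2
    push_cast
    ring
  have h4 : Integrable (Function.uncurry fun ξ x : ℝ => (𝓕 Ψ ξ * (Twist_g w x : ℂ)) *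
        Complex.exp (((2 * Real.pi * ξ - τ) * x : ℝ) * Complex.I)) (volume.prod volume) := by
    have h5 := (Twist_F_int h2 hc).mul_prod (Twist_g_int w)
    refine h5.mul_bdd (c := 1) ?_ ?_
    · refine Continuous.aestronglyMeasurable ?_
      fun_prop
    · exact Filter.Eventually.of_forall fun z => (Twist_phase_norm _).le
  simp_rw [h3]
  rw [integral_integral_swap h4]
  refine integral_congr_ae (Filter.Eventually.of_forall fun x => ?_)
  simp only
  rw [← Twist_inv h2 hc x, ← integral_const_mul]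
  refine integral_congr_ae (Filter.Eventually.of_forall fun ξ => ?_)
  simp only
  have h5 : Complex.exp (((2 * Real.pi * ξ - τ) * x : ℝ) * Complex.I) =
      Complex.exp (-(τ * x * Complex.I)) *
        Complex.exp ((2 * Real.pi * ξ * x : ℝ) * Complex.I) := by
    rw [← Complex.exp_add]
    congr 1
    push_cast
    ring
  rw [h5]
  ring

private noncomputable def Twist_t (w : ℝ) (n : ℕ) : ℝ :=
  vonMangoldt n * (n : ℝ)⁻¹ * Real.exp (-(Real.log n - w) ^ 2 / 2)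

private theorem Twist_t_nonneg (w : ℝ) (n : ℕ) : 0 ≤ Twist_t w n := by
  unfold Twist_t
  have := vonMangoldt_nonneg (n := n)
  positivity

private theorem Twist_term (w τ : ℝ) (n : ℕ) :
    ‖(vonMangoldt n : ℂ) * (n : ℂ) ^ (-(1 + τ * Complex.I)) *
      (Real.exp (-(Real.log n - w) ^ 2 / 2) : ℝ)‖ = Twist_t w n := by
  rcases Nat.eq_zero_or_pos n with rfl | hn
  · unfold Twist_t
    simp
  · rw [norm_mul, norm_mul, Complex.norm_real, Complex.norm_real,
      Complex.norm_natCast_cpow_of_pos hn, Real.norm_of_nonneg vonMangoldt_nonneg,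
      Real.norm_of_nonneg (Real.exp_pos _).le]
    unfold Twist_t
    congr 2
    simp [Real.rpow_neg_one]

private theorem Twist_summable (w : ℝ) : Summable (Twist_t w) := by
  have h1 : LSeriesSummable (fun n => (vonMangoldt n : ℂ)) (2 : ℂ) :=
    LSeriesSummable_vonMangoldt (by norm_num)
  have h2 : Summable fun n : ℕ => vonMangoldt n * ((n : ℝ) ^ 2)⁻¹ := by
    refine h1.norm.congr fun n => ?_
    rcases Nat.eq_zero_or_pos n with rfl | hn
    · simp
    · rw [LSeries.term_of_ne_zero hn.ne', norm_div, Complex.norm_real,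
        Real.norm_of_nonneg vonMangoldt_nonneg, div_eq_mul_inv,
        Complex.norm_natCast_cpow_of_pos hn]
      congr 2
      rw [← Real.rpow_natCast]
      norm_num
  refine Summable.of_nonneg_of_le (Twist_t_nonneg w) (fun n => ?_) (h2.mul_left (Real.exp (w + 1 / 2)))
  rcases Nat.eq_zero_or_pos n with rfl | hn
  · unfold Twist_t
    simp
  · have hn' : (0 : ℝ) < n := by exact_mod_cast hn
    have h3 : Real.exp (-(Real.log n - w) ^ 2 / 2) ≤ Real.exp (w + 1 / 2) * (n : ℝ)⁻¹ := by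
      have h4 : (n : ℝ)⁻¹ = Real.exp (-Real.log n) := by
        rw [Real.exp_neg, Real.exp_log hn']
      rw [h4, ← Real.exp_add]
      refine Real.exp_le_exp.2 ?_
      nlinarith [sq_nonneg (Real.log n - w - 1)]
    unfold Twist_t
    have h5 := vonMangoldt_nonneg (n := n)
    calc vonMangoldt n * (n : ℝ)⁻¹ * Real.exp (-(Real.log n - w) ^ 2 / 2)
        ≤ vonMangoldt n * (n : ℝ)⁻¹ * (Real.exp (w + 1 / 2) * (n : ℝ)⁻¹) := by gcongr
      _ = Real.exp (w + 1 / 2) * (vonMangoldt n * ((n : ℝ) ^ 2)⁻¹) := by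
          rw [pow_two, mul_inv]
          ring

private theorem Twist_gs_eq (w τ : ℝ) : VKZ.gs (fun n => vonMangoldt n) w τ =
    ∑' n : ℕ, (vonMangoldt n : ℂ) * (n : ℂ) ^ (-(1 + τ * Complex.I)) *
      (Real.exp (-(Real.log n - w) ^ 2 / 2) : ℝ) := rfl

private theorem Twist_gs_norm (w τ : ℝ) :
    ‖VKZ.gs (fun n => vonMangoldt n) w τ‖ ≤ ‖VKZ.gs (fun n => vonMangoldt n) w 0‖ := by
  have h1 : VKZ.gs (fun n => vonMangoldt n) w 0 = ((∑' n, Twist_t w n : ℝ) : ℂ) := by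
    rw [Twist_gs_eq, Complex.ofReal_tsum]
    refine tsum_congr fun n => ?_
    unfold Twist_t
    rcases Nat.eq_zero_or_pos n with rfl | hn
    · simp
    · push_cast
      congr 2
      rw [zero_mul, add_zero, Complex.cpow_neg_one]
  rw [h1, Complex.norm_real, Real.norm_of_nonneg (tsum_nonneg (Twist_t_nonneg w)), Twist_gs_eq]
  refine tsum_of_norm_bounded (Twist_summable w).hasSum fun n => ?_
  exact (Twist_term w τ n).le

private theorem Twist_phase (τ η : ℝ) (n : ℕ) :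
    (vonMangoldt n : ℂ) * (n : ℂ) ^ (-(1 + τ * Complex.I)) *
      Complex.exp ((η * Real.log n : ℝ) * Complex.I) =
    (vonMangoldt n : ℂ) * (n : ℂ) ^ (-(1 + ((τ - η : ℝ) : ℂ) * Complex.I)) := by
  rcases Nat.eq_zero_or_pos n with rfl | hn
  · simp
  · have hn' : (n : ℂ) ≠ 0 := by exact_mod_cast hn.ne'
    have h1 : -(1 + ((τ - η : ℝ) : ℂ) * Complex.I) = -(1 + τ * Complex.I) + η * Complex.I := by
      push_cast
      ring
    rw [h1, Complex.cpow_add _ _ hn', mul_assoc]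
    congr 2
    rw [Complex.cpow_def_of_ne_zero hn', ← Complex.natCast_log]
    congr 1
    push_cast
    ring

private theorem Twist_sum {Ψ : ℝ → ℂ} (h2 : ContDiff ℝ 2 Ψ) (hc : HasCompactSupport Ψ)
    (w τ : ℝ) :
    ∑' n : ℕ, (vonMangoldt n : ℂ) * (n : ℂ) ^ (-(1 + τ * Complex.I)) *
        (Real.exp (-(Real.log n - w) ^ 2 / 2) : ℝ) * Ψ (Real.log n) =
      ∫ ξ : ℝ, 𝓕 Ψ ξ * VKZ.gs (fun n => vonMangoldt n) w (τ - 2 * Real.pi * ξ) := by
  obtain ⟨b, hb⟩ : ∃ b : ℕ → ℂ, ∀ n, b n = (vonMangoldt n : ℂ) *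
      (n : ℂ) ^ (-(1 + τ * Complex.I)) * (Real.exp (-(Real.log n - w) ^ 2 / 2) : ℝ) :=
    ⟨_, fun _ => rfl⟩
  have hbn : ∀ n, ‖b n‖ = Twist_t w n := fun n => by rw [hb, Twist_term]
  have hF := Twist_F_int h2 hc
  have h3 : ∀ n : ℕ, Integrable fun ξ : ℝ => b n * (𝓕 Ψ ξ *
      Complex.exp ((2 * Real.pi * ξ * Real.log n : ℝ) * Complex.I)) := by
    intro n
    refine Integrable.const_mul ?_ _
    refine hF.mul_bdd (c := 1) ?_ ?_
    · refine Continuous.aestronglyMeasurable ?_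
      fun_prop
    · exact Filter.Eventually.of_forall fun z => (Twist_phase_norm _).le
  have h4 : ∀ n : ℕ, ∫ ξ : ℝ, ‖b n * (𝓕 Ψ ξ *
      Complex.exp ((2 * Real.pi * ξ * Real.log n : ℝ) * Complex.I))‖ =
      Twist_t w n * ∫ ξ : ℝ, ‖𝓕 Ψ ξ‖ := by
    intro n
    rw [← integral_const_mul]
    refine integral_congr_ae (Filter.Eventually.of_forall fun ξ => ?_)
    simp only
    rw [norm_mul, norm_mul, hbn, Twist_phase_norm, mul_one]
  have h5 := integral_tsum_of_summable_integral_norm h3 (by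
    simp_rw [h4]
    exact (Twist_summable w).mul_right _)
  calc ∑' n : ℕ, (vonMangoldt n : ℂ) * (n : ℂ) ^ (-(1 + τ * Complex.I)) *
        (Real.exp (-(Real.log n - w) ^ 2 / 2) : ℝ) * Ψ (Real.log n)
      = ∑' n : ℕ, ∫ ξ : ℝ, b n * (𝓕 Ψ ξ *
          Complex.exp ((2 * Real.pi * ξ * Real.log n : ℝ) * Complex.I)) := by
        refine tsum_congr fun n => ?_
        rw [integral_const_mul, Twist_inv h2 hc, hb]
    _ = ∫ ξ : ℝ, ∑' n : ℕ, b n * (𝓕 Ψ ξ *
          Complex.exp ((2 * Real.pi * ξ * Real.log n : ℝ) * Complex.I)) := h5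
    _ = _ := by
        refine integral_congr_ae (Filter.Eventually.of_forall fun ξ => ?_)
        simp only
        rw [Twist_gs_eq, ← tsum_mul_left]
        refine tsum_congr fun n => ?_
        rw [← Twist_phase, hb]
        ring

private theorem Twist_E_norm (w τ : ℝ) : ‖Twist_E w τ‖ ≤ 3 := by
  unfold Twist_E
  have h1 : -((τ : ℂ) * w * Complex.I) = ((-(τ * w) : ℝ) : ℂ) * Complex.I := by
    push_cast
    ring
  rw [norm_mul, norm_mul, h1, Twist_phase_norm, Complex.norm_real, Complex.norm_real,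
    Real.norm_of_nonneg (Real.sqrt_nonneg _), Real.norm_of_nonneg (Real.exp_pos _).le, mul_one]
  have h2 : Real.sqrt (2 * Real.pi) ≤ 3 := by
    rw [Real.sqrt_le_left (by norm_num)]
    have := Real.pi_lt_d2
    linarith
  have h3 : Real.exp (-τ ^ 2 / 2) ≤ 1 := by
    rw [Real.exp_le_one_iff]
    nlinarith [sq_nonneg τ]
  have h4 := Real.sqrt_nonneg (2 * Real.pi)
  nlinarith [Real.exp_pos (-τ ^ 2 / 2)]

private theorem Twist_diff {Ψ : ℝ → ℂ} (h2 : ContDiff ℝ 2 Ψ) (hc : HasCompactSupport Ψ)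
    (w τ : ℝ) :
    ∑' n : ℕ, (vonMangoldt n : ℂ) * (n : ℂ) ^ (-(1 + τ * Complex.I)) *
        (Real.exp (-(Real.log n - w) ^ 2 / 2) : ℝ) * Ψ (Real.log n) -
      ∫ x : ℝ, Complex.exp (-(τ * x * Complex.I)) * (Real.exp (-(x - w) ^ 2 / 2) : ℝ) * Ψ x =
      ∫ ξ : ℝ, 𝓕 Ψ ξ * (VKZ.gs (fun n => vonMangoldt n) w (τ - 2 * Real.pi * ξ) -
        Twist_E w (τ - 2 * Real.pi * ξ)) := by
  have hF := Twist_F_int h2 hc
  have h3 := Twist_swap h2 hc w τ
  unfold Twist_g at h3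
  rw [Twist_sum h2 hc, ← h3, ← integral_sub]
  · refine integral_congr_ae (Filter.Eventually.of_forall fun ξ => ?_)
    simp only
    rw [mul_sub]
  · refine hF.mul_bdd (c := ‖VKZ.gs (fun n => vonMangoldt n) w 0‖) ?_ ?_
    · refine Continuous.aestronglyMeasurable ?_
      simp_rw [Twist_gs_eq]
      refine continuous_tsum (u := Twist_t w) ?_ (Twist_summable w) fun n ξ => ?_
      · intro n
        rcases Nat.eq_zero_or_pos n with rfl | hn
        · simp
          exact continuous_const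
        · have hn' : (n : ℂ) ≠ 0 := by exact_mod_cast hn.ne'
          refine Continuous.mul (Continuous.mul continuous_const ?_) continuous_const
          refine Continuous.const_cpow ?_ (Or.inl hn')
          fun_prop
      · exact (Twist_term w _ n).le
    · exact Filter.Eventually.of_forall fun ξ => Twist_gs_norm w _
  · refine hF.mul_bdd (c := 3) ?_ ?_
    · refine Continuous.aestronglyMeasurable ?_
      unfold Twist_E
      fun_prop
    · exact Filter.Eventually.of_forall fun ξ => Twist_E_norm w _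

private theorem Twist_large (C A B : ℝ) :
    ∃ w0 : ℝ, 1 ≤ w0 ∧ ∀ w : ℝ, w0 ≤ w →
      2 * w ^ B * (w ^ (-(|A| + |B| + 1)) + 7 * Real.exp (-w / 2)) * C ≤ w ^ (-A) := by
  have h1 := tendsto_rpow_mul_exp_neg_mul_atTop_nhds_zero (A + B) (1 / 2) (by norm_num)
  have h2 : Filter.Tendsto (fun w : ℝ => w⁻¹) Filter.atTop (nhds 0) := tendsto_inv_atTop_zero
  have h3 := ((h1.const_mul (14 * |C|)).add (h2.const_mul (2 * |C|)))
  rw [mul_zero, mul_zero, add_zero] at h3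
  have h4 := h3.eventually_le_const (show (0 : ℝ) < 1 by norm_num)
  obtain ⟨w0, hw0⟩ := Filter.eventually_atTop.1 h4
  refine ⟨max 1 w0, le_max_left _ _, fun w hw => ?_⟩
  have hw1 : 1 ≤ w := (le_max_left _ _).trans hw
  have hwp : 0 < w := by linarith
  have h5 := hw0 w ((le_max_right _ _).trans hw)
  have h6 : w ^ (-(|A| + |B| + 1)) ≤ w ^ (-(A + B)) * w⁻¹ := by
    rw [← Real.rpow_neg_one, ← Real.rpow_add hwp]
    refine Real.rpow_le_rpow_of_exponent_le hw1 ?_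
    have := le_abs_self A
    have := le_abs_self B
    linarith
  have h7 : w ^ B * w ^ (-(A + B)) = w ^ (-A) := by
    rw [← Real.rpow_add hwp]
    congr 1
    ring
  have h8 : w ^ B = w ^ (-A) * w ^ (A + B) := by
    rw [← Real.rpow_add hwp]
    congr 1
    ring
  have hA : 0 < w ^ (-A) := Real.rpow_pos_of_pos hwp _
  have hB : 0 < w ^ B := Real.rpow_pos_of_pos hwp _
  have he : Real.exp (-w / 2) = Real.exp (-(1 / 2) * w) := by
    congr 1
    ring
  have hE := Real.exp_pos (-(1 / 2) * w)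
  have hC := le_abs_self C
  have hC0 := abs_nonneg C
  have h9 : 0 ≤ 2 * w ^ B * (w ^ (-(|A| + |B| + 1)) + 7 * Real.exp (-w / 2)) := by positivity
  calc 2 * w ^ B * (w ^ (-(|A| + |B| + 1)) + 7 * Real.exp (-w / 2)) * C
      ≤ 2 * w ^ B * (w ^ (-(|A| + |B| + 1)) + 7 * Real.exp (-w / 2)) * |C| :=
        mul_le_mul_of_nonneg_left hC h9
    _ ≤ 2 * w ^ B * (w ^ (-(A + B)) * w⁻¹ + 7 * Real.exp (-(1 / 2) * w)) * |C| := by
        rw [he]
        gcongr
    _ = 2 * |C| * (w ^ B * w ^ (-(A + B))) * w⁻¹ +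
          14 * |C| * w ^ B * Real.exp (-(1 / 2) * w) := by ring
    _ = w ^ (-A) * (14 * |C| * (w ^ (A + B) * Real.exp (-(1 / 2) * w)) + 2 * |C| * w⁻¹) := by
        rw [h7, h8]
        ring
    _ ≤ w ^ (-A) * 1 := mul_le_mul_of_nonneg_left h5 hA.le
    _ = w ^ (-A) := mul_one _

theorem twist (K A B : ℝ) : ∃ w0 : ℝ, 1 ≤ w0 ∧ ∀ w τ : ℝ, w0 ≤ w → |τ| ≤ Real.exp (K * w) →
    ∀ Ψ : ℝ → ℂ, ContDiff ℝ 2 Ψ → HasCompactSupport Ψ → ∫ x : ℝ, ‖Ψ x‖ ≤ w ^ B →
    ∫ x : ℝ, ‖iteratedDeriv 2 Ψ x‖ ≤ w ^ B →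
    ‖∑' n : ℕ, (vonMangoldt n : ℂ) * (n : ℂ) ^ (-(1 + τ * Complex.I)) *
        (Real.exp (-(Real.log n - w) ^ 2 / 2) : ℝ) * Ψ (Real.log n) -
      ∫ x : ℝ, Complex.exp (-(τ * x * Complex.I)) * (Real.exp (-(x - w) ^ 2 / 2) : ℝ) * Ψ x‖ ≤
      w ^ (-A) := by
  obtain ⟨w1, hw1, h1⟩ := VKZ.prime_gauss (|K| + 2) (|A| + |B| + 1)
  obtain ⟨w2, hw2, h2⟩ := Twist_large (∫ ξ, Twist_W ξ) A B
  refine ⟨max w1 w2, le_max_of_le_left hw1, fun w τ hw hτ Ψ hΨ hc hi1 hi2 => ?_⟩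
  have hww1 : w1 ≤ w := (le_max_left _ _).trans hw
  have hww2 : w2 ≤ w := (le_max_right _ _).trans hw
  have hw0 : 1 ≤ w := hw1.trans hww1
  have hwp : 0 < w := by linarith
  have hN : 0 ≤ w ^ B := (Real.rpow_pos_of_pos hwp _).le
  have hA1 : w ^ (-(|A| + |B| + 1)) ≤ 1 := by
    refine Real.rpow_le_one_of_one_le_of_nonpos hw0 ?_
    have := abs_nonneg A
    have := abs_nonneg B
    linarith
  have hA0 : 0 < w ^ (-(|A| + |B| + 1)) := Real.rpow_pos_of_pos hwp _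
  have hK := abs_nonneg K
  -- the bound for all frequencies
  have hall : ∀ τ' : ℝ, ‖VKZ.gs (fun n => vonMangoldt n) w τ' - Twist_E w τ'‖ ≤ 7 := by
    intro τ'
    have h3 := h1 w 0 hww1 (by rw [abs_zero]; exact (Real.exp_pos _).le)
    have h4 : ‖VKZ.gs (fun n => vonMangoldt n) w 0 - Twist_E w 0‖ ≤ w ^ (-(|A| + |B| + 1)) := h3
    have h5 := Twist_E_norm w 0
    have h6 : ‖VKZ.gs (fun n => vonMangoldt n) w 0‖ ≤ 4 := by
      calc ‖VKZ.gs (fun n => vonMangoldt n) w 0‖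
          = ‖(VKZ.gs (fun n => vonMangoldt n) w 0 - Twist_E w 0) + Twist_E w 0‖ := by
            rw [sub_add_cancel]
        _ ≤ _ := norm_add_le _ _
        _ ≤ 4 := by linarith
    have h7 := Twist_gs_norm w τ'
    have h8 := Twist_E_norm w τ'
    refine (norm_sub_le _ _).trans ?_
    linarith
  rw [Twist_diff hΨ hc]
  have hpt : ∀ ξ : ℝ, ‖𝓕 Ψ ξ * (VKZ.gs (fun n => vonMangoldt n) w (τ - 2 * Real.pi * ξ) -
        Twist_E w (τ - 2 * Real.pi * ξ))‖ ≤
      2 * w ^ B * (w ^ (-(|A| + |B| + 1)) + 7 * Real.exp (-w / 2)) * Twist_W ξ := by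
    intro ξ
    rw [norm_mul]
    have hW : 0 ≤ Twist_W ξ := by
      unfold Twist_W
      positivity
    have hexp : 0 < Real.exp (-w / 2) := Real.exp_pos _
    rcases le_or_gt |2 * Real.pi * ξ| (Real.exp w) with hξ | hξ
    · have h3 : |τ - 2 * Real.pi * ξ| ≤ Real.exp ((|K| + 2) * w) := by
        have h4 : Real.exp (K * w) ≤ Real.exp ((|K| + 1) * w) := by
          refine Real.exp_le_exp.2 ?_
          have := le_abs_self K
          nlinarith
        have h5 : Real.exp w ≤ Real.exp ((|K| + 1) * w) := by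
          refine Real.exp_le_exp.2 ?_
          nlinarith
        have h6 : Real.exp ((|K| + 2) * w) = Real.exp w * Real.exp ((|K| + 1) * w) := by
          rw [← Real.exp_add]
          congr 1
          ring
        have h7 : 2 ≤ Real.exp w := by
          have := Real.add_one_le_exp w
          linarith
        have h8 := Real.exp_pos ((|K| + 1) * w)
        calc |τ - 2 * Real.pi * ξ| ≤ |τ| + |2 * Real.pi * ξ| := abs_sub _ _
          _ ≤ 2 * Real.exp ((|K| + 1) * w) := by linarith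
          _ ≤ Real.exp w * Real.exp ((|K| + 1) * w) := by gcongr
          _ = _ := h6.symm
      have h4 : ‖VKZ.gs (fun n => vonMangoldt n) w (τ - 2 * Real.pi * ξ) -
        Twist_E w (τ - 2 * Real.pi * ξ)‖ ≤ w ^ (-(|A| + |B| + 1)) := h1 w _ hww1 h3
      have h5 := Twist_bound hN hΨ hc hi1 hi2 ξ
      calc ‖𝓕 Ψ ξ‖ * ‖VKZ.gs (fun n => vonMangoldt n) w (τ - 2 * Real.pi * ξ) -
            Twist_E w (τ - 2 * Real.pi * ξ)‖
          ≤ (2 * w ^ B * Twist_W ξ) * w ^ (-(|A| + |B| + 1)) := by gcongr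
        _ = 2 * w ^ B * w ^ (-(|A| + |B| + 1)) * Twist_W ξ := by ring
        _ ≤ 2 * w ^ B * (w ^ (-(|A| + |B| + 1)) + 7 * Real.exp (-w / 2)) * Twist_W ξ := by
            gcongr
            linarith
    · have h5 := Twist_far hN (Real.exp_pos w) hΨ hc hi1 hi2 ξ hξ
      have h6 : Real.exp w ^ (-(1 / 2) : ℝ) = Real.exp (-w / 2) := by
        rw [← Real.exp_mul]
        congr 1
        ring
      rw [h6] at h5
      calc ‖𝓕 Ψ ξ‖ * ‖VKZ.gs (fun n => vonMangoldt n) w (τ - 2 * Real.pi * ξ) -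
            Twist_E w (τ - 2 * Real.pi * ξ)‖
          ≤ (2 * w ^ B * (Real.exp (-w / 2) * Twist_W ξ)) * 7 := by
            gcongr
            exact hall _
        _ = 2 * w ^ B * (7 * Real.exp (-w / 2)) * Twist_W ξ := by ring
        _ ≤ 2 * w ^ B * (w ^ (-(|A| + |B| + 1)) + 7 * Real.exp (-w / 2)) * Twist_W ξ := by
            gcongr
            linarith
  refine (norm_integral_le_of_norm_le (Twist_W_int.const_mul _)
    (Filter.Eventually.of_forall hpt)).trans ?_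
  rw [integral_const_mul]
  exact h2 w hww2

end AMC
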